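import Pool.Agent.Lib.L1.Formal

/-!
# L1.Arch: coefficient bounds for `Δ^j E₄^(3(M-j))`

`‖coeff_m (Δ^j E₄^(3(M-j)))‖ ≤ exp (2 π m y) y^(-6M) exp B` for every `y ∈ (0,1]` and every upper bound
`B` of `j (-2πY + 24.2 e^(-2πY)) + 3 (M-j) log (1 + 250 e^(-2πY)) + 6 M log Y` on `√3/2 ≤ Y ≤ 1/y`.
-/

open UpperHalfPlane hiding I
open Complex ModularForm EisensteinSeries Derivative Function Filter
open scoped Real MatrixGroups Manifold Topology ArithmeticFunction.sigma Modular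

namespace Pool.Agent.L1

section Inv

/-- `|f| y^k` is invariant under `SL(2, ℤ)` (`f` of weight `2k`) -/
def NInv (k : ℕ) (f : ℍ → ℂ) : Prop :=
  ∀ (g : SL(2, ℤ)) (τ : ℍ), ‖f (g • τ)‖ * (g • τ).im ^ k = ‖f τ‖ * τ.im ^ k

lemma NInv.of_form {k : ℕ} {w : ℤ} (hw : w = ((2 * k : ℕ) : ℤ)) {F : Type*} [FunLike F ℍ ℂ]
    [SlashInvariantFormClass F 𝒮ℒ w] (f : F) : NInv k f := by
  subst hw
  intro g τ
  have h : ‖petersson ((2 * k : ℕ) : ℤ) f f (g • τ)‖ = ‖petersson ((2 * k : ℕ) : ℤ) f f τ‖ := by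
    have := SlashInvariantFormClass.norm_petersson_smul (k := ((2 * k : ℕ) : ℤ)) (f := f) (f' := f)
      (g := (g : GL (Fin 2) ℝ)) (τ := τ) (Γ := 𝒮ℒ) ⟨g, rfl⟩
    exact this
  have e : ∀ z : ℍ, ‖petersson ((2 * k : ℕ) : ℤ) f f z‖ = (‖f z‖ * z.im ^ k) ^ 2 := by
    intro z
    rw [petersson, norm_mul, norm_mul, Complex.norm_conj, zpow_natCast, norm_pow,
      Complex.norm_real, Real.norm_of_nonneg z.im_pos.le]
    ring
  rw [e, e] at h
  have p1 : 0 ≤ ‖f (g • τ)‖ * (g • τ).im ^ k :=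
    mul_nonneg (norm_nonneg _) (pow_nonneg (g • τ).im_pos.le _)
  have p2 : 0 ≤ ‖f τ‖ * τ.im ^ k := mul_nonneg (norm_nonneg _) (pow_nonneg τ.im_pos.le _)
  exact (pow_left_inj₀ p1 p2 two_ne_zero).1 h

lemma NInv.mul {k l : ℕ} {f g : ℍ → ℂ} (hf : NInv k f) (hg : NInv l g) : NInv (k + l) (f * g) := by
  intro γ τ
  simp only [Pi.mul_apply, norm_mul, pow_add]
  rw [mul_mul_mul_comm, hf γ τ, hg γ τ, mul_mul_mul_comm]

lemma NInv.pow {k : ℕ} {f : ℍ → ℂ} (hf : NInv k f) (n : ℕ) : NInv (k * n) (f ^ n) := by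
  intro γ τ
  simp only [Pi.pow_apply, norm_pow, pow_mul]
  rw [← mul_pow, hf γ τ, mul_pow]

lemma im_smul_le_max (g : SL(2, ℤ)) (τ : ℍ) : (g • τ).im ≤ max τ.im (1 / τ.im) := by
  rw [ModularGroup.im_smul_eq_div_normSq, ModularGroup.denom_apply]
  by_cases hg : g 1 0 = 0
  · have : g 1 1 ≠ 0 := fun hg' ↦ zero_ne_one <| by
      simpa only [Matrix.det_fin_two, hg, hg', mul_zero, mul_zero, sub_zero] using g.det_coe
    have : (1 : ℝ) ≤ g 1 1 ^ 2 := mod_cast (one_le_sq_iff_one_le_abs _).mpr (Int.one_le_abs this)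
    refine le_trans ?_ <| le_max_left _ _
    rw [show Complex.normSq ((g 1 0) * τ + (g 1 1)) = (g 1 1) ^ 2 by simp [hg, sq]]
    simpa [field] using inv_le_one_of_one_le₀ this
  · refine le_trans ?_ <| le_max_right _ _
    rw [show 1 / τ.im = τ.im / τ.im ^ 2 by field_simp]
    gcongr
    rw [show Complex.normSq ((g 1 0) * τ + (g 1 1)) =
      ((g 1 0) * τ.re + (g 1 1)) ^ 2 + (g 1 0) ^ 2 * τ.im ^ 2 by simp [Complex.normSq_apply]; ring]
    have : (1 : ℝ) ≤ g 1 0 ^ 2 := mod_cast (one_le_sq_iff_one_le_abs _).mpr (Int.one_le_abs hg)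
    nlinarith

/-- A bound on the fundamental domain gives a bound on the horizontal line of height `y`. -/
lemma NInv.line_bound {k : ℕ} {f : ℍ → ℂ} (hf : NInv k f) {y A : ℝ}
    (hA : ∀ z : ℍ, z ∈ 𝒟 → z.im ≤ max y (1 / y) → ‖f z‖ * z.im ^ k ≤ A) (τ : ℍ) (hτ : τ.im = y) :
    ‖f τ‖ * y ^ k ≤ A := by
  obtain ⟨g, hg⟩ := ModularGroup.exists_smul_mem_fd τ
  have h3 := hA (g • τ) hg (by rw [← hτ]; exact im_smul_le_max g τ)
  rw [hf g τ, hτ] at h3
  exact h3

/-- Cauchy's estimate on a horizontal line. -/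
lemma Nice.coeff_le {f : ℍ → ℂ} (hf : Nice f) {y A : ℝ} (hy : 0 < y)
    (hA : ∀ τ : ℍ, τ.im = y → ‖f τ‖ ≤ A) (m : ℕ) :
    ‖(qExpansion 1 f).coeff m‖ ≤ Real.exp (2 * π * m * y) * A := by
  rw [UpperHalfPlane.qExpansion_coeff_eq_intervalIntegral one_pos hf.per hf.hol hf.bdd m hy]
  rw [norm_mul, show ‖(1 / ((1 : ℝ) : ℂ) : ℂ)‖ = 1 by simp, one_mul]
  have := intervalIntegral.norm_integral_le_of_norm_le_const (a := (0 : ℝ)) (b := 1)
    (C := Real.exp (2 * π * m * y) * A)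
    (f := fun u : ℝ => 1 / Function.Periodic.qParam 1 (u + y * I) ^ m * f ⟨u + y * I, by simpa using hy⟩) (fun u _ => by
      rw [norm_mul]
      refine mul_le_mul (le_of_eq ?_) (hA _ (by simp)) (norm_nonneg _) (Real.exp_pos _).le
      rw [norm_div, norm_one, norm_pow]
      have : ‖Function.Periodic.qParam 1 ((u : ℂ) + y * I)‖ = Real.exp (-2 * π * y) := by
        simp [Periodic.qParam, Complex.norm_exp]
      rw [this, ← Real.exp_nat_mul, one_div, ← Real.exp_neg]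
      congr 1
      ring)
  simpa using this

end Inv

section Bounds

lemma norm_q (z : ℍ) : ‖Function.Periodic.qParam 1 (z : ℂ)‖ = Real.exp (-2 * π * z.im) := by
  simp [Periodic.qParam, Complex.norm_exp]

lemma sqrt3_le_of_mem_fd {z : ℍ} (hz : z ∈ 𝒟) : √3 / 2 ≤ z.im := by
  have h := ModularGroup.three_le_four_mul_im_sq_of_mem_fd hz
  have h2 : √3 ≤ 2 * z.im := Real.sqrt_le_iff.2 ⟨by linarith [z.im_pos], by nlinarith⟩
  linarith

/-- `exp (-π√3) ≤ 0.00434`. -/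
lemma exp_small {Y : ℝ} (hY : √3 / 2 ≤ Y) : Real.exp (-2 * π * Y) ≤ 0.00434 := by
  have h1 : (1.732 : ℝ) ≤ √3 := Real.le_sqrt_of_sq_le (by norm_num)
  have h2 : (3.1415 : ℝ) < π := Real.pi_gt_d4
  have h3 : 5.4410 ≤ 2 * π * Y := by nlinarith
  have h4 : Real.exp (-2 * π * Y) ≤ Real.exp (-5.4410) := Real.exp_le_exp.2 (by linarith)
  refine h4.trans ?_
  have h5 : Real.exp (-5.4410) = (Real.exp 1 ^ 5)⁻¹ * (Real.exp 0.4410)⁻¹ := by
    rw [← Real.exp_nat_mul, ← Real.exp_neg, ← Real.exp_neg, ← Real.exp_add]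
    norm_num
  have h6 : (2.7182818283 : ℝ) < Real.exp 1 := Real.exp_one_gt_d9
  have h7 : (1.5542 : ℝ) ≤ Real.exp 0.4410 := by
    have := Real.sum_le_exp_of_nonneg (x := 0.4410) (by norm_num) 6
    refine le_trans ?_ this
    simp only [Finset.sum_range_succ, Finset.sum_range_zero]
    norm_num [Nat.factorial]
  have h8 : (148.4131 : ℝ) ≤ Real.exp 1 ^ 5 := by
    have : (2.7182818283 : ℝ) ^ 5 ≤ Real.exp 1 ^ 5 := pow_le_pow_left₀ (by norm_num) h6.le 5
    refine le_trans ?_ this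
    norm_num
  rw [h5]
  have h9 : (Real.exp 1 ^ 5)⁻¹ ≤ (148.4131 : ℝ)⁻¹ := inv_anti₀ (by norm_num) h8
  have h10 : (Real.exp 0.4410)⁻¹ ≤ (1.5542 : ℝ)⁻¹ := inv_anti₀ (by norm_num) h7
  have h11 : (Real.exp 1 ^ 5)⁻¹ * (Real.exp 0.4410)⁻¹ ≤ (148.4131 : ℝ)⁻¹ * (1.5542 : ℝ)⁻¹ :=
    mul_le_mul h9 h10 (by positivity) (by norm_num)
  exact h11.trans (by norm_num)

/-- `|Δ(z)| ≤ exp (-2πY + 24.2 e^(-2πY))` on the fundamental domain. -/
lemma norm_disc_le {z : ℍ} (hY : √3 / 2 ≤ z.im) :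
    ‖discriminant z‖ ≤ Real.exp (-2 * π * z.im + 24.2 * Real.exp (-2 * π * z.im)) := by
  set r := Real.exp (-2 * π * z.im) with hr
  have hr0 : 0 < r := Real.exp_pos _
  have hr1 : r ≤ 0.00434 := exp_small hY
  rw [discriminant_eq_q_prod, norm_mul, norm_q, ← hr, Real.exp_add]
  refine mul_le_mul_of_nonneg_left ?_ hr0.le
  have hm : Multipliable fun n : ℕ => (1 - eta_q n z) ^ 24 :=
    (multipliableLocallyUniformlyOn_eta.multipliable z.2).pow 24
  have hlim := hm.hasProd.norm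
  have hlim2 := hlim.tendsto_prod_nat
  refine le_of_tendsto hlim2 (Eventually.of_forall fun N => ?_)
  have hq : ∀ n : ℕ, ‖eta_q n (z : ℂ)‖ = r ^ (n + 1) := by
    intro n
    rw [eta_q, norm_pow, norm_q, ← hr]
  calc ∏ n ∈ Finset.range N, ‖(1 - eta_q n (z : ℂ)) ^ 24‖
      ≤ ∏ n ∈ Finset.range N, Real.exp (24 * r ^ (n + 1)) := by
        refine Finset.prod_le_prod (fun _ _ => norm_nonneg _) fun n _ => ?_
        rw [norm_pow]
        have h1 : ‖1 - eta_q n (z : ℂ)‖ ≤ 1 + r ^ (n + 1) := by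
          refine (norm_sub_le _ _).trans ?_
          rw [norm_one, hq]
        have h2 : 1 + r ^ (n + 1) ≤ Real.exp (r ^ (n + 1)) := by
          linarith [Real.add_one_le_exp (r ^ (n + 1))]
        calc ‖1 - eta_q n (z : ℂ)‖ ^ 24 ≤ Real.exp (r ^ (n + 1)) ^ 24 :=
              pow_le_pow_left₀ (norm_nonneg _) (h1.trans h2) 24
          _ = Real.exp (24 * r ^ (n + 1)) := by
              rw [← Real.exp_nat_mul]; norm_num
    _ = Real.exp (∑ n ∈ Finset.range N, 24 * r ^ (n + 1)) := (Real.exp_sum _ _).symm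
    _ ≤ Real.exp (24.2 * r) := by
        refine Real.exp_le_exp.2 ?_
        rw [← Finset.mul_sum]
        have h3 : ∑ n ∈ Finset.range N, r ^ (n + 1) ≤ r / (1 - r) := by
          have : ∑ n ∈ Finset.range N, r ^ (n + 1) = r * ∑ n ∈ Finset.range N, r ^ n := by
            rw [Finset.mul_sum]
            exact Finset.sum_congr rfl fun n _ => by ring
          rw [this, div_eq_mul_inv]
          refine mul_le_mul_of_nonneg_left ?_ hr0.le
          rw [← tsum_geometric_of_lt_one hr0.le (by linarith)]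
          exact (summable_geometric_of_lt_one hr0.le (by linarith)).sum_le_tsum _
            fun n _ => pow_nonneg hr0.le n
        have h4 : r / (1 - r) ≤ (24.2 / 24) * r := by
          rw [div_le_iff₀ (by linarith)]
          nlinarith
        linarith [h3.trans h4]

/-- `|E₄(z)| ≤ 1 + 250 e^(-2πY)` on the fundamental domain. -/
lemma norm_E4_le {z : ℍ} (hY : √3 / 2 ≤ z.im) :
    ‖E₄ z‖ ≤ 1 + 250 * Real.exp (-2 * π * z.im) := by
  set r := Real.exp (-2 * π * z.im) with hr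
  have hr0 : 0 < r := Real.exp_pos _
  have hr1 : r ≤ 0.00434 := exp_small hY
  have hs := (nice_modularForm E₄).hasSum z
  rw [← map_E4z] at hs
  -- the majorant
  let b : ℕ → ℝ := fun n => if n = 0 then 1 else if n = 1 then 240 * r else if n = 2 then
    240 * (9 * r ^ 2) else 240 * (81 * r ^ 3 * (4 * r) ^ (n - 3))
  have hb : HasSum b (1 + 240 * r + 240 * (9 * r ^ 2) + 240 * (81 * r ^ 3 * (1 - 4 * r)⁻¹)) := by
    rw [← hasSum_nat_add_iff' 3]
    have e : (fun n => b (n + 3)) = fun n => 240 * (81 * r ^ 3 * (4 * r) ^ n) := by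
      funext n
      simp [b]
    rw [e]
    simp only [Finset.sum_range_succ, Finset.sum_range_zero, b]
    norm_num
    exact (((hasSum_geometric_of_lt_one (by linarith) (by linarith)).mul_left _).mul_left _)
  have hle : ∀ n : ℕ, ‖(PowerSeries.map (Int.castRingHom ℂ) E4z).coeff n • Function.Periodic.qParam 1 (z : ℂ) ^ n‖ ≤ b n := by
    intro n
    rw [smul_eq_mul, norm_mul, norm_pow, norm_q, ← hr, PowerSeries.coeff_map, coeff_E4z]
    rcases Nat.lt_or_ge n 3 with h | h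
    · interval_cases n
      · simp [b]
      · simp [b]
      · have : σ 3 2 = 9 := by decide +kernel
        simp [b, this]
        ring_nf
        exact le_rfl
    · have h0 : n ≠ 0 := by omega
      have h1 : n ≠ 1 := by omega
      have h2 : n ≠ 2 := by omega
      simp only [h0, h1, h2, if_false, b]
      have hσ : ((σ 3 n : ℕ) : ℝ) ≤ 81 * 4 ^ (n - 3) := by
        have h4 : σ 3 n ≤ n ^ 4 := ArithmeticFunction.sigma_le_pow_succ 3 n
        have h5 : ∀ k : ℕ, (k + 3) ^ 4 ≤ 81 * 4 ^ k := by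
          intro k
          induction k with
          | zero => norm_num
          | succ k ih =>
            calc (k + 1 + 3) ^ 4 ≤ 4 * (k + 3) ^ 4 := by ring_nf; nlinarith [sq_nonneg (k : ℤ)]
              _ ≤ 4 * (81 * 4 ^ k) := Nat.mul_le_mul_left 4 ih
              _ = 81 * 4 ^ (k + 1) := by ring
        have h6 := h5 (n - 3)
        rw [Nat.sub_add_cancel h] at h6
        exact_mod_cast h4.trans h6
      have hn : ‖((Int.castRingHom ℂ) (240 * ((σ 3 n : ℕ) : ℤ)) : ℂ)‖ = 240 * ((σ 3 n : ℕ) : ℝ) := by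
        simp
      rw [hn]
      have hp : r ^ n = r ^ 3 * r ^ (n - 3) := by
        rw [← pow_add]
        congr 1
        omega
      rw [hp, mul_pow]
      have := mul_le_mul_of_nonneg_right hσ (mul_nonneg (pow_nonneg hr0.le 3)
        (pow_nonneg hr0.le (n - 3)))
      nlinarith
  have h1 : ‖E₄ z‖ ≤ 1 + 240 * r + 240 * (9 * r ^ 2) + 240 * (81 * r ^ 3 * (1 - 4 * r)⁻¹) :=
    hs.norm_le_of_bounded hb hle
  refine h1.trans ?_
  have h2 : (1 - 4 * r)⁻¹ ≤ 1.02 := by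
    rw [inv_le_comm₀ (by linarith) (by norm_num)]
    norm_num
    linarith
  have h3 : 81 * r ^ 3 * (1 - 4 * r)⁻¹ ≤ 81 * r ^ 3 * 1.02 :=
    mul_le_mul_of_nonneg_left h2 (by positivity)
  have h4 : r ^ 2 ≤ 0.00434 * r := by nlinarith
  have h5 : r ^ 3 ≤ 0.00434 * (0.00434 * r) := by
    calc r ^ 3 = r * r ^ 2 := by ring
      _ ≤ 0.00434 * (0.00434 * r) := mul_le_mul hr1 h4 (by positivity) (by norm_num)
  nlinarith

end Bounds

section Main

lemma nice_disc : Nice discriminant := by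
  have h : discriminant = (1728⁻¹ : ℂ) • ((E₄ * (E₄ * E₄) : ℍ → ℂ) - (E₆ * E₆ : ℍ → ℂ)) := by
    funext z
    rw [discriminant_eq_E₄_cube_sub_E₆_sq]
    simp only [Pi.smul_apply, Pi.sub_apply, Pi.mul_apply, smul_eq_mul]
    ring
  rw [h]
  exact ((nice_modularForm E₄).mul ((nice_modularForm E₄).mul (nice_modularForm E₄))).sub
    ((nice_modularForm E₆).mul (nice_modularForm E₆)) |>.smul _

lemma nice_one : Nice (1 : ℍ → ℂ) := Nice.const 1

lemma Nice.pow {f : ℍ → ℂ} (hf : Nice f) (n : ℕ) : Nice (f ^ n) := by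
  induction n with
  | zero => simpa using nice_one
  | succ n ih => rw [pow_succ]; exact ih.mul hf

lemma Nice.qExpansion_pow {f : ℍ → ℂ} (hf : Nice f) (n : ℕ) :
    qExpansion 1 (f ^ n) = qExpansion 1 f ^ n := by
  induction n with
  | zero => simp [UpperHalfPlane.qExpansion_one]
  | succ n ih => rw [pow_succ, (hf.pow n).qExpansion_mul hf, ih, pow_succ]

/-- Coefficient bound for `Δ^j E₄^(3(M-j))`. -/
theorem arch_qExp (M j m : ℕ) (hj : j ≤ M) {y A : ℝ} (hy : 0 < y)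
    (hA : ∀ Y : ℝ, √3 / 2 ≤ Y → Y ≤ max y (1 / y) →
      Y ^ (6 * M) * Real.exp (-2 * π * Y + 24.2 * Real.exp (-2 * π * Y)) ^ j *
        (1 + 250 * Real.exp (-2 * π * Y)) ^ (3 * (M - j)) ≤ A) :
    ‖(qExpansion 1 (discriminant ^ j * (E₄ : ℍ → ℂ) ^ (3 * (M - j)))).coeff m‖ ≤
      Real.exp (2 * π * m * y) * (y ^ (6 * M))⁻¹ * A := by
  have hn : Nice (discriminant ^ j * (E₄ : ℍ → ℂ) ^ (3 * (M - j))) :=
    (nice_disc.pow j).mul ((nice_modularForm E₄).pow _)
  have hi : NInv (6 * M) (discriminant ^ j * (E₄ : ℍ → ℂ) ^ (3 * (M - j))) := by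
    have h1 : NInv 6 discriminant := NInv.of_form (w := 12) rfl CuspForm.discriminant
    have h2 : NInv 2 (E₄ : ℍ → ℂ) := NInv.of_form (w := 4) rfl E₄
    have h3 := (h1.pow j).mul (h2.pow (3 * (M - j)))
    have e : 6 * j + 2 * (3 * (M - j)) = 6 * M := by omega
    rwa [e] at h3
  have hyM : 0 < y ^ (6 * M) := pow_pos hy _
  have hline : ∀ τ : ℍ, τ.im = y →
      ‖(discriminant ^ j * (E₄ : ℍ → ℂ) ^ (3 * (M - j))) τ‖ ≤ (y ^ (6 * M))⁻¹ * A := by
    intro τ hτ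
    have := hi.line_bound (A := A) (y := y) (fun z hz hz2 => by
      have hY := sqrt3_le_of_mem_fd hz
      refine le_trans ?_ (hA z.im hY hz2)
      rw [Pi.mul_apply, Pi.pow_apply, Pi.pow_apply, norm_mul, norm_pow, norm_pow]
      have h1 := pow_le_pow_left₀ (norm_nonneg _) (norm_disc_le hY) j
      have h2 := pow_le_pow_left₀ (norm_nonneg _) (norm_E4_le hY) (3 * (M - j))
      have h3 := mul_le_mul h1 h2 (pow_nonneg (norm_nonneg _) _) (pow_nonneg (Real.exp_pos _).le _)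
      calc ‖discriminant z‖ ^ j * ‖E₄ z‖ ^ (3 * (M - j)) * z.im ^ (6 * M)
          ≤ (Real.exp (-2 * π * z.im + 24.2 * Real.exp (-2 * π * z.im)) ^ j *
            (1 + 250 * Real.exp (-2 * π * z.im)) ^ (3 * (M - j))) * z.im ^ (6 * M) :=
            mul_le_mul_of_nonneg_right h3 (pow_nonneg z.im_pos.le _)
        _ = _ := by ring) τ hτ
    rw [inv_mul_eq_div, le_div_iff₀ hyM]
    exact this
  have := hn.coeff_le hy hline m
  rwa [← mul_assoc] at this

/-- The same for formal power series over `ℚ`. -/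
theorem arch_coeff {E4q Dq' : PowerSeries ℚ}
    (h4 : PowerSeries.map (algebraMap ℚ ℂ) E4q = qExpansion 1 E₄)
    (hD : PowerSeries.map (algebraMap ℚ ℂ) Dq' = qExpansion 1 discriminant)
    (M j m : ℕ) (hj : j ≤ M) {y A : ℝ} (hy : 0 < y)
    (hA : ∀ Y : ℝ, √3 / 2 ≤ Y → Y ≤ max y (1 / y) →
      Y ^ (6 * M) * Real.exp (-2 * π * Y + 24.2 * Real.exp (-2 * π * Y)) ^ j *
        (1 + 250 * Real.exp (-2 * π * Y)) ^ (3 * (M - j)) ≤ A) :
    |((PowerSeries.coeff m (Dq' ^ j * E4q ^ (3 * (M - j))) : ℚ) : ℝ)| ≤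
      Real.exp (2 * π * m * y) * (y ^ (6 * M))⁻¹ * A := by
  have h := arch_qExp M j m hj hy hA
  have e : qExpansion 1 (discriminant ^ j * (E₄ : ℍ → ℂ) ^ (3 * (M - j))) =
      PowerSeries.map (algebraMap ℚ ℂ) (Dq' ^ j * E4q ^ (3 * (M - j))) := by
    rw [(nice_disc.pow j).qExpansion_mul ((nice_modularForm E₄).pow _), nice_disc.qExpansion_pow,
      (nice_modularForm E₄).qExpansion_pow, map_mul, map_pow, map_pow, h4, hD]
  rw [e, PowerSeries.coeff_map] at h
  have e2 : ∀ a : ℚ, ‖algebraMap ℚ ℂ a‖ = |(a : ℝ)| := by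
    intro a
    rw [eq_ratCast, show ((a : ℚ) : ℂ) = (((a : ℚ) : ℝ) : ℂ) by norm_cast, Complex.norm_real,
      Real.norm_eq_abs]
  rwa [e2] at h

end Main

end Pool.Agent.L1
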