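import Pool.Agent.Lib.L1.RowS
import Pool.Agent.Lib.MP_a3a416_nt.SJ.SDet

/-!
# L1.ArchB: the archimedean bound
PROOF. Leibniz: `|det M| ≤ T! * exp(∑ rowP + ∑ (column part))`: every term of the Leibniz formula is a product over the columns `x` of the entry
`(σ x, x)`, bounded by `K_x exp(rowP (σ x) + ..)` (`entry_le`); the unit columns have entries `≤ 1 ≤ exp(rowP N r + 6 N log(3N)...)`: careful,
`rowP N r` may be negative for small `r` (`≥ -6 N log N - 6N`): the `c0 ≤ (s+3)^2 + (s+3)`... is not assumed here, so use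
`c0 = T - card Col` from `e` and `card_col_ge`-type bound (`c0 ≤ C`; prove it from `le_dd` as in ZCol or import ZCol): total cost `O(N log N)`.
`log T! ≤ T log T = O(N log N)`; `j = 0` columns: `J` of them, `O(N log N)`; number of `F`-columns `≤ (s+1)(N+1)`: `∑_m dd (kb_m) ≤ (s+1)(N+1)`; `hgt ≥ 1`.
Constants `C (N+1)^k` per column: `O(N log N)`.  Then `sum_rowP`, `sum_colP`.
-/

set_option autoImplicit false

open MP_a3a416_nt.SJ (val sdet)

namespace Pool.Agent.L1

private theorem ArchB_sdet_le {ρ κ : Type*} [Fintype κ] [DecidableEq κ] [Fintype ρ] (e : κ ≃ ρ)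
    (M : Matrix ρ κ ℚ) (a : ρ → ℝ) (b : κ → ℝ) (h : ∀ i j, |((M i j : ℚ) : ℝ)| ≤ a i * b j) :
    |((sdet e M : ℚ) : ℝ)| ≤ (Nat.factorial (Fintype.card ρ) : ℝ) * (∏ i, a i) * ∏ j, b j := by
  have hcard : Fintype.card ρ = Fintype.card κ := (Fintype.card_congr e).symm
  have hprod : (∏ i, a i) = ∏ k, a (e k) := (Equiv.prod_comp e a).symm
  unfold sdet
  rw [Matrix.det_apply, Rat.cast_sum]
  refine le_trans (Finset.abs_sum_le_sum_abs _ _) ?_
  have hterm : ∀ σ ∈ (Finset.univ : Finset (Equiv.Perm κ)),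
      |((Equiv.Perm.sign σ • ∏ i, (M.submatrix e id) (σ i) i : ℚ) : ℝ)| ≤
        (∏ i, a i) * ∏ j, b j := by
    intro σ _
    have h1 : |((Equiv.Perm.sign σ • ∏ i, (M.submatrix e id) (σ i) i : ℚ) : ℝ)|
        = ∏ i, |(((M.submatrix e id) (σ i) i : ℚ) : ℝ)| := by
      rw [← Finset.abs_prod]
      rcases Int.units_eq_one_or (Equiv.Perm.sign σ) with hs | hs <;> rw [hs] <;> simp
    rw [h1]
    refine le_trans (Finset.prod_le_prod (fun i _ => abs_nonneg _) (fun i _ => h (e (σ i)) i)) ?_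
    rw [Finset.prod_mul_distrib, hprod]
    exact le_of_eq (congrArg (· * ∏ j, b j) (Equiv.prod_comp σ (fun k => a (e k))))
  refine le_trans (Finset.sum_le_card_nsmul _ _ _ hterm) ?_
  rw [Finset.card_univ, Fintype.card_perm, hcard, nsmul_eq_mul, mul_assoc]

private theorem ArchB_dd (s N : ℕ) (hs : Odd s) (hs7 : s ≤ 7) (hN : 2 ≤ N) (β : Bl s) :
    dd (kb s N β) = N ∨ dd (kb s N β) = N + 1 := by
  obtain ⟨t, ht⟩ := hs
  rcases β with j | i
  · simp only [kb]
    split
    · unfold dd bb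
      right
      have h1 : Even (12 * N) := ⟨6 * N, by ring⟩
      rw [if_pos ⟨h1, by split <;> omega⟩]
      split <;> omega
    · unfold dd bb
      left
      have h1 : Even (12 * N - 2) := ⟨6 * N - 1, by omega⟩
      rw [if_pos ⟨h1, by split <;> omega⟩]
      split <;> omega
  · simp only [kb]
    have hi := i.2
    have h1 : Even (12 * N + s - 1 - 2 * (i : ℕ)) := ⟨6 * N + t - i, by omega⟩
    unfold dd bb
    rw [if_pos ⟨h1, by split <;> omega⟩]
    split <;> omega

private theorem ArchB_card (s N : ℕ) (hs : Odd s) (hs7 : s ≤ 7) (hN : 2 ≤ N) :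
    (s + 3) * N ≤ Fintype.card (Col s N) ∧ Fintype.card (Col s N) ≤ (s + 3) * (N + 1) := by
  have hc : Fintype.card (Col s N) = ∑ β : Bl s, dd (kb s N β) := by
    rw [Fintype.card_sigma]
    exact Finset.sum_congr rfl fun β _ => Fintype.card_fin _
  have hb : Fintype.card (Bl s) = s + 3 := by
    simp only [Bl, Fintype.card_sum, Fintype.card_fin]
    omega
  rw [hc]
  constructor
  · have h := Finset.card_nsmul_le_sum (Finset.univ : Finset (Bl s)) (fun β => dd (kb s N β)) N
      (fun β _ => by rcases ArchB_dd s N hs hs7 hN β with h | h <;> omega)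
    rw [Finset.card_univ, hb, smul_eq_mul] at h
    exact h
  · have h := Finset.sum_le_card_nsmul (Finset.univ : Finset (Bl s)) (fun β => dd (kb s N β)) (N + 1)
      (fun β _ => by rcases ArchB_dd s N hs hs7 hN β with h | h <;> omega)
    rw [Finset.card_univ, hb, smul_eq_mul] at h
    exact h

private theorem ArchB_zero (s N : ℕ) (D : ℝ) (hD : 0 ≤ D) :
    ∑ c : Col s N, (if (c.2 : ℕ) = 0 then D else 0) ≤ ((s : ℝ) + 3) * D := by
  rw [Fintype.sum_sigma]
  have h1 : ∀ β : Bl s, ∑ j : Fin (dd (kb s N β)), (if (j : ℕ) = 0 then D else 0) ≤ D := by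
    intro β
    rw [Fin.sum_univ_eq_sum_range (fun j => if j = 0 then D else 0) (dd (kb s N β)),
      Finset.sum_ite_eq']
    split
    · exact le_rfl
    · exact hD
  refine (Finset.sum_le_sum fun β _ => h1 β).trans ?_
  rw [Finset.sum_const, Finset.card_univ, nsmul_eq_mul]
  have h3 : ((Fintype.card (Bl s) : ℕ) : ℝ) = (s : ℝ) + 3 := by
    simp only [Bl, Fintype.card_sum, Fintype.card_fin]
    push_cast
    ring
  rw [h3]

private theorem ArchB_hgt (s N : ℕ) (hs : Odd s) (hs7 : s ≤ 7) (hN : 2 ≤ N) (a b : ℤ) :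
    ∑ c : Col s N, Real.log (hgt s N a b c) ≤
      ((s : ℝ) + 1) * (N + 1) * Real.log (|(a : ℝ)| + |(b : ℝ)| + 1) := by
  have hL : 0 ≤ Real.log (|(a : ℝ)| + |(b : ℝ)| + 1) :=
    Real.log_nonneg (by linarith [abs_nonneg (a : ℝ), abs_nonneg (b : ℝ)])
  rw [Fintype.sum_sigma, Fintype.sum_sum_type]
  have h0 : ∑ a₁ : Fin 2, ∑ y : Fin (dd (kb s N (.inl a₁))),
      Real.log (hgt s N a b ⟨.inl a₁, y⟩) = 0 := by
    refine Finset.sum_eq_zero fun a _ => Finset.sum_eq_zero fun y _ => ?_
    exact Real.log_one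
  rw [h0, zero_add]
  have h1 : ∀ m : Fin (s + 1), ∑ y : Fin (dd (kb s N (.inr m))),
      Real.log (hgt s N a b ⟨.inr m, y⟩) ≤ ((N : ℝ) + 1) * Real.log (|(a : ℝ)| + |(b : ℝ)| + 1) := by
    intro m
    have h2 : ∑ y : Fin (dd (kb s N (.inr m))), Real.log (hgt s N a b ⟨.inr m, y⟩) =
        (dd (kb s N (.inr m)) : ℝ) * Real.log (|(a : ℝ)| + |(b : ℝ)| + 1) := by
      have : ∀ y : Fin (dd (kb s N (.inr m))), Real.log (hgt s N a b ⟨.inr m, y⟩) =
          Real.log (|(a : ℝ)| + |(b : ℝ)| + 1) := fun _ => rfl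
      rw [Finset.sum_congr rfl fun y _ => this y, Finset.sum_const, Finset.card_univ,
        Fintype.card_fin, nsmul_eq_mul]
    rw [h2]
    refine mul_le_mul_of_nonneg_right ?_ hL
    have h3 : dd (kb s N (.inr m)) ≤ N + 1 := by
      rcases ArchB_dd s N hs hs7 hN (.inr m) with h | h <;> omega
    exact_mod_cast h3
  refine (Finset.sum_le_sum fun m _ => h1 m).trans ?_
  rw [Finset.sum_const, Finset.card_univ, Fintype.card_fin, nsmul_eq_mul]
  push_cast
  linarith

private theorem ArchB_hgt_pos (s N : ℕ) (a b : ℤ) (c : Col s N) : 0 < hgt s N a b c := by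
  obtain ⟨β, j⟩ := c
  rcases β with i | m
  · show (0 : ℝ) < 1
    norm_num
  · show (0 : ℝ) < |(a : ℝ)| + |(b : ℝ)| + 1
    linarith [abs_nonneg (a : ℝ), abs_nonneg (b : ℝ)]

private theorem ArchB_rowP (N r : ℕ) (hN : 2 ≤ N) : -(6 * N * Real.log N) ≤ rowP N r := by
  have hN0 : (0 : ℝ) < N := by
    have : 0 < N := by omega
    exact_mod_cast this
  have hpi := Real.pi_gt_three
  have h1 : (1 : ℝ) ≤ ((max r 1 : ℕ) : ℝ) := by
    have : 1 ≤ max r 1 := le_max_right _ _
    exact_mod_cast this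
  have h2 : (N : ℝ)⁻¹ ≤ Real.pi * ((max r 1 : ℕ) : ℝ) / (3 * N) := by
    rw [inv_eq_one_div, div_le_div_iff₀ hN0 (by positivity)]
    have h4 : 3 ≤ Real.pi * ((max r 1 : ℕ) : ℝ) := by nlinarith
    have h5 := mul_le_mul_of_nonneg_right h4 hN0.le
    linarith
  have h3 := Real.log_le_log (by positivity) h2
  rw [Real.log_inv] at h3
  unfold rowP
  nlinarith

theorem arch_bound (s : ℕ) (hs : Odd s) (hs3 : 3 ≤ s) (hs7 : s ≤ 7) : ∃ C : ℝ, ∀ N : ℕ, 2 ≤ N → ∀ (a b : ℤ) (c0 : ℕ)
    (rr : Fin c0 → Fin (TT s N)) (e : Col s N ⊕ Fin c0 ≃ Fin (TT s N)), sdet e (VV s N a b rr) ≠ 0 →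
    Real.log |((sdet e (VV s N a b rr) : ℚ) : ℝ)| ≤ archC s * (N : ℝ) ^ 2 + C * N * Real.log N +
      (s + 1) * (N + 1) * Real.log (|(a : ℝ)| + |(b : ℝ)| + 1) := by
  obtain ⟨C, k, hC, hE⟩ := entry_le s hs hs3 hs7
  obtain ⟨C1, hR⟩ := sum_rowP s hs7
  obtain ⟨C2, hK⟩ := sum_colP s hs hs7
  refine ⟨420 + C1 + C2 + 20 * (2 * Real.log (C + 1) + 2 * k) + ((s : ℝ) + 3) * C + 600, ?_⟩
  intro N hN a b c0 rr e hne
  have hN2 : (2 : ℝ) ≤ N := by exact_mod_cast hN
  have hlog : 1 / 2 ≤ Real.log N := by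
    have h1 : Real.log 2 ≤ Real.log N := Real.log_le_log (by norm_num) hN2
    have h2 := Real.log_two_gt_d9
    linarith
  have hN0 : (0 : ℝ) < N := by linarith
  obtain ⟨hcg, hcl⟩ := ArchB_card s N hs hs7 hN
  have hcard : Fintype.card (Col s N) + c0 = TT s N := by
    have := Fintype.card_congr e
    rwa [Fintype.card_sum, Fintype.card_fin, Fintype.card_fin] at this
  have hTdef : TT s N = (s + 3) * N + (s + 3) ^ 2 := rfl
  have hc0 : c0 ≤ 100 := by
    have h1 : (s + 3) ^ 2 ≤ 100 := by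
      have h2 : s + 3 ≤ 10 := by omega
      nlinarith
    omega
  have hcol : Fintype.card (Col s N) ≤ 20 * N := by
    refine hcl.trans ?_
    have h2 : s + 3 ≤ 10 := by omega
    nlinarith
  have hT60 : TT s N ≤ 60 * N := by
    rw [hTdef]
    have h2 : s + 3 ≤ 10 := by omega
    nlinarith
  -- the column weights
  obtain ⟨w, hw⟩ : ∃ w : Col s N ⊕ Fin c0 → ℝ, w = Sum.elim
      (fun c => (C + 1) * (N + 1 : ℝ) ^ k * hgt s N a b c *
        Real.exp (colP N c.2 + (if (c.2 : ℕ) = 0 then C * N * Real.log N else 0)))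
      (fun _ => Real.exp (6 * N * Real.log N)) := ⟨_, rfl⟩
  have hent : ∀ (r : Fin (TT s N)) (x : Col s N ⊕ Fin c0),
      |((VV s N a b rr r x : ℚ) : ℝ)| ≤ Real.exp (rowP N r) * w x := by
    intro r x
    rcases x with c | i
    · have h1 := hE N hN a b c r r.2
      rw [hw]
      simp only [Sum.elim_inl]
      refine (show |((VV s N a b rr r (.inl c) : ℚ) : ℝ)| ≤ _ from h1).trans ?_
      rw [add_assoc, Real.exp_add]
      have hg := ArchB_hgt_pos s N a b c
      have h2 : C * (N + 1 : ℝ) ^ k * hgt s N a b c ≤ (C + 1) * (N + 1 : ℝ) ^ k * hgt s N a b c := by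
        have : 0 ≤ (N + 1 : ℝ) ^ k * hgt s N a b c := by positivity
        nlinarith
      have h3 : 0 ≤ Real.exp (rowP N r) *
          Real.exp (colP N c.2 + (if (c.2 : ℕ) = 0 then C * N * Real.log N else 0)) := by positivity
      calc C * (N + 1 : ℝ) ^ k * hgt s N a b c * (Real.exp (rowP N r) *
          Real.exp (colP N c.2 + (if (c.2 : ℕ) = 0 then C * N * Real.log N else 0)))
          ≤ (C + 1) * (N + 1 : ℝ) ^ k * hgt s N a b c * (Real.exp (rowP N r) *
          Real.exp (colP N c.2 + (if (c.2 : ℕ) = 0 then C * N * Real.log N else 0))) :=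
            mul_le_mul_of_nonneg_right h2 h3
        _ = _ := by ring
    · rw [hw]
      simp only [Sum.elim_inr]
      rw [← Real.exp_add]
      have h1 : |((VV s N a b rr r (.inr i) : ℚ) : ℝ)| ≤ 1 := by
        show |(((if r = rr i then (1 : ℚ) else 0) : ℚ) : ℝ)| ≤ 1
        split <;> simp
      refine h1.trans ?_
      have h2 := ArchB_rowP N r hN
      exact Real.one_le_exp (by linarith)
  have hmain := ArchB_sdet_le e (VV s N a b rr) (fun r => Real.exp (rowP N r)) w hent
  have hpos : 0 < |((sdet e (VV s N a b rr) : ℚ) : ℝ)| := by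
    rw [abs_pos]
    exact_mod_cast hne
  have hwpos : ∀ x, 0 < w x := by
    intro x
    rw [hw]
    rcases x with c | i
    · simp only [Sum.elim_inl]
      have hg := ArchB_hgt_pos s N a b c
      positivity
    · simp only [Sum.elim_inr]
      positivity
  have hlogle := Real.log_le_log hpos hmain
  rw [Fintype.card_fin] at hlogle
  have hf : (0 : ℝ) < ((TT s N).factorial : ℝ) := by exact_mod_cast (TT s N).factorial_pos
  have hp1 : 0 < ∏ r : Fin (TT s N), Real.exp (rowP N r) := Finset.prod_pos fun _ _ => Real.exp_pos _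
  have hp2 : 0 < ∏ x, w x := Finset.prod_pos fun x _ => hwpos x
  rw [Real.log_mul (by positivity) hp2.ne', Real.log_mul hf.ne' hp1.ne',
    Real.log_prod fun r _ => (Real.exp_pos _).ne', Real.log_prod fun x _ => (hwpos x).ne'] at hlogle
  -- rows
  have hrow : ∑ r : Fin (TT s N), Real.log (Real.exp (rowP N r)) ≤
      6 * ((s : ℝ) + 3) * Real.log (Real.pi * ((s : ℝ) + 3) / 3) * (N : ℝ) ^ 2 +
      C1 * N * Real.log N := by
    rw [Finset.sum_congr rfl fun r _ => Real.log_exp _]
    exact hR N hN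
  -- factorial
  have hfac : Real.log ((TT s N).factorial : ℝ) ≤ 420 * (N * Real.log N) := by
    have h1 : ((TT s N).factorial : ℝ) ≤ ((TT s N : ℕ) : ℝ) ^ (TT s N) := by
      exact_mod_cast Nat.factorial_le_pow (TT s N)
    have h2 := Real.log_le_log hf h1
    rw [Real.log_pow] at h2
    have hT0 : (0 : ℝ) < ((TT s N : ℕ) : ℝ) := by
      have : 0 < TT s N := by
        rw [hTdef]
        positivity
      exact_mod_cast this
    have hT60' : ((TT s N : ℕ) : ℝ) ≤ 60 * N := by exact_mod_cast hT60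
    have h3 : Real.log ((TT s N : ℕ) : ℝ) ≤ 7 * Real.log N := by
      have h4 := Real.log_le_log hT0 hT60'
      rw [Real.log_mul (by norm_num) hN0.ne'] at h4
      have h5 : Real.log 60 ≤ 6 * Real.log N := by
        have h6 : Real.log 60 ≤ Real.log (2 ^ 6) := Real.log_le_log (by norm_num) (by norm_num)
        rw [Real.log_pow] at h6
        have h7 : Real.log 2 ≤ Real.log N := Real.log_le_log (by norm_num) hN2
        push_cast at h6
        linarith
      linarith
    have h4 : ((TT s N : ℕ) : ℝ) * Real.log ((TT s N : ℕ) : ℝ) ≤ (60 * N) * (7 * Real.log N) :=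
      mul_le_mul hT60' h3 (Real.log_nonneg (by
        have : 1 ≤ TT s N := by
          rw [hTdef]
          have : 0 < (s + 3) ^ 2 := by positivity
          omega
        exact_mod_cast this)) (by positivity)
    linarith
  -- columns
  have hC1pos : 0 < C + 1 := by linarith
  have hlC : 0 ≤ Real.log (C + 1) := Real.log_nonneg (by linarith)
  have hl1 : Real.log ((N : ℝ) + 1) ≤ 2 * Real.log N := by
    have h1 : Real.log ((N : ℝ) + 1) ≤ Real.log ((N : ℝ) ^ 2) :=
      Real.log_le_log (by positivity) (by nlinarith)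
    rw [Real.log_pow] at h1
    push_cast at h1
    exact h1
  have hsumw : ∑ x, Real.log (w x) ≤
      20 * (2 * Real.log (C + 1) + 2 * k) * (N * Real.log N) +
      ((s : ℝ) + 1) * (N + 1) * Real.log (|(a : ℝ)| + |(b : ℝ)| + 1) +
      (((s : ℝ) + 3) * (6 * Real.log (3 / Real.pi) + 1) * (N : ℝ) ^ 2 + C2 * N * Real.log N) +
      ((s : ℝ) + 3) * (C * N * Real.log N) + 600 * (N * Real.log N) := by
    rw [Fintype.sum_sum_type]
    have h1 : ∀ c : Col s N, Real.log (w (.inl c)) =
        (Real.log (C + 1) + k * Real.log ((N : ℝ) + 1)) + Real.log (hgt s N a b c) + colP N c.2 +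
          (if (c.2 : ℕ) = 0 then C * N * Real.log N else 0) := by
      intro c
      rw [hw]
      simp only [Sum.elim_inl]
      have hg := ArchB_hgt_pos s N a b c
      have hN1 : (0 : ℝ) < (N + 1 : ℝ) ^ k := by positivity
      rw [Real.log_mul (by positivity) (Real.exp_pos _).ne', Real.log_exp,
        Real.log_mul (by positivity) hg.ne', Real.log_mul hC1pos.ne' hN1.ne', Real.log_pow]
      ring
    have h2 : ∀ i : Fin c0, Real.log (w (.inr i)) = 6 * N * Real.log N := by
      intro i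
      rw [hw]
      simp only [Sum.elim_inr]
      exact Real.log_exp _
    rw [Finset.sum_congr rfl fun c _ => h1 c, Finset.sum_congr rfl fun i _ => h2 i,
      Finset.sum_add_distrib, Finset.sum_add_distrib, Finset.sum_add_distrib, Finset.sum_const,
      Finset.sum_const, Finset.card_univ, Finset.card_univ, Fintype.card_fin, nsmul_eq_mul,
      nsmul_eq_mul]
    have h3 := ArchB_hgt s N hs hs7 hN a b
    have h4 := hK N hN
    have h5 := ArchB_zero s N (C * N * Real.log N) (by
      have : 0 ≤ Real.log N := by linarith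
      positivity)
    have h6 : ((Fintype.card (Col s N) : ℕ) : ℝ) * (Real.log (C + 1) + k * Real.log ((N : ℝ) + 1)) ≤
        20 * (2 * Real.log (C + 1) + 2 * k) * (N * Real.log N) := by
      have h7 : ((Fintype.card (Col s N) : ℕ) : ℝ) ≤ 20 * N := by exact_mod_cast hcol
      have h8 : Real.log (C + 1) + k * Real.log ((N : ℝ) + 1) ≤
          (2 * Real.log (C + 1) + 2 * k) * Real.log N := by
        have h9 : Real.log (C + 1) * 1 ≤ Real.log (C + 1) * (2 * Real.log N) :=
          mul_le_mul_of_nonneg_left (by linarith) hlC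
        have h10 : (k : ℝ) * Real.log ((N : ℝ) + 1) ≤ k * (2 * Real.log N) :=
          mul_le_mul_of_nonneg_left hl1 (Nat.cast_nonneg k)
        linarith
      have h9 : 0 ≤ Real.log (C + 1) + k * Real.log ((N : ℝ) + 1) := by
        have : 0 ≤ Real.log ((N : ℝ) + 1) := Real.log_nonneg (by linarith)
        positivity
      have h10 := mul_le_mul h7 h8 h9 (by positivity)
      linarith
    have h7 : (c0 : ℝ) * (6 * N * Real.log N) ≤ 600 * (N * Real.log N) := by
      have h8 : (c0 : ℝ) ≤ 100 := by exact_mod_cast hc0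
      have h9 : 0 ≤ (N : ℝ) * Real.log N := by
        have : 0 ≤ Real.log N := by linarith
        positivity
      nlinarith
    linarith
  unfold archC
  have hfin := hlogle.trans (add_le_add (add_le_add hfac hrow) hsumw)
  refine hfin.trans (le_of_eq ?_)
  ring

end Pool.Agent.L1
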