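import Pool.Agent.Lib.L1.PolB

/-!
# L1.Cnt: counting the columns of large pole order
PROOF. `∑_c max 0 (polO (tmax c) - θ) = ∑_{h = θ+1}^{s} #{c = (inr m, l) : s - tmax c ≥ h} = ∑_{j=1}^{s-θ} #{c : tmax c < j}` (`j = s - h + 1`;
`0 ≤ tmax ≤ s`). `#{c : tmax c < j} = n_e - #{c : tmax c ≥ j}`, `n_e = ∑_{m ≤ s} dd (kb_m)`. By `le_tmax` all `(inr m, l)` with `j ≤ m`,
`j (p-1) ≤ kb_m`, `l < dd (kb_m - j (p-1))` have `tmax ≥ j` (note `dd (k - j(p-1)) ≤ dd k`: `p - 1` is even and `≥ 4`; omega with the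
definition of `dd`, `bb`), so `12 #{tmax ≥ j} ≥ ∑_{m=j}^{s} (kb_m - j(p-1) - 2)` (`le_dd`; if `kb_m < j(p-1)` the term is negative).
`12 n_e ≤ ∑_m (kb_m + 12)` (`dd_le`). So `12 #{tmax < j} ≤ ∑_{m<j} kb_m + 12 (s+1) + ∑_{m=j}^{s} (j (p-1) + 2)
≤ 12 j N + (s+1-j) j p + (j (s-1) + 14 (s+1))`, and the sum over `j ≤ s ≤ 7` of the last bracket is at most 2000.
-/

set_option autoImplicit false

open PowerSeries

namespace Pool.Agent.L1

private lemma Cnt_mono {k D : ℕ} (hD : Even D) (h4 : 4 ≤ D) (hDk : D ≤ k) : dd (k - D) ≤ dd k := by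
  unfold dd bb
  rw [Nat.even_iff] at hD
  simp only [Nat.even_iff]
  split_ifs <;> omega

open Classical in
private lemma Cnt_tmax_le (p s N : ℕ) (c : Col s N) : tmax p s N c ≤ s := Nat.findGreatest_le s

/-- the number of columns of the block `m` with `tmax < j` -/
private lemma Cnt_fib (p s N j : ℕ) (hp5 : 5 ≤ p) (hpo : Odd p) (hs : Odd s) (hs7 : s ≤ 7)
    (hN : 2 ≤ N) (hj : 1 ≤ j) (hjs : j ≤ s) (m : Fin (s + 1)) :
    12 * (((Finset.univ.filter
      (fun l : Fin (dd (kb s N (.inr m))) => tmax p s N ⟨.inr m, l⟩ < j)).card : ℕ) : ℤ) ≤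
      if (m : ℕ) < j then 12 * (N : ℤ) + s + 11 else (j : ℤ) * (p - 1) + 14 := by
  have hm := m.2
  have hk : kb s N (.inr m) = 12 * N + s - 1 - 2 * (m : ℕ) := rfl
  have hke : Even (kb s N (.inr m)) := by
    rw [hk]
    obtain ⟨r, hr⟩ := hs
    rw [Nat.even_iff]
    omega
  have hle := dd_le (kb s N (.inr m))
  have hcard : (Finset.univ.filter
      (fun l : Fin (dd (kb s N (.inr m))) => tmax p s N ⟨.inr m, l⟩ < j)).card ≤
      dd (kb s N (.inr m)) := by
    refine (Finset.card_filter_le _ _).trans ?_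
    simp
  split_ifs with hmj
  · have h1 := hcard.trans hle
    omega
  · push Not at hmj
    by_cases hjk : j * (p - 1) ≤ kb s N (.inr m)
    · have hpe : Even (j * (p - 1)) := by
        obtain ⟨r, hr⟩ := hpo
        have : Even (p - 1) := ⟨r, by omega⟩
        exact this.mul_left j
      have h4 : 4 ≤ j * (p - 1) := by
        calc 4 ≤ 1 * (p - 1) := by omega
          _ ≤ j * (p - 1) := Nat.mul_le_mul_right _ hj
      have hmono := Cnt_mono hpe h4 hjk
      have hke2 : Even (kb s N (.inr m) - j * (p - 1)) := by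
        rw [Nat.even_iff] at *
        omega
      have hge := le_dd hke2
      have hc2 : (Finset.univ.filter
          (fun l : Fin (dd (kb s N (.inr m))) => tmax p s N ⟨.inr m, l⟩ < j)).card ≤
          (Finset.Ico (dd (kb s N (.inr m) - j * (p - 1))) (dd (kb s N (.inr m)))).card := by
        refine Finset.card_le_card_of_injOn (fun l => (l : ℕ)) ?_ ?_
        · intro l hl
          have hl' := (Finset.mem_filter.1 hl).2
          refine Finset.mem_coe.2 (Finset.mem_Ico.2 ⟨?_, l.2⟩)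
          by_contra hcon
          push Not at hcon
          exact absurd (le_tmax p s N ⟨.inr m, l⟩ hjs ⟨hmj, hjk, hcon⟩) (by omega)
        · intro a _ b _ hab
          exact Fin.ext hab
      rw [Nat.card_Ico] at hc2
      have hfin : 12 * (Finset.univ.filter
          (fun l : Fin (dd (kb s N (.inr m))) => tmax p s N ⟨.inr m, l⟩ < j)).card ≤
          j * (p - 1) + 14 := by
        omega
      have hcast : ((j * (p - 1) + 14 : ℕ) : ℤ) = (j : ℤ) * (p - 1) + 14 := by
        push_cast [Nat.cast_sub (show 1 ≤ p by omega)]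
        ring
      rw [← hcast]
      exact_mod_cast hfin
    · push Not at hjk
      have hfin : 12 * (Finset.univ.filter
          (fun l : Fin (dd (kb s N (.inr m))) => tmax p s N ⟨.inr m, l⟩ < j)).card ≤
          j * (p - 1) + 14 := by
        omega
      have hcast : ((j * (p - 1) + 14 : ℕ) : ℤ) = (j : ℤ) * (p - 1) + 14 := by
        push_cast [Nat.cast_sub (show 1 ≤ p by omega)]
        ring
      rw [← hcast]
      exact_mod_cast hfin

/-- the number of all columns `inr` with `tmax < j` -/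
private lemma Cnt_j (p s N j : ℕ) (hp5 : 5 ≤ p) (hpo : Odd p) (hs : Odd s) (hs7 : s ≤ 7)
    (hN : 2 ≤ N) (hj : 1 ≤ j) (hjs : j ≤ s) :
    ∑ m : Fin (s + 1), 12 * (((Finset.univ.filter
      (fun l : Fin (dd (kb s N (.inr m))) => tmax p s N ⟨.inr m, l⟩ < j)).card : ℕ) : ℤ) ≤
      12 * (j : ℤ) * N + ((s : ℤ) + 1 - j) * j * p + 250 := by
  refine (Finset.sum_le_sum fun m _ => Cnt_fib p s N j hp5 hpo hs hs7 hN hj hjs m).trans ?_
  rw [Fin.sum_univ_eq_sum_range (fun m => if m < j then 12 * (N : ℤ) + s + 11 else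
    (j : ℤ) * (p - 1) + 14) (s + 1), Finset.sum_ite, Finset.sum_const, Finset.sum_const]
  have h1 : ((Finset.range (s + 1)).filter (fun m => m < j)).card = j := by
    have : (Finset.range (s + 1)).filter (fun m => m < j) = Finset.range j := by
      ext m
      simp only [Finset.mem_filter, Finset.mem_range]
      omega
    rw [this, Finset.card_range]
  have h2 : ((Finset.range (s + 1)).filter (fun m => ¬ m < j)).card = s + 1 - j := by
    have : (Finset.range (s + 1)).filter (fun m => ¬ m < j) = Finset.Ico j (s + 1) := by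
      ext m
      simp only [Finset.mem_filter, Finset.mem_range, Finset.mem_Ico]
      omega
    rw [this, Nat.card_Ico]
  rw [h1, h2, nsmul_eq_mul, nsmul_eq_mul, Nat.cast_sub (by omega : j ≤ s + 1)]
  push_cast
  have hb : (j : ℤ) * (s + 11) + ((s : ℤ) + 1 - j) * (14 - j) ≤ 250 := by
    have hs0 : s ≤ 7 := hs7
    interval_cases s <;> interval_cases j <;> norm_num
  nlinarith [hb]

theorem cnt (p s N : ℕ) (hp : p.Prime) (hp5 : 5 ≤ p) (hs : Odd s) (hs7 : s ≤ 7) (hN : 2 ≤ N) (θ : ℕ) (hθ : θ ≤ s) :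
    12 * ∑ c, max 0 (polO s N (tmax p s N c) c - θ) ≤
      ∑ j ∈ Finset.Icc 1 (s - θ), (12 * (j : ℤ) * N + ((s : ℤ) + 1 - j) * j * p) + 2000 := by
  have hpo : Odd p := hp.odd_of_ne_two (by omega)
  have key : ∀ t : ℕ, t ≤ s → max 0 ((s : ℤ) - t - θ) =
      ∑ j ∈ Finset.Icc 1 (s - θ), if t < j then (1 : ℤ) else 0 := by
    intro t ht
    rw [Finset.sum_boole]
    have : (Finset.Icc 1 (s - θ)).filter (fun j => t < j) = Finset.Icc (t + 1) (s - θ) := by
      ext j
      simp only [Finset.mem_filter, Finset.mem_Icc]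
      omega
    rw [this, Nat.card_Icc]
    omega
  have hsum : ∑ c, max 0 (polO s N (tmax p s N c) c - θ) =
      ∑ m : Fin (s + 1), ∑ l : Fin (dd (kb s N (.inr m))),
        ∑ j ∈ Finset.Icc 1 (s - θ), if tmax p s N ⟨.inr m, l⟩ < j then (1 : ℤ) else 0 := by
    rw [Fintype.sum_sigma, Fintype.sum_sum_type]
    have h0 : ∑ a₁ : Fin 2, ∑ y : Fin (dd (kb s N (.inl a₁))),
        max 0 (polO s N (tmax p s N ⟨.inl a₁, y⟩) ⟨.inl a₁, y⟩ - (θ : ℤ)) = 0 := by
      refine Finset.sum_eq_zero fun a _ => Finset.sum_eq_zero fun y _ => ?_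
      show max 0 ((0 : ℤ) - θ) = 0
      exact max_eq_left (by omega)
    rw [h0, zero_add]
    refine Finset.sum_congr rfl fun m _ => Finset.sum_congr rfl fun l _ => ?_
    exact key _ (Cnt_tmax_le p s N _)
  rw [hsum]
  have hswap : ∑ m : Fin (s + 1), ∑ l : Fin (dd (kb s N (.inr m))),
        ∑ j ∈ Finset.Icc 1 (s - θ), (if tmax p s N ⟨.inr m, l⟩ < j then (1 : ℤ) else 0) =
      ∑ j ∈ Finset.Icc 1 (s - θ), ∑ m : Fin (s + 1), (((Finset.univ.filter
      (fun l : Fin (dd (kb s N (.inr m))) => tmax p s N ⟨.inr m, l⟩ < j)).card : ℕ) : ℤ) := by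
    rw [Finset.sum_comm (s := Finset.Icc 1 (s - θ))]
    refine Finset.sum_congr rfl fun m _ => ?_
    rw [Finset.sum_comm]
    refine Finset.sum_congr rfl fun j _ => ?_
    rw [Finset.sum_boole]
  rw [hswap, Finset.mul_sum]
  have h1 : ∀ j ∈ Finset.Icc 1 (s - θ), 12 * ∑ m : Fin (s + 1), (((Finset.univ.filter
      (fun l : Fin (dd (kb s N (.inr m))) => tmax p s N ⟨.inr m, l⟩ < j)).card : ℕ) : ℤ) ≤
      (12 * (j : ℤ) * N + ((s : ℤ) + 1 - j) * j * p) + 250 := by
    intro j hj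
    have hj' := Finset.mem_Icc.1 hj
    rw [Finset.mul_sum]
    exact Cnt_j p s N j hp5 hpo hs hs7 hN hj'.1 (by omega)
  refine (Finset.sum_le_sum h1).trans ?_
  rw [Finset.sum_add_distrib, Finset.sum_const, Nat.card_Icc, nsmul_eq_mul]
  have h2 : ((s - θ + 1 - 1 : ℕ) : ℤ) * 250 ≤ 2000 := by
    have : s - θ + 1 - 1 ≤ 7 := by omega
    have h3 : ((s - θ + 1 - 1 : ℕ) : ℤ) ≤ 7 := by exact_mod_cast this
    linarith
  linarith

end Pool.Agent.L1
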