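import Pool.Agent.Lib.L1.XRec

/-!
# L1.XForm: modulo a flat prime all columns are forms of weight `K + p - 1`
-/

set_option linter.unusedSectionVars false
set_option linter.unusedVariables false

open PowerSeries
open MP_a3a416_nt.SJ (val)

namespace Pool.Agent.L1

variable {p : ℕ} [hp : Fact p.Prime]

section lin

lemma xf_coeff_Dq_iter (y : ℚ⟦X⟧) (l n : ℕ) : coeff n (Dq^[l] y) = (n : ℚ) ^ l * coeff n y := by
  induction l with
  | zero => simp
  | succ l ih => rw [Function.iterate_succ_apply', coeff_Dq, ih]; ring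

lemma coeff_YA (s l n : ℕ) (y : ℚ⟦X⟧) :
    coeff n (YA s y l) = (12 : ℚ) ^ l * ((s - l).factorial : ℚ) * ((n : ℚ) ^ l * coeff n y) := by
  rw [YA, coeff_C_mul, xf_coeff_Dq_iter]

lemma YA_add (s l : ℕ) (y z : ℚ⟦X⟧) : YA s (y + z) l = YA s y l + YA s z l := by
  ext n; rw [map_add, coeff_YA, coeff_YA, coeff_YA, map_add]; ring

lemma YA_sub (s l : ℕ) (y z : ℚ⟦X⟧) : YA s (y - z) l = YA s y l - YA s z l := by
  ext n; rw [map_sub, coeff_YA, coeff_YA, coeff_YA, map_sub]; ring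

lemma YA_smul (s l : ℕ) (c : ℚ) (y : ℚ⟦X⟧) : YA s (c • y) l = c • YA s y l := by
  ext n; rw [map_smul, coeff_YA, coeff_YA, map_smul, smul_eq_mul, smul_eq_mul]; ring

lemma XA_add (s i : ℕ) (y z : ℚ⟦X⟧) : XA s (y + z) i = XA s y i + XA s z i := by
  rw [XA, XA, XA, ← Finset.sum_add_distrib]
  exact Finset.sum_congr rfl fun l _ => by rw [YA_add, mul_add]

lemma XA_sub (s i : ℕ) (y z : ℚ⟦X⟧) : XA s (y - z) i = XA s y i - XA s z i := by
  rw [XA, XA, XA, ← Finset.sum_sub_distrib]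
  exact Finset.sum_congr rfl fun l _ => by rw [YA_sub, mul_sub]

lemma XA_smul (s i : ℕ) (c : ℚ) (y : ℚ⟦X⟧) : XA s (c • y) i = c • XA s y i := by
  rw [XA, XA, Finset.smul_sum]
  exact Finset.sum_congr rfl fun l _ => by rw [YA_smul, mul_smul_comm]

/-- `coeff n (XA s y i)` depends only on the coefficients of `y` up to `n` -/
lemma coeff_XA_congr {s i n : ℕ} {y z : ℚ⟦X⟧} (h : ∀ m ≤ n, coeff m y = coeff m z) :
    coeff n (XA s y i) = coeff n (XA s z i) := by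
  rw [XA, XA, map_sum, map_sum]
  refine Finset.sum_congr rfl fun l _ => ?_
  rw [coeff_mul, coeff_mul]
  refine Finset.sum_congr rfl fun x hx => ?_
  rw [coeff_YA, coeff_YA, h x.2 (by have := Finset.HasAntidiagonal.mem_antidiagonal.1 hx; omega)]

lemma coeff_mul_congr {n : ℕ} {g y z : ℚ⟦X⟧} (h : ∀ m ≤ n, coeff m y = coeff m z) :
    coeff n (g * y) = coeff n (g * z) := by
  rw [coeff_mul, coeff_mul]
  refine Finset.sum_congr rfl fun x hx => ?_
  rw [h x.2 (by have := Finset.HasAntidiagonal.mem_antidiagonal.1 hx; omega)]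

end lin

lemma PI.YA {s l : ℕ} {y : ℚ⟦X⟧} (hy : PI p y) : PI p (YA s y l) := fun n => by
  rw [coeff_YA]
  have h1 := (MP_a3a416_nt.SJ.val.nat (p := p) (12 ^ l * (s - l).factorial)).mul
    ((MP_a3a416_nt.SJ.val.nat (p := p) (n ^ l)).mul (hy n))
  push_cast at h1
  simpa using h1

lemma PI.XA {s i : ℕ} {y : ℚ⟦X⟧} (hy : PI p y) : PI p (XA s y i) := fun n => by
  rw [L1.XA, map_sum]
  exact MP_a3a416_nt.SJ.val.sum fun l _ => (((PI.natCast _).mul (PI.e2.pow _)).mul hy.YA) n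

lemma Cg.of_dvd {f : ℚ⟦X⟧} (hf : PI p f) : Cg p ((p : ℚ⟦X⟧) * f) 0 := fun n => by
  rw [map_zero, sub_zero, show (p : ℚ⟦X⟧) = C (p : ℚ) from (map_natCast C p).symm, coeff_C_mul]
  have := (MP_a3a416_nt.SJ.val.p_zpow (p := p) 1).mul (hf n)
  rw [zpow_one] at this
  simpa using this

lemma Cg.XA {s i : ℕ} {y z : ℚ⟦X⟧} (h : Cg p y z) : Cg p (XA s y i) (XA s z i) := by
  rw [Cg_iff, ← XA_sub]
  have h' := Cg_iff.1 h
  intro n
  rw [map_zero, sub_zero]
  have e : (y - z) = (p : ℚ) • ((p : ℚ)⁻¹ • (y - z)) := by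
    rw [smul_smul, mul_inv_cancel₀ (by exact_mod_cast hp.out.ne_zero), one_smul]
  rw [e, XA_smul, map_smul, smul_eq_mul]
  have h1 : PI p ((p : ℚ)⁻¹ • (y - z)) := fun m => by
    rw [map_smul, smul_eq_mul]
    have h2 := h' m
    rw [map_zero, sub_zero] at h2
    have h3 := (MP_a3a416_nt.SJ.val.p_zpow (p := p) (-1)).mul h2
    rw [zpow_neg, zpow_one] at h3
    simpa using h3
  have := (MP_a3a416_nt.SJ.val.p_zpow (p := p) 1).mul ((PI.XA (s := s) (i := i) h1) n)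
  rw [zpow_one] at this
  simpa using this

lemma Cg.C_mul {c : ℚ} (hc : val p c 0) {f g : ℚ⟦X⟧} (h : Cg p f g) : Cg p (C c * f) (C c * g) :=
  h.mul_left (PI.C hc)

/-- `X_i[G]` is a form of weight `p - s + 2 i` modulo `p`, for every form `G` of weight `p - s` -/
theorem Y_existsA {s : ℕ} (hsp : s + 4 ≤ p) (G : ℚ⟦X⟧) (hG : MZ p (p - s) G) (i : ℕ) (hi : i ≤ s) :
    ∃ h, MZ p (p - s + 2 * i) h ∧ Cg p (XA s G i) h := by
  induction i using Nat.strong_induction_on with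
  | _ i ih =>
    rcases Nat.eq_zero_or_pos i with rfl | hpos
    · refine ⟨XA s G 0, ?_, Cg.refl _⟩
      rw [XA_zero]
      exact hG.C_mul (MP_a3a416_nt.SJ.val.nat _)
    · obtain ⟨i, rfl⟩ : ∃ j, i = j + 1 := ⟨i - 1, by omega⟩
      obtain ⟨h, hh, hc⟩ := ih i (by omega) (by omega)
      have hrec := XA_rec (s := s) (i := i) (by omega) G
      have hsi : ((s : ℚ) - i) ≠ 0 := by
        have : (i : ℚ) < s := by exact_mod_cast (by omega : i < s)
        linarith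
      have hv : val p (((s : ℚ) - i)⁻¹) 0 := by
        have h1 : ¬ (p : ℤ) ∣ ((s - i : ℕ) : ℤ) := by
          intro h2
          have h3 : p ∣ s - i := by exact_mod_cast h2
          exact absurd (Nat.le_of_dvd (by omega) h3) (by omega)
        have := MP_a3a416_nt.SJ.val.inv_of_not_dvd h1
        rw [Nat.cast_sub (by omega)] at this
        simpa using this
      -- the term with `e4`
      have h4 : ∃ h', MZ p (p - s + 2 * i + 2) h' ∧
          Cg p ((i : ℚ⟦X⟧) * e4 ℚ * XA s G (i - 1)) h' := by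
        rcases Nat.eq_zero_or_pos i with rfl | hi0
        · refine ⟨0, MZ.zero _, ?_⟩
          simp only [Nat.cast_zero, zero_mul]
          exact Cg.refl 0
        · obtain ⟨h2, hh2, hc2⟩ := ih (i - 1) (by omega) (by omega)
          refine ⟨C (i : ℚ) * (e4 ℚ * h2), ?_, ?_⟩
          · have := (MZ.e4.mul hh2).C_mul (MP_a3a416_nt.SJ.val.nat (p := p) i)
            have e : 4 + (p - s + 2 * (i - 1)) = p - s + 2 * i + 2 := by omega
            rwa [e] at this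
          · rw [mul_assoc, show (i : ℚ⟦X⟧) = C (i : ℚ) from (map_natCast C i).symm]
            exact (hc2.mul_left PI.e4).C_mul (MP_a3a416_nt.SJ.val.nat _)
      obtain ⟨h', hh', hc'⟩ := h4
      refine ⟨C (((s : ℚ) - i)⁻¹) *
        ((12 * Dq h - ((p - s + 2 * i : ℕ) : ℚ⟦X⟧) * e2 ℚ * h) + h'), ?_, ?_⟩
      · exact (hh.serre.add hh').C_mul hv
      · have e : XA s G (i + 1) = C (((s : ℚ) - i)⁻¹) *
            (((s : ℚ⟦X⟧) - i) * XA s G (i + 1)) := by
          rw [show (s : ℚ⟦X⟧) = C (s : ℚ) from (map_natCast C s).symm,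
            show (i : ℚ⟦X⟧) = C (i : ℚ) from (map_natCast C i).symm, ← map_sub, ← mul_assoc, ← map_mul,
            inv_mul_cancel₀ hsi, map_one, one_mul]
        rw [e, hrec]
        refine Cg.C_mul hv ?_
        refine Cg.add ?_ hc'
        have hpi : PI p (XA s G i) := PI.XA hG.pi
        have h5 : Cg p (12 * Dq (XA s G i)) (12 * Dq h) := by
          refine hc.Dq.mul_left ?_
          exact_mod_cast PI.natCast (p := p) 12
        have h6 : Cg p (((2 * i : ℕ) : ℚ⟦X⟧) * e2 ℚ * XA s G i - (s : ℚ⟦X⟧) * e2 ℚ * XA s G i)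
            (((p - s + 2 * i : ℕ) : ℚ⟦X⟧) * e2 ℚ * h) := by
          have h7 : Cg p (((p - s + 2 * i : ℕ) : ℚ⟦X⟧) * e2 ℚ * XA s G i)
              (((p - s + 2 * i : ℕ) : ℚ⟦X⟧) * e2 ℚ * h) := hc.mul_left ((PI.natCast _).mul PI.e2)
          refine Cg.trans ?_ h7
          have h8 := (Cg.of_dvd (p := p) (PI.e2.mul hpi)).symm
          have h9 : Cg p (((p - s + 2 * i : ℕ) : ℚ⟦X⟧) * e2 ℚ * XA s G i -
              (p : ℚ⟦X⟧) * (e2 ℚ * XA s G i)) (((p - s + 2 * i : ℕ) : ℚ⟦X⟧) * e2 ℚ *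
              XA s G i - 0) := (Cg.refl _).sub h8.symm
          rw [sub_zero] at h9
          refine Cg.trans ?_ h9
          have e2 : ((p - s + 2 * i : ℕ) : ℚ⟦X⟧) = (p : ℚ⟦X⟧) - s + 2 * i := by
            rw [Nat.cast_add, Nat.cast_sub (by omega)]
            push_cast
            ring
          rw [e2]
          have e3 : ((2 * i : ℕ) : ℚ⟦X⟧) * L1.e2 ℚ * XA s G i - (s : ℚ⟦X⟧) * L1.e2 ℚ * XA s G i
              = ((p : ℚ⟦X⟧) - s + 2 * i) * L1.e2 ℚ * XA s G i -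
              (p : ℚ⟦X⟧) * (L1.e2 ℚ * XA s G i) := by
            push_cast
            ring
          rw [e3]
          exact Cg.refl _
        have h10 := h5.sub h6
        convert h10 using 1
        ring

/-- `X_i[E_{p-s}]` is a form of weight `p - s + 2 i` modulo `p` -/
theorem XA_form {s : ℕ} (hs : 3 ≤ s) (hso : Odd s) (hsp : s + 4 ≤ p) (i : ℕ) (hi : i ≤ s) :
    ∃ h, MZ p (p - s + 2 * i) h ∧ Cg p (XA s (Ee p s) i) h :=
  Y_existsA hsp _ (Ee_mem hs hso hsp) i hi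

theorem Y_exists' (p s : ℕ) [hp : Fact p.Prime] (hs : s + 4 ≤ p) (G : ℚ⟦X⟧) (hG : MZ p (p - s) G) (i : ℕ)
    (hi : i ≤ s) : ∃ Y : ℚ⟦X⟧, MZ p (p - s + 2 * i) Y ∧ Cg p (XX s i G) Y := by
  obtain ⟨h, hh, hc⟩ := Y_existsA hs G hG i hi
  exact ⟨h, hh, by rwa [XX_eq_XA]⟩

theorem XX_pi' (s i p : ℕ) [hp : Fact p.Prime] {y : ℚ⟦X⟧} (hy : PI p y) : PI p (XX s i y) := by
  rw [XX_eq_XA]; exact hy.XA

theorem XX_cg' (s i p : ℕ) [hp : Fact p.Prime] {y z : ℚ⟦X⟧} (h : Cg p y z) :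
    Cg p (XX s i y) (XX s i z) := by
  rw [XX_eq_XA, XX_eq_XA]; exact h.XA

lemma coeff_Fs_eq {s n : ℕ} (hn : n < p) : coeff n (Fs s) = coeff n (Fd s p) := by
  rw [Fs, Fd, coeff_mk, coeff_mk]
  refine Finset.sum_congr ?_ fun _ _ => rfl
  rw [eq_comm, Finset.filter_eq_self]
  intro d hd h
  have h1 := Nat.divisor_le hd
  have h2 := Nat.pos_of_mem_divisors hd
  exact absurd (Nat.le_of_dvd h2 h) (by omega)

/-- `XX s i (C a + C b * Fd s p)` is congruent to a form of weight `p - s + 2 i` at a flat prime -/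
theorem XX_Fd_form {s : ℕ} (hs : 3 ≤ s) (hso : Odd s) (hsp : s + 4 ≤ p) {a b : ℚ} (hb : val p b 0)
    (hflat : val p (b * (bernoulli (p - s) / (2 * s)) - a) 1) {i : ℕ} (hi : i ≤ s) :
    ∃ h, MZ p (p - s + 2 * i) h ∧ Cg p (XX s i (C a + C b * Fd s p)) h := by
  obtain ⟨h, hh, hc⟩ := XA_form hs hso hsp i hi
  refine ⟨C b * h, hh.C_mul hb, ?_⟩
  rw [XX_eq_XA]
  have h2 : Cg p (C b * Ee p s) (C a + C b * Fd s p) := by
    have h3 := (Ee_cg (p := p) hs hsp).C_mul hb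
    rw [mul_add, FFp_eq] at h3
    refine h3.trans (Cg.add ?_ (Cg.refl _))
    intro m
    rw [coeff_C_mul, coeff_C, coeff_C]
    split_ifs
    · exact hflat
    · rw [mul_zero, sub_zero]; exact MP_a3a416_nt.SJ.val.zero 1
  have h4 : Cg p (XA s (C b * Ee p s) i) (C b * h) := by
    rw [← smul_eq_C_mul, XA_smul, smul_eq_C_mul]
    exact hc.C_mul hb
  exact (h2.symm.XA).trans h4

/-- the columns of the blocks `XX s i (Y0 s a b)` at a flat prime -/
theorem col_e {s : ℕ} (hs : 3 ≤ s) (hso : Odd s) (hsp : s + 4 ≤ p) {a b : ℚ} (hb : val p b 0)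
    (hflat : val p (b * (bernoulli (p - s) / (2 * s)) - a) 1) {i : ℕ} (hi : i ≤ s) {k : ℕ} {g : ℚ⟦X⟧}
    (hg : MZ p k g) :
    ∃ f, MZ p (k + (p - s + 2 * i)) f ∧
      ∀ n < p, val p (coeff n (g * XX s i (Y0 s a b)) - coeff n f) 1 := by
  obtain ⟨h, hh, hc⟩ := XX_Fd_form hs hso hsp hb hflat hi
  refine ⟨g * h, hg.mul hh, fun n hn => ?_⟩
  have h1 : coeff n (g * XX s i (Y0 s a b)) =
      coeff n (g * XX s i (C a + C b * Fd s p)) := by
    rw [XX_eq_XA, XX_eq_XA]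
    refine coeff_mul_congr fun m hm => coeff_XA_congr fun m' hm' => ?_
    rw [Y0, map_add, map_add, coeff_C_mul, coeff_C_mul, coeff_Fs_eq (p := p) (by omega)]
  rw [h1]
  exact (hc.mul_left hg.pi) n

/-- the columns of the block `1` -/
theorem col_one (h5 : 5 ≤ p) {k : ℕ} {g : ℚ⟦X⟧} (hg : MZ p k g) :
    ∃ f, MZ p (k + (p - 1)) f ∧ ∀ n, val p (coeff n g - coeff n f) 1 := by
  refine ⟨g * EA p, hg.mul (EA_mem h5), ?_⟩
  have h := (EA_cg (p := p) (by omega)).symm.mul_left hg.pi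
  rw [mul_one] at h
  exact h

/-- the columns of the block `E₂` -/
theorem col_e2 (h5 : 5 ≤ p) {k : ℕ} {g : ℚ⟦X⟧} (hg : MZ p k g) :
    ∃ f, MZ p (k + (p + 1)) f ∧ ∀ n, val p (coeff n (g * e2 ℚ) - coeff n f) 1 :=
  ⟨g * EB p, hg.mul (EB_mem h5), (EB_cg h5).symm.mul_left hg.pi⟩

end Pool.Agent.L1
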