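import Pool.Agent.Lib.L1.FSplit
import Pool.Agent.Lib.L1.XForm

/-!
# L1.YForm: `X_i[G]` is a modular form modulo `p`, `G ∈ MZ p (p-s)`
PROOF. Induction on `i` (strong; the statement for `i` and `i-1`). `XX s 0 G = s! G` (`XG_zero`). For `i < s`: by `XG_rec` (with `e4`,
`ram_e2`), `XX s (i+1) G = (12/(s-i)) (Dq X_i - ((2i-s)/12) e2 X_i + (i/12) e4 X_{i-1})`. Put
`Y_{i+1} = (1/(s-i)) (12 Dq Y_i - (p-s+2i) e2 Y_i + i e4 Y_{i-1})`: in `MZ p (p-s+2i+2)` by `MZ.serre`, `MZ.e4`, `MZ.mul`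
(`s - i` is prime to `p` as `0 < s-i < p`). Modulo `p`: `12 Dq X_i - (2i-s) e2 X_i ≡ 12 Dq Y_i - (p+2i-s) e2 Y_i` as `X_i ≡ Y_i`
and `p e2 Y_i ≡ 0`. Weight of `e4 Y_{i-1}`: `4 + p - s + 2i - 2`.
-/

set_option autoImplicit false

open PowerSeries
open MP_a3a416_nt.SJ (val)

namespace Pool.Agent.L1

theorem Y_exists (p s : ℕ) [hp : Fact p.Prime] (hs : s + 4 ≤ p) (G : ℚ⟦X⟧) (hG : MZ p (p - s) G) (i : ℕ) (hi : i ≤ s) :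
    ∃ Y : ℚ⟦X⟧, MZ p (p - s + 2 * i) Y ∧ Cg p (XX s i G) Y :=
  Y_exists' p s hs G hG i hi

end Pool.Agent.L1
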