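import Pool.Agent.Lib.L1.NDefs
import Pool.Agent.Lib.L1.YForm

/-!
# L1.FlatForm: at a flat prime the columns are congruent to forms of weight `12 N + p - 1` in the rows `r < p`
PROOF. `a = c.num`, `b = 2 s c.den`. `p` flat: `p ∣ num (B_{p-s} - c)`, `B_{p-s}` is `p`-integral, so `p ∤ den c` and
`val p (B_{p-s} - c) 1`. `Ee_cg`: `Ee p s ≡ B_{p-s}/(2s) + FFp p s ≡ c/(2s) + Fd`, multiply by `b`: `C b * Ee p s ≡ a + b Fd` (`b c/(2s) = a`).
Let `G = C b * Ee p s ∈ MZ p (p-s)` (`Ee_mem`). In the rows `r < p` : `XX_i[y₀] = XX_i[a + b Fd]` (`XX_split`, `expd_F_low`) `≡ XX_i[G] ≡ Y_i`.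
Columns: `(inl 0, l)`: `bas ≡ bas * EA`, weight `12 N + p - 1`. `(inl 1, l)`: `bas * e2 ≡ bas * EB`, weight `12 N - 2 + p + 1`.
`(inr m, l)`, type `t`: `∑_r C(t,r) h A^(t-r) (-B)^r Y_{m-r}`, weight `kb_m - t(p-1) + (t-r)(p-1) + r(p+1) + p - s + 2(m-r)
= kb_m + 2m + p - s = 12 N + p - 1`.
-/

set_option autoImplicit false

open PowerSeries
open MP_a3a416_nt.SJ (val sdet)

namespace Pool.Agent.L1

private theorem FlatForm_val {p : ℕ} [hp : Fact p.Prime] {x : ℚ} (h : (p : ℤ) ∣ x.num) : val p x 1 := by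
  by_cases hx : x = 0
  · rw [hx]; exact MP_a3a416_nt.SJ.val.zero 1
  right
  have hnum : x.num ≠ 0 := Rat.num_ne_zero.mpr hx
  have hden : ¬ p ∣ x.den := by
    intro hd
    have hc := x.reduced
    have h1 : p ∣ x.num.natAbs := Int.natCast_dvd.mp h
    have h2 := Nat.dvd_gcd h1 hd
    rw [Nat.Coprime.gcd_eq_one hc] at h2
    exact hp.out.one_lt.ne' (Nat.dvd_one.mp h2)
  have h3 : padicValRat p x = (padicValInt p x.num : ℤ) - padicValNat p x.den := rfl
  rw [h3, padicValNat.eq_zero_of_not_dvd hden]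
  have h4 : 1 ≤ padicValInt p x.num := by
    have := (padicValInt_dvd_iff (p := p) 1 x.num).1 (by simpa using h)
    rcases this with h5 | h5
    · exact absurd h5 hnum
    · exact h5
  push_cast
  omega

theorem flat_form (p s N : ℕ) [hp : Fact p.Prime] (hs : Odd s) (hs3 : 3 ≤ s) (hsp : 2 * s + 4 ≤ p) (hs7 : s ≤ 7)
    (hN : 2 ≤ N) (c : ℚ) (hf : Flat s c p) (t : ℕ) (x : Col s N) (hx : AdmC p s N t x) :
    ∃ f : ℚ⟦X⟧, MZ p (12 * N + p - 1) f ∧
      ∀ r < p, val p (coeff r (colT p s N (c.num : ℚ) ((2 * s * c.den : ℤ) : ℚ) t x - f)) 1 := by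
  have hp0 := hp.out
  have h5 : 5 ≤ p := by omega
  have hspos : (s : ℚ) ≠ 0 := by
    have : (0 : ℚ) < s := by exact_mod_cast (by omega : 0 < s)
    exact this.ne'
  have hb : val p (((2 * s * c.den : ℤ) : ℚ)) 0 := MP_a3a416_nt.SJ.val.int _
  have hflat : val p ((((2 * s * c.den : ℤ) : ℚ)) * (bernoulli (p - s) / (2 * s)) - (c.num : ℚ)) 1 := by
    have h1 : val p (bernoulli (p - s) - c) 1 := FlatForm_val hf
    have h2 := (MP_a3a416_nt.SJ.val.nat (p := p) c.den).mul h1
    rw [zero_add] at h2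
    have h3 : (((2 * s * c.den : ℤ) : ℚ)) * (bernoulli (p - s) / (2 * s)) - (c.num : ℚ) =
        (c.den : ℚ) * (bernoulli (p - s) - c) := by
      have h4 : (c.den : ℚ) * c = c.num := by
        rw [mul_comm]; exact Rat.mul_den_eq_num c
      push_cast
      rw [mul_sub, h4]
      field_simp
    rw [h3]
    exact h2
  set a : ℚ := (c.num : ℚ) with ha
  set b : ℚ := (((2 * s * c.den : ℤ) : ℚ)) with hbdef
  rcases x with ⟨j | m, l⟩
  · -- the blocks `1` and `E₂`
    have hl := l.2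
    by_cases hj : j = 0
    · subst hj
      have hk : kb s N (.inl 0) = 12 * N := rfl
      obtain ⟨f, hf1, hf2⟩ := col_one (p := p) h5 (MZ.bas (p := p) hl)
      refine ⟨f, ?_, fun r _ => ?_⟩
      · have e : kb s N (.inl 0) + (p - 1) = 12 * N + p - 1 := by rw [hk]; omega
        rwa [e] at hf1
      · have h6 : colT p s N a b t ⟨.inl 0, l⟩ = bas ℚ (kb s N (.inl 0)) l := by
          simp [colT, colS, eb]
        rw [h6, map_sub]
        exact hf2 r
    · have hk : kb s N (.inl j) = 12 * N - 2 := by simp [kb, hj]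
      obtain ⟨f, hf1, hf2⟩ := col_e2 (p := p) h5 (MZ.bas (p := p) hl)
      refine ⟨f, ?_, fun r _ => ?_⟩
      · have e : kb s N (.inl j) + (p + 1) = 12 * N + p - 1 := by rw [hk]; omega
        rwa [e] at hf1
      · have h6 : colT p s N a b t ⟨.inl j, l⟩ = bas ℚ (kb s N (.inl j)) l * e2 ℚ := by
          simp [colT, colS, eb, hj]
        rw [h6, map_sub]
        exact hf2 r
  · obtain ⟨htm, htk, hl⟩ := hx
    have hm : (m : ℕ) ≤ s := by omega
    have hk : kb s N (.inr m) = 12 * N + s - 1 - 2 * (m : ℕ) := rfl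
    have h0 := MZ.bas (p := p) hl
    have key : ∀ r : ℕ, ∃ f : ℚ⟦X⟧, r ∈ Finset.range (t + 1) → (MZ p (12 * N + p - 1) f ∧
        ∀ n < p, val p (coeff n (C (t.choose r : ℚ) *
          (bas ℚ (kb s N (.inr m) - t * (p - 1)) l * EA p ^ (t - r) * (-EB p) ^ r *
            XX s ((m : ℕ) - r) (Y0 s a b))) - coeff n f) 1) := by
      intro r
      by_cases hr : r ∈ Finset.range (t + 1)
      · rw [Finset.mem_range] at hr
        have h1 := ((h0.mul ((EA_mem (p := p) h5).pow (t - r))).mul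
          (((EB_mem (p := p) h5).neg).pow r)).C_mul (MP_a3a416_nt.SJ.val.nat (p := p) (t.choose r))
        obtain ⟨f, hf1, hf2⟩ := col_e (p := p) hs3 hs (by omega) hb hflat (i := (m : ℕ) - r) (by omega) h1
        refine ⟨f, fun _ => ⟨?_, fun n hn => ?_⟩⟩
        · have e : kb s N (.inr m) - t * (p - 1) + (t - r) * (p - 1) + r * (p + 1) +
              (p - s + 2 * ((m : ℕ) - r)) = 12 * N + p - 1 := by
            have e1 : (t - r) * (p - 1) + r * (p - 1) = t * (p - 1) := by
              rw [← add_mul]; congr 1; omega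
            have e2 : r * (p + 1) = r * (p - 1) + 2 * r := by
              have : p + 1 = (p - 1) + 2 := by omega
              rw [this]; ring
            rw [e2]
            omega
          rwa [e] at hf1
        · have := hf2 n hn
          rwa [mul_assoc (C (t.choose r : ℚ))] at this
      · exact ⟨0, fun h => absurd h hr⟩
    choose F hF using key
    refine ⟨∑ r ∈ Finset.range (t + 1), F r, MZ.sum fun r hr => (hF r hr).1, fun n hn => ?_⟩
    have h7 : colT p s N a b t ⟨.inr m, l⟩ = nS p s a b m t (bas ℚ (kb s N (.inr m) - t * (p - 1)) l) := rfl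
    rw [h7, nS, ← Finset.sum_sub_distrib, map_sum]
    refine MP_a3a416_nt.SJ.val.sum fun r hr => ?_
    rw [map_sub]
    exact (hF r hr).2 n hn

end Pool.Agent.L1
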