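import Pool.Agent.Lib.L1.PolB
import Pool.Agent.Lib.L1.FlatForm

/-!
# L1.DetBig: valuation of the determinant for `p > T`
PROOF. `VV = VT` with `τ = 0` (`VT_zero`, `adm_zero`). All rows are `< T < p`, so all entries are `p`-integral (`val_colT_low`): `val_sdet`
with potentials 0. Flat: `val_sdet_of_rank` with `σ = Fin (dd (12N+p-1)) ⊕ Fin c0` as in DetMid: `T - dd - c0`.
-/

set_option autoImplicit false

open PowerSeries
open MP_a3a416_nt.SJ (val sdet)

namespace Pool.Agent.L1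

theorem val_big (p s N : ℕ) [hp : Fact p.Prime] (hp5 : 5 ≤ p) (hN : 2 ≤ N) (a b : ℤ) {c0 : ℕ}
    (rr : Fin c0 → Fin (TT s N)) (e : Col s N ⊕ Fin c0 ≃ Fin (TT s N)) (hpT : TT s N ≤ p) :
    val p (sdet e (VV s N a b rr)) 0 := by
  have h := MP_a3a416_nt.SJ.val_sdet (p := p) e (VV s N (a : ℚ) (b : ℚ) rr) (fun _ => 0) (fun _ => 0) ?_
  · simpa using h
  · intro r x
    rw [← VT_zero p s N (a : ℚ) (b : ℚ) rr, add_zero]
    have hr : (r : ℕ) < p := lt_of_lt_of_le r.2 hpT
    rcases x with c | i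
    · exact val_colT_low p s N hp5 hN a b 0 c (adm_zero p s N c) r hr
    · show val p (if r = rr i then 1 else 0) 0
      split_ifs
      · exact MP_a3a416_nt.SJ.val.one
      · exact MP_a3a416_nt.SJ.val.zero 0

theorem val_big_flat (p s N : ℕ) [hp : Fact p.Prime] (hs : Odd s) (hs3 : 3 ≤ s) (hsp : 2 * s + 4 ≤ p)
    (hs7 : s ≤ 7) (hN : 2 ≤ N) (c : ℚ) (hf : Flat s c p) {c0 : ℕ} (rr : Fin c0 → Fin (TT s N))
    (e : Col s N ⊕ Fin c0 ≃ Fin (TT s N)) (hpT : TT s N ≤ p) :
    val p (sdet e (VV s N (c.num : ℚ) ((2 * s * c.den : ℤ) : ℚ) rr))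
      ((TT s N : ℤ) - c0 - dd (12 * N + p - 1)) := by
  classical
  have h1 : ∀ x : Col s N, ∃ q : ℕ → ℚ, (∀ j, val p (q j) 0) ∧
      ∀ r < p, val p (coeff r (colT p s N (c.num : ℚ) ((2 * s * c.den : ℤ) : ℚ) 0 x -
        ∑ j ∈ Finset.range (dd (12 * N + p - 1)), q j • bas ℚ (12 * N + p - 1) j)) 1 := by
    intro x
    obtain ⟨f, hf1, hf2⟩ := flat_form p s N hs hs3 hsp hs7 hN c hf 0 x (adm_zero p s N x)
    obtain ⟨q, hq1, hq2⟩ := hf1.coords
    exact ⟨q, hq1, by rw [← hq2]; exact hf2⟩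
  choose q hq1 hq2 using h1
  let W : Matrix (Fin (TT s N)) (Fin (dd (12 * N + p - 1)) ⊕ Fin c0) ℚ :=
    fun r k => Sum.elim (fun h : Fin (dd (12 * N + p - 1)) => coeff (r : ℕ) (bas ℚ (12 * N + p - 1) h))
      (fun i => if r = rr i then 1 else 0) k
  let Q : Matrix (Fin (dd (12 * N + p - 1)) ⊕ Fin c0) (Col s N ⊕ Fin c0) ℚ :=
    fun k x => Sum.elim (fun h : Fin (dd (12 * N + p - 1)) => Sum.elim (fun y => q y h) (fun _ => 0) x)
      (fun i => Sum.elim (fun _ => 0) (fun j => if i = j then 1 else 0) x) k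
  have hWQ : ∀ r x, (W * Q) r x = ∑ h : Fin (dd (12 * N + p - 1)), W r (Sum.inl h) * Q (Sum.inl h) x +
      ∑ i : Fin c0, W r (Sum.inr i) * Q (Sum.inr i) x := by
    intro r x
    rw [Matrix.mul_apply, Fintype.sum_sum_type]
  have h := MP_a3a416_nt.SJ.val_sdet_of_rank (p := p) (σ := Fin (dd (12 * N + p - 1)) ⊕ Fin c0) e
    (VV s N (c.num : ℚ) ((2 * s * c.den : ℤ) : ℚ) rr) W Q ?_ ?_ ?_
  · refine h.mono (le_of_eq ?_)
    have hc : Fintype.card (Col s N ⊕ Fin c0) = TT s N := by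
      rw [Fintype.card_congr e, Fintype.card_fin]
    rw [hc, Fintype.card_sum, Fintype.card_fin, Fintype.card_fin]
    push_cast
    ring
  · intro r k
    rcases k with h | i
    · exact (MZ.bas h.2).pi r
    · show val p (if r = rr i then 1 else 0) 0
      split_ifs
      · exact MP_a3a416_nt.SJ.val.one
      · exact MP_a3a416_nt.SJ.val.zero 0
  · intro k x
    rcases k with h | i
    · rcases x with y | j
      · exact hq1 y h
      · exact MP_a3a416_nt.SJ.val.zero 0
    · rcases x with y | j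
      · exact MP_a3a416_nt.SJ.val.zero 0
      · show val p (if i = j then 1 else 0) 0
        split_ifs
        · exact MP_a3a416_nt.SJ.val.one
        · exact MP_a3a416_nt.SJ.val.zero 0
  · intro r x
    have hr : (r : ℕ) < p := lt_of_lt_of_le r.2 hpT
    rw [← VT_zero p s N _ _ rr, hWQ]
    rcases x with y | j
    · have e2 : ∑ h : Fin (dd (12 * N + p - 1)), W r (Sum.inl h) * Q (Sum.inl h) (Sum.inl y) =
          coeff (r : ℕ) (∑ j ∈ Finset.range (dd (12 * N + p - 1)), q y j • bas ℚ (12 * N + p - 1) j) := by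
        rw [map_sum, Finset.sum_range]
        refine Finset.sum_congr rfl fun i _ => ?_
        rw [coeff_smul, smul_eq_mul, mul_comm]
        rfl
      have e4 : ∑ i : Fin c0, W r (Sum.inr i) * Q (Sum.inr i) (Sum.inl y) = 0 :=
        Finset.sum_eq_zero fun i _ => mul_zero _
      have h2 := hq2 y r hr
      rw [map_sub, ← e2] at h2
      have h3 : VT p s N (c.num : ℚ) ((2 * s * c.den : ℤ) : ℚ) (fun _ => 0) rr r (Sum.inl y) =
        coeff (r : ℕ) (colT p s N (c.num : ℚ) ((2 * s * c.den : ℤ) : ℚ) 0 y) := rfl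
      rw [h3, e4, add_zero]
      exact h2
    · have h3 : VT p s N (c.num : ℚ) ((2 * s * c.den : ℤ) : ℚ) (fun _ => 0) rr r (Sum.inr j) =
        if r = rr j then 1 else 0 := rfl
      have e3 : ∑ h : Fin (dd (12 * N + p - 1)), W r (Sum.inl h) * Q (Sum.inl h) (Sum.inr j) = 0 :=
        Finset.sum_eq_zero fun i _ => mul_zero _
      have e4 : ∑ i : Fin c0, W r (Sum.inr i) * Q (Sum.inr i) (Sum.inr j) = if r = rr j then 1 else 0 := by
        rw [Finset.sum_eq_single j]
        · show (if r = rr j then (1 : ℚ) else 0) * (if j = j then 1 else 0) = _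
          rw [if_pos rfl, mul_one]
        · intro i _ hij
          show (if r = rr i then (1 : ℚ) else 0) * (if i = j then 1 else 0) = 0
          rw [if_neg hij, mul_zero]
        · intro h
          exact absurd (Finset.mem_univ _) h
      rw [h3, e3, e4, zero_add, sub_self]
      exact MP_a3a416_nt.SJ.val.zero 1

end Pool.Agent.L1
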