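import Pool.Agent.Lib.L1.NDefs

/-!
# L1.DetCrude: a crude bound for the valuation of the determinant, all primes
PROOF. `coeff n F = ∑_{d | n} d^{-s}`, `v_p(d) ≤ Nat.log p n ≤ Nat.log p T` for `1 ≤ n < T` (`p^(v_p d) ∣ d ≤ n`), so its valuation is
`≥ -s Nat.log p T`; the same for `coeff n (D^l F) = n^l coeff n F`, for `n < T` only. `XX s i y₀` is a combination of
`e2^(i-l) D^l y₀` with integers `cf s i l`; `e2`, `bas` have integer coefficients, `a`, `b` integers. All entries of `VV` (rows `r < T`) have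
valuation `≥ -s Nat.log p T`; `val_sdet` with potentials `-s log_p T` on the rows: `card rows = T`.
-/

set_option autoImplicit false

open PowerSeries
open MP_a3a416_nt.SJ (val sdet)

namespace Pool.Agent.L1

private lemma DetCrude_mul {p : ℕ} [hp : Fact p.Prime] {f g : ℚ⟦X⟧} {v w : ℤ} {T : ℕ}
    (hf : ∀ n < T, val p (coeff n f) v)
    (hg : ∀ n < T, val p (coeff n g) w) : ∀ n < T, val p (coeff n (f * g)) (v + w) := by
  intro n hn
  rw [coeff_mul]
  refine MP_a3a416_nt.SJ.val.sum fun x hx => ?_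
  have hx' := Finset.HasAntidiagonal.mem_antidiagonal.1 hx
  exact (hf x.1 (by omega)).mul (hg x.2 (by omega))

private lemma DetCrude_coeff_iter (f : ℚ⟦X⟧) (n l : ℕ) :
    coeff n (DqDer^[l] f) = (n : ℚ) ^ l * coeff n f := by
  induction l with
  | zero => simp
  | succ l ih =>
    rw [Function.iterate_succ_apply', DqDer_apply, coeff_Dq, ih, pow_succ]
    ring

private lemma DetCrude_Fs (p s T : ℕ) [hp : Fact p.Prime] (n : ℕ) (hn : n < T) :
    val p (coeff n (Fs s)) (-((s : ℤ) * (Nat.log p T : ℕ))) := by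
  unfold Fs
  rw [coeff_mk]
  refine MP_a3a416_nt.SJ.val.sum fun d hd => ?_
  rw [Nat.mem_divisors] at hd
  have hdn : d ≤ n := Nat.le_of_dvd (Nat.pos_of_ne_zero hd.2) hd.1
  have hd0 : d ≠ 0 := fun h => hd.2 (by rw [h] at hd; exact zero_dvd_iff.1 hd.1)
  right
  rw [padicValRat.inv, padicValRat.pow, padicValRat.of_nat]
  have h1 : padicValNat p d ≤ Nat.log p d := padicValNat_le_nat_log d
  have h2 : Nat.log p d ≤ Nat.log p T := Nat.log_mono_right (by omega)
  have h3 : (padicValNat p d : ℤ) ≤ (Nat.log p T : ℕ) := by exact_mod_cast h1.trans h2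
  have h4 : (s : ℤ) * (padicValNat p d : ℤ) ≤ (s : ℤ) * (Nat.log p T : ℕ) :=
    mul_le_mul_of_nonneg_left h3 (by positivity)
  linarith

private lemma DetCrude_Y0 (p s T : ℕ) [hp : Fact p.Prime] (a b : ℤ) (n : ℕ) (hn : n < T) :
    val p (coeff n (Y0 s (a : ℚ) (b : ℚ))) (-((s : ℤ) * (Nat.log p T : ℕ))) := by
  unfold Y0
  rw [map_add, coeff_C_mul]
  refine MP_a3a416_nt.SJ.val.add ?_ ((DetCrude_Fs p s T n hn).int_mul b)
  rw [coeff_C]
  split_ifs
  · exact (MP_a3a416_nt.SJ.val.int a).mono (by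
      have : (0 : ℤ) ≤ (s : ℤ) * (Nat.log p T : ℕ) := by positivity
      linarith)
  · exact MP_a3a416_nt.SJ.val.zero _

private lemma DetCrude_XX (p s T : ℕ) [hp : Fact p.Prime] (a b : ℤ) (i : ℕ) (n : ℕ) (hn : n < T) :
    val p (coeff n (XX s i (Y0 s (a : ℚ) (b : ℚ)))) (-((s : ℤ) * (Nat.log p T : ℕ))) := by
  unfold XX XG
  rw [map_sum]
  refine MP_a3a416_nt.SJ.val.sum fun l _ => ?_
  rw [coeff_smul, smul_eq_mul]
  have h1 : val p (cf s i l) 0 := by
    have := MP_a3a416_nt.SJ.val.nat (p := p) (i.choose l * 12 ^ l * (s - l).factorial)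
    rw [cf]
    push_cast at this
    exact this
  have h2 : ∀ k < T, val p (coeff k (DqDer^[l] (Y0 s (a : ℚ) (b : ℚ)))) (-((s : ℤ) * (Nat.log p T : ℕ))) := by
    intro k hk
    rw [DetCrude_coeff_iter]
    have h3 := (MP_a3a416_nt.SJ.val.nat (p := p) (k ^ l)).mul (DetCrude_Y0 p s T a b k hk)
    rw [zero_add] at h3
    push_cast at h3
    exact h3
  have h4 := DetCrude_mul (p := p) (T := T) (f := e2 ℚ ^ (i - l)) (v := 0)
    (fun k _ => (PI.e2.pow (i - l)) k) h2 n hn
  have h5 := h1.mul h4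
  rw [zero_add, zero_add] at h5
  exact h5

theorem val_crude (p s N : ℕ) [hp : Fact p.Prime] (a b : ℤ) {c0 : ℕ}
    (rr : Fin c0 → Fin (TT s N)) (e : Col s N ⊕ Fin c0 ≃ Fin (TT s N)) :
    val p (sdet e (VV s N a b rr)) (-((TT s N : ℤ) * (s * Nat.log p (TT s N)))) := by
  have h0 : (0 : ℤ) ≤ (s : ℤ) * (Nat.log p (TT s N) : ℕ) := by positivity
  have h := MP_a3a416_nt.SJ.val_sdet (p := p) e (VV s N (a : ℚ) (b : ℚ) rr)
    (fun _ => -((s : ℤ) * (Nat.log p (TT s N) : ℕ))) (fun _ => 0) ?_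
  · refine h.mono (le_of_eq ?_)
    rw [Finset.sum_const, Finset.card_univ, Fintype.card_fin, Finset.sum_const_zero, add_zero, nsmul_eq_mul]
    push_cast
    ring
  · intro r x
    rw [add_zero]
    rcases x with c | i
    · obtain ⟨β, l⟩ := c
      show val p (coeff (r : ℕ) (bas ℚ (kb s N β) l * eb s (a : ℚ) (b : ℚ) β)) _
      have h1 : ∀ k < TT s N, val p (coeff k (bas ℚ (kb s N β) l)) 0 := fun k _ => (MZ.bas l.2).pi k
      have h2 : ∀ k < TT s N, val p (coeff k (eb s (a : ℚ) (b : ℚ) β))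
          (-((s : ℤ) * (Nat.log p (TT s N) : ℕ))) := by
        intro k hk
        rcases β with j | m
        · show val p (coeff k (if j = 0 then 1 else e2 ℚ)) _
          split_ifs
          · exact (PI.one (p := p) k).mono (by linarith)
          · exact (PI.e2 (p := p) k).mono (by linarith)
        · exact DetCrude_XX p s (TT s N) a b m k hk
      have h3 := DetCrude_mul h1 h2 r r.2
      rw [zero_add] at h3
      exact h3
    · show val p (if r = rr i then 1 else 0) _
      split_ifs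
      · exact MP_a3a416_nt.SJ.val.one.mono (by linarith)
      · exact MP_a3a416_nt.SJ.val.zero _

end Pool.Agent.L1
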