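import Pool.Agent.Lib.L1.ZE
import Pool.Agent.Lib.MP_a3a416_nt.SJ.UnitCols

/-!
# L1.ZCol: the determinant is non-zero for a suitable choice of the unit columns
PROOF. Number of columns (`card_col_le`, `card_col_ge`): `∑_β dd (kb s N β)`, `kb ≥ 4` even, `∑ kb = 12 J N - J` (`J = s + 3`;
`∑ (K - 1 - wt β)`, `∑ wt = 0`), `dd_le`, `le_dd`: `12 * card ≤ 12 J N - J + 12 J`, `12 * card ≥ 12 J N - J - 2 J`.
Independence of the columns: `∑ x_c coeff r (colS c) = 0` for all `r < TT`: put `v β = ∑_j x_(β,j) • bas ℚ (kb β) j ∈ ML ℚ (kb β)`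
`= MLz (12 N - 1 - wt β)`; `G = ∑ v β * eb β` has zero coefficients below `TT = J N + J^2`; if `v ≠ 0`, `zero_est` with `K = 12 N`
gives `m` with `12 m ≤ J (12 N + s + 1) < 12 (J N + J^2)` and `coeff m G ≠ 0`: contradiction. So `v = 0` and `x = 0`
(`linearIndependent_bas`). Then `MP_a3a416_nt.SJ.exists_unit_columns`.
-/

set_option autoImplicit false

open PowerSeries
open MP_a3a416_nt.SJ (sdet)

namespace Pool.Agent.L1

private lemma sum_lin (c : ℤ) (n : ℕ) :
    ∑ i ∈ Finset.range n, (c - 2 * (i : ℤ)) = n * c - n * (n - 1) := by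
  induction n with
  | zero => simp
  | succ n ih =>
    rw [Finset.sum_range_succ, ih]
    push_cast
    ring

private lemma kb_int (s N : ℕ) (hs7 : s ≤ 7) (hN : 2 ≤ N) (β : Bl s) :
    ((kb s N β : ℕ) : ℤ) = 12 * (N : ℤ) - 1 - wt s β := by
  rcases β with j | i
  · fin_cases j
    · simp only [kb, wt, Fin.zero_eta, if_true]
      push_cast
      ring
    · have h1 : ¬ ((1 : Fin 2) = 0) := by decide
      simp only [kb, wt, Fin.mk_one, if_neg h1]
      omega
  · simp only [kb, wt]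
    have := i.2
    omega

private lemma kb_even (s N : ℕ) (hs : Odd s) (hs7 : s ≤ 7) (hN : 2 ≤ N) (β : Bl s) : Even (kb s N β) := by
  obtain ⟨t, rfl⟩ := hs
  rcases β with j | i
  · fin_cases j
    · simp only [kb, Fin.zero_eta, if_true]
      exact ⟨6 * N, by ring⟩
    · have h1 : ¬ ((1 : Fin 2) = 0) := by decide
      simp only [kb, Fin.mk_one, if_neg h1]
      exact ⟨6 * N - 1, by omega⟩
  · simp only [kb]
    have := i.2
    exact ⟨6 * N + t - i, by omega⟩

private lemma sum_kb (s N : ℕ) (hs7 : s ≤ 7) (hN : 2 ≤ N) :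
    ∑ β : Bl s, ((kb s N β : ℕ) : ℤ) = (s + 3) * (12 * (N : ℤ) - 1) := by
  rw [Finset.sum_congr rfl fun β _ => kb_int s N hs7 hN β, Fintype.sum_sum_type, Fin.sum_univ_two]
  have h1 : ¬ ((1 : Fin 2) = 0) := by decide
  simp only [wt, if_true, if_neg h1]
  have h2 : ∑ x : Fin (s + 1), (12 * (N : ℤ) - 1 - (2 * ((x : ℕ) : ℤ) - (s : ℤ))) =
      ∑ i ∈ Finset.range (s + 1), ((12 * (N : ℤ) - 1 + s) - 2 * (i : ℤ)) := by
    rw [Finset.sum_range]
    exact Finset.sum_congr rfl fun i _ => by ring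
  rw [h2, sum_lin]
  push_cast
  ring

private lemma card_col (s N : ℕ) :
    Fintype.card (Col s N) = ∑ β : Bl s, dd (kb s N β) := by
  rw [Fintype.card_sigma]
  exact Finset.sum_congr rfl fun β _ => Fintype.card_fin _

private lemma card_bl (s : ℕ) : (Finset.univ : Finset (Bl s)).card = s + 3 := by
  rw [Finset.card_univ, Fintype.card_sum, Fintype.card_fin, Fintype.card_fin]
  omega

theorem card_col_le (s N : ℕ) (hs : Odd s) (hs7 : s ≤ 7) (hN : 2 ≤ N) :
    Fintype.card (Col s N) ≤ (s + 3) * N + (s + 3) := by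
  have h1 : 12 * (Fintype.card (Col s N) : ℤ) ≤ ∑ β : Bl s, (((kb s N β : ℕ) : ℤ) + 12) := by
    rw [card_col, Nat.cast_sum, Finset.mul_sum]
    refine Finset.sum_le_sum fun β _ => ?_
    have := dd_le (kb s N β)
    omega
  rw [Finset.sum_add_distrib, sum_kb s N hs7 hN, Finset.sum_const, card_bl, nsmul_eq_mul] at h1
  push_cast at h1
  have h2 : (12 : ℤ) * (Fintype.card (Col s N) : ℤ) ≤ 12 * ((s + 3) * N + (s + 3)) := by
    nlinarith [h1, Int.natCast_nonneg s]
  have h3 : ((Fintype.card (Col s N) : ℕ) : ℤ) ≤ (((s + 3) * N + (s + 3) : ℕ) : ℤ) := by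
    push_cast
    linarith
  exact_mod_cast h3

theorem card_col_ge (s N : ℕ) (hs : Odd s) (hs7 : s ≤ 7) (hN : 2 ≤ N) :
    (s + 3) * N ≤ Fintype.card (Col s N) + (s + 3) := by
  have h1 : ∑ β : Bl s, ((kb s N β : ℕ) : ℤ) ≤ ∑ β : Bl s, (12 * ((dd (kb s N β) : ℕ) : ℤ) + 2) := by
    refine Finset.sum_le_sum fun β _ => ?_
    have := le_dd (kb_even s N hs hs7 hN β)
    omega
  rw [Finset.sum_add_distrib, sum_kb s N hs7 hN, Finset.sum_const, card_bl, nsmul_eq_mul,
    ← Finset.mul_sum, ← Nat.cast_sum, ← card_col] at h1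
  push_cast at h1
  have h3 : (((s + 3) * N : ℕ) : ℤ) ≤ ((Fintype.card (Col s N) + (s + 3) : ℕ) : ℤ) := by
    push_cast
    nlinarith [h1, Int.natCast_nonneg s]
  exact_mod_cast h3

private lemma col_li (s : ℕ) (hs : Odd s) (hs3 : 3 ≤ s) (hs7 : s ≤ 7) (N : ℕ) (hN : 2 ≤ N)
    (a b : ℚ) (hb : b ≠ 0) :
    LinearIndependent ℚ (fun (c : Col s N) (r : Fin (TT s N)) =>
      coeff (r : ℕ) (colS s N a b c)) := by
  rw [Fintype.linearIndependent_iff]
  intro x hx
  set v : Bl s → ℚ⟦X⟧ := fun β => ∑ j : Fin (dd (kb s N β)), x ⟨β, j⟩ • bas ℚ (kb s N β) j with hv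
  have hG : ∀ n : ℕ, coeff n (∑ β, v β * eb s a b β) =
      ∑ c : Col s N, x c * coeff n (colS s N a b c) := by
    intro n
    rw [map_sum, Fintype.sum_sigma]
    refine Finset.sum_congr rfl fun β _ => ?_
    rw [hv]
    simp only
    rw [Finset.sum_mul, map_sum]
    refine Finset.sum_congr rfl fun j _ => ?_
    rw [smul_mul_assoc, coeff_smul]
    rfl
  have hmem : ∀ β, v β ∈ MLz (12 * (N : ℤ) - 1 - wt s β) := by
    intro β
    rw [← kb_int s N hs7 hN β, MLz_nat]
    exact Submodule.sum_mem _ fun j _ => Submodule.smul_mem _ _ (Submodule.subset_span ⟨j, rfl⟩)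
  have hv0 : v = 0 := by
    by_contra hne
    obtain ⟨m, hm, hcm⟩ := zero_est s hs hs3 a b hb (12 * (N : ℤ)) (by positivity) v hmem hne
    have hmT : m < TT s N := by
      have h4 : (12 : ℤ) * (m : ℤ) < 12 * ((TT s N : ℕ) : ℤ) := by
        refine lt_of_le_of_lt hm ?_
        unfold TT
        push_cast
        have h0 : (0 : ℤ) ≤ s := Int.natCast_nonneg s
        nlinarith
      have h5 : (m : ℤ) < ((TT s N : ℕ) : ℤ) := by linarith
      exact_mod_cast h5
    apply hcm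
    rw [hG]
    have := congrFun hx ⟨m, hmT⟩
    simpa [Finset.sum_apply] using this
  rintro ⟨β, j⟩
  have h1 : ∑ j : Fin (dd (kb s N β)), x ⟨β, j⟩ • bas ℚ (kb s N β) j = 0 := congrFun hv0 β
  exact (Fintype.linearIndependent_iff.mp (linearIndependent_bas (R := ℚ) (kb s N β)))
    (fun j => x ⟨β, j⟩) h1 j

theorem exists_rows (s : ℕ) (hs : Odd s) (hs3 : 3 ≤ s) (hs7 : s ≤ 7) (N : ℕ) (hN : 2 ≤ N)
    (a b : ℚ) (hb : b ≠ 0) : ∃ c0 : ℕ, c0 ≤ (s + 3) ^ 2 + (s + 3) ∧
      Fintype.card (Col s N) + c0 = TT s N ∧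
      ∃ rr : Fin c0 → Fin (TT s N), ∀ e : Col s N ⊕ Fin c0 ≃ Fin (TT s N),
        sdet e (VV s N a b rr) ≠ 0 := by
  have hle := card_col_le s N hs hs7 hN
  have hge := card_col_ge s N hs hs7 hN
  have hT : TT s N = (s + 3) * N + (s + 3) ^ 2 := rfl
  have hsq : s + 3 ≤ (s + 3) ^ 2 := by nlinarith
  refine ⟨TT s N - Fintype.card (Col s N), by omega, by omega, ?_⟩
  obtain ⟨r, -, hr⟩ := MP_a3a416_nt.SJ.exists_unit_columns (I := Fin (TT s N)) (K := Col s N)
    (c0 := TT s N - Fintype.card (Col s N))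
    (by rw [Fintype.card_fin]; omega)
    (fun r c => coeff (r : ℕ) (colS s N a b c)) (col_li s hs hs3 hs7 N hN a b hb)
  refine ⟨r, fun e => ?_⟩
  have h1 := hr e
  have h2 : (Matrix.of (fun i j => Sum.elim (fun k => coeff (i : ℕ) (colS s N a b k))
      (fun t => if i = r t then (1 : ℚ) else 0) (e.symm j)) :
        Matrix (Fin (TT s N)) (Fin (TT s N)) ℚ) =
      ((VV s N a b r).submatrix e id).submatrix e.symm e.symm := by
    ext i j
    simp only [Matrix.of_apply, Matrix.submatrix_apply, VV, Equiv.apply_symm_apply, id]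
  rw [h2, Matrix.det_submatrix_equiv_self] at h1
  exact h1

end Pool.Agent.L1
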