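import Pool.Agent.Lib.L1.DetMid
import Pool.Agent.Lib.L1.DetBig
import Pool.Agent.Lib.L1.DetCrude
import Pool.Agent.Lib.L1.Cnt
import Pool.Agent.Lib.L1.ZCol
import Pool.Agent.Lib.L1.ArchB

/-!
# L1.Assem: the determinant with all its properties
PROOF. `a = c.num`, `b = 2 s c.den` (`≠ 0`). `exists_rows` gives `c0`, `rr`; `e` exists by the equality of cardinalities
(`Fintype.card (Col s N ⊕ Fin c0) = card (Fin T)`). `D = sdet e VV ≠ 0`. `val ⇒ ≤ padicValRat` because `D ≠ 0`. `arch`: `arch_bound`,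
`|b| = 2 s c.den`. `mid`: `val_mid` with `τ = tmax`, and `cnt`: `12 θ (T-p) + 12 ∑ max .. ≤ lossZ`. `midflat`: `val_mid_flat`,
`12 dd (12N+p-1) ≤ 12 N + p - 1 + 12`, `12 c0 ≤ 12 ((s+3)^2 + (s+3)) ≤ 1320`. `bigflat`: `T - c0 = card Col ≥ (s+3) N - (s+3)`.
-/

set_option autoImplicit false

open MP_a3a416_nt.SJ (val sdet)

namespace Pool.Agent.L1

private lemma val_le {p : ℕ} {D : ℚ} {v : ℤ} (hD : D ≠ 0) (h : val p D v) : v ≤ padicValRat p D := by
  rcases h with h | h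
  · exact absurd h hD
  · exact h

theorem det_data (s : ℕ) (hs : Odd s) (hs3 : 3 ≤ s) (hs7 : s ≤ 7) : ∃ C : ℝ, ∀ N : ℕ, 2 ≤ N → ∀ c : ℚ,
    ∃ D : ℚ, DetL s C N c D := by
  obtain ⟨C, hC⟩ := arch_bound s hs hs3 hs7
  refine ⟨C, fun N hN c => ?_⟩
  have hb : ((2 * (s : ℤ) * (c.den : ℤ) : ℤ) : ℚ) ≠ 0 := by
    have h1 : (s : ℤ) ≠ 0 := by omega
    have h2 : (c.den : ℤ) ≠ 0 := by exact_mod_cast c.den_ne_zero
    have h3 : (2 * (s : ℤ) * (c.den : ℤ) : ℤ) ≠ 0 := mul_ne_zero (mul_ne_zero two_ne_zero h1) h2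
    exact_mod_cast h3
  obtain ⟨c0, hc0, hcard, rr, hrr⟩ := exists_rows s hs hs3 hs7 N hN (c.num : ℚ)
    ((2 * (s : ℤ) * (c.den : ℤ) : ℤ) : ℚ) hb
  have hce : Fintype.card (Col s N ⊕ Fin c0) = Fintype.card (Fin (TT s N)) := by
    rw [Fintype.card_sum, Fintype.card_fin, Fintype.card_fin, hcard]
  let e : Col s N ⊕ Fin c0 ≃ Fin (TT s N) := Fintype.equivOfCardEq hce
  have hD := hrr e
  have hge := card_col_ge s N hs hs7 hN
  have hc0' : 12 * (c0 : ℤ) ≤ 1320 := by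
    have h1 : (s + 3) ^ 2 + (s + 3) ≤ 110 := by
      have h2 : s + 3 ≤ 10 := by omega
      nlinarith
    omega
  have hcard' : (Fintype.card (Col s N) : ℤ) + c0 = TT s N := by exact_mod_cast hcard
  have hge' : ((s : ℤ) + 3) * N ≤ (Fintype.card (Col s N) : ℤ) + (s + 3) := by exact_mod_cast hge
  refine ⟨sdet e (VV s N (c.num : ℚ) ((2 * (s : ℤ) * (c.den : ℤ) : ℤ) : ℚ) rr), hD, ?_, ?_, ?_, ?_, ?_, ?_⟩
  · have h := hC N hN c.num (2 * (s : ℤ) * (c.den : ℤ)) c0 rr e hD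
    have habs : |((2 * (s : ℤ) * (c.den : ℤ) : ℤ) : ℝ)| = 2 * s * c.den := by
      rw [abs_of_nonneg]
      · push_cast
        ring
      · push_cast
        positivity
    rw [habs] at h
    exact h
  · intro p hp
    haveI : Fact p.Prime := ⟨hp⟩
    exact val_le hD (val_crude p s N c.num (2 * (s : ℤ) * (c.den : ℤ)) rr e)
  · intro p hp hp5 hpT hp2 θ hθ
    haveI : Fact p.Prime := ⟨hp⟩
    have h := val_le hD (val_mid p s N hp5 hs7 hN c.num (2 * (s : ℤ) * (c.den : ℤ)) (tmax p s N)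
      (adm_tmax p s N) rr e hpT hp2 θ)
    have hk := cnt p s N hp hp5 hs hs7 hN θ hθ
    unfold lossZ
    linarith
  · intro p hp hsp hpT hp2 hf θ hθ
    haveI : Fact p.Prime := ⟨hp⟩
    have h := val_le hD (val_mid_flat p s N hs hs3 hsp hs7 hN c hf (tmax p s N)
      (adm_tmax p s N) rr e hpT hp2 θ)
    have hk := cnt p s N hp (by omega) hs hs7 hN θ hθ
    have hdd := dd_le (12 * N + p - 1)
    have hdd' : 12 * (dd (12 * N + p - 1) : ℤ) ≤ 12 * N + p - 1 + 12 := by omega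
    unfold lossZ
    linarith
  · intro p hp hp5 hpT
    haveI : Fact p.Prime := ⟨hp⟩
    exact val_le hD (val_big p s N hp5 hN c.num (2 * (s : ℤ) * (c.den : ℤ)) rr e hpT)
  · intro p hp hsp hpT hf
    haveI : Fact p.Prime := ⟨hp⟩
    have h := val_le hD (val_big_flat p s N hs hs3 hsp hs7 hN c hf rr e hpT)
    have hdd := dd_le (12 * N + p - 1)
    have hdd' : 12 * (dd (12 * N + p - 1) : ℤ) ≤ 12 * N + p - 1 + 12 := by omega
    have hs7' : (s : ℤ) ≤ 7 := by exact_mod_cast hs7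
    linarith

end Pool.Agent.L1
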