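import Pool.Agent.Lib.L1.BMain

/-! # L1.BFin: the theorem from the determinants (helper53) -/

set_option autoImplicit false

namespace Pool.Agent.L1

open Finset Filter Asymptotics MP_a3a416_nt.SJ MP_a3a416_nt.SJ5

theorem archC_eq (s : ℕ) : archC s = 6 * ((s : ℝ) + 3) * Real.log ((s : ℝ) + 3) + ((s : ℝ) + 3) := by
  unfold archC
  have hs : (0 : ℝ) < (s : ℝ) + 3 := by positivity
  have hpi := Real.pi_pos
  rw [Real.log_div (by positivity) (by norm_num), Real.log_mul hpi.ne' hs.ne',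
    Real.log_div (by norm_num) hpi.ne']
  ring

private theorem icc3 : Icc 1 3 = ({1, 2, 3} : Finset ℕ) := by decide
private theorem icc5 : Icc 1 5 = ({1, 2, 3, 4, 5} : Finset ℕ) := by decide
private theorem icc7 : Icc 1 7 = ({1, 2, 3, 4, 5, 6, 7} : Finset ℕ) := by decide

theorem num3 : 12 * archC 3 + 331 < Tot 3 := by
  rw [archC_eq]
  unfold Tot yj
  rw [icc3]
  have h6 : Real.log 6 = Real.log 2 + Real.log 3 := by
    rw [show (6 : ℝ) = 2 * 3 by norm_num, Real.log_mul (by norm_num) (by norm_num)]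
  have h3 : 5 * Real.log 3 = 8 * Real.log 2 + Real.log (243 / 256) := by
    rw [Real.log_div (by norm_num) (by norm_num), show (243 : ℝ) = 3 ^ 5 by norm_num,
      show (256 : ℝ) = 2 ^ 8 by norm_num, Real.log_pow, Real.log_pow]
    push_cast; ring
  have b1 : Real.log (243 / 256) ≤ 243 / 256 - 1 := Real.log_le_sub_one_of_pos (by norm_num)
  have c2 := Real.log_two_lt_d9
  norm_num [sum_insert, sum_singleton]
  rw [h6]
  norm_num at b1
  linarith

theorem num5 : 12 * archC 5 + 455 < Tot 5 := by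
  rw [archC_eq]
  unfold Tot yj
  rw [icc5]
  have h8 : Real.log 8 = 3 * Real.log 2 := by
    rw [show (8 : ℝ) = 2 ^ 3 by norm_num, Real.log_pow]
    push_cast; ring
  have c2 := Real.log_two_lt_d9
  norm_num [sum_insert, sum_singleton]
  rw [h8]
  linarith

theorem num7 : 12 * archC 7 + 131 < Tot 7 := by
  rw [archC_eq]
  unfold Tot yj
  rw [icc7]
  have h10 : Real.log 10 = Real.log 2 + Real.log 5 := by
    rw [show (10 : ℝ) = 2 * 5 by norm_num, Real.log_mul (by norm_num) (by norm_num)]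
  have h3 : 3 * Real.log 5 = 7 * Real.log 2 + Real.log (125 / 128) := by
    rw [Real.log_div (by norm_num) (by norm_num), show (125 : ℝ) = 5 ^ 3 by norm_num,
      show (128 : ℝ) = 2 ^ 7 by norm_num, Real.log_pow, Real.log_pow]
    push_cast; ring
  have b1 : Real.log (125 / 128) ≤ 125 / 128 - 1 := Real.log_le_sub_one_of_pos (by norm_num)
  have c2 := Real.log_two_lt_d9
  norm_num [sum_insert, sum_singleton]
  rw [h10]
  norm_num at b1
  linarith

private theorem ev_lin (C K η : ℝ) (hη : 0 < η) : ∀ᶠ N : ℕ in atTop, C * Real.log N + K ≤ η * N := by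
  have h1 : (fun N : ℕ => C * Real.log (N : ℝ)) =o[atTop] (fun N : ℕ => (N : ℝ)) := by
    have h2 := Real.isLittleO_log_id_atTop.comp_tendsto (tendsto_natCast_atTop_atTop (R := ℝ))
    exact (h2.const_mul_left C)
  have h3 := h1.bound (show (0 : ℝ) < η / 2 by positivity)
  have h4 : ∀ᶠ N : ℕ in atTop, K ≤ η / 2 * N :=
    (tendsto_natCast_atTop_atTop.const_mul_atTop (show (0 : ℝ) < η / 2 by positivity)).eventually_ge_atTop K
  filter_upwards [h3, h4] with N h5 h6
  rw [Real.norm_eq_abs, Real.norm_eq_abs, abs_of_nonneg (Nat.cast_nonneg N : (0 : ℝ) ≤ N)] at h5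
  have := (abs_le.1 h5).2
  linarith

open Classical in
theorem main_core {s : ℕ} (hs : s = 3 ∨ s = 5 ∨ s = 7) {κ δ : ℝ} (hκ : 12 * archC s + κ < Tot s)
    (hδ0 : 0 ≤ δ)
    (hδ : (11 * s + 21) * δ * (12 * (s + 2)) + 12 * (s + 1) * (12 * (s + 2)) / 10000 < κ)
    {C : ℝ} (hdet : ∀ N : ℕ, 2 ≤ N → ∀ c : ℚ, ∃ D : ℚ, DetL s C N c D) :
    ∀ᶠ x : ℕ in atTop, ∀ c : ℚ,
    |(c.num : ℝ)| ≤ Real.exp (x / 10000) → (c.den : ℝ) ≤ Real.exp (x / 10000) →
    δ * ((x : ℝ) / Real.log x) ≤
      (((Finset.range (x + 1)).filter (fun p : ℕ => p.Prime ∧ s + 2 ≤ p ∧ ¬ Flat s c p)).card : ℝ) := by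
  have hsp : (0 : ℝ) < s := by
    rcases hs with rfl | rfl | rfl <;> norm_num
  set L : ℝ := Real.log (2 * s + 2) with hL
  have hL0 : 0 ≤ L := Real.log_nonneg (by linarith)
  set η : ℝ := κ - ((11 * s + 21) * δ * (12 * (s + 2)) + 12 * (s + 1) * (12 * (s + 2)) / 10000) with hη
  have hη0 : 0 < η := by rw [hη]; linarith
  have h1 := budget hs hκ
  have h2 := ev_lin (12 * C) ((11 * s + 21) * δ * (12 * (s + 2)) + 24 * (s + 1) * L +
    12 * (s + 1) * (12 * (s + 2)) / 10000 * 3) η hη0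
  obtain ⟨N0, hN0⟩ := eventually_atTop.1 ((h1.and h2).and (eventually_ge_atTop 100))
  filter_upwards [eventually_ge_atTop (12 * (s + 2) * (N0 + 1)), eventually_ge_atTop 10] with x hx hx10
  intro c hc1 hc2
  set X0 := 12 * (s + 2) with hX0
  have hX0p : 0 < X0 := by rw [hX0]; omega
  set N := x / X0 with hN
  have hN1 : N0 + 1 ≤ N := by
    rw [hN, Nat.le_div_iff_mul_le hX0p]
    linarith
  have hNx : X0 * N ≤ x := Nat.mul_div_le x X0
  have hxN : x ≤ X0 * (N + 1) := (Nat.lt_mul_div_succ x hX0p).le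
  obtain ⟨⟨h3, h4⟩, h5⟩ := hN0 N (by omega)
  obtain ⟨D, hD⟩ := hdet N (by omega) c
  have h6 := h3 C c D hD
  have h7 := hD.arch
  have hNR : (100 : ℝ) ≤ N := by exact_mod_cast h5
  have hx10R : (10 : ℝ) ≤ x := by exact_mod_cast hx10
  have hxR : (x : ℝ) ≤ (12 * (s + 2)) * (N + 1) := by exact_mod_cast hxN
  -- the height
  have hlog : Real.log (|(c.num : ℝ)| + 2 * s * c.den + 1) ≤ L + x / 10000 := by
    have he1 : 1 ≤ Real.exp ((x : ℝ) / 10000) := Real.one_le_exp (by positivity)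
    rw [hL, Real.log_le_iff_le_exp (by positivity), Real.exp_add, Real.exp_log (by positivity)]
    nlinarith
  have e1 : ((s : ℝ) + 1) * (N + 1) * Real.log (|(c.num : ℝ)| + 2 * s * c.den + 1) ≤
      (s + 1) * (N + 1) * (L + (12 * (s + 2)) * (N + 1) / 10000) := by
    apply mul_le_mul_of_nonneg_left _ (by positivity)
    have : (x : ℝ) / 10000 ≤ (12 * (s + 2)) * (N + 1) / 10000 :=
      div_le_div_of_nonneg_right hxR (by norm_num)
    linarith
  -- all together, divided by N
  have e2 : κ * (N : ℝ) ^ 2 - (11 * s + 21) * N * Nf s N c ≤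
      12 * C * N * Real.log N + 12 * ((s + 1) * (N + 1) * (L + (12 * (s + 2)) * (N + 1) / 10000)) := by
    linarith
  have e3 : 12 * (((s : ℝ) + 1) * (N + 1) * (L + (12 * (s + 2)) * (N + 1) / 10000)) ≤
      N * (24 * (s + 1) * L + 12 * (s + 1) * (12 * (s + 2)) / 10000 * (N + 3)) := by
    have a1 : (N : ℝ) + 1 ≤ 2 * N := by linarith
    have a2 : ((N : ℝ) + 1) * (N + 1) ≤ N * (N + 3) := by nlinarith
    have a3 : 12 * ((s : ℝ) + 1) * L * (N + 1) ≤ 12 * ((s : ℝ) + 1) * L * (2 * N) :=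
      mul_le_mul_of_nonneg_left a1 (by positivity)
    have a4 : 12 * ((s : ℝ) + 1) * (12 * (s + 2)) / 10000 * (((N : ℝ) + 1) * (N + 1)) ≤
        12 * ((s : ℝ) + 1) * (12 * (s + 2)) / 10000 * (N * (N + 3)) :=
      mul_le_mul_of_nonneg_left a2 (by positivity)
    nlinarith
  have e4 : (N : ℝ) * (κ * N - (11 * s + 21) * Nf s N c) ≤
      N * (12 * C * Real.log N + (24 * (s + 1) * L + 12 * (s + 1) * (12 * (s + 2)) / 10000 * (N + 3))) := by
    linarith
  have e5 := le_of_mul_le_mul_left e4 (by linarith)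
  have e6 : (11 * (s : ℝ) + 21) * (δ * x) ≤ (11 * s + 21) * Nf s N c := by
    have a1 : (11 * (s : ℝ) + 21) * (δ * x) ≤ (11 * s + 21) * δ * (12 * (s + 2)) * (N + 1) := by
      have := mul_le_mul_of_nonneg_left hxR (show 0 ≤ (11 * (s : ℝ) + 21) * δ by positivity)
      linarith
    have a2 : η * N = κ * N - ((11 * s + 21) * δ * (12 * (s + 2)) * N +
        12 * (s + 1) * (12 * (s + 2)) / 10000 * N) := by
      rw [hη]
      ring
    linarith
  have e7 : δ * x ≤ Nf s N c := le_of_mul_le_mul_left e6 (by positivity)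
  -- from the sum to the number of primes
  have hlx : 0 < Real.log x := Real.log_pos (by linarith)
  have h8 : Nf s N c ≤ (((range (x + 1)).filter (fun p : ℕ => p.Prime ∧ s + 2 ≤ p ∧
        ¬ Flat s c p)).card : ℝ) * Real.log x := by
    calc Nf s N c ≤ ∑ p ∈ (range (x + 1)).filter (fun p : ℕ => p.Prime ∧ s + 2 ≤ p ∧
        ¬ Flat s c p), Real.log p := by
          unfold Nf
          apply sum_le_sum_of_subset_of_nonneg
          · intro p hp
            rw [mem_filter, prs, mem_filter, mem_Ioc] at hp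
            rw [mem_filter, mem_range]
            have hNx' : 12 * (s + 2) * N ≤ x := hNx
            refine ⟨by omega, hp.1.2, by omega, hp.2⟩
          · intro p _ _
            exact Real.log_natCast_nonneg p
      _ ≤ ∑ p ∈ (range (x + 1)).filter (fun p : ℕ => p.Prime ∧ s + 2 ≤ p ∧
        ¬ Flat s c p), Real.log x := by
          apply sum_le_sum
          intro p hp
          rw [mem_filter, mem_range] at hp
          apply Real.log_le_log
          · exact_mod_cast hp.2.1.pos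
          · exact_mod_cast (by omega : p ≤ x)
      _ = _ := by rw [sum_const, nsmul_eq_mul]
  rw [mul_div_assoc', div_le_iff₀ hlx]
  exact e7.trans h8

end Pool.Agent.L1
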