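import Pool.Agent.Lib.L1.BSum

/-! # L1.BLoc: the local bounds in the form used by the budget (helper53) -/

set_option autoImplicit false

namespace Pool.Agent.L1

open Finset MP_a3a416_nt.SJ MP_a3a416_nt.SJ5

private theorem icc3 : Icc 1 3 = ({1, 2, 3} : Finset ℕ) := by decide
private theorem icc5 : Icc 1 5 = ({1, 2, 3, 4, 5} : Finset ℕ) := by decide
private theorem icc7 : Icc 1 7 = ({1, 2, 3, 4, 5, 6, 7} : Finset ℕ) := by decide

private theorem icc1 : Icc 1 1 = ({1} : Finset ℕ) := by decide
private theorem icc2 : Icc 1 2 = ({1, 2} : Finset ℕ) := by decide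
private theorem icc4 : Icc 1 4 = ({1, 2, 3, 4} : Finset ℕ) := by decide
private theorem icc6 : Icc 1 6 = ({1, 2, 3, 4, 5, 6} : Finset ℕ) := by decide
private theorem icc0 : Icc 1 0 = (∅ : Finset ℕ) := by decide

theorem gl3 (N p : ℕ) : gl 3 N p = 36 * p - 216 * N + (max 0 (60 * (N : ℤ) - 15 * p) +
    (max 0 (48 * (N : ℤ) - 16 * p) + max 0 (36 * (N : ℤ) - 15 * p))) := by
  unfold gl hgz yj
  rw [icc3]
  norm_num [sum_insert, sum_singleton]

theorem gl5 (N p : ℕ) : gl 5 N p = 60 * p - 480 * N + (max 0 (84 * (N : ℤ) - 17 * p) +
    (max 0 (72 * (N : ℤ) - 20 * p) + (max 0 (60 * (N : ℤ) - 21 * p) + (max 0 (48 * (N : ℤ) - 20 * p) +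
      max 0 (36 * (N : ℤ) - 17 * p))))) := by
  unfold gl hgz yj
  rw [icc5]
  norm_num [sum_insert, sum_singleton]

theorem gl7 (N p : ℕ) : gl 7 N p = 84 * p - 840 * N + (max 0 (108 * (N : ℤ) - 19 * p) +
    (max 0 (96 * (N : ℤ) - 24 * p) + (max 0 (84 * (N : ℤ) - 27 * p) + (max 0 (72 * (N : ℤ) - 28 * p) +
      (max 0 (60 * (N : ℤ) - 27 * p) + (max 0 (48 * (N : ℤ) - 24 * p) + max 0 (36 * (N : ℤ) - 19 * p))))))) := by
  unfold gl hgz yj
  rw [icc7]
  norm_num [sum_insert, sum_singleton]

/-- the general lower bound is attained by one of the bounds `lossZ` -/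
theorem gl_le_loss (s N p : ℕ) (hs : s = 3 ∨ s = 5 ∨ s = 7) :
    ∃ θ ≤ s, gl s N p - 10400 ≤ -lossZ s N p θ := by
  rcases hs with rfl | rfl | rfl
  · rw [gl3]
    rcases le_or_gt (60 * (N : ℤ)) (15 * p) with h1 | h1
    · refine ⟨3, by norm_num, ?_⟩
      rw [max_eq_left (by linarith), max_eq_left (by linarith), max_eq_left (by linarith)]
      unfold lossZ TT
      simp only [Nat.reduceSub, icc0]
      norm_num [sum_insert, sum_singleton]
      linarith
    rcases le_or_gt (48 * (N : ℤ)) (16 * p) with h2 | h2
    · refine ⟨2, by norm_num, ?_⟩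
      rw [max_eq_right (by linarith), max_eq_left (by linarith), max_eq_left (by linarith)]
      unfold lossZ TT
      simp only [Nat.reduceSub, icc1]
      norm_num [sum_insert, sum_singleton]
      linarith
    rcases le_or_gt (36 * (N : ℤ)) (15 * p) with h3 | h3
    · refine ⟨1, by norm_num, ?_⟩
      rw [max_eq_right (by linarith), max_eq_right (by linarith), max_eq_left (by linarith)]
      unfold lossZ TT
      simp only [Nat.reduceSub, icc2]
      norm_num [sum_insert, sum_singleton]
      linarith
    · refine ⟨0, by norm_num, ?_⟩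
      rw [max_eq_right (by linarith), max_eq_right (by linarith), max_eq_right (by linarith)]
      unfold lossZ TT
      simp only [Nat.reduceSub, icc3]
      norm_num [sum_insert, sum_singleton]
      linarith
  · rw [gl5]
    rcases le_or_gt (84 * (N : ℤ)) (17 * p) with h1 | h1
    · refine ⟨5, by norm_num, ?_⟩
      rw [max_eq_left (by linarith), max_eq_left (by linarith), max_eq_left (by linarith), max_eq_left (by linarith), max_eq_left (by linarith)]
      unfold lossZ TT
      simp only [Nat.reduceSub, icc0]
      norm_num [sum_insert, sum_singleton]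
      linarith
    rcases le_or_gt (72 * (N : ℤ)) (20 * p) with h2 | h2
    · refine ⟨4, by norm_num, ?_⟩
      rw [max_eq_right (by linarith), max_eq_left (by linarith), max_eq_left (by linarith), max_eq_left (by linarith), max_eq_left (by linarith)]
      unfold lossZ TT
      simp only [Nat.reduceSub, icc1]
      norm_num [sum_insert, sum_singleton]
      linarith
    rcases le_or_gt (60 * (N : ℤ)) (21 * p) with h3 | h3
    · refine ⟨3, by norm_num, ?_⟩
      rw [max_eq_right (by linarith), max_eq_right (by linarith), max_eq_left (by linarith), max_eq_left (by linarith), max_eq_left (by linarith)]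
      unfold lossZ TT
      simp only [Nat.reduceSub, icc2]
      norm_num [sum_insert, sum_singleton]
      linarith
    rcases le_or_gt (48 * (N : ℤ)) (20 * p) with h4 | h4
    · refine ⟨2, by norm_num, ?_⟩
      rw [max_eq_right (by linarith), max_eq_right (by linarith), max_eq_right (by linarith), max_eq_left (by linarith), max_eq_left (by linarith)]
      unfold lossZ TT
      simp only [Nat.reduceSub, icc3]
      norm_num [sum_insert, sum_singleton]
      linarith
    rcases le_or_gt (36 * (N : ℤ)) (17 * p) with h5 | h5
    · refine ⟨1, by norm_num, ?_⟩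
      rw [max_eq_right (by linarith), max_eq_right (by linarith), max_eq_right (by linarith), max_eq_right (by linarith), max_eq_left (by linarith)]
      unfold lossZ TT
      simp only [Nat.reduceSub, icc4]
      norm_num [sum_insert, sum_singleton]
      linarith
    · refine ⟨0, by norm_num, ?_⟩
      rw [max_eq_right (by linarith), max_eq_right (by linarith), max_eq_right (by linarith), max_eq_right (by linarith), max_eq_right (by linarith)]
      unfold lossZ TT
      simp only [Nat.reduceSub, icc5]
      norm_num [sum_insert, sum_singleton]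
      linarith
  · rw [gl7]
    rcases le_or_gt (108 * (N : ℤ)) (19 * p) with h1 | h1
    · refine ⟨7, by norm_num, ?_⟩
      rw [max_eq_left (by linarith), max_eq_left (by linarith), max_eq_left (by linarith), max_eq_left (by linarith), max_eq_left (by linarith), max_eq_left (by linarith), max_eq_left (by linarith)]
      unfold lossZ TT
      simp only [Nat.reduceSub, icc0]
      norm_num [sum_insert, sum_singleton]
      linarith
    rcases le_or_gt (96 * (N : ℤ)) (24 * p) with h2 | h2
    · refine ⟨6, by norm_num, ?_⟩
      rw [max_eq_right (by linarith), max_eq_left (by linarith), max_eq_left (by linarith), max_eq_left (by linarith), max_eq_left (by linarith), max_eq_left (by linarith), max_eq_left (by linarith)]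
      unfold lossZ TT
      simp only [Nat.reduceSub, icc1]
      norm_num [sum_insert, sum_singleton]
      linarith
    rcases le_or_gt (84 * (N : ℤ)) (27 * p) with h3 | h3
    · refine ⟨5, by norm_num, ?_⟩
      rw [max_eq_right (by linarith), max_eq_right (by linarith), max_eq_left (by linarith), max_eq_left (by linarith), max_eq_left (by linarith), max_eq_left (by linarith), max_eq_left (by linarith)]
      unfold lossZ TT
      simp only [Nat.reduceSub, icc2]
      norm_num [sum_insert, sum_singleton]
      linarith
    rcases le_or_gt (72 * (N : ℤ)) (28 * p) with h4 | h4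
    · refine ⟨4, by norm_num, ?_⟩
      rw [max_eq_right (by linarith), max_eq_right (by linarith), max_eq_right (by linarith), max_eq_left (by linarith), max_eq_left (by linarith), max_eq_left (by linarith), max_eq_left (by linarith)]
      unfold lossZ TT
      simp only [Nat.reduceSub, icc3]
      norm_num [sum_insert, sum_singleton]
      linarith
    rcases le_or_gt (60 * (N : ℤ)) (27 * p) with h5 | h5
    · refine ⟨3, by norm_num, ?_⟩
      rw [max_eq_right (by linarith), max_eq_right (by linarith), max_eq_right (by linarith), max_eq_right (by linarith), max_eq_left (by linarith), max_eq_left (by linarith), max_eq_left (by linarith)]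
      unfold lossZ TT
      simp only [Nat.reduceSub, icc4]
      norm_num [sum_insert, sum_singleton]
      linarith
    rcases le_or_gt (48 * (N : ℤ)) (24 * p) with h6 | h6
    · refine ⟨2, by norm_num, ?_⟩
      rw [max_eq_right (by linarith), max_eq_right (by linarith), max_eq_right (by linarith), max_eq_right (by linarith), max_eq_right (by linarith), max_eq_left (by linarith), max_eq_left (by linarith)]
      unfold lossZ TT
      simp only [Nat.reduceSub, icc5]
      norm_num [sum_insert, sum_singleton]
      linarith
    rcases le_or_gt (36 * (N : ℤ)) (19 * p) with h7 | h7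
    · refine ⟨1, by norm_num, ?_⟩
      rw [max_eq_right (by linarith), max_eq_right (by linarith), max_eq_right (by linarith), max_eq_right (by linarith), max_eq_right (by linarith), max_eq_right (by linarith), max_eq_left (by linarith)]
      unfold lossZ TT
      simp only [Nat.reduceSub, icc6]
      norm_num [sum_insert, sum_singleton]
      linarith
    · refine ⟨0, by norm_num, ?_⟩
      rw [max_eq_right (by linarith), max_eq_right (by linarith), max_eq_right (by linarith), max_eq_right (by linarith), max_eq_right (by linarith), max_eq_right (by linarith), max_eq_right (by linarith)]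
      unfold lossZ TT
      simp only [Nat.reduceSub, icc7]
      norm_num [sum_insert, sum_singleton]
      linarith

theorem ex_le_low (s N p : ℕ) : ex s N p ≤ max 0 (11 * (p : ℤ) - 12 * N) :=
  max_le_max le_rfl (min_le_left _ _)

theorem ex_le_high (s N p : ℕ) : ex s N p ≤ max 0 ((12 * (s + 2) : ℕ) * (N : ℤ) - p) :=
  max_le_max le_rfl (min_le_right _ _)

theorem loss_top (s N p : ℕ) (hs7 : s ≤ 7) (h : (s + 3) * N ≤ p) : lossZ s N p s ≤ 10400 := by
  have h' : ((s : ℤ) + 3) * N ≤ p := by exact_mod_cast h
  have hs : (s : ℤ) ≤ 7 := by exact_mod_cast hs7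
  have hs0 : (0 : ℤ) ≤ s := Int.natCast_nonneg s
  unfold lossZ TT
  simp only [Nat.sub_self, icc0, sum_empty]
  push_cast
  have h1 : 12 * (s : ℤ) * (((s : ℤ) + 3) * N + ((s : ℤ) + 3) ^ 2 - p) ≤ 12 * (s : ℤ) * ((s : ℤ) + 3) ^ 2 := by
    apply mul_le_mul_of_nonneg_left _ (by positivity)
    linarith
  have h2 : 12 * (s : ℤ) * ((s : ℤ) + 3) ^ 2 ≤ 8400 := by
    have : ((s : ℤ) + 3) ^ 2 ≤ 100 := by nlinarith
    nlinarith
  linarith

open Classical in
/-- the local bound at the primes `p ≥ 18`, `p^2 ≥ T` -/
theorem loc_bound {s : ℕ} (hs : s = 3 ∨ s = 5 ∨ s = 7) {C : ℝ} {N : ℕ} {c D : ℚ} (H : DetL s C N c D) {p : ℕ}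
    (hp : p.Prime) (h18 : 18 ≤ p) (h2 : TT s N ≤ p ^ 2) :
    (if p ≤ (s + 3) * N then gl s N p else 0) + (if Flat s c p then ex s N p else 0) - 12400 ≤
      12 * padicValRat p D := by
  have hs7 : s ≤ 7 := by omega
  have e1 := ex_le_low s N p
  have e2 := ex_le_high s N p
  rcases le_or_gt p (TT s N) with hT | hT
  · -- the two cases below `T`
    obtain ⟨θ, hθ, hl⟩ : ∃ θ ≤ s, (if p ≤ (s + 3) * N then gl s N p else 0) - 10400 ≤ -lossZ s N p θ := by
      split_ifs with h
      · exact gl_le_loss s N p hs
      · refine ⟨s, le_rfl, ?_⟩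
        have := loss_top s N p hs7 (by omega)
        linarith
    have hmid := H.mid p hp (by omega) hT h2 θ hθ
    by_cases hf : Flat s c p
    · rw [if_pos hf]
      have hmf := H.midflat p hp (by omega) hT h2 hf θ hθ
      rcases le_total (11 * (p : ℤ) - 12 * N) 0 with h0 | h0
      · rw [max_eq_left h0] at e1
        linarith
      · rw [max_eq_right h0] at e1
        linarith
    · rw [if_neg hf]
      linarith
  · have hn : ¬ p ≤ (s + 3) * N := by
      unfold TT at hT
      nlinarith [sq_nonneg (s + 3)]
    rw [if_neg hn]
    have hb := H.big p hp (by omega) hT.le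
    by_cases hf : Flat s c p
    · rw [if_pos hf]
      have hbf := H.bigflat p hp (by omega) hT.le hf
      push_cast at e2
      rcases le_total (12 * ((s : ℤ) + 2) * (N : ℤ) - p) 0 with h0 | h0
      · rw [max_eq_left h0] at e2
        linarith
      · rw [max_eq_right h0] at e2
        linarith
    · rw [if_neg hf]
      linarith

end Pool.Agent.L1
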