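import Pool.Agent.Lib.L1.BLoc
import Pool.Agent.Lib.MP_a3a416_nt.SJ.PF

/-! # L1.BMain: the lower bound for `log |D|` (helper53) -/

set_option autoImplicit false

namespace Pool.Agent.L1

open Finset Filter Asymptotics MP_a3a416_nt.SJ MP_a3a416_nt.SJ5

open Classical in
/-- the non-flat primes in `(N, 12 (s+2) N]` weighted by `log p` -/
noncomputable def Nf (s N : ℕ) (c : ℚ) : ℝ :=
  ∑ p ∈ (prs N (12 * (s + 2) * N)).filter (fun p => ¬ Flat s c p), Real.log p

/-- the error of the small primes -/
noncomputable def smErr (N : ℕ) : ℝ :=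
  (18 + Real.sqrt (10 * N + 100)) * ((1740 * N + 8400) * Real.log (10 * N + 100))

private theorem smErr_littleO : smErr =o[atTop] (fun m : ℕ => (m : ℝ) ^ 2) := by
  have h1 : (fun x : ℝ => (18 + Real.sqrt (10 * x + 100)) * ((1740 * x + 8400) * Real.log (10 * x + 100)))
      =o[atTop] (fun x : ℝ => x ^ 2) := by
    have h2 : (fun x : ℝ => Real.log x) =o[atTop] (fun x : ℝ => Real.sqrt x) := by
      have := isLittleO_log_rpow_atTop (show (0 : ℝ) < 1 / 2 by norm_num)
      simpa [Real.sqrt_eq_rpow] using this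
    have h200 : Tendsto (fun x : ℝ => 10 * x + 100) atTop atTop :=
      tendsto_atTop_add_const_right _ _ (tendsto_id.const_mul_atTop (by norm_num))
    have h3 : (fun x : ℝ => Real.log (10 * x + 100)) =o[atTop] (fun x : ℝ => Real.sqrt (10 * x + 100)) :=
      h2.comp_tendsto h200
    have h4 : (fun x : ℝ => 1740 * x + 8400) =O[atTop] (fun x : ℝ => x) := by
      apply IsBigO.of_bound 10140
      filter_upwards [eventually_ge_atTop (1 : ℝ)] with x hx
      rw [Real.norm_eq_abs, Real.norm_eq_abs, abs_of_nonneg (by linarith), abs_of_nonneg (by linarith)]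
      linarith
    have h5 : (fun x : ℝ => 18 + Real.sqrt (10 * x + 100)) =O[atTop] (fun x : ℝ => Real.sqrt (10 * x + 100)) := by
      apply IsBigO.of_bound 19
      filter_upwards [eventually_ge_atTop (1 : ℝ)] with x hx
      have : 1 ≤ Real.sqrt (10 * x + 100) := by
        rw [show (1 : ℝ) = Real.sqrt 1 by simp]
        exact Real.sqrt_le_sqrt (by linarith)
      rw [Real.norm_eq_abs, Real.norm_eq_abs, abs_of_nonneg (by linarith), abs_of_nonneg (by linarith)]
      linarith
    have h6 : (fun x : ℝ => Real.sqrt (10 * x + 100) * Real.sqrt (10 * x + 100)) =O[atTop]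
        (fun x : ℝ => x) := by
      apply IsBigO.of_bound 110
      filter_upwards [eventually_ge_atTop (1 : ℝ)] with x hx
      rw [Real.mul_self_sqrt (by linarith), Real.norm_eq_abs, Real.norm_eq_abs,
        abs_of_nonneg (by linarith), abs_of_nonneg (by linarith)]
      linarith
    have h7 := (h5.mul_isLittleO h3).trans_isBigO h6
    have h8 := h7.mul_isBigO h4
    refine (h8.congr_left fun x => ?_).congr_right fun x => ?_
    · ring
    · ring
  exact h1.comp_tendsto tendsto_natCast_atTop_atTop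

private theorem card_small (T X : ℕ) :
    (((prs 0 X).filter fun p => ¬ (18 ≤ p ∧ T ≤ p ^ 2)).card : ℝ) ≤ 18 + Real.sqrt T := by
  have hcard : ((prs 0 X).filter fun p => ¬ (18 ≤ p ∧ T ≤ p ^ 2)).card ≤ 18 + Nat.sqrt T := by
    calc ((prs 0 X).filter fun p => ¬ (18 ≤ p ∧ T ≤ p ^ 2)).card ≤
        (Finset.range 18 ∪ Icc 1 (Nat.sqrt T)).card := by
          refine Finset.card_le_card ?_
          intro p hp
          rw [mem_filter, prs, mem_filter, mem_Ioc] at hp
          rw [mem_union, mem_range, mem_Icc]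
          by_cases h18 : 18 ≤ p
          · right
            refine ⟨by omega, Nat.le_sqrt'.2 ?_⟩
            by_contra h
            exact hp.2 ⟨h18, by omega⟩
          · left
            omega
      _ ≤ (Finset.range 18).card + (Icc 1 (Nat.sqrt T)).card := card_union_le _ _
      _ = 18 + Nat.sqrt T := by simp
  calc (((prs 0 X).filter fun p => ¬ (18 ≤ p ∧ T ≤ p ^ 2)).card : ℝ) ≤ ((18 + Nat.sqrt T : ℕ) : ℝ) := by
        exact_mod_cast hcard
    _ = 18 + (Nat.sqrt T : ℝ) := by push_cast; ring
    _ ≤ 18 + Real.sqrt (T : ℝ) := by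
        have := Real.nat_sqrt_le_real_sqrt (a := T)
        linarith

theorem gl_le (s N p : ℕ) (h : p ≤ (s + 3) * N) : gl s N p ≤ (12 * s * (s + 2) : ℕ) * N := by
  unfold gl
  have h' : (p : ℤ) ≤ (s + 3) * N := by exact_mod_cast h
  have h1 : ∑ j ∈ Icc 1 s, hgz s N p j ≤ ∑ j ∈ Icc 1 s, ((12 * (s + 2) : ℕ) * N : ℤ) := by
    refine sum_le_sum fun j hj => ?_
    rw [mem_Icc] at hj
    unfold hgz
    refine max_le (by positivity) ?_
    have h2 : ((12 * (s + 3 - j) : ℕ) : ℤ) ≤ (12 * (s + 2) : ℕ) := by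
      exact_mod_cast (by omega : 12 * (s + 3 - j) ≤ 12 * (s + 2))
    have h3 : ((12 * (s + 3 - j) : ℕ) : ℤ) * N ≤ (12 * (s + 2) : ℕ) * N :=
      mul_le_mul_of_nonneg_right h2 (by positivity)
    have h4 : (0 : ℤ) ≤ (yj s j : ℕ) * p := by positivity
    linarith
  rw [sum_const, Nat.card_Icc, nsmul_eq_mul] at h1
  have h2 : ((12 * s : ℕ) : ℤ) * p ≤ (12 * s * (s + 3) : ℕ) * N := by
    have := mul_le_mul_of_nonneg_left h' (show (0 : ℤ) ≤ 12 * s by positivity)
    push_cast
    linarith
  have h3 : ((s + 1 - 1 : ℕ) : ℤ) * ((12 * (s + 2) : ℕ) * N : ℤ) = (12 * s * (s + 2) : ℕ) * N := by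
    rw [Nat.add_sub_cancel]
    push_cast
    ring
  rw [h3] at h1
  linarith

open Classical in
/-- the sum over the primes -/
theorem budget_sum {s : ℕ} (hs : s = 3 ∨ s = 5 ∨ s = 7) {C : ℝ} {N : ℕ} (hN : 2 ≤ N) {c D : ℚ}
    (H : DetL s C N c D) :
    (∑ p ∈ prs 0 ((s + 3) * N), (gl s N p : ℝ) * Real.log p +
      ∑ p ∈ prs 0 (12 * (s + 2) * N), (ex s N p : ℝ) * Real.log p) -
      12400 * ∑ p ∈ prs 0 (12 * (s + 2) * N), Real.log (p : ℝ) - smErr N -
      (11 * s + 21) * N * Nf s N c ≤ 12 * Real.log |(D : ℝ)| := by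
  have hs7 : s ≤ 7 := by omega
  have hs3 : 3 ≤ s := by omega
  set X := 12 * (s + 2) * N with hX
  set T := TT s N with hT
  have hTX : T ≤ X := by
    rw [hT, hX]
    unfold TT
    nlinarith
  have hT10 : T ≤ 10 * N + 100 := by
    rw [hT]
    unfold TT
    nlinarith
  have hT36 : 36 ≤ T := by
    rw [hT]
    unfold TT
    nlinarith
  have hTR : (T : ℝ) ≤ 10 * N + 100 := by exact_mod_cast hT10
  have hT36R : (36 : ℝ) ≤ T := by exact_mod_cast hT36
  have hNR : (2 : ℝ) ≤ N := by exact_mod_cast hN
  have hlogT : 0 ≤ Real.log T := Real.log_nonneg (by linarith)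
  have hlogT2 : Real.log T ≤ Real.log (10 * N + 100) := Real.log_le_log (by linarith) hTR
  -- the local function
  set g : ℕ → ℤ := fun p => (if p ≤ (s + 3) * N then gl s N p else 0) + (if Flat s c p then ex s N p else 0)
    with hg
  set w : ℕ → ℝ := fun p => if 18 ≤ p ∧ T ≤ p ^ 2 then ((g p : ℝ) - 12400) else
    -(12 * (T : ℝ) * (s * Nat.log p T)) with hw
  have hgle : ∀ p, (g p : ℝ) ≤ 900 * N := by
    intro p
    have h1 : (if p ≤ (s + 3) * N then gl s N p else 0) ≤ (12 * s * (s + 2) : ℕ) * N := by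
      split_ifs with h
      · exact gl_le s N p h
      · positivity
    have h2 : (if Flat s c p then ex s N p else 0) ≤ (11 * s + 21 : ℕ) * N := by
      split_ifs with h
      · exact ex_le s N p
      · positivity
    have h3 : g p ≤ 900 * N := by
      have h4 : g p ≤ (12 * s * (s + 2) : ℕ) * N + (11 * s + 21 : ℕ) * N := by
        simp only [hg]
        exact add_le_add h1 h2
      refine h4.trans ?_
      have h5 : 12 * s * (s + 2) + (11 * s + 21) ≤ 900 := by
        clear * - hs
        rcases hs with rfl | rfl | rfl <;> norm_num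
      have h6 : (((12 * s * (s + 2) + (11 * s + 21) : ℕ)) : ℤ) * N ≤ (900 : ℕ) * N :=
        mul_le_mul_of_nonneg_right (Nat.cast_le.2 h5) (by positivity)
      push_cast at h6 ⊢
      linarith
    exact_mod_cast h3
  -- product formula
  have hpf := pf D H.ne (prs 0 X) (fun p hp => (mem_filter.1 hp).2) (fun p => w p / 12) ?_ ?_
  rotate_left
  · intro p hp
    rw [prs, mem_filter, mem_Ioc] at hp
    simp only [hw]
    rw [div_le_iff₀ (by norm_num)]
    split_ifs with h
    · have h1 := loc_bound hs H hp.2 h.1 h.2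
      have h2 : ((g p - 12400 : ℤ) : ℝ) ≤ ((12 * padicValRat p D : ℤ) : ℝ) := Int.cast_le.2 h1
      push_cast at h2
      linarith
    · have h1 := H.crude p hp.2
      have h2 : ((-((TT s N : ℤ) * (s * Nat.log p (TT s N))) : ℤ) : ℝ) ≤ ((padicValRat p D : ℤ) : ℝ) :=
        Int.cast_le.2 h1
      rw [← hT] at h2
      push_cast at h2
      linarith
  · intro p hp hpS
    have hpX : X < p := by
      by_contra h
      exact hpS (by rw [prs, mem_filter, mem_Ioc]; exact ⟨⟨hp.pos, by omega⟩, hp⟩)
    have h5 : 5 ≤ p := by omega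
    exact H.big p hp h5 (by omega)
  -- lower bound of the sum
  have hterm : ∀ p ∈ prs 0 X, ((g p : ℝ) - 12400) * Real.log p -
      (if ¬ (18 ≤ p ∧ T ≤ p ^ 2) then (1740 * N + 8400) * Real.log (10 * N + 100) else 0) ≤
      w p * Real.log p := by
    intro p hp
    rw [prs, mem_filter, mem_Ioc] at hp
    have hp1 : 1 < p := hp.2.one_lt
    have hlp : 0 ≤ Real.log (p : ℝ) := Real.log_natCast_nonneg p
    simp only [hw]
    split_ifs with h
    · linarith
    · have hpT : p ≤ T := by
        by_cases h18 : 18 ≤ p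
        · have : p ^ 2 < T := by
            by_contra h4
            exact h ⟨h18, by omega⟩
          nlinarith
        · omega
      have hlpT : Real.log p ≤ Real.log T :=
        Real.log_le_log (by exact_mod_cast hp.2.pos) (by exact_mod_cast hpT)
      have h2 : p ^ Nat.log p T ≤ T := Nat.pow_log_le_self p (by omega)
      have h3 : ((p : ℝ)) ^ Nat.log p T ≤ T := by exact_mod_cast h2
      have h4 := Real.log_le_log (pow_pos (by exact_mod_cast hp.2.pos) _) h3
      rw [Real.log_pow] at h4
      have h5 := hgle p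
      have h6 : ((g p : ℝ) - 12400) * Real.log p ≤ 900 * N * Real.log (10 * N + 100) := by
        calc ((g p : ℝ) - 12400) * Real.log p ≤ 900 * N * Real.log p :=
              mul_le_mul_of_nonneg_right (by linarith) hlp
          _ ≤ _ := mul_le_mul_of_nonneg_left (hlpT.trans hlogT2) (by positivity)
      have h7 : 12 * (T : ℝ) * (s * Nat.log p T) * Real.log p ≤
          (84 * (10 * N + 100)) * Real.log (10 * N + 100) := by
        have hsR : (s : ℝ) ≤ 7 := by exact_mod_cast hs7
        calc 12 * (T : ℝ) * (s * Nat.log p T) * Real.log p =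
            (12 * s * T) * (Nat.log p T * Real.log p) := by ring
          _ ≤ (12 * s * T) * Real.log (10 * N + 100) :=
              mul_le_mul_of_nonneg_left (h4.trans hlogT2) (by positivity)
          _ ≤ _ := by
              apply mul_le_mul_of_nonneg_right _ (hlogT.trans hlogT2)
              nlinarith
      nlinarith
  have hsum := sum_le_sum hterm
  rw [sum_sub_distrib, ← sum_filter, sum_const, nsmul_eq_mul] at hsum
  have hcs := card_small T X
  have hsq : Real.sqrt T ≤ Real.sqrt (10 * N + 100) := Real.sqrt_le_sqrt hTR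
  have herr : (((prs 0 X).filter fun p => ¬ (18 ≤ p ∧ T ≤ p ^ 2)).card : ℝ) *
      ((1740 * N + 8400) * Real.log (10 * N + 100)) ≤ smErr N := by
    unfold smErr
    apply mul_le_mul_of_nonneg_right (by linarith)
    exact mul_nonneg (by positivity) (hlogT.trans hlogT2)
  -- split of the main sum
  have hsplit : ∑ p ∈ prs 0 X, ((g p : ℝ) - 12400) * Real.log p =
      ∑ p ∈ prs 0 ((s + 3) * N), (gl s N p : ℝ) * Real.log p +
      ∑ p ∈ prs 0 X, ((if Flat s c p then ex s N p else 0 : ℤ) : ℝ) * Real.log p -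
      12400 * ∑ p ∈ prs 0 X, Real.log (p : ℝ) := by
    have e1 : ∑ p ∈ prs 0 X, ((if p ≤ (s + 3) * N then gl s N p else 0 : ℤ) : ℝ) * Real.log p =
        ∑ p ∈ prs 0 ((s + 3) * N), (gl s N p : ℝ) * Real.log p := by
      rw [prs_union 0 ((s + 3) * N) X (Nat.zero_le _) (by rw [hX]; nlinarith)]
      have e2 : ∑ p ∈ prs ((s + 3) * N) X, ((if p ≤ (s + 3) * N then gl s N p else 0 : ℤ) : ℝ) *
          Real.log p = 0 := by
        refine sum_eq_zero fun p hp => ?_
        rw [prs, mem_filter, mem_Ioc] at hp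
        rw [if_neg (by omega)]
        simp
      rw [e2, add_zero]
      refine sum_congr rfl fun p hp => ?_
      rw [prs, mem_filter, mem_Ioc] at hp
      rw [if_pos hp.1.2]
    rw [← e1, mul_sum, ← sum_add_distrib, ← sum_sub_distrib]
    refine sum_congr rfl fun p _ => ?_
    simp only [hg]
    push_cast
    ring
  -- the non-flat primes
  have hnf : ∑ p ∈ prs 0 X, (ex s N p : ℝ) * Real.log p - (11 * s + 21) * N * Nf s N c ≤
      ∑ p ∈ prs 0 X, ((if Flat s c p then ex s N p else 0 : ℤ) : ℝ) * Real.log p := by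
    have e3 : (11 * (s : ℝ) + 21) * N * Nf s N c =
        ∑ p ∈ prs 0 X, (if ¬ Flat s c p ∧ N < p then (11 * s + 21) * N * Real.log p else 0) := by
      unfold Nf
      rw [mul_sum, sum_filter, ← sum_subset (show prs N X ⊆ prs 0 X by
        intro p hp
        rw [prs, mem_filter, mem_Ioc] at hp ⊢
        exact ⟨⟨by omega, hp.1.2⟩, hp.2⟩)]
      · refine sum_congr rfl fun p hp => ?_
        rw [prs, mem_filter, mem_Ioc] at hp
        by_cases h : Flat s c p
        · simp [h]
        · simp [h, hp.1.1]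
      · intro p hp hp2
        rw [prs, mem_filter, mem_Ioc] at hp hp2
        rw [if_neg]
        rintro ⟨_, h⟩
        exact hp2 ⟨⟨h, hp.1.2⟩, hp.2⟩
    rw [e3, ← sum_sub_distrib]
    refine sum_le_sum fun p hp => ?_
    have hlp : 0 ≤ Real.log (p : ℝ) := Real.log_natCast_nonneg p
    by_cases hf : Flat s c p
    · simp [hf]
    · rw [if_neg hf]
      by_cases hNp : N < p
      · rw [if_pos ⟨hf, hNp⟩]
        have h1 := ex_le s N p
        have h2 : (ex s N p : ℝ) ≤ (11 * s + 21) * N := by
          have : ((ex s N p : ℤ) : ℝ) ≤ (((11 * s + 21 : ℕ) * N : ℤ) : ℝ) := Int.cast_le.2 h1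
          push_cast at this
          linarith
        have h3 := mul_le_mul_of_nonneg_right h2 hlp
        simp only [Int.cast_zero, zero_mul]
        linarith
      · rw [if_neg (fun h => hNp h.2)]
        have h1 : ex s N p = 0 := by
          have h2 := ex_le_low s N p
          have h3 := ex_nonneg s N p
          rw [max_eq_left (by omega)] at h2
          omega
        rw [h1]
        simp
  have hfin : ∑ p ∈ prs 0 X, w p * Real.log p ≤ 12 * Real.log |(D : ℝ)| := by
    have : ∑ p ∈ prs 0 X, w p / 12 * Real.log p = (∑ p ∈ prs 0 X, w p * Real.log p) / 12 := by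
      rw [sum_div]
      exact sum_congr rfl fun p _ => by ring
    rw [this] at hpf
    linarith
  rw [hsplit] at hsum
  linarith

/-- THE BUDGET: the lower bound for `12 log |D|`, up to the non-flat primes -/
theorem budget {s : ℕ} (hs : s = 3 ∨ s = 5 ∨ s = 7) {t : ℝ} (ht : t < Tot s) :
    ∀ᶠ N : ℕ in atTop, ∀ (C : ℝ) (c D : ℚ), DetL s C N c D →
      t * (N : ℝ) ^ 2 - (11 * s + 21) * N * Nf s N c ≤ 12 * Real.log |(D : ℝ)| := by
  have h1 := tot_asy s
  have h2 := (sum_log_asy 0 (12 * (s + 2))).const_mul 12400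
  have h3 := Asy.of_isLittleO smErr_littleO
  have h4 := (((h1.sub h2).sub h3).cast (a' := 0) (by norm_num) rfl).eventually_ge (c := t) (by
    simpa using ht)
  filter_upwards [h4, eventually_ge_atTop 2] with N hN hN2 C c D H
  have h5 := budget_sum hs hN2 H
  rw [zero_mul] at hN
  linarith

end Pool.Agent.L1
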