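import Pool.Agent.Lib.L1.LDefs
import Pool.Agent.Lib.MP_a3a416_nt.SJ5.GSum

/-! # L1.BSum: the sums over primes of the budget (helper53)

`gl s N p`: 12 times the general lower bound (primes `p ≤ (s+3) N`, up to constants), `ex s N p`: 12 times the gain of
a flat prime. `Tot s`: the limit of the sum over all primes (all flat) divided by `N^2`. -/

set_option autoImplicit false

namespace Pool.Agent.L1

open Finset Filter Asymptotics MP_a3a416_nt.SJ MP_a3a416_nt.SJ5

/-- the slope of the hinge `j` -/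
def yj (s j : ℕ) : ℕ := 12 + (s + 1 - j) * j

/-- the hinge `j` -/
def hgz (s N p j : ℕ) : ℤ := max 0 (((12 * (s + 3 - j) : ℕ) * N : ℤ) - (yj s j : ℕ) * p)

def gl (s N p : ℕ) : ℤ := (12 * s : ℕ) * p - (12 * s * (s + 3) : ℕ) * N + ∑ j ∈ Icc 1 s, hgz s N p j

def ex (s N p : ℕ) : ℤ := max 0 (min (11 * (p : ℤ) - 12 * N) ((12 * (s + 2) : ℕ) * N - p))

/-- the value of the budget (times 12, divided by `N^2`) -/
noncomputable def Tot (s : ℕ) : ℝ :=
  -(6 * s * (s + 3) ^ 2) + ∑ j ∈ Icc 1 s, (((12 * (s + 3 - j) : ℕ) : ℝ)) ^ 2 / (2 * (yj s j : ℕ)) +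
    6 / 11 * (11 * s + 21) ^ 2

theorem Asy_sum {ι : Type*} (S : Finset ι) (f : ι → ℕ → ℝ) (b : ι → ℝ) (h : ∀ i ∈ S, Asy (f i) 0 (b i)) :
    Asy (fun m => ∑ i ∈ S, f i m) 0 (∑ i ∈ S, b i) := by
  classical
  induction S using Finset.induction_on with
  | empty =>
    refine (Asy.of_isLittleO ?_).cast rfl (by simp)
    simpa using isLittleO_zero _ _
  | insert a S ha ih =>
    refine (((h a (mem_insert_self a S)).add (ih fun i hi => h i (mem_insert_of_mem hi))).congr
      (Eventually.of_forall fun m => ?_)).cast (by ring) ?_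
    · rw [sum_insert ha]
    · rw [sum_insert ha]

/-- the sum of the general lower bound over the primes `p ≤ (s+3) N` -/
theorem gl_asy (s : ℕ) : Asy (fun N : ℕ => ∑ p ∈ prs 0 ((s + 3) * N), (gl s N p : ℝ) * Real.log p) 0
    (-(6 * s * (s + 3) ^ 2) + ∑ j ∈ Icc 1 s, (((12 * (s + 3 - j) : ℕ) : ℝ)) ^ 2 / (2 * (yj s j : ℕ))) := by
  have h1 := prsum_nat (-((12 * s * (s + 3) : ℕ) : ℝ)) ((12 * s : ℕ) : ℝ) 0 (s + 3) (by omega)
  have h2 := Asy_sum (Icc 1 s) (fun j N => ∑ p ∈ prs (0 * N) ((s + 3) * N),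
      ((max 0 (((12 * (s + 3 - j) : ℕ) * N : ℤ) - (yj s j : ℕ) * p) : ℤ) : ℝ) * Real.log p)
      (fun j => (((12 * (s + 3 - j) : ℕ) : ℝ) - (0 : ℕ) * (yj s j : ℕ)) ^ 2 / (2 * (yj s j : ℕ))) (by
    intro j hj
    rw [mem_Icc] at hj
    refine hinge 0 (s + 3) (12 * (s + 3 - j)) (yj s j) (by unfold yj; omega) (by simp) ?_
    unfold yj
    have h1 : s + 3 - j ≤ s + 3 := Nat.sub_le _ _
    calc 12 * (s + 3 - j) ≤ 12 * (s + 3) := by omega
      _ = (s + 3) * 12 := by ring
      _ ≤ (s + 3) * (12 + (s + 1 - j) * j) := Nat.mul_le_mul_left _ (by omega))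
  refine ((h1.add h2).congr (Eventually.of_forall fun N => ?_)).cast (by ring) ?_
  · rw [zero_mul, sum_comm, ← sum_add_distrib]
    refine sum_congr rfl fun p _ => ?_
    rw [← sum_mul, ← add_mul]
    congr 1
    unfold gl hgz
    push_cast
    ring
  · congr 1
    · push_cast
      ring
    · refine sum_congr rfl fun j _ => ?_
      simp

theorem ex_low (s N p : ℕ) (h : p ≤ (s + 3) * N) :
    ex s N p = (11 * (p : ℤ) - 12 * N) + max 0 ((12 : ℕ) * N - (11 : ℕ) * (p : ℤ)) := by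
  unfold ex
  have h' : (p : ℤ) ≤ (s + 3) * N := by exact_mod_cast h
  rw [min_eq_left (by push_cast; nlinarith)]
  push_cast
  rcases le_total (11 * (p : ℤ)) (12 * N) with h1 | h1
  · rw [max_eq_left (by linarith), max_eq_right (by linarith)]
    ring
  · rw [max_eq_right (by linarith), max_eq_left (by linarith)]
    ring

theorem ex_high (s N p : ℕ) (h : (s + 3) * N ≤ p) (h2 : p ≤ 12 * (s + 2) * N) :
    ex s N p = (12 * (s + 2) : ℕ) * N - p := by
  unfold ex
  have h' : ((s : ℤ) + 3) * N ≤ p := by exact_mod_cast h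
  have h2' : (p : ℤ) ≤ 12 * (s + 2) * N := by exact_mod_cast h2
  rw [min_eq_right (by push_cast; nlinarith), max_eq_right]
  push_cast
  linarith

/-- the sum of the gains over all primes -/
theorem ex_asy (s : ℕ) : Asy (fun N : ℕ => ∑ p ∈ prs 0 (12 * (s + 2) * N), (ex s N p : ℝ) * Real.log p) 0
    (6 / 11 * (11 * s + 21) ^ 2) := by
  have h1 := prsum_nat (-12) 11 0 (s + 3) (by omega)
  have h2 := hinge 0 (s + 3) 12 11 (by norm_num) (by norm_num) (by omega)
  have h3 := prsum_nat ((12 * (s + 2) : ℕ) : ℝ) (-1) (s + 3) (12 * (s + 2)) (by omega)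
  refine (((h1.add h2).add h3).congr (Eventually.of_forall fun N => ?_)).cast (by ring) ?_
  · rw [prs_union 0 ((s + 3) * N) (12 * (s + 2) * N) (Nat.zero_le _) (by nlinarith), zero_mul]
    congr 1
    · rw [← sum_add_distrib]
      refine sum_congr rfl fun p hp => ?_
      rw [prs, mem_filter, mem_Ioc] at hp
      rw [ex_low s N p hp.1.2, ← add_mul]
      push_cast
      ring
    · refine sum_congr rfl fun p hp => ?_
      rw [prs, mem_filter, mem_Ioc] at hp
      rw [ex_high s N p hp.1.1.le hp.1.2]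
      push_cast
      ring
  · push_cast
    ring

/-- the whole budget -/
theorem tot_asy (s : ℕ) : Asy (fun N : ℕ => ∑ p ∈ prs 0 ((s + 3) * N), (gl s N p : ℝ) * Real.log p +
    ∑ p ∈ prs 0 (12 * (s + 2) * N), (ex s N p : ℝ) * Real.log p) 0 (Tot s) :=
  ((gl_asy s).add (ex_asy s)).cast (by ring) rfl

theorem ex_nonneg (s N p : ℕ) : 0 ≤ ex s N p := le_max_left _ _

theorem ex_le (s N p : ℕ) : ex s N p ≤ (11 * s + 21 : ℕ) * N := by
  unfold ex
  refine max_le (by positivity) ?_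
  rcases le_total ((11 * (p : ℤ) - 12 * N)) ((12 * (s + 2) : ℕ) * N - p) with h | h
  · rw [min_eq_left h]
    push_cast at h ⊢
    nlinarith
  · rw [min_eq_right h]
    push_cast at h ⊢
    nlinarith

end Pool.Agent.L1
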