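import Pool.Agent.Lib.L1.BFin
import Pool.Agent.Lib.L1.Assem

/-! # L1.BThm: the theorem for the indices `s = 3, 5, 7` (helper53) -/

set_option autoImplicit false

namespace Pool.Agent.L1

open Finset Filter

open Classical in
/-- For `(s, k) = (3, 10), (5, 15), (7, 82)`, all large `x` and all rational `c` of height at most `exp (x / 10000)`
at least `x / (k log x)` primes `s + 2 ≤ p ≤ x` satisfy `B_{p-s} ≢ c` modulo `p`. -/
theorem three_five_seven (s k : ℕ) (h : (s = 3 ∧ k = 10) ∨ (s = 5 ∧ k = 15) ∨ (s = 7 ∧ k = 82)) :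
    ∀ᶠ x : ℕ in atTop, ∀ c : ℚ,
    |(c.num : ℝ)| ≤ Real.exp (x / 10000) → (c.den : ℝ) ≤ Real.exp (x / 10000) →
    (x : ℝ) / (k * Real.log x) ≤
      (((Finset.range (x + 1)).filter (fun p : ℕ => p.Prime ∧ s + 2 ≤ p ∧ ¬ Flat s c p)).card : ℝ) := by
  have key : ∀ κ : ℝ, 12 * archC s + κ < Tot s → (0 : ℝ) < k →
      (11 * (s : ℝ) + 21) * (1 / k) * (12 * (s + 2)) + 12 * (s + 1) * (12 * (s + 2)) / 10000 < κ →
      s = 3 ∨ s = 5 ∨ s = 7 → ∀ᶠ x : ℕ in atTop, ∀ c : ℚ,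
      |(c.num : ℝ)| ≤ Real.exp (x / 10000) → (c.den : ℝ) ≤ Real.exp (x / 10000) →
      (x : ℝ) / (k * Real.log x) ≤
      (((Finset.range (x + 1)).filter (fun p : ℕ => p.Prime ∧ s + 2 ≤ p ∧ ¬ Flat s c p)).card : ℝ) := by
    intro κ h1 h2 h3 hs
    obtain ⟨C, hC⟩ := det_data s (by rcases hs with rfl | rfl | rfl <;> decide) (by omega) (by omega)
    have h4 := main_core hs h1 (by positivity) h3 hC
    filter_upwards [h4] with x hx c hc1 hc2
    refine le_trans (le_of_eq ?_) (hx c hc1 hc2)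
    rw [one_div, ← div_div]
    ring
  rcases h with ⟨rfl, rfl⟩ | ⟨rfl, rfl⟩ | ⟨rfl, rfl⟩
  · exact key 331 num3 (by norm_num) (by norm_num) (by norm_num)
  · exact key 455 num5 (by norm_num) (by norm_num) (by norm_num)
  · exact key 131 num7 (by norm_num) (by norm_num) (by norm_num)

end Pool.Agent.L1
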