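import Mathlib

/-!
# L1.Phi: the elementary inequality for the column potentials
PROOF of `phi_le`. Take logarithms and divide by `M`; `t = j/M ∈ (0,1]`, `w = 250 exp(-2πY) ≤ 1.09`, `u = π t Y / 3`. To show:
`6 log Y - 2π t Y + 24.2 t exp(-2πY) + 3 (1-t) log (1 + w) ≤ 6 log (3/(π t)) - 5`. As `6 log Y - 2π t Y = 6 log (3/(π t)) + 6 log u - 6 u`, this is
`24.2 t exp(-2πY) + 3 (1-t) log (1+w) ≤ 1 + 6 (u - 1 - log u)`. The last bracket is `≥ 0` and decreasing for `u ≤ 1`.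
`24.2 exp(-2πY) ≤ 0.11`. (1) `t ≥ 3/5`: left `≤ 0.11 + 1.2 log 2.09 < 1`. (2) `t < 3/5`, `Y ≥ 1.05`: `w ≤ 0.35`, left `≤ 0.07 + 3 log 1.35 < 1`.
(3) `2/5 ≤ t < 3/5`, `Y < 1.05`: `u ≤ 0.66`, `6 (0.66 - 1 - log 0.66) ≥ 0.45`, left `≤ 0.07 + 1.8 log 2.09 ≤ 1.4`. (4) `t < 2/5`, `Y < 1.05`:
`u ≤ 0.45`, `6 (0.45 - 1 - log 0.45) ≥ 1.4`, left `≤ 0.05 + 3 log 2.09 ≤ 2.3`.
Numbers: `exp(-2π √3/2) = exp(-5.4414) ≤ 0.00434`, `exp(-2π 1.05) ≤ 0.0014`, `log 2.09 ≤ 0.738`, `log 1.35 ≤ 0.3002`.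
`phi_zero`: `Y ≤ B`, `1 + w ≤ 3`.
-/

set_option autoImplicit false

open Real

namespace Pool.Agent.L1

private theorem Phi_exp_a : (229.4 : ℝ) ≤ Real.exp 5.44 := by
  have h1 : (2.7182818283 : ℝ) < Real.exp 1 := Real.exp_one_gt_d9
  have h2 : (1.552 : ℝ) ≤ Real.exp 0.44 := by
    refine le_trans ?_ (Real.sum_le_exp_of_nonneg (by norm_num : (0 : ℝ) ≤ 0.44) 6)
    norm_num [Finset.sum_range_succ, Nat.factorial]
  have h3 : Real.exp 5.44 = Real.exp 1 ^ 5 * Real.exp 0.44 := by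
    rw [← Real.exp_nat_mul, ← Real.exp_add]
    congr 1
    norm_num
  have h4 : (148.4 : ℝ) ≤ Real.exp 1 ^ 5 := by
    have : (2.7182818283 : ℝ) ^ 5 ≤ Real.exp 1 ^ 5 := pow_le_pow_left₀ (by norm_num) h1.le 5
    refine le_trans (by norm_num) this
  rw [h3]
  nlinarith [h2, h4]

private theorem Phi_exp_b : (720 : ℝ) ≤ Real.exp 6.594 := by
  have h1 : (2.7182818283 : ℝ) < Real.exp 1 := Real.exp_one_gt_d9
  have h2 : (1.8 : ℝ) ≤ Real.exp 0.594 := by
    refine le_trans ?_ (Real.sum_le_exp_of_nonneg (by norm_num : (0 : ℝ) ≤ 0.594) 6)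
    norm_num [Finset.sum_range_succ, Nat.factorial]
  have h3 : Real.exp 6.594 = Real.exp 1 ^ 6 * Real.exp 0.594 := by
    rw [← Real.exp_nat_mul, ← Real.exp_add]
    congr 1
    norm_num
  have h4 : (403 : ℝ) ≤ Real.exp 1 ^ 6 := by
    have : (2.7182818283 : ℝ) ^ 6 ≤ Real.exp 1 ^ 6 := pow_le_pow_left₀ (by norm_num) h1.le 6
    refine le_trans (by norm_num) this
  rw [h3]
  nlinarith [h2, h4]

private theorem Phi_E {Y : ℝ} (hY : √3 / 2 ≤ Y) : Real.exp (-2 * π * Y) ≤ 0.00436 := by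
  have h3 : (1.732 : ℝ) ≤ √3 := by
    apply Real.le_sqrt_of_sq_le
    norm_num
  have hpi : (3.1415 : ℝ) < π := Real.pi_gt_d4
  have h1 : (5.44 : ℝ) ≤ 2 * π * Y := by
    have : (0.866 : ℝ) ≤ Y := by linarith
    nlinarith
  have h2 : Real.exp (-2 * π * Y) ≤ Real.exp (-5.44) := Real.exp_le_exp.mpr (by linarith)
  refine h2.trans ?_
  rw [Real.exp_neg]
  have h4 := Phi_exp_a
  have h5 : (Real.exp 5.44)⁻¹ ≤ (229.4 : ℝ)⁻¹ := inv_anti₀ (by norm_num) h4
  refine h5.trans (by norm_num)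

private theorem Phi_E' {Y : ℝ} (hY : 1.05 ≤ Y) : Real.exp (-2 * π * Y) ≤ 0.0014 := by
  have hpi : (3.14 : ℝ) < π := Real.pi_gt_d2
  have h1 : (6.594 : ℝ) ≤ 2 * π * Y := by nlinarith
  have h2 : Real.exp (-2 * π * Y) ≤ Real.exp (-6.594) := Real.exp_le_exp.mpr (by linarith)
  refine h2.trans ?_
  rw [Real.exp_neg]
  have h4 := Phi_exp_b
  have h5 : (Real.exp 6.594)⁻¹ ≤ (720 : ℝ)⁻¹ := inv_anti₀ (by norm_num) h4
  refine h5.trans (by norm_num)

private theorem Phi_log_a {w : ℝ} (h0 : 0 ≤ w) (h : w ≤ 1.09) : Real.log (1 + w) ≤ 0.738 := by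
  have h1 : (2.09 : ℝ) ≤ Real.exp 0.738 := by
    refine le_trans ?_ (Real.sum_le_exp_of_nonneg (by norm_num : (0 : ℝ) ≤ 0.738) 8)
    norm_num [Finset.sum_range_succ, Nat.factorial]
  rw [Real.log_le_iff_le_exp (by linarith)]
  linarith

private theorem Phi_log_b {w : ℝ} (h0 : 0 ≤ w) (h : w ≤ 0.35) : Real.log (1 + w) ≤ 0.31 := by
  have h1 : (1.35 : ℝ) ≤ Real.exp 0.31 := by
    refine le_trans ?_ (Real.sum_le_exp_of_nonneg (by norm_num : (0 : ℝ) ≤ 0.31) 4)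
    norm_num [Finset.sum_range_succ, Nat.factorial]
  rw [Real.log_le_iff_le_exp (by linarith)]
  linarith

private theorem Phi_log_c : Real.log 0.66 ≤ -0.41 := by
  have h1 : Real.exp 0.41 ≤ 1.515 := by
    refine le_trans (Real.exp_bound' (by norm_num : (0 : ℝ) ≤ 0.41) (by norm_num) (n := 6) (by norm_num)) ?_
    norm_num [Finset.sum_range_succ, Nat.factorial]
  rw [Real.log_le_iff_le_exp (by norm_num), Real.exp_neg]
  have h2 : (1.515 : ℝ)⁻¹ ≤ (Real.exp 0.41)⁻¹ := inv_anti₀ (Real.exp_pos _) h1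
  refine le_trans (by norm_num) h2

private theorem Phi_log_d : Real.log 0.45 ≤ -0.76 := by
  have h1 : Real.exp 0.76 ≤ 2.2 := by
    refine le_trans (Real.exp_bound' (by norm_num : (0 : ℝ) ≤ 0.76) (by norm_num) (n := 6) (by norm_num)) ?_
    norm_num [Finset.sum_range_succ, Nat.factorial]
  rw [Real.log_le_iff_le_exp (by norm_num), Real.exp_neg]
  have h2 : (2.2 : ℝ)⁻¹ ≤ (Real.exp 0.76)⁻¹ := inv_anti₀ (Real.exp_pos _) h1
  refine le_trans (by norm_num) h2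

private theorem Phi_ulog {u u0 : ℝ} (hu : 0 < u) (h0 : u ≤ u0) (h1 : u0 ≤ 1) :
    u0 - Real.log u0 ≤ u - Real.log u := by
  have hu0 : 0 < u0 := lt_of_lt_of_le hu h0
  have h2 : Real.log (u / u0) ≤ u / u0 - 1 := Real.log_le_sub_one_of_pos (div_pos hu hu0)
  rw [Real.log_div hu.ne' hu0.ne'] at h2
  have h3 : (u - u0) * (1 - u0⁻¹) ≥ 0 := by
    have h4 : 1 ≤ u0⁻¹ := (one_le_inv₀ hu0).mpr h1
    exact mul_nonneg_of_nonpos_of_nonpos (by linarith) (by linarith)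
  have h5 : u / u0 - 1 = (u - u0) * u0⁻¹ := by
    field_simp
  rw [h5] at h2
  nlinarith

private theorem Phi_core {t Y : ℝ} (ht0 : 0 < t) (ht1 : t ≤ 1) (hY : √3 / 2 ≤ Y) :
    6 * Real.log Y + t * (-2 * π * Y + 24.2 * Real.exp (-2 * π * Y)) +
      3 * (1 - t) * Real.log (1 + 250 * Real.exp (-2 * π * Y)) ≤ 6 * Real.log (3 / (π * t)) - 5 := by
  have hY0 : 0 < Y := lt_of_lt_of_le (by positivity) hY
  have hpi := Real.pi_pos
  have hu : 0 < π * t * Y / 3 := by positivity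
  have h1 : Real.log (3 / (π * t)) = Real.log Y - Real.log (π * t * Y / 3) := by
    rw [← Real.log_div hY0.ne' hu.ne']
    congr 1
    field_simp
  have hE := Phi_E hY
  have hE0 : 0 < Real.exp (-2 * π * Y) := Real.exp_pos _
  set E := Real.exp (-2 * π * Y) with hEdef
  have hL0 : 0 ≤ Real.log (1 + 250 * E) := Real.log_nonneg (by linarith)
  have hL := Phi_log_a (w := 250 * E) (by linarith) (by linarith)
  set L := Real.log (1 + 250 * E) with hLdef
  have hul : 1 ≤ π * t * Y / 3 - Real.log (π * t * Y / 3) := by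
    have := Real.log_le_sub_one_of_pos hu
    linarith
  suffices h : 24.2 * t * E + 3 * (1 - t) * L + 5 ≤
      6 * (π * t * Y / 3 - Real.log (π * t * Y / 3)) by
    rw [h1]
    nlinarith
  have htE : t * E ≤ t * 0.00436 := mul_le_mul_of_nonneg_left hE ht0.le
  by_cases c1 : 3 / 5 ≤ t
  · have h2 : (1 - t) * L ≤ 0.4 * 0.738 := mul_le_mul (by linarith) hL hL0 (by norm_num)
    nlinarith
  · rw [not_le] at c1
    by_cases c2 : 1.05 ≤ Y
    · have hE' := Phi_E' c2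
      have hL' := Phi_log_b (w := 250 * E) (by linarith) (by linarith)
      have h2 : (1 - t) * L ≤ 1 * 0.31 := mul_le_mul (by linarith) hL' hL0 (by norm_num)
      have h3 : t * E ≤ 1 * 0.0014 := mul_le_mul ht1 hE' hE0.le (by norm_num)
      nlinarith
    · rw [not_le] at c2
      have hpi' : π < 3.1416 := Real.pi_lt_d4
      by_cases c3 : 2 / 5 ≤ t
      · have h2 : (1 - t) * L ≤ 0.6 * 0.738 := mul_le_mul (by linarith) hL hL0 (by norm_num)
        have h4 : π * t * Y / 3 ≤ 0.66 := by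
          have h5 : t * Y ≤ 0.6 * 1.05 := mul_le_mul (by linarith) c2.le hY0.le (by norm_num)
          have h6 : π * (t * Y) ≤ 3.1416 * (0.6 * 1.05) := mul_le_mul hpi'.le h5 (by positivity) (by norm_num)
          rw [mul_assoc]
          linarith
        have h7 := Phi_ulog hu h4 (by norm_num)
        have h8 := Phi_log_c
        nlinarith
      · rw [not_le] at c3
        have h2 : (1 - t) * L ≤ 1 * 0.738 := mul_le_mul (by linarith) hL hL0 (by norm_num)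
        have h4 : π * t * Y / 3 ≤ 0.45 := by
          have h5 : t * Y ≤ 0.4 * 1.05 := mul_le_mul (by linarith) c2.le hY0.le (by norm_num)
          have h6 : π * (t * Y) ≤ 3.1416 * (0.4 * 1.05) := mul_le_mul hpi'.le h5 (by positivity) (by norm_num)
          rw [mul_assoc]
          linarith
        have h7 := Phi_ulog hu h4 (by norm_num)
        have h8 := Phi_log_d
        nlinarith

theorem phi_le (M j : ℕ) (hj : 1 ≤ j) (hjM : j ≤ M) (Y : ℝ) (hY : √3 / 2 ≤ Y) :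
    Y ^ (6 * M) * Real.exp (-2 * π * Y + 24.2 * Real.exp (-2 * π * Y)) ^ j *
        (1 + 250 * Real.exp (-2 * π * Y)) ^ (3 * (M - j)) ≤
      Real.exp (6 * M * Real.log (3 * M / (π * j)) - 5 * M) := by
  have hM : (0 : ℝ) < M := by
    have : 0 < M := by omega
    exact_mod_cast this
  have hj0 : (0 : ℝ) < j := by exact_mod_cast (by omega : 0 < j)
  have hY0 : 0 < Y := lt_of_lt_of_le (by positivity) hY
  have hjM' : (j : ℝ) ≤ M := by exact_mod_cast hjM
  have h := Phi_core (t := (j : ℝ) / M) (Y := Y) (div_pos hj0 hM) ((div_le_one hM).mpr hjM') hY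
  have hE0 : 0 < Real.exp (-2 * π * Y) := Real.exp_pos _
  have e1 : Y ^ (6 * M) = Real.exp (6 * M * Real.log Y) := by
    rw [← Real.rpow_natCast, Real.rpow_def_of_pos hY0]
    congr 1
    push_cast
    ring
  have e2 : (1 + 250 * Real.exp (-2 * π * Y)) ^ (3 * (M - j)) =
      Real.exp (3 * (M - j) * Real.log (1 + 250 * Real.exp (-2 * π * Y))) := by
    rw [← Real.rpow_natCast, Real.rpow_def_of_pos (by linarith)]
    congr 1
    rw [Nat.cast_mul, Nat.cast_sub hjM]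
    push_cast
    ring
  rw [e1, e2, ← Real.exp_nat_mul, ← Real.exp_add, ← Real.exp_add]
  apply Real.exp_le_exp.mpr
  have e3 : (3 : ℝ) / (π * ((j : ℝ) / M)) = 3 * M / (π * j) := by
    have := Real.pi_pos
    field_simp
  rw [e3] at h
  have h2 := mul_le_mul_of_nonneg_left h hM.le
  set E := Real.exp (-2 * π * Y) with hE
  set L := Real.log (1 + 250 * E) with hL
  have e4 : (M : ℝ) * (6 * Real.log Y + (j : ℝ) / M * (-2 * π * Y + 24.2 * E) + 3 * (1 - (j : ℝ) / M) * L) =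
      6 * M * Real.log Y + j * (-2 * π * Y + 24.2 * E) + 3 * (M - j) * L := by
    field_simp
  rw [e4] at h2
  linarith

theorem phi_zero (M : ℕ) (Y B : ℝ) (hY : √3 / 2 ≤ Y) (hB : Y ≤ B) :
    Y ^ (6 * M) * Real.exp (-2 * π * Y + 24.2 * Real.exp (-2 * π * Y)) ^ 0 *
        (1 + 250 * Real.exp (-2 * π * Y)) ^ (3 * (M - 0)) ≤ B ^ (6 * M) * 3 ^ (3 * M) := by
  have hY0 : 0 < Y := lt_of_lt_of_le (by positivity) hY
  have hE := Phi_E hY
  have hE0 : 0 < Real.exp (-2 * π * Y) := Real.exp_pos _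
  rw [pow_zero, mul_one, Nat.sub_zero]
  exact mul_le_mul (pow_le_pow_left₀ hY0.le hB _) (pow_le_pow_left₀ (by linarith) (by linarith) _)
    (by positivity) (pow_nonneg (hY0.le.trans hB) _)

end Pool.Agent.L1
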