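import Pool.Agent.Lib.L1.Grow
import Pool.Agent.Lib.L1.Phi
import Pool.Agent.Lib.L1.Arch

/-!
# L1.ColA: bound for the entries with row and column potentials
`rowP N r = 6 N (1 + log (π max(r,1) / (3N)))`, `colP N j = 6 N log (3N/(π j)) - 5 N` (`j ≥ 1`), `colP N 0 = 0` and an extra factor
`exp (C N log N)` for `j = 0`.
PROOF. `k = kb s N β`, `M = dd k - 1 ∈ {N-1, N}` (omega from the definitions, `s ≤ 7` odd), `j ≤ M`. `bas ℚ k j = dl^j e4^(3(M-j)) e4^u e6^v` with `v = bb k`,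
`u = (k - 6 bb k - 12 M)/4 ≤ 2`. So `colS = f * h`, `f = dl^j e4^(3(M-j))`, `h = e4^u e6^v eb`. `arch_coeff` for `f` at the height
`y = y_r = 3N/(π max(r,1))` with `A = exp(6M log(3M/(πj)) - 5M)` (`phi_le`) for `j ≥ 1`, and for `j = 0` `A = B^(6M) 3^(3M)`, `B = max y (1/y) ≤ C (N+1)`
(`r < T ≤ C N`): for all `m ≤ r`: `|coeff m f| ≤ exp(2π r y) y^(-6M) A`. `|coeff r (f h)| ≤ ∑_m |coeff m f| |coeff (r-m) h| ≤ (r+1) ... `. For `r ≥ 1`:
`2π r y = 6N`, `y^(-6N) = exp(6N log(π r/(3N)))`: product `exp(rowP)`; for `r = 0` the same `y` as for `r = 1`. `y^(-6M) = y^(-6N) y^(6(N-M))`,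
`y ≤ N`. Similarly `6M log(3M/(πj)) - 5M ≤ 6N log(3N/(πj)) - 5N + 6 log N + 20` for `M ∈ {N-1, N}`: both give powers of `N`, absorbed in `(N+1)^k`.
-/

set_option autoImplicit false

open PowerSeries Real

namespace Pool.Agent.L1

noncomputable def rowP (N r : ℕ) : ℝ := 6 * N * (1 + Real.log (π * (max r 1 : ℕ) / (3 * N)))

noncomputable def colP (N j : ℕ) : ℝ := if j = 0 then 0 else 6 * N * Real.log (3 * N / (π * j)) - 5 * N

/-- the factor of the `F`-columns -/
noncomputable def hgt (s N : ℕ) (a b : ℤ) : Col s N → ℝ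
  | ⟨.inl _, _⟩ => 1
  | ⟨.inr _, _⟩ => |(a : ℝ)| + |(b : ℝ)| + 1

private theorem ColA_mul {f h : ℚ⟦X⟧} {r k : ℕ} {B D : ℝ} (hB : 0 ≤ B) (hD : 0 ≤ D)
    (hf : ∀ m ≤ r, |((coeff m f : ℚ) : ℝ)| ≤ B) (hh : Gr D k h) :
    |((coeff r (f * h) : ℚ) : ℝ)| ≤ B * D * ((r : ℝ) + 1) ^ (k + 1) := by
  rw [coeff_mul, Rat.cast_sum]
  refine (Finset.abs_sum_le_sum_abs _ _).trans ?_
  have h1 : ∀ x ∈ Finset.HasAntidiagonal.antidiagonal r,
      |(((coeff x.1 f * coeff x.2 h : ℚ)) : ℝ)| ≤ B * D * ((r : ℝ) + 1) ^ k := by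
    intro x hx
    have hx' : x.1 + x.2 = r := Finset.HasAntidiagonal.mem_antidiagonal.mp hx
    have h2 : (x.2 : ℝ) ≤ r := by exact_mod_cast (by omega : x.2 ≤ r)
    have h4 : D * ((x.2 : ℝ) + 1) ^ k ≤ D * ((r : ℝ) + 1) ^ k := by gcongr
    rw [Rat.cast_mul, abs_mul]
    calc |((coeff x.1 f : ℚ) : ℝ)| * |((coeff x.2 h : ℚ) : ℝ)|
        ≤ B * (D * ((r : ℝ) + 1) ^ k) :=
          mul_le_mul (hf x.1 (by omega)) ((hh x.2).trans h4) (abs_nonneg _) hB
      _ = _ := by ring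
  refine (Finset.sum_le_card_nsmul _ _ _ h1).trans (le_of_eq ?_)
  rw [Finset.Nat.card_antidiagonal, nsmul_eq_mul, pow_succ, Nat.cast_add, Nat.cast_one]
  ring

/-- the structure of the basis elements -/
private theorem ColA_bas (s N : ℕ) (hs : Odd s) (hs7 : s ≤ 7) (hN : 2 ≤ N) (β : Bl s) (j : ℕ)
    (hj : j < dd (kb s N β)) : ∃ M u v : ℕ, (M = N ∨ M + 1 = N) ∧ j ≤ M ∧ u ≤ 2 ∧ v ≤ 1 ∧
      bas ℚ (kb s N β) j = (dl ℚ ^ j * e4 ℚ ^ (3 * (M - j))) * (e4 ℚ ^ u * e6 ℚ ^ v) := by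
  have h1 := ba_eq hj
  have h2 := bb_le_one (kb s N β)
  have h3 := dd_le (kb s N β)
  have h4 := le_dd (even_of_lt_dd hj)
  obtain ⟨t, ht⟩ := hs
  have hk : 12 * N ≤ kb s N β + 8 ∧ kb s N β ≤ 12 * N + 6 := by
    rcases β with i | i
    · simp only [kb]
      split <;> omega
    · simp only [kb]
      have hi := i.2
      omega
  have hdd : dd (kb s N β) = (kb s N β - 6 * bb (kb s N β)) / 12 + 1 := by
    have h5 := hj
    unfold dd at h5 ⊢
    split_ifs at h5 ⊢ with h6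
    · rfl
    · omega
  obtain ⟨k, hk'⟩ : ∃ k, k = kb s N β := ⟨_, rfl⟩
  rw [← hk'] at h1 h2 h3 h4 hk hdd hj ⊢
  have hdN : dd k = N ∨ dd k = N + 1 := by omega
  refine ⟨dd k - 1, ba k j - 3 * (dd k - 1 - j), bb k, by omega, by omega, ?_, h2, ?_⟩
  · omega
  · have e : ba k j = 3 * (dd k - 1 - j) + (ba k j - 3 * (dd k - 1 - j)) := by omega
    unfold bas
    conv_lhs => rw [e, pow_add]
    ring

/-- the potentials for `M` and `N` -/
private theorem ColA_num (N M j : ℕ) (hM : M = N ∨ M + 1 = N) (hj : 1 ≤ j) (hjM : j ≤ M) :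
    6 * (M : ℝ) * Real.log (3 * M / (π * j)) - 5 * M ≤ colP N j := by
  unfold colP
  rw [if_neg (by omega)]
  rcases hM with rfl | rfl
  · exact le_rfl
  have hpi := Real.pi_pos
  have h315 := Real.pi_lt_d2
  have hj0 : (0 : ℝ) < j := by exact_mod_cast hj
  have hjM' : (j : ℝ) ≤ M := by exact_mod_cast hjM
  have hM0 : (0 : ℝ) < M := by linarith
  push_cast
  obtain ⟨x, hx⟩ : ∃ x : ℝ, x = (M : ℝ) := ⟨_, rfl⟩
  rw [← hx] at hM0 hjM' ⊢
  have hlow : -(1 / 20) ≤ Real.log (3 / π) := by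
    have h := Real.one_sub_inv_le_log_of_pos (by positivity : 0 < 3 / π)
    have e : (3 / π)⁻¹ = π / 3 := by rw [inv_div]
    rw [e] at h
    linarith
  have h1 : 1 / (x + 1) ≤ Real.log (x + 1) - Real.log x := by
    have h := Real.one_sub_inv_le_log_of_pos (by positivity : 0 < (x + 1) / x)
    rw [Real.log_div (by positivity) (by positivity)] at h
    have e : 1 - ((x + 1) / x)⁻¹ = 1 / (x + 1) := by
      field_simp
      ring
    rw [e] at h
    exact h
  have h2 : 1 ≤ (x + 1) * (Real.log (x + 1) - Real.log x) := by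
    have h3 := mul_le_mul_of_nonneg_left h1 (by positivity : 0 ≤ x + 1)
    have e : (x + 1) * (1 / (x + 1)) = 1 := by field_simp
    rw [e] at h3
    exact h3
  have h3 : Real.log (3 * x / (π * j)) = Real.log (3 / π) + Real.log x - Real.log j := by
    rw [← Real.log_mul (by positivity) (by positivity), ← Real.log_div (by positivity) (by positivity)]
    congr 1
    field_simp
  have h4 : Real.log (3 * (x + 1) / (π * j)) = Real.log (3 / π) + Real.log (x + 1) - Real.log j := by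
    rw [← Real.log_mul (by positivity) (by positivity), ← Real.log_div (by positivity) (by positivity)]
    congr 1
    field_simp
  have h5 : Real.log j ≤ Real.log x := Real.log_le_log hj0 hjM'
  rw [h3, h4]
  nlinarith

/-- the bound for the coefficients of `Δ^j E4^(3(M-j))` -/
private theorem ColA_coeff (N M j r : ℕ) (hN : 2 ≤ N) (hM : M = N ∨ M + 1 = N) (hjM : j ≤ M)
    (hr : r < 60 * N) (m : ℕ) (hm : m ≤ r) :
    |((coeff m (dl ℚ ^ j * e4 ℚ ^ (3 * (M - j))) : ℚ) : ℝ)| ≤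
      (N + 1 : ℝ) ^ 6 * Real.exp (rowP N r + colP N j +
        (if j = 0 then 48 * N * Real.log N else 0)) := by
  have hpi := Real.pi_pos
  have hpi3 := Real.pi_gt_three
  have h315 := Real.pi_lt_d2
  have hN2 : (2 : ℝ) ≤ N := by exact_mod_cast hN
  obtain ⟨R, hR⟩ : ∃ R : ℝ, R = ((max r 1 : ℕ) : ℝ) := ⟨_, rfl⟩
  have hR1 : 1 ≤ R := by
    rw [hR]
    exact_mod_cast le_max_right r 1
  have hrR : (r : ℝ) ≤ R := by
    rw [hR]
    exact_mod_cast le_max_left r 1
  have hRN : R ≤ 60 * N := by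
    rw [hR]
    have : max r 1 ≤ 60 * N := by omega
    exact_mod_cast this
  obtain ⟨y, hy⟩ : ∃ y : ℝ, y = 3 * N / (π * R) := ⟨_, rfl⟩
  have hy0 : 0 < y := by rw [hy]; positivity
  have hyN : y ≤ N := by
    rw [hy, div_le_iff₀ (by positivity)]
    have : 3 ≤ π * R := by nlinarith
    nlinarith
  have hy1 : 1 / y ≤ 63 := by
    rw [hy, one_div_div, div_le_iff₀ (by positivity)]
    nlinarith
  have hlogy : Real.log y = - Real.log (π * R / (3 * N)) := by
    rw [← Real.log_inv]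
    congr 1
    rw [hy, inv_div]
  have hlog2 := Real.log_two_gt_d9
  have hlogN : Real.log 2 ≤ Real.log N := Real.log_le_log (by norm_num) hN2
  have hMr : (M : ℝ) = N ∨ (M : ℝ) + 1 = N := by
    rcases hM with h | h
    · left; exact_mod_cast h
    · right; exact_mod_cast h
  have hMN : (M : ℝ) ≤ N := by rcases hMr with h | h <;> linarith
  have hMpos : (1 : ℝ) ≤ M := by rcases hMr with h | h <;> linarith
  -- the height part
  have hfac : Real.exp (2 * π * m * y) * (y ^ (6 * M))⁻¹ ≤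
      (N + 1 : ℝ) ^ 6 * Real.exp (rowP N r) := by
    have e1 : 2 * π * m * y ≤ 6 * N := by
      have hm' : (m : ℝ) ≤ R := le_trans (by exact_mod_cast hm) hrR
      calc 2 * π * m * y ≤ 2 * π * R * y := by gcongr
        _ = 6 * N := by rw [hy]; field_simp; norm_num
    have e2 : (y ^ (6 * M))⁻¹ = Real.exp (-(6 * M * Real.log y)) := by
      rw [Real.exp_neg]
      congr 1
      rw [mul_comm (6 * (M : ℝ)) (Real.log y), Real.exp_mul, Real.exp_log hy0, ← Real.rpow_natCast]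
      push_cast
      rfl
    have e3 : rowP N r = 6 * N - 6 * N * Real.log y := by
      unfold rowP
      rw [hlogy, ← hR]
      ring
    rw [e2, ← Real.exp_add]
    have e4' : (0 : ℝ) < (N + 1 : ℝ) ^ 6 := by positivity
    rw [← Real.exp_log e4', ← Real.exp_add, Real.exp_le_exp, Real.log_pow, e3]
    have e5 : Real.log y ≤ Real.log (N + 1) := Real.log_le_log hy0 (by linarith)
    have e6 : 0 ≤ Real.log ((N : ℝ) + 1) := Real.log_nonneg (by linarith)
    push_cast
    rcases hMr with h | h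
    · rw [h]; linarith
    · have : (M : ℝ) = N - 1 := by linarith
      rw [this]
      linarith
  have hx4 : PowerSeries.map (algebraMap ℚ ℂ) (e4 ℚ) = UpperHalfPlane.qExpansion 1 ModularForm.E₄ := by
    rw [map_e4]
    exact e4_C
  have hxd : PowerSeries.map (algebraMap ℚ ℂ) (dl ℚ) =
      UpperHalfPlane.qExpansion 1 ModularForm.discriminant := by
    rw [map_dl]
    exact dl_C
  -- the column part
  obtain ⟨A, hA1, hA2, hA3⟩ : ∃ A : ℝ, 0 ≤ A ∧ (∀ Y : ℝ, √3 / 2 ≤ Y → Y ≤ max y (1 / y) →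
      Y ^ (6 * M) * Real.exp (-2 * π * Y + 24.2 * Real.exp (-2 * π * Y)) ^ j *
        (1 + 250 * Real.exp (-2 * π * Y)) ^ (3 * (M - j)) ≤ A) ∧
      A ≤ Real.exp (colP N j + (if j = 0 then 48 * N * Real.log N else 0)) := by
    rcases Nat.eq_zero_or_pos j with rfl | hj
    · obtain ⟨B, hB⟩ : ∃ B : ℝ, B = 63 * (N : ℝ) := ⟨_, rfl⟩
      have hBY : max y (1 / y) ≤ B := by
        rw [hB]
        apply max_le
        · linarith
        · linarith
      refine ⟨B ^ (6 * M) * 3 ^ (3 * M), by rw [hB]; positivity, fun Y hY1 hY2 => ?_, ?_⟩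
      · exact phi_zero M Y B hY1 (hY2.trans hBY)
      · have hBpos : 0 < B := by rw [hB]; positivity
        have hlogB : Real.log B ≤ 7 * Real.log N := by
          rw [hB, Real.log_mul (by norm_num) (by positivity)]
          have : Real.log 63 ≤ 6 * Real.log 2 := by
            have h6 : 6 * Real.log 2 = Real.log (2 ^ 6) := by
              rw [Real.log_pow]; norm_num
            rw [h6]
            exact Real.log_le_log (by norm_num) (by norm_num)
          linarith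
        have hlogB0 : 0 ≤ Real.log B := Real.log_nonneg (by rw [hB]; linarith)
        have hlog3 : Real.log 3 ≤ 2 * Real.log 2 := by
          have h6 : 2 * Real.log 2 = Real.log (2 ^ 2) := by
            rw [Real.log_pow]; norm_num
          rw [h6]
          exact Real.log_le_log (by norm_num) (by norm_num)
        have hlog30 : 0 ≤ Real.log 3 := Real.log_nonneg (by norm_num)
        have e : B ^ (6 * M) * 3 ^ (3 * M) =
            Real.exp (6 * M * Real.log B + 3 * M * Real.log 3) := by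
          rw [Real.exp_add]
          congr 1
          · rw [mul_comm (6 * (M : ℝ)) (Real.log B), Real.exp_mul, Real.exp_log hBpos,
              ← Real.rpow_natCast]
            push_cast
            rfl
          · rw [mul_comm (3 * (M : ℝ)) (Real.log 3), Real.exp_mul, Real.exp_log (by norm_num),
              ← Real.rpow_natCast]
            push_cast
            rfl
        rw [e, Real.exp_le_exp]
        simp only [colP, if_true, zero_add]
        have f1 : (M : ℝ) * Real.log B ≤ N * (7 * Real.log N) :=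
          mul_le_mul hMN hlogB hlogB0 (by linarith)
        have f2 : (M : ℝ) * Real.log 3 ≤ N * (2 * Real.log N) :=
          mul_le_mul hMN (by linarith) hlog30 (by linarith)
        linarith
    · refine ⟨Real.exp (6 * M * Real.log (3 * M / (π * j)) - 5 * M), (Real.exp_pos _).le,
        fun Y hY1 _ => phi_le M j hj hjM Y hY1, ?_⟩
      rw [Real.exp_le_exp, if_neg (by omega), add_zero]
      exact ColA_num N M j hM hj hjM
  have hmain := arch_coeff hx4 hxd M j m hjM hy0 hA2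
  refine hmain.trans ?_
  calc Real.exp (2 * π * m * y) * (y ^ (6 * M))⁻¹ * A
      ≤ ((N + 1 : ℝ) ^ 6 * Real.exp (rowP N r)) *
        Real.exp (colP N j + (if j = 0 then 48 * N * Real.log N else 0)) :=
        mul_le_mul hfac hA3 hA1 (by positivity)
    _ = _ := by
        rw [mul_assoc, ← Real.exp_add, add_assoc]

theorem entry_le (s : ℕ) (hs : Odd s) (hs3 : 3 ≤ s) (hs7 : s ≤ 7) : ∃ (C : ℝ) (k : ℕ), 0 ≤ C ∧ ∀ N : ℕ, 2 ≤ N →
    ∀ (a b : ℤ) (c : Col s N) (r : ℕ), r < TT s N →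
    |((coeff r (colS s N a b c) : ℚ) : ℝ)| ≤ C * (N + 1 : ℝ) ^ k * hgt s N a b c *
      Real.exp (rowP N r + colP N c.2 + (if (c.2 : ℕ) = 0 then C * N * Real.log N else 0)) := by
  obtain ⟨C₁, k₁, hC₁, hG⟩ := Gr_eb s
  refine ⟨60 ^ (k₁ + 1) * C₁ + 48, k₁ + 1 + 6, by positivity, fun N hN a b c r hr => ?_⟩
  obtain ⟨C, hC⟩ : ∃ C : ℝ, C = 60 ^ (k₁ + 1) * C₁ + 48 := ⟨_, rfl⟩
  rw [← hC]
  obtain ⟨β, j⟩ := c
  have hN2 : (2 : ℝ) ≤ N := by exact_mod_cast hN
  have hlogN : 0 ≤ Real.log (N : ℝ) := Real.log_nonneg (by linarith)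
  have hT : TT s N ≤ 60 * N := by
    show (s + 3) * N + (s + 3) ^ 2 ≤ 60 * N
    have h1 : (s + 3) * N ≤ 10 * N := Nat.mul_le_mul_right _ (by omega)
    have h2 : (s + 3) ^ 2 ≤ 10 ^ 2 := Nat.pow_le_pow_left (by omega) 2
    omega
  obtain ⟨M, u, v, hM, hjM, hu, hv, hbas⟩ := ColA_bas s N hs hs7 hN β j j.2
  have hh := hG a b β u v hu hv
  obtain ⟨w, hw⟩ : ∃ w : ℝ, w = hgt s N a b ⟨β, j⟩ := ⟨_, rfl⟩
  have hw0 : 0 ≤ w := by
    rw [hw]
    clear hw hh hbas hjM
    rcases β with i | i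
    · exact zero_le_one
    · change (0 : ℝ) ≤ |(a : ℝ)| + |(b : ℝ)| + 1
      positivity
  replace hh : Gr (C₁ * w) k₁ (e4 ℚ ^ u * e6 ℚ ^ v * eb s a b β) := by
    rw [hw]
    clear hw hbas hjM
    rcases β with i | i
    · exact hh
    · exact hh
  have hcol : colS s N a b ⟨β, j⟩ = (dl ℚ ^ (j : ℕ) * e4 ℚ ^ (3 * (M - j))) *
      (e4 ℚ ^ u * e6 ℚ ^ v * eb s a b β) := by
    unfold colS
    simp only
    rw [hbas]
    ring
  rw [hcol, ← hw]
  have h1 := ColA_mul (B := (N + 1 : ℝ) ^ 6 * Real.exp (rowP N r + colP N j +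
        (if (j : ℕ) = 0 then 48 * N * Real.log N else 0))) (by positivity) (by positivity)
    (fun m hm => ColA_coeff N M j r hN hM hjM (hr.trans_le hT) m hm) hh
  refine h1.trans ?_
  have h2 : (r : ℝ) + 1 ≤ 60 * (N + 1) := by
    have h3 : r + 1 ≤ 60 * N := by omega
    have h4 : ((r : ℝ) + 1) ≤ 60 * N := by exact_mod_cast h3
    linarith
  have h3 : ((r : ℝ) + 1) ^ (k₁ + 1) ≤ (60 * (N + 1)) ^ (k₁ + 1) :=
    pow_le_pow_left₀ (by positivity) h2 _
  have h4 : Real.exp (rowP N r + colP N j + (if (j : ℕ) = 0 then 48 * N * Real.log N else 0)) ≤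
      Real.exp (rowP N r + colP N j + (if (j : ℕ) = 0 then C * N * Real.log N else 0)) := by
    rw [Real.exp_le_exp]
    split_ifs
    · have h5 : 48 ≤ C := by
        rw [hC]
        have : (0 : ℝ) ≤ 60 ^ (k₁ + 1) * C₁ := by positivity
        linarith
      have h6 : 48 * (N * Real.log N) ≤ C * (N * Real.log N) :=
        mul_le_mul_of_nonneg_right h5 (by positivity)
      linarith
    · exact le_rfl
  obtain ⟨E, hE⟩ : ∃ E : ℝ, E = Real.exp (rowP N r + colP N j +
      (if (j : ℕ) = 0 then C * N * Real.log N else 0)) := ⟨_, rfl⟩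
  have hE0 : 0 < E := by rw [hE]; exact Real.exp_pos _
  rw [← hE] at h4 ⊢
  calc (N + 1 : ℝ) ^ 6 * Real.exp (rowP N r + colP N j +
        (if (j : ℕ) = 0 then 48 * N * Real.log N else 0)) * (C₁ * w) * ((r : ℝ) + 1) ^ (k₁ + 1)
      ≤ (N + 1 : ℝ) ^ 6 * E * (C₁ * w) * (60 * (N + 1)) ^ (k₁ + 1) := by
        gcongr
    _ = (60 ^ (k₁ + 1) * C₁) * (N + 1 : ℝ) ^ (k₁ + 1 + 6) * w * E := by
        rw [mul_pow, pow_add _ (k₁ + 1) 6]
        ring
    _ ≤ C * (N + 1 : ℝ) ^ (k₁ + 1 + 6) * w * E := by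
        have : 60 ^ (k₁ + 1) * C₁ ≤ C := by rw [hC]; linarith
        gcongr

end Pool.Agent.L1
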