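import Pool.Agent.Lib.L1.SpanC

/-!
# L1.Eis: Eisenstein series of weight `k ≥ 4` over `ℚ`; realisation of `ML ℂ k` by forms;
algebraic independence of `E₂`.
-/

open UpperHalfPlane hiding I
open Complex ModularForm EisensteinSeries Function Filter
open scoped Real MatrixGroups Manifold Topology ArithmeticFunction.sigma

namespace Pool.Agent.L1

/-- `∑ σ_m(n) qⁿ`. -/
noncomputable def sgQ (m : ℕ) : PowerSeries ℚ := PowerSeries.mk fun n => ((σ m n : ℕ) : ℚ)

lemma bernoulli_ne_zero_of_even {k : ℕ} (hk : 2 ≤ k) (hev : Even k) : bernoulli k ≠ 0 := by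
  obtain ⟨m, hm⟩ := hev
  intro h0
  have h1 := riemannZeta_two_mul_nat (k := m) (by omega)
  have h2 : riemannZeta (2 * m : ℕ) ≠ 0 :=
    riemannZeta_ne_zero_of_one_lt_re (by
      have : (1 : ℝ) < ((2 * m : ℕ) : ℝ) := by exact_mod_cast (by omega : 1 < 2 * m)
      simpa using this)
  apply h2
  push_cast
  rw [h1, show 2 * m = k by omega, h0]
  simp

/-- The Eisenstein series of weight `k`, over `ℚ`. -/
theorem eis_mem_ML {k : ℕ} (hk : 4 ≤ k) (hev : Even k) :
    PowerSeries.C (-(bernoulli k) / (2 * k)) + sgQ (k - 1) ∈ ML ℚ k := by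
  have hb := bernoulli_ne_zero_of_even (by omega) hev
  have hk0 : (k : ℚ) ≠ 0 := by exact_mod_cast (by omega : k ≠ 0)
  have h1 : (1 : PowerSeries ℚ) - PowerSeries.C (2 * k / bernoulli k) * sgQ (k - 1) ∈ ML ℚ k := by
    refine form_descend (algebraMap ℚ ℂ) (algebraMap ℚ ℂ).injective (E (k := k) (by omega)) ?_
    ext n
    rw [E_qExpansion_coeff _ hev, PowerSeries.coeff_map, map_sub, PowerSeries.coeff_C_mul,
      PowerSeries.coeff_one, sgQ, PowerSeries.coeff_mk]
    split_ifs with h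
    · subst h; simp
    · simp
  have h2 : PowerSeries.C (-(bernoulli k) / (2 * k)) + sgQ (k - 1)
      = (-(bernoulli k) / (2 * k)) •
        ((1 : PowerSeries ℚ) - PowerSeries.C (2 * k / bernoulli k) * sgQ (k - 1)) := by
    rw [PowerSeries.smul_eq_C_mul, mul_sub, mul_one, ← mul_assoc, ← map_mul]
    have : (-(bernoulli k) / (2 * k)) * (2 * k / bernoulli k) = -1 := by
      field_simp
    rw [this, map_neg, map_one]
    ring
  rw [h2]
  exact Submodule.smul_mem _ _ h1

/-- Every element of `ML ℂ k` is the q-expansion of a level one form of weight `k`. -/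
theorem exists_form_of_mem {k : ℕ} {g : PowerSeries ℂ} (hg : g ∈ ML ℂ k) (k' : ℤ) (hk' : k' = k) :
    ∃ f : ModularForm 𝒮ℒ k', qExpansion 1 f = g := by
  refine Submodule.span_induction (p := fun g _ => ∃ f : ModularForm 𝒮ℒ k', qExpansion 1 f = g)
    ?_ ?_ ?_ ?_ hg
  · rintro _ ⟨j, rfl⟩
    have hk := ba_eq j.2
    obtain ⟨g1, hg1⟩ := exists_mono (ba k j) (bb k) (4 * ba k j + 6 * bb k) (by ring)
    -- discriminant power
    have hD : ∀ n : ℕ, ∃ f : ModularForm 𝒮ℒ (n * 12 : ℤ), qExpansion 1 f = dl ℂ ^ n := by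
      intro n
      have h12 : ∃ f : ModularForm 𝒮ℒ (12 : ℤ), qExpansion 1 f = dl ℂ := by
        obtain ⟨a, ha⟩ := exists_mono 3 0 12 (by norm_num)
        obtain ⟨b, hb⟩ := exists_mono 0 2 12 (by norm_num)
        refine ⟨(1728⁻¹ : ℂ) • (a - b), ?_⟩
        rw [FunLike.coe_smul, ModularForm.qExpansion_smul one_pos one_mem_strictPeriods_SL,
          FunLike.coe_sub, ModularForm.qExpansion_sub one_pos one_mem_strictPeriods_SL, ha, hb]
        have h := e4_cube (R := ℂ)
        have h' : e4 ℂ ^ 3 * e6 ℂ ^ 0 - e4 ℂ ^ 0 * e6 ℂ ^ 2 = (1728 : ℂ) • dl ℂ := by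
          rw [PowerSeries.smul_eq_C_mul, map_ofNat]; linear_combination h
        rw [h', smul_smul]
        norm_num
      obtain ⟨f, hf⟩ := h12
      refine ⟨f.pow n, ?_⟩
      rw [ModularForm.qExpansion_pow one_pos one_mem_strictPeriods_SL, hf]
    obtain ⟨g2, hg2⟩ := hD j
    refine ⟨ModularForm.mcast (by
      have := congrArg (Nat.cast : ℕ → ℤ) hk
      push_cast at this
      rw [hk']; linarith) (g2.mul g1), ?_⟩
    rw [ModularForm.qExpansion_mcast _ rfl,
      ModularForm.qExpansion_mul one_pos one_mem_strictPeriods_SL, hg1, hg2]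
    change dl ℂ ^ (j : ℕ) * (e4 ℂ ^ ba k j * e6 ℂ ^ bb k) = bas ℂ k j
    unfold bas
    ring
  · exact ⟨0, qExpansion_zero 1⟩
  · rintro f g _ _ ⟨a, ha⟩ ⟨b, hb⟩
    refine ⟨a + b, ?_⟩
    rw [FunLike.coe_add, ModularForm.qExpansion_add one_pos one_mem_strictPeriods_SL, ha, hb]
  · rintro r f _ ⟨a, ha⟩
    refine ⟨r • a, ?_⟩
    rw [FunLike.coe_smul, ModularForm.qExpansion_smul one_pos one_mem_strictPeriods_SL, ha]

section transcendence

open Derivative

lemma nice_zero : Nice (0 : ℍ → ℂ) := Nice.const 0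

lemma nice_pow {f : ℍ → ℂ} (hf : Nice f) (n : ℕ) : Nice (f ^ n) := by
  induction n with
  | zero => rw [pow_zero]; exact Nice.const 1
  | succ n ih => rw [pow_succ]; exact ih.mul hf

lemma qExpansion_nice_pow {f : ℍ → ℂ} (hf : Nice f) (n : ℕ) :
    qExpansion 1 (f ^ n) = qExpansion 1 f ^ n := by
  induction n with
  | zero => rw [pow_zero, pow_zero]; exact qExpansion_one 1
  | succ n ih => rw [pow_succ, pow_succ, (nice_pow hf n).qExpansion_mul hf, ih]

lemma nice_sum {ι : Type*} (s : Finset ι) (f : ι → ℍ → ℂ) (hf : ∀ i ∈ s, Nice (f i)) :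
    Nice (∑ i ∈ s, f i) ∧ qExpansion 1 (∑ i ∈ s, f i) = ∑ i ∈ s, qExpansion 1 (f i) := by
  classical
  induction s using Finset.induction_on with
  | empty => exact ⟨by simpa using nice_zero, by simpa using qExpansion_zero 1⟩
  | insert a s ha ih =>
    obtain ⟨h1, h2⟩ := ih (fun i hi => hf i (Finset.mem_insert_of_mem hi))
    have h3 := hf a (Finset.mem_insert_self _ _)
    rw [Finset.sum_insert ha, Finset.sum_insert ha]
    exact ⟨h3.add h1, by rw [h3.qExpansion_add h1, h2]⟩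

/-- The matrix `S Tⁿ = (0 -1; 1 n)`. -/
def gam (n : ℤ) : SL(2, ℤ) := ⟨!![0, -1; 1, n], by simp⟩

/-- The evaluation at `γ z`. -/
lemma form_gam {k : ℤ} (f : ModularForm 𝒮ℒ k) (n : ℤ) (z : ℍ) :
    f (gam n • z) = ((z : ℂ) + n) ^ k * f z := by
  have h := congrFun (slash_form f (gam n)) z
  rw [ModularForm.SL_slash_apply] at h
  have hd : denom (gam n) z = (z : ℂ) + n := by
    rw [ModularGroup.denom_apply]
    simp [gam]
  rw [hd] at h
  have hne : ((z : ℂ) + n) ≠ 0 := by
    rw [← hd]; exact denom_ne_zero _ _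
  rw [← h, zpow_neg]
  field_simp

lemma E2_gam (n : ℤ) (z : ℍ) :
    E2 (gam n • z) = ((z : ℂ) + n) ^ (2 : ℤ) *
      (E2 z - 3 / (π : ℂ) ^ 2 * (2 * π * I / ((z : ℂ) + n))) := by
  have h := congrFun (E2_slash_action (gam n)) z
  rw [ModularForm.SL_slash_apply] at h
  have hd : denom (gam n) z = (z : ℂ) + n := by
    rw [ModularGroup.denom_apply]
    simp [gam]
  have hne : ((z : ℂ) + n) ≠ 0 := by
    rw [← hd]; exact denom_ne_zero _ _
  have hD : D2 (gam n) z = 2 * π * I / ((z : ℂ) + n) := by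
    simp only [D2]
    rw [hd]
    simp [gam]
  have hz2 : riemannZeta 2 = (π : ℂ) ^ 2 / 6 := riemannZeta_two
  have hpi : (π : ℂ) ≠ 0 := by exact_mod_cast Real.pi_ne_zero
  have e3 : (1 : ℂ) / (2 * ((π : ℂ) ^ 2 / 6)) = 3 / (π : ℂ) ^ 2 := by field_simp; norm_num
  simp only [Pi.sub_apply, Pi.smul_apply, smul_eq_mul] at h
  rw [hd, hD, hz2, e3] at h
  rw [← h, zpow_neg]
  field_simp

/-- `E₂` is transcendental over the ring of modular forms (homogeneous version):
`g_i ∈ M_{w-2i}` (in the sense of `k i + 2 i = w`) and `∑ g_i E₂^i = 0` imply `g_i = 0`. -/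
theorem e2_transcendental (s : Finset ℕ) (w : ℕ) (k : ℕ → ℕ) (g : ℕ → PowerSeries ℂ)
    (hk : ∀ i ∈ s, k i + 2 * i = w) (hg : ∀ i ∈ s, g i ∈ ML ℂ (k i))
    (h0 : ∑ i ∈ s, g i * e2 ℂ ^ i = 0) : ∀ i ∈ s, g i = 0 := by
  classical
  -- realise the g_i
  have hex : ∀ i : ℕ, ∃ f : ModularForm 𝒮ℒ ((w : ℤ) - 2 * i), i ∈ s → qExpansion 1 f = g i := by
    intro i
    by_cases hi : i ∈ s
    · obtain ⟨f, hf⟩ := exists_form_of_mem (hg i hi) ((w : ℤ) - 2 * i) (by
        have := hk i hi; omega)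
      exact ⟨f, fun _ => hf⟩
    · exact ⟨0, fun h => absurd h hi⟩
  choose f hf using hex
  -- the function
  have hn : ∀ i ∈ s, Nice ((f i : ℍ → ℂ) * E2 ^ i) := fun i _ =>
    (nice_modularForm (f i)).mul (nice_pow nice_E2 i)
  obtain ⟨hN, hQ⟩ := nice_sum s (fun i => (f i : ℍ → ℂ) * E2 ^ i) hn
  have hQ0 : qExpansion 1 (∑ i ∈ s, (f i : ℍ → ℂ) * E2 ^ i) = 0 := by
    rw [hQ, ← h0]
    refine Finset.sum_congr rfl fun i hi => ?_
    rw [(nice_modularForm (f i)).qExpansion_mul (nice_pow nice_E2 i),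
      qExpansion_nice_pow nice_E2, hf i hi, e2_C]
  have hF : (∑ i ∈ s, (f i : ℍ → ℂ) * E2 ^ i) = 0 :=
    hN.ext nice_zero (by rw [hQ0]; exact (qExpansion_zero 1).symm)
  have hpi : (π : ℂ) ≠ 0 := by exact_mod_cast Real.pi_ne_zero
  -- polynomial identity at every point
  have hpt : ∀ z : ℍ, ∀ i ∈ s, f i z = 0 := by
    intro z
    set P : Polynomial ℂ := ∑ i ∈ s, Polynomial.C (f i z) * (Polynomial.X) ^ i with hP
    have hroot : ∀ n : ℤ, P.IsRoot (E2 z - 3 / (π : ℂ) ^ 2 * (2 * π * I / ((z : ℂ) + n))) := by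
      intro n
      have hd : denom (gam n) z = (z : ℂ) + n := by
        rw [ModularGroup.denom_apply]
        simp [gam]
      have hne : ((z : ℂ) + n) ≠ 0 := by
        rw [← hd]; exact denom_ne_zero _ _
      have h1 := congrFun hF (gam n • z)
      simp only [Finset.sum_apply, Pi.mul_apply, Pi.pow_apply, Pi.zero_apply] at h1
      have h2 : ∀ i ∈ s, f i (gam n • z) * E2 (gam n • z) ^ i
          = ((z : ℂ) + n) ^ (w : ℤ) * (f i z *
            (E2 z - 3 / (π : ℂ) ^ 2 * (2 * π * I / ((z : ℂ) + n))) ^ i) := by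
        intro i _
        rw [form_gam, E2_gam, mul_pow, ← zpow_natCast (((z : ℂ) + n) ^ (2 : ℤ)) i, ← zpow_mul]
        have : ((z : ℂ) + n) ^ (w : ℤ)
            = ((z : ℂ) + n) ^ ((w : ℤ) - 2 * i) * ((z : ℂ) + n) ^ ((2 : ℤ) * (i : ℤ)) := by
          rw [← zpow_add₀ hne]; congr 1; ring
        rw [this]; ring
      rw [Finset.sum_congr rfl h2, ← Finset.mul_sum] at h1
      have h3 := (mul_eq_zero.mp h1).resolve_left (zpow_ne_zero _ hne)
      rw [Polynomial.IsRoot, hP, Polynomial.eval_finsetSum]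
      simpa using h3
    have hP0 : P = 0 := by
      refine Polynomial.eq_zero_of_infinite_isRoot P ?_
      refine Set.infinite_of_injective_forall_mem (f := fun n : ℤ =>
        E2 z - 3 / (π : ℂ) ^ 2 * (2 * π * I / ((z : ℂ) + n))) ?_ hroot
      intro a b hab
      have ha : ((z : ℂ) + a) ≠ 0 := by
        have hd : denom (gam a) z = (z : ℂ) + a := by
          rw [ModularGroup.denom_apply]; simp [gam]
        rw [← hd]; exact denom_ne_zero _ _
      have hb : ((z : ℂ) + b) ≠ 0 := by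
        have hd : denom (gam b) z = (z : ℂ) + b := by
          rw [ModularGroup.denom_apply]; simp [gam]
        rw [← hd]; exact denom_ne_zero _ _
      simp only [sub_right_inj] at hab
      have h3 : (3 / (π : ℂ) ^ 2) ≠ 0 := div_ne_zero (by norm_num) (pow_ne_zero _ hpi)
      have h4 := mul_left_cancel₀ h3 hab
      have h5 : (2 * π * I : ℂ) ≠ 0 := two_pi_I_ne_zero
      rw [div_eq_div_iff ha hb] at h4
      have h6 := mul_left_cancel₀ h5 h4
      have h7 : (b : ℂ) = a := by linear_combination h6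
      exact_mod_cast h7.symm
    intro i hi
    have := congrArg (fun p => Polynomial.coeff p i) hP0
    simp only [hP, Polynomial.finsetSum_coeff, Polynomial.coeff_C_mul, Polynomial.coeff_X_pow,
      Polynomial.coeff_zero] at this
    simpa [hi] using this
  intro i hi
  have : (f i : ℍ → ℂ) = 0 := funext fun z => hpt z i hi
  rw [← hf i hi, this]
  exact qExpansion_zero 1

end transcendence

end Pool.Agent.L1
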