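import Pool.Agent.Lib.L1.Zloc
import Pool.Agent.Lib.L1.Eis
import Pool.Agent.Lib.MP_a3a416_nt.SJ5.BernInt

/-!
# L1.Cong: the congruences `E_{p-1} ≡ 1`, `E_{p+1} ≡ E_2`, `E_{p-s} ≡ κ + ∑ σ_{-s}^{(p)}(n) q^n` modulo `p`
-/

set_option linter.unusedSectionVars false

open PowerSeries
open MP_a3a416_nt.SJ (val)
open scoped ArithmeticFunction.sigma

namespace Pool.Agent.L1

variable {p : ℕ} [hp : Fact p.Prime]

/-- the normalised Eisenstein series of weight `p - 1` -/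
noncomputable def EA (p : ℕ) : ℚ⟦X⟧ :=
  1 - C (2 * ((p - 1 : ℕ) : ℚ) / bernoulli (p - 1)) * sgQ (p - 2)

/-- a form of weight `p + 1` congruent to `E₂` -/
noncomputable def EB (p : ℕ) : ℚ⟦X⟧ :=
  e2 ℚ * EA p + C (12 / (1 - (p : ℚ))) * Dq (EA p)

/-- the Eisenstein series of weight `p - s` with coefficient of `q` equal to one -/
noncomputable def Ee (p s : ℕ) : ℚ⟦X⟧ :=
  C (-(bernoulli (p - s)) / (2 * ((p - s : ℕ) : ℚ))) + sgQ (p - s - 1)

/-- `∑_n (∑_{d ∣ n, p ∤ d} d^(-s)) q^n` -/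
noncomputable def FFp (p s : ℕ) : ℚ⟦X⟧ :=
  PowerSeries.mk fun n => ∑ d ∈ n.divisors with ¬ p ∣ d, ((d : ℚ)⁻¹) ^ s

/-- `p B_{p-1} ≡ -1` -/
lemma val_pB (h3 : 3 ≤ p) : val p ((p : ℚ) * bernoulli (p - 1) + 1) 1 := by
  have hp' := hp.out
  have hs := sum_bernoulli p
  rw [if_neg (by omega)] at hs
  have e : Finset.range p = Finset.range ((p - 2) + 1 + 1) := by congr 1; omega
  rw [e, Finset.sum_range_succ, Finset.sum_range_succ'] at hs
  have e1 : p - 2 + 1 = p - 1 := by omega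
  rw [e1, Nat.choose_zero_right, _root_.bernoulli_zero] at hs
  have e2 : p.choose (p - 1) = p := by
    rw [Nat.choose_symm_of_eq_add (b := 1) (by omega), Nat.choose_one_right]
  rw [e2] at hs
  have h1 : val p (∑ k ∈ Finset.range (p - 2), (p.choose (k + 1) : ℚ) * bernoulli (k + 1)) 1 := by
    refine MP_a3a416_nt.SJ.val.sum fun k hk => ?_
    have hk' := Finset.mem_range.1 hk
    have h2 := MP_a3a416_nt.SJ5.val_bern (m := k + 1) hp' (by omega)
    have h3 : val p (((p.choose (k + 1) : ℕ) : ℤ) : ℚ) ((1 : ℕ) : ℤ) :=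
      MP_a3a416_nt.SJ.val.of_dvd (by
        rw [pow_one]
        exact_mod_cast hp'.dvd_choose_self (by omega) (by omega))
    have h4 := h3.mul h2
    simpa using h4
  have h2 := h1.neg
  have e3 : (p : ℚ) * bernoulli (p - 1) + 1 =
      -(∑ k ∈ Finset.range (p - 2), (p.choose (k + 1) : ℚ) * bernoulli (k + 1)) := by
    push_cast at hs
    linarith
  rw [e3]
  exact h2

lemma not_val_one : ¬ val p 1 1 := by
  rintro (h | h)
  · norm_num at h
  · rw [padicValRat.one] at h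
    norm_num at h

/-- a rational number `≡ -1` is a unit -/
lemma val_inv_of_cong {w : ℚ} (h : val p (w + 1) 1) : w ≠ 0 ∧ val p (w⁻¹) 0 := by
  have hw : w ≠ 0 := by
    rintro rfl
    rw [zero_add] at h
    exact not_val_one h
  refine ⟨hw, Or.inr ?_⟩
  rw [padicValRat.inv]
  by_contra hcon
  have h1 : val p w 1 := Or.inr (by omega)
  have h2 := h.sub h1
  rw [add_sub_cancel_left] at h2
  exact not_val_one h2

lemma val_cA (h3 : 3 ≤ p) : val p (2 * ((p - 1 : ℕ) : ℚ) / bernoulli (p - 1)) 1 := by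
  obtain ⟨hw, hi⟩ := val_inv_of_cong (val_pB h3)
  have hp0 : (p : ℚ) ≠ 0 := by exact_mod_cast hp.out.ne_zero
  have hB : bernoulli (p - 1) ≠ 0 := right_ne_zero_of_mul hw
  have e : 2 * ((p - 1 : ℕ) : ℚ) / bernoulli (p - 1) =
      ((2 * (p - 1) : ℕ) : ℚ) * ((p : ℚ) ^ (1 : ℤ) * ((p : ℚ) * bernoulli (p - 1))⁻¹) := by
    push_cast
    rw [zpow_one]
    field_simp
  rw [e]
  have := (MP_a3a416_nt.SJ.val.nat (p := p) (2 * (p - 1))).mul
    ((MP_a3a416_nt.SJ.val.p_zpow (p := p) 1).mul hi)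
  simpa using this

theorem EA_cg (h3 : 3 ≤ p) : Cg p (EA p) 1 := by
  intro n
  rw [EA, map_sub, sub_sub_cancel_left, coeff_C_mul, sgQ, coeff_mk]
  have := ((val_cA h3).mul (MP_a3a416_nt.SJ.val.nat (p := p) (σ (p - 2) n))).neg
  simpa using this

lemma even_pred (h3 : 3 ≤ p) : Even (p - 1) :=
  Nat.Prime.even_sub_one hp.out (by omega)

theorem EA_mem (h5 : 5 ≤ p) : MZ p (p - 1) (EA p) := by
  have hB : bernoulli (p - 1) ≠ 0 := by
    obtain ⟨hw, _⟩ := val_inv_of_cong (val_pB (p := p) (by omega))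
    exact right_ne_zero_of_mul hw
  have hk0 : ((p - 1 : ℕ) : ℚ) ≠ 0 := by
    exact_mod_cast (by omega : p - 1 ≠ 0)
  have h := eis_mem_ML (k := p - 1) (by omega) (even_pred (by omega))
  have h1 := Submodule.smul_mem _ (-(2 * ((p - 1 : ℕ) : ℚ) / bernoulli (p - 1))) h
  have e : -(2 * ((p - 1 : ℕ) : ℚ) / bernoulli (p - 1)) •
      (C (-(bernoulli (p - 1)) / (2 * ((p - 1 : ℕ) : ℚ))) + sgQ (p - 1 - 1)) = EA p := by
    rw [smul_eq_C_mul, mul_add, ← map_mul, EA, show p - 1 - 1 = p - 2 by omega,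
      show -(2 * ((p - 1 : ℕ) : ℚ) / bernoulli (p - 1)) *
        (-(bernoulli (p - 1)) / (2 * ((p - 1 : ℕ) : ℚ))) = 1 by field_simp, map_one, map_neg]
    ring
  rw [e] at h1
  exact MZ_iff.2 ⟨h1, PI.of_cg (EA_cg (by omega)) PI.one⟩

lemma val_one_sub : val p ((1 - (p : ℚ))⁻¹) 0 := by
  have h : ¬ (p : ℤ) ∣ (1 - (p : ℤ)) := by
    intro h
    have h1 : (p : ℤ) ∣ 1 := by simpa using dvd_add h (dvd_refl (p : ℤ))
    have := Int.eq_one_of_dvd_one (by positivity) h1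
    have h2 := hp.out.one_lt
    omega
  have := MP_a3a416_nt.SJ.val.inv_of_not_dvd h
  simpa using this

theorem EB_mem (h5 : 5 ≤ p) : MZ p (p + 1) (EB p) := by
  have h1 := (EA_mem h5).serre.C_mul val_one_sub
  have e : C ((1 - (p : ℚ))⁻¹) * (12 * Dq (EA p) - ((p - 1 : ℕ) : ℚ⟦X⟧) * e2 ℚ * EA p) = EB p := by
    have hp1 : (1 - (p : ℚ)) ≠ 0 := by
      have : (1 : ℚ) < p := by exact_mod_cast hp.out.one_lt
      linarith
    rw [EB, show ((p - 1 : ℕ) : ℚ⟦X⟧) = C (((p - 1 : ℕ) : ℚ)) from (map_natCast C _).symm,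
      show (12 : ℚ⟦X⟧) = C (12 : ℚ) from (map_ofNat C 12).symm, div_eq_mul_inv, map_mul]
    have e3 : C ((1 - (p : ℚ))⁻¹) * C (((p - 1 : ℕ) : ℚ)) = -1 := by
      rw [← map_mul, Nat.cast_pred hp.out.pos, show (1 - (p : ℚ))⁻¹ * ((p : ℚ) - 1) = -1 by
        field_simp; ring, map_neg, map_one]
    linear_combination (-(e2 ℚ * EA p)) * e3
  rw [e] at h1
  have e4 : p - 1 + 2 = p + 1 := by omega
  rwa [e4] at h1

theorem EB_cg (h5 : 5 ≤ p) : Cg p (EB p) (e2 ℚ) := by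
  have h := EA_cg (p := p) (by omega)
  have h1 : Cg p (e2 ℚ * EA p) (e2 ℚ * 1) := h.mul_left PI.e2
  have h2 : Cg p (C (12 / (1 - (p : ℚ))) * Dq (EA p)) (C (12 / (1 - (p : ℚ))) * Dq 1) := by
    refine h.Dq.mul_left (PI.C ?_)
    have := (MP_a3a416_nt.SJ.val.nat (p := p) 12).mul (val_one_sub (p := p))
    rw [div_eq_mul_inv]
    simpa using this
  have h3 := h1.add h2
  rw [Dq_one, mul_zero, add_zero, mul_one] at h3
  exact h3

/-- `E₂ E_{p-1} - E_{p+1} = -(12/(1-p)) D E_{p-1}` -/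
lemma e2_EA_sub_EB : e2 ℚ * EA p - EB p = -(C (12 / (1 - (p : ℚ))) * Dq (EA p)) := by
  rw [EB]; ring

section Ee

variable {s : ℕ}

lemma not_dvd_sub (hs : 1 ≤ s) (hsp : s < p) : ¬ p ∣ p - s := fun h =>
  absurd (Nat.le_of_dvd (by omega) h) (by omega)

lemma val_two_inv (h3 : 3 ≤ p) {m : ℕ} (hm : ¬ p ∣ m) : val p ((2 * (m : ℚ))⁻¹) 0 := by
  have h : ¬ (p : ℤ) ∣ ((2 * m : ℕ) : ℤ) := by
    intro h
    have h1 : p ∣ 2 * m := by exact_mod_cast h
    rcases hp.out.dvd_mul.1 h1 with h2 | h2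
    · exact absurd (Nat.le_of_dvd (by omega) h2) (by omega)
    · exact hm h2
  have := MP_a3a416_nt.SJ.val.inv_of_not_dvd h
  push_cast at this
  exact this

lemma odd_sub (hso : Odd s) (h3 : 3 ≤ p) (hsp : s ≤ p) : Even (p - s) := by
  have : Odd p := hp.out.odd_of_ne_two (by omega)
  exact Nat.Odd.sub_odd this hso

theorem Ee_pi (hs : 3 ≤ s) (hsp : s + 4 ≤ p) : PI p (Ee p s) := by
  rw [Ee]
  refine PI.add (PI.C ?_) fun n => ?_
  · have h1 := MP_a3a416_nt.SJ5.val_bern (p := p) (m := p - s) hp.out (by omega)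
    have h2 := h1.neg.mul (val_two_inv (p := p) (m := p - s) (by omega) (not_dvd_sub (by omega) (by omega)))
    rw [div_eq_mul_inv]
    simpa using h2
  · rw [sgQ, coeff_mk]
    exact MP_a3a416_nt.SJ.val.nat _

theorem Ee_mem (hs : 3 ≤ s) (hso : Odd s) (hsp : s + 4 ≤ p) : MZ p (p - s) (Ee p s) :=
  MZ_iff.2 ⟨eis_mem_ML (by omega) (odd_sub hso (by omega) (by omega)), Ee_pi hs hsp⟩

theorem Ee_cg (hs : 3 ≤ s) (hsp : s + 4 ≤ p) :
    Cg p (Ee p s) (C (bernoulli (p - s) / (2 * (s : ℚ))) + FFp p s) := by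
  intro n
  rw [Ee, map_add, map_add, sgQ, FFp, coeff_mk, coeff_mk, coeff_C, coeff_C]
  by_cases hn : n = 0
  · subst hn
    simp only [if_true, ArithmeticFunction.map_zero, Nat.cast_zero, Nat.divisors_zero,
      Finset.filter_empty, Finset.sum_empty, add_zero]
    have h1 := MP_a3a416_nt.SJ5.val_bern (p := p) (m := p - s) hp.out (by omega)
    have h2 := val_two_inv (p := p) (m := p - s) (by omega) (not_dvd_sub (by omega) (by omega))
    have h3 : val p ((s : ℚ)⁻¹) 0 := by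
      have h : ¬ (p : ℤ) ∣ ((s : ℕ) : ℤ) := by
        intro h
        have h1 : p ∣ s := by exact_mod_cast h
        exact absurd (Nat.le_of_dvd (by omega) h1) (by omega)
      have := MP_a3a416_nt.SJ.val.inv_of_not_dvd h
      simpa using this
    have h4 := ((h1.neg.mul h2).mul h3).mul (MP_a3a416_nt.SJ.val.p_zpow (p := p) 1)
    have hs0 : (s : ℚ) ≠ 0 := by exact_mod_cast (by omega : s ≠ 0)
    have hps0 : ((p - s : ℕ) : ℚ) ≠ 0 := by exact_mod_cast (by omega : p - s ≠ 0)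
    have e : -bernoulli (p - s) / (2 * ((p - s : ℕ) : ℚ)) - bernoulli (p - s) / (2 * (s : ℚ)) =
        -bernoulli (p - s) * (2 * ((p - s : ℕ) : ℚ))⁻¹ * (s : ℚ)⁻¹ * (p : ℚ) ^ (1 : ℤ) := by
      have e2 : (p : ℚ) = ((p - s : ℕ) : ℚ) + s := by
        rw [← Nat.cast_add, Nat.sub_add_cancel (by omega)]
      rw [zpow_one]
      field_simp
      rw [e2]
      ring
    rw [e]
    simpa using h4
  · simp only [hn, if_false, zero_add]
    rw [ArithmeticFunction.sigma_apply, Nat.cast_sum, Finset.sum_filter, ← Finset.sum_sub_distrib]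
    refine MP_a3a416_nt.SJ.val.sum fun d hd => ?_
    have hd0 : d ≠ 0 := (Nat.pos_of_mem_divisors hd).ne'
    by_cases hpd : p ∣ d
    · rw [if_neg (not_not.2 hpd), sub_zero]
      have h1 : val p (((d ^ (p - s - 1) : ℕ) : ℤ) : ℚ) ((1 : ℕ) : ℤ) :=
        MP_a3a416_nt.SJ.val.of_dvd (by
          rw [pow_one]
          exact_mod_cast dvd_pow hpd (by omega))
      simpa using h1
    · rw [if_pos hpd]
      have hdp : ¬ (p : ℤ) ∣ (d : ℤ) := fun h => hpd (by exact_mod_cast h)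
      have h1 : val p (((d : ℤ) ^ (p - 1) - 1 : ℤ) : ℚ) ((1 : ℕ) : ℤ) :=
        MP_a3a416_nt.SJ.val.of_dvd (by
          rw [pow_one]
          exact (Int.modEq_iff_dvd.1 (Int.ModEq.pow_card_sub_one_eq_one hp.out
            ((Nat.Prime.coprime_iff_not_dvd hp.out).2 hpd |>.symm.isCoprime) |>.symm)))
      have h2 := (MP_a3a416_nt.SJ.val.inv_of_not_dvd hdp).pow s
      have h3 := h2.mul h1
      have hdq : (d : ℚ) ≠ 0 := by exact_mod_cast hd0
      have e : ((d ^ (p - s - 1) : ℕ) : ℚ) - ((d : ℚ)⁻¹) ^ s =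
          (((d : ℤ) : ℚ)⁻¹) ^ s * (((d : ℤ) ^ (p - 1) - 1 : ℤ) : ℚ) := by
        push_cast
        have e1 : (d : ℚ) ^ (p - 1) = (d : ℚ) ^ s * (d : ℚ) ^ (p - s - 1) := by
          rw [← pow_add]
          congr 1
          omega
        rw [e1, inv_pow]
        field_simp
      rw [e]
      simpa using h3

end Ee

end Pool.Agent.L1
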