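import Pool.Agent.Lib.L1.SpanC
import Pool.Agent.Lib.MP_a3a416_nt.SJ.PL

/-!
# L1.Defs: definitions for `B_{p-s}` modulo `p`, `s = 3, 5, 7` (helper26)

Level one modular forms as power series: `e2 R, e4 R, e6 R, dl R`, `ML R k`, `bas R k j`, `dd k`
(helper54, modules Formal, Delta, Span). Here: `R = ℚ`.
`sg m = ∑ σ_m(n) q^n`; `MLz k`: `ML ℚ k` for an integer `k` (0 if `k < 0`); `sd k f = D f - (k/12) E2 f`;
`XX s i y = ∑_{l ≤ i} C(i,l) 12^l (s-l)! E2^(i-l) D^l y`.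
-/

set_option autoImplicit false

open PowerSeries
open MP_a3a416_nt.SJ (val)

namespace Pool.Agent.L1

/-- `∑ σ_m(n) q^n` -/
noncomputable def sg (m : ℕ) : ℚ⟦X⟧ := mk fun n => ((ArithmeticFunction.sigma m n : ℕ) : ℚ)

/-- forms of weight `k`, `k` an integer (none if `k < 0`) -/
noncomputable def MLz (k : ℤ) : Submodule ℚ ℚ⟦X⟧ := if 0 ≤ k then ML ℚ k.toNat else ⊥

/-- Serre derivative for the weight `k` -/
noncomputable def sd (k : ℤ) (f : ℚ⟦X⟧) : ℚ⟦X⟧ := Dq f - C ((k : ℚ) / 12) * (e2 ℚ * f)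

/-- the coefficient `C(i,l) 12^l (s-l)!` -/
def cf (s i l : ℕ) : ℚ := (i.choose l : ℚ) * 12 ^ l * ((s - l).factorial : ℚ)

/-- `X_i[y]`, generic version, in a commutative `ℚ`-algebra `A` with a derivation `d` and `e ∈ A` -/
noncomputable def XG {A : Type*} [CommRing A] [Algebra ℚ A] (d : Derivation ℚ A A) (e : A)
    (s i : ℕ) (y : A) : A :=
  ∑ l ∈ Finset.range (i + 1), cf s i l • (e ^ (i - l) * d^[l] y)

noncomputable def XX (s i : ℕ) (y : ℚ⟦X⟧) : ℚ⟦X⟧ := XG DqDer (e2 ℚ) s i y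

/-- `F = ∑ σ_{-s}(n) q^n` -/
noncomputable def Fs (s : ℕ) : ℚ⟦X⟧ := mk fun n => ∑ d ∈ n.divisors, ((d : ℚ) ^ s)⁻¹

/-- `y₀ = a + b F` -/
noncomputable def Y0 (s : ℕ) (a b : ℚ) : ℚ⟦X⟧ := C a + C b * Fs s

/-- index of the `J = s + 3` blocks: `inl 0`: `1`; `inl 1`: `E2`; `inr i`: `XX s i y₀` -/
abbrev Bl (s : ℕ) := Fin 2 ⊕ Fin (s + 1)

/-- the weights `-1, 1, 2 i - s` of the blocks -/
def wt (s : ℕ) : Bl s → ℤ
  | .inl j => if j = 0 then -1 else 1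
  | .inr i => 2 * (i : ℤ) - s

/-- the functions of the blocks -/
noncomputable def eb (s : ℕ) (a b : ℚ) : Bl s → ℚ⟦X⟧
  | .inl j => if j = 0 then 1 else e2 ℚ
  | .inr i => XX s i (Y0 s a b)

/-- the weights `K - 1 - wt β` of the coefficient forms, `K = 12 N` -/
def kb (s N : ℕ) : Bl s → ℕ
  | .inl j => if j = 0 then 12 * N else 12 * N - 2
  | .inr i => 12 * N + s - 1 - 2 * i

/-- the columns: block `β` and index `j < dd (kb β)` -/
abbrev Col (s N : ℕ) := Σ β : Bl s, Fin (dd (kb s N β))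

/-- the series of a column -/
noncomputable def colS (s N : ℕ) (a b : ℚ) (c : Col s N) : ℚ⟦X⟧ :=
  bas ℚ (kb s N c.1) c.2 * eb s a b c.1

/-- number of rows -/
abbrev TT (s N : ℕ) : ℕ := (s + 3) * N + (s + 3) ^ 2

/-- the matrix: the coefficients `q^r`, `r < T`, of the columns, and `c0` unit columns -/
noncomputable def VV (s N : ℕ) (a b : ℚ) {c0 : ℕ} (rr : Fin c0 → Fin (TT s N)) :
    Matrix (Fin (TT s N)) (Col s N ⊕ Fin c0) ℚ :=
  fun r x => Sum.elim (fun c => coeff (r : ℕ) (colS s N a b c)) (fun i => if r = rr i then 1 else 0) x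

/-- all coefficients of `f` have `p`-adic valuation `≥ v` -/
def pv (p : ℕ) (f : ℚ⟦X⟧) (v : ℤ) : Prop := ∀ n, val p (coeff n f) v

/-- the coefficients `q^r`, `r < T`, of `f` have `p`-adic valuation `≥ v` -/
def pvT (p T : ℕ) (f : ℚ⟦X⟧) (v : ℤ) : Prop := ∀ n < T, val p (coeff n f) v

/-- the part of `F` prime to `p` -/
noncomputable def Fd (s p : ℕ) : ℚ⟦X⟧ :=
  mk fun n => ∑ d ∈ n.divisors.filter (fun d => ¬ p ∣ d), ((d : ℚ) ^ s)⁻¹

/-- `f(q^p)` -/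
noncomputable def expd (p : ℕ) (f : ℚ⟦X⟧) : ℚ⟦X⟧ := mk fun n => if p ∣ n then coeff (n / p) f else 0

/-- `p` is `c`-flat at the index `s` -/
def Flat (s : ℕ) (c : ℚ) (p : ℕ) : Prop := (p : ℤ) ∣ (_root_.bernoulli (p - s) - c).num

end Pool.Agent.L1
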