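import Pool.Agent.Lib.L1.Formal

/-!
# L1.Delta: the integral power series `Δ = q - 24 q² + ...`
-/

open UpperHalfPlane hiding I
open Complex ModularForm EisensteinSeries Derivative Function Filter
open scoped Real MatrixGroups Manifold Topology ArithmeticFunction.sigma

namespace Pool.Agent.L1

/-- `∑ σ₃(n) qⁿ`. -/
noncomputable def S3z : PowerSeries ℤ := PowerSeries.mk fun n => ((σ 3 n : ℕ) : ℤ)

/-- `∑ σ₅(n) qⁿ`. -/
noncomputable def S5z : PowerSeries ℤ := PowerSeries.mk fun n => ((σ 5 n : ℕ) : ℤ)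

/-- `∑ ((5 σ₃(n) + 7 σ₅(n))/12) qⁿ`. -/
noncomputable def W35z : PowerSeries ℤ :=
  PowerSeries.mk fun n => ∑ d ∈ n.divisors, ((5 * (d : ℤ) ^ 3 + 7 * (d : ℤ) ^ 5) / 12)

/-- The discriminant `Δ` as an integral power series. -/
noncomputable def Delz : PowerSeries ℤ :=
  W35z + 100 * S3z ^ 2 + 8000 * S3z ^ 3 - 147 * S5z ^ 2

lemma E4z_eq : E4z = 1 + 240 * S3z := by
  ext n
  rw [show (240 : PowerSeries ℤ) = PowerSeries.C (240 : ℤ) from (map_ofNat PowerSeries.C 240).symm,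
    map_add, PowerSeries.coeff_C_mul, coeff_E4z, PowerSeries.coeff_one, S3z, PowerSeries.coeff_mk]
  split_ifs with h
  · subst h; simp
  · ring

lemma E6z_eq : E6z = 1 - 504 * S5z := by
  ext n
  rw [show (504 : PowerSeries ℤ) = PowerSeries.C (504 : ℤ) from (map_ofNat PowerSeries.C 504).symm,
    map_sub, PowerSeries.coeff_C_mul, coeff_E6z, PowerSeries.coeff_one, S5z, PowerSeries.coeff_mk]
  split_ifs with h
  · subst h; simp
  · ring

lemma twelve_dvd (d : ℤ) : (12 : ℤ) ∣ 5 * d ^ 3 + 7 * d ^ 5 := by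
  have h : ∀ x : ZMod 12, 5 * x ^ 3 + 7 * x ^ 5 = 0 := by decide
  have := h (d : ZMod 12)
  have h2 : ((5 * d ^ 3 + 7 * d ^ 5 : ℤ) : ZMod 12) = 0 := by push_cast; exact this
  exact (ZMod.intCast_zmod_eq_zero_iff_dvd _ 12).mp h2

lemma W35z_eq : 12 * W35z = 5 * S3z + 7 * S5z := by
  ext n
  rw [show (12 : PowerSeries ℤ) = PowerSeries.C (12 : ℤ) from (map_ofNat PowerSeries.C 12).symm,
    show (5 : PowerSeries ℤ) = PowerSeries.C (5 : ℤ) from (map_ofNat PowerSeries.C 5).symm,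
    show (7 : PowerSeries ℤ) = PowerSeries.C (7 : ℤ) from (map_ofNat PowerSeries.C 7).symm,
    map_add, PowerSeries.coeff_C_mul, PowerSeries.coeff_C_mul, PowerSeries.coeff_C_mul, W35z, S3z,
    S5z, PowerSeries.coeff_mk, PowerSeries.coeff_mk, PowerSeries.coeff_mk,
    ArithmeticFunction.sigma_apply, ArithmeticFunction.sigma_apply, Finset.mul_sum]
  push_cast
  rw [Finset.mul_sum, Finset.mul_sum, ← Finset.sum_add_distrib]
  refine Finset.sum_congr rfl fun d _ => ?_
  exact Int.mul_ediv_cancel' (twelve_dvd d)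

/-- `E₄³ - E₆² = 1728 Δ`. -/
theorem delta_eq : E4z ^ 3 - E6z ^ 2 = 1728 * Delz := by
  rw [E4z_eq, E6z_eq, Delz]
  linear_combination (-144 : PowerSeries ℤ) * W35z_eq

/-- `D Δ = E₂ Δ`. -/
theorem Dq_Delz : Dq Delz = E2z * Delz := by
  have h0 : (1728 : PowerSeries ℤ) ≠ 0 := by
    rw [show (1728 : PowerSeries ℤ) = PowerSeries.C (1728 : ℤ)
      from (map_ofNat PowerSeries.C 1728).symm]
    intro h
    have := congrArg (PowerSeries.coeff 0) h
    rw [PowerSeries.coeff_C] at this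
    norm_num at this
  apply mul_left_cancel₀ h0
  have h1 := congrArg Dq delta_eq
  have h2 : Dq (E4z ^ 3 - E6z ^ 2) = 3 * E4z ^ 2 * Dq E4z - 2 * E6z * Dq E6z := by
    rw [Dq_sub, pow_succ, pow_two, Dq_mul, Dq_mul, pow_two, Dq_mul]; ring
  have h3 : Dq (1728 * Delz) = 1728 * Dq Delz := by
    rw [Dq_mul, show (1728 : PowerSeries ℤ) = PowerSeries.C (1728 : ℤ)
      from (map_ofNat PowerSeries.C 1728).symm, Dq_C]; ring
  rw [h2, h3] at h1
  linear_combination E2z * delta_eq - h1 + E4z ^ 2 * ramZ4 - E6z * ramZ6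

lemma coeff_zero_Delz : PowerSeries.coeff 0 Delz = 0 := by
  have h1 : PowerSeries.constantCoeff S3z = 0 := by
    rw [← PowerSeries.coeff_zero_eq_constantCoeff_apply, S3z, PowerSeries.coeff_mk]; simp
  have h2 : PowerSeries.constantCoeff S5z = 0 := by
    rw [← PowerSeries.coeff_zero_eq_constantCoeff_apply, S5z, PowerSeries.coeff_mk]; simp
  have h3 : PowerSeries.constantCoeff W35z = 0 := by
    rw [← PowerSeries.coeff_zero_eq_constantCoeff_apply, W35z, PowerSeries.coeff_mk]; simp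
  rw [PowerSeries.coeff_zero_eq_constantCoeff_apply, Delz]
  simp [h1, h2, h3]

/-- `Δ = q · U` with `U = 1 + O(q)`. -/
noncomputable def Ulz : PowerSeries ℤ := PowerSeries.mk fun n => PowerSeries.coeff (n + 1) Delz

lemma Delz_eq : Delz = PowerSeries.X * Ulz := by
  ext n
  rcases n with _ | n
  · rw [coeff_zero_Delz]; simp
  · rw [PowerSeries.coeff_succ_X_mul, Ulz, PowerSeries.coeff_mk]

lemma constCoeff_Ulz : PowerSeries.constantCoeff Ulz = 1 := by
  rw [← PowerSeries.coeff_zero_eq_constantCoeff_apply, Ulz, PowerSeries.coeff_mk, Delz]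
  have hX : ∀ f g : PowerSeries ℤ, PowerSeries.constantCoeff f = 0 →
      PowerSeries.constantCoeff g = 0 → PowerSeries.coeff 1 (f * g) = 0 := by
    intro f g hf hg
    rw [PowerSeries.coeff_mul]
    have : Finset.HasAntidiagonal.antidiagonal 1 = {((0 : ℕ), (1 : ℕ)), (1, 0)} := by decide
    rw [this]
    simp [hf, hg]
  have h1 : PowerSeries.constantCoeff S3z = 0 := by
    rw [← PowerSeries.coeff_zero_eq_constantCoeff_apply, S3z, PowerSeries.coeff_mk]; simp
  have h2 : PowerSeries.constantCoeff S5z = 0 := by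
    rw [← PowerSeries.coeff_zero_eq_constantCoeff_apply, S5z, PowerSeries.coeff_mk]; simp
  have e1 : PowerSeries.coeff 1 (100 * S3z ^ 2) = 0 := by
    rw [show (100 : PowerSeries ℤ) * S3z ^ 2 = (100 * S3z) * S3z by ring]
    exact hX _ _ (by simp [h1]) h1
  have e2 : PowerSeries.coeff 1 (8000 * S3z ^ 3) = 0 := by
    rw [show (8000 : PowerSeries ℤ) * S3z ^ 3 = (8000 * S3z ^ 2) * S3z by ring]
    exact hX _ _ (by simp [h1]) h1
  have e3 : PowerSeries.coeff 1 (147 * S5z ^ 2) = 0 := by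
    rw [show (147 : PowerSeries ℤ) * S5z ^ 2 = (147 * S5z) * S5z by ring]
    exact hX _ _ (by simp [h2]) h2
  have e4 : PowerSeries.coeff 1 W35z = 1 := by
    rw [W35z, PowerSeries.coeff_mk]; simp
  simp only [map_add, map_sub, zero_add, e1, e2, e3, e4]
  norm_num

lemma discriminant_fun : (discriminant : ℍ → ℂ) = (1728⁻¹ : ℂ) •
      (((E₄ : ℍ → ℂ) * (E₄ : ℍ → ℂ)) * (E₄ : ℍ → ℂ) - (E₆ : ℍ → ℂ) * (E₆ : ℍ → ℂ)) := by
  funext z
  rw [discriminant_eq_E₄_cube_sub_E₆_sq]
  simp only [Pi.smul_apply, Pi.sub_apply, Pi.mul_apply, smul_eq_mul]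
  ring

lemma map_Delz : PowerSeries.map (Int.castRingHom ℂ) Delz = qExpansion 1 discriminant := by
  have h4 := nice_modularForm E₄
  have h6 := nice_modularForm E₆
  have hd := congrArg (PowerSeries.map (Int.castRingHom ℂ)) delta_eq
  simp only [map_mul, map_sub, map_pow, map_ofNat] at hd
  rw [discriminant_fun, Nice.qExpansion_smul (((h4.mul h4).mul h4).sub (h6.mul h6)),
    Nice.qExpansion_sub ((h4.mul h4).mul h4) (h6.mul h6), Nice.qExpansion_mul (h4.mul h4) h4,
    Nice.qExpansion_mul h4 h4, Nice.qExpansion_mul h6 h6, ← map_E4z, ← map_E6z,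
    PowerSeries.smul_eq_C_mul]
  have h12 : (1728 : PowerSeries ℂ) * PowerSeries.C (1728⁻¹ : ℂ) = 1 := by
    rw [show (1728 : PowerSeries ℂ) = PowerSeries.C (1728 : ℂ)
      from (map_ofNat PowerSeries.C 1728).symm, ← map_mul]
    norm_num
  linear_combination (-1 : PowerSeries ℂ) * PowerSeries.C (1728⁻¹ : ℂ) * hd
    - (PowerSeries.map (Int.castRingHom ℂ) Delz) * h12

lemma nice_discriminant : Nice discriminant := by
  have h4 := nice_modularForm E₄
  have h6 := nice_modularForm E₆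
  rw [discriminant_fun]
  exact (((h4.mul h4).mul h4).sub (h6.mul h6)).smul _

end Pool.Agent.L1
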