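import Pool.Agent.Lib.L1.Defs

/-!
# L1.Rec: the recursion for `X_i[y]` (generic derivation)
PROOF. Write `X_i = ∑_{l ≤ i} cf s i l • (e^(i-l) * d^[l] y)`, `cf s i l = C(i,l) 12^l (s-l)!`.
`d X_i - ((2i-s)/12) e X_i`: the coefficient of `e^(i+1-l) d^[l] y` (`0 ≤ l ≤ i+1`) is
`cf s i l * ((i-l)/12 - (2i-s)/12) + cf s i (l-1) = cf s i l (s-i-l)/12 + cf s i (l-1)`, and this equals
`((s-i)/12) cf s (i+1) l`, because `l C(i,l) = (i-l+1) C(i,l-1)` and `C(i+1,l) = C(i,l) + C(i,l-1)` (for `l = 0`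
without the second term; for `l = i + 1` only the second term, `C(i,i+1) = 0`; for `i = s`, `l ≤ s`, the
right side is 0; for `i = s`, `l = s+1` the left side is `cf s s s = 12^s`).
The coefficient of `e4 e^(i-1-l) d^[l] y` is `-(i-l)/12 cf s i l = -(i/12) cf s (i-1) l`, because
`(i-l) C(i,l) = i C(i-1,l)`.
`XG_zero`: `X_0[y] = s! y`. `XG_map`: for two algebras, a ring hom commuting with the derivations.
-/

set_option autoImplicit false

namespace Pool.Agent.L1

private lemma Rec_iter_succ {A : Type*} [CommRing A] [Algebra ℚ A] (d : Derivation ℚ A A) (l : ℕ) (y : A) :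
    d (d^[l] y) = d^[l + 1] y := (Function.iterate_succ_apply' d l y).symm

private lemma Rec_choose_mul (i l : ℕ) :
    (((i : ℚ) - l)) * (i.choose l : ℚ) = (i : ℚ) * ((i - 1).choose l : ℚ) := by
  rcases i with _ | i
  · rcases l with _ | l
    · simp
    · simp
  · by_cases h : l ≤ i + 1
    · have h1 := Nat.add_one_mul_choose_eq i l
      have h2 := Nat.choose_succ_right_eq (i + 1) l
      have h3 : ((i + 1 - l : ℕ) : ℚ) = ((i + 1 : ℕ) : ℚ) - l := by
        rw [Nat.cast_sub h]
      have e1 : (((i + 1) * i.choose l : ℕ) : ℚ) = (((i + 1).choose (l + 1) * (l + 1) : ℕ) : ℚ) := by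
        exact_mod_cast h1
      have e2 : (((i + 1).choose (l + 1) * (l + 1) : ℕ) : ℚ) = (((i + 1).choose l * (i + 1 - l) : ℕ) : ℚ) := by
        exact_mod_cast h2
      rw [e2] at e1
      rw [Nat.cast_mul, Nat.cast_mul, h3] at e1
      simp only [Nat.add_sub_cancel]
      linarith
    · push Not at h
      rw [Nat.choose_eq_zero_of_lt h, Nat.choose_eq_zero_of_lt (by omega)]
      simp

private lemma Rec_cf1 (s i l : ℕ) :
    cf s i l * (((i : ℚ) - l) / 12) = ((i : ℚ) / 12) * cf s (i - 1) l := by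
  unfold cf
  have := Rec_choose_mul i l
  linear_combination (12 ^ l * ((s - l).factorial : ℚ) / 12) * this

private lemma Rec_cf2 (s i l : ℕ) (hl : l < s) (hli : l ≤ i) :
    cf s i (l + 1) * (((s : ℚ) - i - ((l + 1 : ℕ) : ℚ)) / 12) + cf s i l =
      (((s : ℚ) - i) / 12) * cf s (i + 1) (l + 1) := by
  unfold cf
  have h1 : (s - l) = (s - (l + 1)) + 1 := by omega
  have h2 : ((s - l).factorial : ℚ) = ((s : ℚ) - l) * ((s - (l + 1)).factorial : ℚ) := by
    rw [h1, Nat.factorial_succ, Nat.cast_mul, ← h1, Nat.cast_sub hl.le]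
  have h3 : ((i + 1).choose (l + 1) : ℚ) = (i.choose l : ℚ) + (i.choose (l + 1) : ℚ) := by
    rw [Nat.choose_succ_succ]; push_cast; ring
  have h4 : (i.choose (l + 1) : ℚ) * ((l : ℚ) + 1) = (i.choose l : ℚ) * ((i : ℚ) - l) := by
    have := Nat.choose_succ_right_eq i l
    have h5 : ((i - l : ℕ) : ℚ) = (i : ℚ) - l := by rw [Nat.cast_sub hli]
    rw [← h5]
    exact_mod_cast this
  rw [h2, h3]
  push_cast
  rw [pow_succ]
  linear_combination (-(12 ^ l * ((s - (l + 1)).factorial : ℚ))) * h4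

private lemma Rec_term {A : Type*} [CommRing A] [Algebra ℚ A] (d : Derivation ℚ A A) (e e4 : A)
    (he : d e = (1 / 12 : ℚ) • (e ^ 2 - e4)) (n : ℕ) (z : A) :
    d (e ^ n * z) = ((n : ℚ) / 12) • (e ^ (n + 1) * z) + e ^ n * d z
      - ((n : ℚ) / 12) • (e4 * (e ^ (n - 1) * z)) := by
  rw [Derivation.leibniz, Derivation.leibniz_pow, he]
  rcases n with _ | n
  · simp
  · rw [nsmul_eq_mul]
    simp only [Nat.add_sub_cancel, smul_eq_mul, Algebra.smul_def (R := ℚ)]
    push_cast
    have hn : (algebraMap ℚ A) (((n : ℚ) + 1) / 12) = ((n : A) + 1) * (algebraMap ℚ A) (1/12) := by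
      rw [div_eq_mul_one_div, map_mul, map_add, map_natCast, map_one]
    rw [hn]
    ring

private lemma Rec_dXG {A : Type*} [CommRing A] [Algebra ℚ A] (d : Derivation ℚ A A) (e e4 : A)
    (he : d e = (1 / 12 : ℚ) • (e ^ 2 - e4)) (s i : ℕ) (y : A) :
    d (XG d e s i y) =
      ∑ l ∈ Finset.range (i + 1), (cf s i l * (((i : ℚ) - l) / 12)) • (e ^ (i + 1 - l) * d^[l] y)
      + ∑ l ∈ Finset.range (i + 1), cf s i l • (e ^ (i - l) * d^[l + 1] y)
      - ((i : ℚ) / 12) • (e4 * XG d e s (i - 1) y) := by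
  have hX : ((i : ℚ) / 12) • (e4 * XG d e s (i - 1) y) =
      ∑ l ∈ Finset.range (i + 1), (cf s i l * (((i : ℚ) - l) / 12)) • (e4 * (e ^ (i - l - 1) * d^[l] y)) := by
    rcases i with _ | i
    · simp
    · unfold XG
      rw [Finset.sum_range_succ (fun l => (cf s (i + 1) l * ((((i + 1 : ℕ) : ℚ) - l) / 12)) •
        (e4 * (e ^ (i + 1 - l - 1) * d^[l] y))), sub_self, zero_div, mul_zero, zero_smul, add_zero]
      simp only [Nat.add_sub_cancel]
      rw [Finset.mul_sum, Finset.smul_sum]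
      refine Finset.sum_congr rfl fun l hl => ?_
      have hl' : l ≤ i := by simpa [Nat.lt_succ_iff] using hl
      rw [Rec_cf1]
      have : i + 1 - l - 1 = i - l := by omega
      rw [this, Nat.add_sub_cancel, mul_smul_comm, smul_smul]
  rw [hX, ← Finset.sum_add_distrib, ← Finset.sum_sub_distrib]
  unfold XG
  rw [map_sum]
  refine Finset.sum_congr rfl fun l hl => ?_
  have hl' : l ≤ i := by simpa [Nat.lt_succ_iff] using hl
  rw [Derivation.map_smul, Rec_term d e e4 he, Rec_iter_succ, smul_sub, smul_add, smul_smul, smul_smul]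
  have h1 : i - l + 1 = i + 1 - l := by omega
  have h2 : ((i - l : ℕ) : ℚ) = (i : ℚ) - l := by rw [Nat.cast_sub hl']
  rw [h1, h2]

private lemma Rec_main {A : Type*} [CommRing A] [Algebra ℚ A] (d : Derivation ℚ A A) (e e4 : A)
    (he : d e = (1 / 12 : ℚ) • (e ^ 2 - e4)) (s i : ℕ) (y : A) :
    d (XG d e s i y) - ((2 * (i : ℚ) - s) / 12) • (e * XG d e s i y) =
      (cf s i 0 * (((s : ℚ) - i) / 12)) • (e ^ (i + 1) * y)
      + ∑ l ∈ Finset.range (i + 1),
        (cf s i (l + 1) * (((s : ℚ) - i - ((l + 1 : ℕ) : ℚ)) / 12) + cf s i l) • (e ^ (i - l) * d^[l + 1] y)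
      - ((i : ℚ) / 12) • (e4 * XG d e s (i - 1) y) := by
  have hE : ((2 * (i : ℚ) - s) / 12) • (e * XG d e s i y) =
      ∑ l ∈ Finset.range (i + 1), (cf s i l * ((2 * (i : ℚ) - s) / 12)) • (e ^ (i + 1 - l) * d^[l] y) := by
    unfold XG
    rw [Finset.mul_sum, Finset.smul_sum]
    refine Finset.sum_congr rfl fun l hl => ?_
    have hl' : l ≤ i := by simpa [Nat.lt_succ_iff] using hl
    have h1 : i + 1 - l = i - l + 1 := by omega
    rw [h1, pow_succ', mul_smul_comm, smul_smul, mul_comm (cf s i l), mul_assoc]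
  rw [Rec_dXG d e e4 he, hE]
  have key : ∑ l ∈ Finset.range (i + 1), (cf s i l * (((i : ℚ) - l) / 12)) • (e ^ (i + 1 - l) * d^[l] y)
      - ∑ l ∈ Finset.range (i + 1), (cf s i l * ((2 * (i : ℚ) - s) / 12)) • (e ^ (i + 1 - l) * d^[l] y)
      = (cf s i 0 * (((s : ℚ) - i) / 12)) • (e ^ (i + 1) * y)
      + ∑ l ∈ Finset.range (i + 1),
        (cf s i (l + 1) * (((s : ℚ) - i - ((l + 1 : ℕ) : ℚ)) / 12)) • (e ^ (i - l) * d^[l + 1] y) := by
    rw [← Finset.sum_sub_distrib]
    have h0 : cf s i (i + 1) = 0 := by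
      unfold cf; rw [Nat.choose_succ_self]; simp
    rw [Finset.sum_range_succ (fun l => (cf s i (l + 1) * (((s : ℚ) - i - ((l + 1 : ℕ) : ℚ)) / 12)) •
      (e ^ (i - l) * d^[l + 1] y)), h0, zero_mul, zero_smul, add_zero]
    rw [Finset.sum_range_succ']
    rw [add_comm]
    congr 1
    · rw [← sub_smul]
      simp only [Nat.cast_zero, sub_zero, Function.iterate_zero, id_eq, Nat.sub_zero]
      congr 1
      ring
    · refine Finset.sum_congr rfl fun l hl => ?_
      have hl' : l < i := by simpa using hl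
      rw [← sub_smul]
      have h1 : i + 1 - (l + 1) = i - l := by omega
      rw [h1]
      congr 1
      push_cast
      ring
  have hsum : ∑ l ∈ Finset.range (i + 1),
        (cf s i (l + 1) * (((s : ℚ) - i - ((l + 1 : ℕ) : ℚ)) / 12) + cf s i l) • (e ^ (i - l) * d^[l + 1] y)
      = ∑ l ∈ Finset.range (i + 1),
        (cf s i (l + 1) * (((s : ℚ) - i - ((l + 1 : ℕ) : ℚ)) / 12)) • (e ^ (i - l) * d^[l + 1] y)
        + ∑ l ∈ Finset.range (i + 1), cf s i l • (e ^ (i - l) * d^[l + 1] y) := by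
    rw [← Finset.sum_add_distrib]
    exact Finset.sum_congr rfl fun l _ => add_smul _ _ _
  rw [hsum]
  linear_combination key

theorem XG_rec {A : Type*} [CommRing A] [Algebra ℚ A] (d : Derivation ℚ A A) (e e4 : A)
    (he : d e = (1 / 12 : ℚ) • (e ^ 2 - e4)) (s i : ℕ) (hi : i < s) (y : A) :
    d (XG d e s i y) - ((2 * (i : ℚ) - s) / 12) • (e * XG d e s i y) =
      (((s : ℚ) - i) / 12) • XG d e s (i + 1) y - ((i : ℚ) / 12) • (e4 * XG d e s (i - 1) y) := by
  rw [Rec_main d e e4 he]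
  congr 1
  unfold XG
  rw [Finset.sum_range_succ' (fun l => cf s (i + 1) l • (e ^ (i + 1 - l) * d^[l] y)), smul_add,
    add_comm, Finset.smul_sum]
  congr 1
  · refine Finset.sum_congr rfl fun l hl => ?_
    have hl' : l ≤ i := by simpa [Nat.lt_succ_iff] using hl
    have h1 : i + 1 - (l + 1) = i - l := by omega
    rw [Rec_cf2 s i l (by omega) hl', h1, smul_smul]
  · rw [smul_smul]
    simp only [Function.iterate_zero, id_eq, Nat.sub_zero]
    congr 1
    unfold cf
    simp
    ring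

theorem XG_top {A : Type*} [CommRing A] [Algebra ℚ A] (d : Derivation ℚ A A) (e e4 : A)
    (he : d e = (1 / 12 : ℚ) • (e ^ 2 - e4)) (s : ℕ) (y : A) :
    d (XG d e s s y) - ((s : ℚ) / 12) • (e * XG d e s s y) =
      (12 ^ s : ℚ) • (d^[s + 1] y) - ((s : ℚ) / 12) • (e4 * XG d e s (s - 1) y) := by
  have h := Rec_main d e e4 he s s y
  have h2 : ((2 * (s : ℚ) - s) / 12) = (s : ℚ) / 12 := by ring
  rw [h2] at h
  rw [h]
  congr 1
  rw [sub_self, zero_div, mul_zero, zero_smul, zero_add, Finset.sum_range_succ]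
  rw [Finset.sum_eq_zero, zero_add]
  · have h0 : cf s s (s + 1) = 0 := by
      unfold cf; rw [Nat.choose_succ_self]; simp
    rw [h0, zero_mul, zero_add]
    unfold cf
    simp
  · intro l hl
    have hl' : l < s := by simpa using hl
    have h3 := Rec_cf2 s s l hl' hl'.le
    rw [sub_self, zero_div, zero_mul] at h3
    rw [h3, zero_smul]

theorem XG_zero {A : Type*} [CommRing A] [Algebra ℚ A] (d : Derivation ℚ A A) (e : A) (s : ℕ) (y : A) :
    XG d e s 0 y = (s.factorial : ℚ) • y := by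
  unfold XG cf
  simp

theorem XG_add {A : Type*} [CommRing A] [Algebra ℚ A] (d : Derivation ℚ A A) (e : A) (s i : ℕ) (y z : A) :
    XG d e s i (y + z) = XG d e s i y + XG d e s i z := by
  unfold XG
  rw [← Finset.sum_add_distrib]
  refine Finset.sum_congr rfl fun l _ => ?_
  have h : d^[l] (y + z) = d^[l] y + d^[l] z := by
    clear * -
    induction l with
    | zero => simp
    | succ l ih => rw [Function.iterate_succ_apply', Function.iterate_succ_apply',
        Function.iterate_succ_apply', ih, map_add]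
  rw [h, mul_add, smul_add]

theorem XG_smul {A : Type*} [CommRing A] [Algebra ℚ A] (d : Derivation ℚ A A) (e : A) (s i : ℕ)
    (c : ℚ) (y : A) : XG d e s i (c • y) = c • XG d e s i y := by
  unfold XG
  rw [Finset.smul_sum]
  refine Finset.sum_congr rfl fun l _ => ?_
  have h : d^[l] (c • y) = c • d^[l] y := by
    clear * -
    induction l with
    | zero => simp
    | succ l ih => rw [Function.iterate_succ_apply', Function.iterate_succ_apply', ih,
        Derivation.map_smul]
  rw [h, mul_smul_comm, smul_comm]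

theorem XG_map {A B : Type*} [CommRing A] [Algebra ℚ A] [CommRing B] [Algebra ℚ B]
    (d : Derivation ℚ A A) (d' : Derivation ℚ B B) (φ : A →+* B) (hφ : ∀ x, φ (d x) = d' (φ x))
    (e : A) (s i : ℕ) (y : A) : φ (XG d e s i y) = XG d' (φ e) s i (φ y) := by
  unfold XG
  rw [map_sum]
  refine Finset.sum_congr rfl fun l _ => ?_
  have h : φ (d^[l] y) = d'^[l] (φ y) := by
    clear * - hφ
    induction l with
    | zero => simp
    | succ l ih => rw [Function.iterate_succ_apply', Function.iterate_succ_apply', hφ, ih]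
  have hq : φ (cf s i l • (e ^ (i - l) * d^[l] y)) = cf s i l • φ (e ^ (i - l) * d^[l] y) :=
    map_rat_smul φ (cf s i l) _
  rw [hq, map_mul, map_pow, h]

end Pool.Agent.L1
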