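import Pool.Agent.Lib.L1.Cong
import Pool.Agent.Lib.L1.Rec

/-!
# L1.FSplit: `F = Fd + p^{-s} F(q^p)`, and `X_i` of the two parts
PROOF. Divisors `d` of `n`: those prime to `p`, and `d = p d'` with `d' ∣ n/p` (if `p ∣ n`): `d^{-s} = p^{-s} d'^{-s}`.
`coeff n (D^l (expd p f)) = n^l [p ∣ n] coeff (n/p) f = p^l coeff n (expd p (D^l f))`.
`Fd_pi`: the denominators are products of `d` prime to `p`. `Fd = FFp p s` (helper98; only `(d^s)⁻¹ = (d⁻¹)^s`).
`pvT_expd`: `coeff n F` for `n < p` is a sum of `d^{-s}`, `d < p`; so for `n < T ≤ p^2` the coefficients of `expd p (D^l F)` are `p`-integral.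
-/

set_option autoImplicit false

open PowerSeries
open MP_a3a416_nt.SJ (val)

namespace Pool.Agent.L1

private lemma FSplit_coeff_Fs (s n : ℕ) : coeff n (Fs s) = ∑ d ∈ n.divisors, ((d : ℚ) ^ s)⁻¹ := by
  unfold Fs; rw [coeff_mk]

private lemma FSplit_coeff_Fd (s p n : ℕ) :
    coeff n (Fd s p) = ∑ d ∈ n.divisors.filter (fun d => ¬ p ∣ d), ((d : ℚ) ^ s)⁻¹ := by
  unfold Fd; rw [coeff_mk]

private lemma FSplit_coeff_expd (p n : ℕ) (f : ℚ⟦X⟧) :
    coeff n (expd p f) = if p ∣ n then coeff (n / p) f else 0 := by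
  unfold expd; rw [coeff_mk]

private lemma FSplit_coeff_iter (f : ℚ⟦X⟧) (n l : ℕ) :
    coeff n (DqDer^[l] f) = (n : ℚ) ^ l * coeff n f := by
  induction l with
  | zero => simp
  | succ l ih =>
    rw [Function.iterate_succ_apply', DqDer_apply, coeff_Dq, ih, pow_succ]
    ring

theorem Fs_split (s p : ℕ) (hp : p.Prime) : Fs s = Fd s p + C (((p : ℚ) ^ s)⁻¹) * expd p (Fs s) := by
  ext n
  rw [map_add, coeff_C_mul, FSplit_coeff_Fs, FSplit_coeff_Fd, FSplit_coeff_expd,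
    ← Finset.sum_filter_not_add_sum_filter n.divisors (fun d => p ∣ d)]
  congr 1
  by_cases hpn : p ∣ n
  · rw [if_pos hpn, FSplit_coeff_Fs, Finset.mul_sum]
    refine Finset.sum_nbij' (fun d => d / p) (fun d => p * d) ?_ ?_ ?_ ?_ ?_
    · intro d hd
      rw [Finset.mem_filter, Nat.mem_divisors] at hd
      obtain ⟨⟨hdn, hn0⟩, hpd⟩ := hd
      rw [Nat.mem_divisors]
      refine ⟨Nat.div_dvd_div hpd hdn, ?_⟩
      obtain ⟨m, rfl⟩ := hpn
      rw [Nat.mul_div_cancel_left _ hp.pos]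
      exact right_ne_zero_of_mul hn0
    · intro d hd
      rw [Nat.mem_divisors] at hd
      rw [Finset.mem_filter, Nat.mem_divisors]
      obtain ⟨m, rfl⟩ := hpn
      rw [Nat.mul_div_cancel_left _ hp.pos] at hd
      exact ⟨⟨mul_dvd_mul_left p hd.1, mul_ne_zero hp.ne_zero hd.2⟩, dvd_mul_right p d⟩
    · intro d hd
      rw [Finset.mem_filter] at hd
      exact Nat.mul_div_cancel' hd.2
    · intro d _
      exact Nat.mul_div_cancel_left d hp.pos
    · intro d hd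
      rw [Finset.mem_filter] at hd
      obtain ⟨e, rfl⟩ := hd.2
      simp only [Nat.mul_div_cancel_left _ hp.pos]
      rw [Nat.cast_mul, mul_pow, mul_inv]
  · rw [if_neg hpn, mul_zero]
    refine Finset.sum_eq_zero fun d hd => ?_
    rw [Finset.mem_filter, Nat.mem_divisors] at hd
    exact absurd (hd.2.trans hd.1.1) hpn

theorem Fd_eq (s p : ℕ) : Fd s p = FFp p s := by
  ext n
  unfold Fd FFp
  rw [coeff_mk, coeff_mk]
  exact Finset.sum_congr rfl fun d _ => (inv_pow _ _).symm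

private lemma FSplit_val_inv {p : ℕ} [hp : Fact p.Prime] {d : ℕ} (s : ℕ) (h : ¬ p ∣ d) :
    val p (((d : ℚ) ^ s)⁻¹) 0 := by
  have h1 : ¬ (p : ℤ) ∣ ((d ^ s : ℕ) : ℤ) := by
    intro h2
    exact h (hp.out.dvd_of_dvd_pow (by exact_mod_cast h2))
  have := MP_a3a416_nt.SJ.val.inv_of_not_dvd h1
  push_cast at this
  exact this

theorem Fd_pi (s p : ℕ) [hp : Fact p.Prime] : PI p (Fd s p) := by
  intro n
  rw [FSplit_coeff_Fd]
  refine MP_a3a416_nt.SJ.val.sum fun d hd => ?_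
  rw [Finset.mem_filter] at hd
  exact FSplit_val_inv s hd.2

theorem Dq_expd (p : ℕ) (f : ℚ⟦X⟧) : DqDer (expd p f) = C (p : ℚ) * expd p (DqDer f) := by
  ext n
  rw [DqDer_apply, coeff_Dq, coeff_C_mul, FSplit_coeff_expd, FSplit_coeff_expd]
  by_cases hpn : p ∣ n
  · rw [if_pos hpn, if_pos hpn, DqDer_apply, coeff_Dq, ← mul_assoc, ← Nat.cast_mul,
      Nat.mul_div_cancel' hpn]
  · rw [if_neg hpn, if_neg hpn, mul_zero, mul_zero]

private lemma FSplit_iter_expd (p l : ℕ) (f : ℚ⟦X⟧) :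
    DqDer^[l] (expd p f) = C ((p : ℚ) ^ l) * expd p (DqDer^[l] f) := by
  induction l with
  | zero => simp
  | succ l ih =>
    rw [Function.iterate_succ_apply', ih, ← smul_eq_C_mul, Derivation.map_smul, Dq_expd,
      smul_eq_C_mul, ← mul_assoc, ← map_mul, ← pow_succ, Function.iterate_succ_apply']

theorem XX_expd (s i p : ℕ) (f : ℚ⟦X⟧) : XX s i (expd p f) =
    ∑ l ∈ Finset.range (i + 1), cf s i l • (e2 ℚ ^ (i - l) * (C ((p : ℚ) ^ l) * expd p (DqDer^[l] f))) := by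
  unfold XX XG
  exact Finset.sum_congr rfl fun l _ => by rw [FSplit_iter_expd]

/-- `X_i[y₀]` = integral part + polar part -/
theorem XX_split (s i p : ℕ) (hp : p.Prime) (a b : ℚ) : XX s i (Y0 s a b) =
    XX s i (C a + C b * Fd s p) + C (b * ((p : ℚ) ^ s)⁻¹) *
      ∑ l ∈ Finset.range (i + 1), cf s i l • (e2 ℚ ^ (i - l) * (C ((p : ℚ) ^ l) * expd p (DqDer^[l] (Fs s)))) := by
  have h : Y0 s a b = (C a + C b * Fd s p) + (b * ((p : ℚ) ^ s)⁻¹) • expd p (Fs s) := by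
    unfold Y0
    nth_rewrite 1 [Fs_split s p hp]
    rw [smul_eq_C_mul, map_mul]
    ring
  rw [h, ← XX_expd]
  unfold XX
  rw [XG_add, XG_smul, smul_eq_C_mul]

theorem val_expd_F (s p l : ℕ) [hp : Fact p.Prime] (n : ℕ) (hn : n < p ^ 2) :
    val p (coeff n (expd p (DqDer^[l] (Fs s)))) 0 := by
  rw [FSplit_coeff_expd]
  by_cases hpn : p ∣ n
  · rw [if_pos hpn, FSplit_coeff_iter, FSplit_coeff_Fs]
    have hlt : n / p < p := by
      rw [Nat.div_lt_iff_lt_mul hp.out.pos]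
      rw [pow_two] at hn
      exact hn
    have h1 : val p (∑ d ∈ (n / p).divisors, ((d : ℚ) ^ s)⁻¹) 0 := by
      refine MP_a3a416_nt.SJ.val.sum fun d hd => ?_
      refine FSplit_val_inv s ?_
      rw [Nat.mem_divisors] at hd
      intro h2
      have h3 := Nat.le_of_dvd (Nat.pos_of_ne_zero hd.2) (h2.trans hd.1)
      omega
    have h2 := ((MP_a3a416_nt.SJ.val.nat (p := p) (n / p)).pow l).mul h1
    simpa using h2
  · rw [if_neg hpn]
    exact MP_a3a416_nt.SJ.val.zero 0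

theorem expd_F_low (s p l : ℕ) [hp : Fact p.Prime] (n : ℕ) (hn : n < p) :
    coeff n (expd p (DqDer^[l] (Fs s))) = 0 := by
  rw [FSplit_coeff_expd]
  by_cases hpn : p ∣ n
  · have hn0 : n = 0 := Nat.eq_zero_of_dvd_of_lt hpn hn
    subst hn0
    rw [if_pos hpn, FSplit_coeff_iter, FSplit_coeff_Fs, Nat.zero_div, Nat.divisors_zero,
      Finset.sum_empty, mul_zero]
  · rw [if_neg hpn]

private lemma FSplit_cf_val (p s i l : ℕ) : val p (cf s i l) 0 := by
  have h : cf s i l = ((i.choose l * 12 ^ l * (s - l).factorial : ℕ) : ℚ) := by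
    unfold cf; push_cast; ring
  rw [h]
  exact MP_a3a416_nt.SJ.val.nat _

private lemma FSplit_iter_pi {p : ℕ} [hp : Fact p.Prime] {y : ℚ⟦X⟧} (hy : PI p y) (l : ℕ) :
    PI p (DqDer^[l] y) := by
  induction l with
  | zero => exact hy
  | succ l ih => rw [Function.iterate_succ_apply', DqDer_apply]; exact ih.Dq

private lemma FSplit_iter_cg {p : ℕ} [hp : Fact p.Prime] {y z : ℚ⟦X⟧} (hy : Cg p y z) (l : ℕ) :
    Cg p (DqDer^[l] y) (DqDer^[l] z) := by
  induction l with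
  | zero => exact hy
  | succ l ih =>
    rw [Function.iterate_succ_apply', Function.iterate_succ_apply', DqDer_apply, DqDer_apply]
    exact ih.Dq

theorem XX_pi (s i p : ℕ) [hp : Fact p.Prime] {y : ℚ⟦X⟧} (hy : PI p y) : PI p (XX s i y) := by
  intro n
  unfold XX XG
  rw [map_sum]
  refine MP_a3a416_nt.SJ.val.sum fun l _ => ?_
  rw [smul_eq_C_mul]
  exact ((PI.C (FSplit_cf_val p s i l)).mul ((PI.e2.pow (i - l)).mul (FSplit_iter_pi hy l))) n

theorem XX_cg (s i p : ℕ) [hp : Fact p.Prime] {y z : ℚ⟦X⟧} (h : Cg p y z) : Cg p (XX s i y) (XX s i z) := by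
  intro n
  unfold XX XG
  rw [map_sum, map_sum, ← Finset.sum_sub_distrib]
  refine MP_a3a416_nt.SJ.val.sum fun l _ => ?_
  rw [smul_eq_C_mul, smul_eq_C_mul]
  exact (((FSplit_iter_cg h l).mul_left (PI.e2.pow (i - l))).mul_left
    (PI.C (FSplit_cf_val p s i l))) n

end Pool.Agent.L1
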