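import Mathlib

/-!
# L1.PolAlg: Hasse derivative of `(A X - B)^j X^(m-j)` at `x`
PROOF. Both sides are the coefficient of `Y^l` in `(A (x+Y) - B)^j (x+Y)^(m-j)` (polynomials in `Y` over `R`).
Left: expand `(A (x+Y) - B)^j = ∑_r C(j,r) A^(j-r) (-B)^r (x+Y)^(j-r)` and multiply by `(x+Y)^(m-j)`: coefficient of `Y^l` of
`(x+Y)^(m-r)` is `C(m-r,l) x^(m-r-l)`. Right: `A (x+Y) - B = (A x - B) + A Y`.
-/

set_option autoImplicit false

namespace Pool.Agent.L1

open Polynomial in
private theorem polAlg_coeff {R : Type*} [CommRing R] (A c : R) (j u : ℕ) :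
    ((C A * X + C c) ^ j : R[X]).coeff u = (j.choose u : R) * c ^ (j - u) * A ^ u := by
  rw [add_pow, finsetSum_coeff]
  have h1 : ∀ i ∈ Finset.range (j + 1),
      ((C A * X) ^ i * (C c) ^ (j - i) * ((j.choose i : ℕ) : R[X])).coeff u =
        if u = i then (j.choose u : R) * c ^ (j - u) * A ^ u else 0 := by
    intro i _
    have : ((C A * X) ^ i * (C c) ^ (j - i) * ((j.choose i : ℕ) : R[X])) =
        C (A ^ i * c ^ (j - i) * (j.choose i : R)) * X ^ i := by
      rw [mul_pow, ← C_pow, ← C_pow, ← C_eq_natCast, C_mul, C_mul]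
      ring
    rw [this, coeff_C_mul, coeff_X_pow]
    split_ifs with h
    · subst h; ring
    · simp
  rw [Finset.sum_congr rfl h1, Finset.sum_ite_eq]
  split_ifs with h
  · rfl
  · rw [Finset.mem_range, not_lt] at h
    rw [Nat.choose_eq_zero_of_lt (by omega)]
    simp

open Polynomial in
theorem pol_alg {R : Type*} [CommRing R] (A B x : R) (m j l : ℕ) (hjm : j ≤ m) :
    ∑ r ∈ Finset.range (j + 1), (j.choose r : R) * A ^ (j - r) * (-B) ^ r *
        (((m - r).choose l : R) * x ^ (m - r - l)) =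
      ∑ u ∈ Finset.range (l + 1), (j.choose u : R) * (A * x - B) ^ (j - u) * A ^ u *
        (((m - j).choose (l - u) : R) * x ^ (m - j - (l - u))) := by
  have key : (C A * X + C (A * x - B) : R[X]) = C (-B) + C A * (X + C x) := by
    simp only [C_sub, C_mul, C_neg]; ring
  have hL : (((C A * X + C (A * x - B)) ^ j * (X + C x) ^ (m - j) : R[X])).coeff l =
      ∑ r ∈ Finset.range (j + 1), (j.choose r : R) * A ^ (j - r) * (-B) ^ r *
        (((m - r).choose l : R) * x ^ (m - r - l)) := by
    rw [key, add_pow, Finset.sum_mul, finsetSum_coeff]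
    refine Finset.sum_congr rfl fun r hr => ?_
    rw [Finset.mem_range] at hr
    have e1 : m - r = (j - r) + (m - j) := by omega
    have : (C (-B) ^ r * (C A * (X + C x)) ^ (j - r) * ((j.choose r : ℕ) : R[X]) *
        (X + C x) ^ (m - j)) = C ((j.choose r : R) * A ^ (j - r) * (-B) ^ r) * (X + C x) ^ (m - r) := by
      rw [mul_pow, ← C_pow, ← C_pow, ← C_eq_natCast, C_mul, C_mul, e1, pow_add]
      ring
    rw [this, coeff_C_mul, coeff_X_add_C_pow]
    ring
  have hR : (((C A * X + C (A * x - B)) ^ j * (X + C x) ^ (m - j) : R[X])).coeff l =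
      ∑ u ∈ Finset.range (l + 1), (j.choose u : R) * (A * x - B) ^ (j - u) * A ^ u *
        (((m - j).choose (l - u) : R) * x ^ (m - j - (l - u))) := by
    rw [coeff_mul, Finset.Nat.sum_antidiagonal_eq_sum_range_succ
      (fun a b => ((C A * X + C (A * x - B)) ^ j : R[X]).coeff a * ((X + C x) ^ (m - j) : R[X]).coeff b)]
    refine Finset.sum_congr rfl fun u _ => ?_
    rw [polAlg_coeff, coeff_X_add_C_pow]
    ring
  rw [← hL, hR]

end Pool.Agent.L1
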