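import Pool.Agent.Lib.L1.NDefs
import Pool.Agent.Lib.L1.PolAlg
import Pool.Agent.Lib.L1.FSplit

/-!
# L1.PolB: the pole order of the new columns
PROOF. `p^2 > T`, `a, b` integers. Column `(inr m, l)`, type `j = t`, `h` integral (`MZ.bas`). By `XX_split`
`colT = ∑_r C(j,r) h A^(j-r) (-B)^r XX_{m-r}[a + b Fd]` (integral: `XX_pi`, `Fd_pi`, `EA_mem.pi`, `EB_mem.pi`) plus
`b p^{-s} h ∑_l 12^l (s-l)! p^l expd p (D^l F) * S_l`, `S_l = ∑_r C(j,r) A^(j-r) (-B)^r C(m-r,l) e2^(m-r-l)`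
(in `XX_{m-r}` the sum over `l` can be extended to `l ≤ m`: `C(m-r,l) = 0` for `l > m-r`). By `pol_alg` with `x = e2`:
`S_l = ∑_{u ≤ l} C(j,u) (A e2 - B)^(j-u) A^u C(m-j,l-u) e2^(...)`, every coefficient of `A e2 - B` has valuation `≥ 1`
(`e2_EA_sub_EB`, `EA_cg`, or `EB_cg`), so the coefficients of `S_l` have valuation `≥ j - l` and `≥ 0` (`u ≤ min(j, l)`; `C(j,u) = 0` for
`u > j`). So for the rows `r < T ≤ p^2` (`val_expd_F`) the valuation is `≥ -s + l + max(j-l, 0) ≥ j - s` (for `l ≤ j`: `= j-s`; for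
`l > j`: `≥ l - s`). For the rows `r < p` the second part is 0 (`expd_F_low`; the product of series with a factor of order `≥ p`), so
the valuation is `≥ 0`. The columns `inl` are integral in all rows (`bas`, `e2` integral).
-/

set_option autoImplicit false

open PowerSeries
open MP_a3a416_nt.SJ (val sdet)

namespace Pool.Agent.L1

/-- the type of a column as an element of the potentials: `s - t` for the `F`-columns, `0` for the others -/
def polO (s N : ℕ) (t : ℕ) : Col s N → ℤ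
  | ⟨.inl _, _⟩ => 0
  | ⟨.inr _, _⟩ => (s : ℤ) - t

section aux

variable {p : ℕ} [hp : Fact p.Prime]

private lemma PolB_sum {ι : Type*} {s : Finset ι} {f : ι → ℚ⟦X⟧} {v : ℤ} {T : ℕ}
    (h : ∀ i ∈ s, ∀ n < T, val p (coeff n (f i)) v) : ∀ n < T, val p (coeff n (∑ i ∈ s, f i)) v := by
  intro n hn
  rw [map_sum]
  exact MP_a3a416_nt.SJ.val.sum fun i hi => h i hi n hn

private lemma PolB_PIsum {ι : Type*} {s : Finset ι} {f : ι → ℚ⟦X⟧}
    (h : ∀ i ∈ s, PI p (f i)) : PI p (∑ i ∈ s, f i) := by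
  intro n
  rw [map_sum]
  exact MP_a3a416_nt.SJ.val.sum fun i hi => h i hi n

private lemma PolB_mul {f g : ℚ⟦X⟧} {v w : ℤ} {T : ℕ} (hf : ∀ n < T, val p (coeff n f) v)
    (hg : ∀ n < T, val p (coeff n g) w) : ∀ n < T, val p (coeff n (f * g)) (v + w) := by
  intro n hn
  rw [coeff_mul]
  refine MP_a3a416_nt.SJ.val.sum fun x hx => ?_
  have hx' := Finset.HasAntidiagonal.mem_antidiagonal.1 hx
  exact (hf x.1 (by omega)).mul (hg x.2 (by omega))

private lemma PolB_C_mul {c : ℚ} {g : ℚ⟦X⟧} {v w : ℤ} {T : ℕ} (hc : val p c v)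
    (hg : ∀ n < T, val p (coeff n g) w) : ∀ n < T, val p (coeff n (C c * g)) (v + w) := by
  intro n hn
  rw [coeff_C_mul]
  exact hc.mul (hg n hn)

private lemma PolB_pow {f : ℚ⟦X⟧} (hf : ∀ n, val p (coeff n f) 1) (k : ℕ) :
    ∀ n, val p (coeff n (f ^ k)) (k : ℤ) := by
  induction k with
  | zero => intro n; rw [pow_zero]; exact PI.one n
  | succ k ih =>
    intro n
    rw [pow_succ, coeff_mul]
    refine MP_a3a416_nt.SJ.val.sum fun x _ => ?_
    have := (ih x.1).mul (hf x.2)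
    push_cast
    exact this

/-- `S_l` has valuation `≥ j - l` -/
private lemma PolB_S (hp5 : 5 ≤ p) (m j l : ℕ) (hjm : j ≤ m) (n : ℕ) :
    val p (coeff n (∑ r ∈ Finset.range (j + 1), (j.choose r : ℚ⟦X⟧) * EA p ^ (j - r) * (-EB p) ^ r *
        (((m - r).choose l : ℚ⟦X⟧) * e2 ℚ ^ (m - r - l)))) ((j - l : ℕ) : ℤ) := by
  rw [pol_alg (EA p) (EB p) (e2 ℚ) m j l hjm, map_sum]
  refine MP_a3a416_nt.SJ.val.sum fun u hu => ?_
  have hu' : u ≤ l := by
    have := Finset.mem_range.1 hu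
    omega
  have hA : PI p (EA p) := (EA_mem hp5).pi
  have hd : ∀ n, val p (coeff n (EA p * e2 ℚ - EB p)) 1 := by
    intro n
    have h1 : Cg p (EA p * e2 ℚ) (EB p) := by
      have h2 : Cg p (EA p * e2 ℚ) (1 * e2 ℚ) := (EA_cg (p := p) (by omega)).mul_right PI.e2
      rw [one_mul] at h2
      exact h2.trans (EB_cg hp5).symm
    rw [map_sub]
    exact h1 n
  by_cases huj : j < u
  · rw [Nat.choose_eq_zero_of_lt huj, Nat.cast_zero, zero_mul, zero_mul, zero_mul, map_zero]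
    exact MP_a3a416_nt.SJ.val.zero _
  · have h1 := PolB_pow hd (j - u)
    have h2 : PI p ((j.choose u : ℚ⟦X⟧)) := PI.natCast _
    have h3 : PI p (EA p ^ u * (((m - j).choose (l - u) : ℚ⟦X⟧) * e2 ℚ ^ (m - j - (l - u)))) :=
      (hA.pow u).mul ((PI.natCast _).mul (PI.e2.pow _))
    have h4 := PolB_mul (T := n + 1) (PolB_mul (T := n + 1) (fun k _ => h2 k) (fun k _ => h1 k))
      (fun k _ => h3 k) n (by omega)
    rw [mul_assoc]
    refine h4.mono ?_
    have : j - l ≤ j - u := by omega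
    have h5 : ((j - l : ℕ) : ℤ) ≤ ((j - u : ℕ) : ℤ) := by exact_mod_cast this
    linarith

/-- the decomposition of the new column -/
private lemma PolB_split (s : ℕ) (a b : ℚ) (m t : ℕ) (htm : t ≤ m) (h : ℚ⟦X⟧) :
    nS p s a b m t h =
      ∑ r ∈ Finset.range (t + 1),
        C (t.choose r : ℚ) * (h * EA p ^ (t - r) * (-EB p) ^ r * XX s (m - r) (C a + C b * Fd s p)) +
      ∑ l ∈ Finset.range (m + 1),
        C (b * ((p : ℚ) ^ s)⁻¹ * (12 ^ l * ((s - l).factorial : ℚ) * (p : ℚ) ^ l)) *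
          ((h * ∑ r ∈ Finset.range (t + 1), (t.choose r : ℚ⟦X⟧) * EA p ^ (t - r) * (-EB p) ^ r *
            (((m - r).choose l : ℚ⟦X⟧) * e2 ℚ ^ (m - r - l))) * expd p (DqDer^[l] (Fs s))) := by
  rw [nS]
  have e1 : ∀ r ∈ Finset.range (t + 1),
      C (t.choose r : ℚ) * (h * EA p ^ (t - r) * (-EB p) ^ r * XX s (m - r) (Y0 s a b)) =
      C (t.choose r : ℚ) * (h * EA p ^ (t - r) * (-EB p) ^ r * XX s (m - r) (C a + C b * Fd s p)) +
      ∑ l ∈ Finset.range (m + 1), C (t.choose r : ℚ) * (h * EA p ^ (t - r) * (-EB p) ^ r *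
        (C (b * ((p : ℚ) ^ s)⁻¹) * (cf s (m - r) l • (e2 ℚ ^ (m - r - l) * (C ((p : ℚ) ^ l) *
          expd p (DqDer^[l] (Fs s))))))) := by
    intro r hr
    rw [XX_split s (m - r) p hp.out a b, mul_add, mul_add]
    congr 1
    rw [Finset.mul_sum, Finset.mul_sum, Finset.mul_sum]
    refine Finset.sum_subset ?_ ?_
    · intro l hl
      rw [Finset.mem_range] at hl ⊢
      omega
    · intro l hl hl'
      rw [Finset.mem_range, not_lt] at hl'
      rw [cf, Nat.choose_eq_zero_of_lt (show m - r < l by omega), Nat.cast_zero, zero_mul, zero_mul, zero_smul,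
        mul_zero, mul_zero, mul_zero]
  rw [Finset.sum_congr rfl e1, Finset.sum_add_distrib]
  congr 1
  rw [Finset.sum_comm]
  refine Finset.sum_congr rfl fun l _ => ?_
  rw [Finset.mul_sum, Finset.sum_mul, Finset.mul_sum]
  refine Finset.sum_congr rfl fun r _ => ?_
  rw [cf, smul_eq_C_mul, map_mul, map_mul, map_mul, map_mul, map_mul, map_mul, map_mul, map_natCast, map_natCast]
  ring

private lemma PolB_int (hp5 : 5 ≤ p) (s : ℕ) (a b : ℤ) (m t : ℕ) {h : ℚ⟦X⟧} (hh : PI p h) :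
    PI p (∑ r ∈ Finset.range (t + 1),
        C (t.choose r : ℚ) * (h * EA p ^ (t - r) * (-EB p) ^ r *
          XX s (m - r) (C (a : ℚ) + C (b : ℚ) * Fd s p))) := by
  refine PolB_PIsum fun r _ => ?_
  refine (PI.C (MP_a3a416_nt.SJ.val.nat _)).mul (((hh.mul ((EA_mem hp5).pi.pow _)).mul
    ((EB_mem hp5).pi.neg.pow _)).mul (XX_pi s (m - r) p ?_))
  exact (PI.C (MP_a3a416_nt.SJ.val.int a)).add ((PI.C (MP_a3a416_nt.SJ.val.int b)).mul (Fd_pi s p))

private lemma PolB_inl (s N : ℕ) (a b : ℚ) (j : Fin 2) (l : Fin (dd (kb s N (.inl j)))) :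
    PI p (colS s N a b ⟨.inl j, l⟩) := by
  show PI p (bas ℚ (kb s N (.inl j)) l * eb s a b (.inl j))
  refine (MZ.bas l.2).pi.mul ?_
  show PI p (if j = 0 then 1 else e2 ℚ)
  split_ifs
  · exact PI.one
  · exact PI.e2

end aux

theorem val_colT_low (p s N : ℕ) [hp : Fact p.Prime] (hp5 : 5 ≤ p) (hN : 2 ≤ N) (a b : ℤ) (t : ℕ) (c : Col s N)
    (hc : AdmC p s N t c) (r : ℕ) (hr : r < p) : val p (coeff r (colT p s N a b t c)) 0 := by
  obtain ⟨β, l⟩ := c
  rcases β with j | m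
  · exact PolB_inl s N a b j l r
  · obtain ⟨h1, h2, h3⟩ := hc
    have hh : PI p (bas ℚ (kb s N (.inr m) - t * (p - 1)) l) := (MZ.bas h3).pi
    show val p (coeff r (nS p s a b m t (bas ℚ (kb s N (.inr m) - t * (p - 1)) l))) 0
    rw [PolB_split s a b m t h1, map_add]
    refine (PolB_int hp5 s a b m t hh r).add ?_
    rw [map_sum]
    refine MP_a3a416_nt.SJ.val.sum fun l' _ => ?_
    have h0 : coeff r (C ((b : ℚ) * ((p : ℚ) ^ s)⁻¹ * (12 ^ l' * ((s - l').factorial : ℚ) * (p : ℚ) ^ l')) *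
          ((bas ℚ (kb s N (.inr m) - t * (p - 1)) l *
            ∑ r ∈ Finset.range (t + 1), (t.choose r : ℚ⟦X⟧) * EA p ^ (t - r) * (-EB p) ^ r *
            (((m - r).choose l' : ℚ⟦X⟧) * e2 ℚ ^ (m - r - l'))) * expd p (DqDer^[l'] (Fs s)))) = 0 := by
      rw [coeff_C_mul, coeff_mul, Finset.sum_eq_zero, mul_zero]
      intro x hx
      have hx' := Finset.HasAntidiagonal.mem_antidiagonal.1 hx
      rw [expd_F_low s p l' x.2 (by omega), mul_zero]
    rw [h0]
    exact MP_a3a416_nt.SJ.val.zero 0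

theorem val_colT_pol (p s N : ℕ) [hp : Fact p.Prime] (hp5 : 5 ≤ p) (hN : 2 ≤ N) (a b : ℤ) (t : ℕ) (c : Col s N)
    (hc : AdmC p s N t c) (r : ℕ) (hr : r < p ^ 2) :
    val p (coeff r (colT p s N a b t c)) (-(polO s N t c)) := by
  obtain ⟨β, l⟩ := c
  rcases β with j | m
  · exact PolB_inl s N a b j l r
  · obtain ⟨h1, h2, h3⟩ := hc
    have hh : PI p (bas ℚ (kb s N (.inr m) - t * (p - 1)) l) := (MZ.bas h3).pi
    show val p (coeff r (nS p s a b m t (bas ℚ (kb s N (.inr m) - t * (p - 1)) l))) (-((s : ℤ) - t))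
    have hm : (m : ℕ) ≤ s := by
      have := m.2
      omega
    rw [PolB_split s a b m t h1, map_add]
    refine ((PolB_int hp5 s a b m t hh r).mono (by
      have : (t : ℤ) ≤ s := by exact_mod_cast h1.trans hm
      linarith)).add ?_
    rw [map_sum]
    refine MP_a3a416_nt.SJ.val.sum fun l' _ => ?_
    have hv : val p ((b : ℚ) * ((p : ℚ) ^ s)⁻¹ * (12 ^ l' * ((s - l').factorial : ℚ) * (p : ℚ) ^ l'))
        (0 + (-(s : ℤ)) + ((0 + 0) + (l' : ℤ))) := by
      refine ((MP_a3a416_nt.SJ.val.int b).mul ?_).mul ((MP_a3a416_nt.SJ.val.mul ?_ ?_).mul ?_)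
      · have := MP_a3a416_nt.SJ.val.p_zpow (p := p) (-(s : ℤ))
        rwa [zpow_neg, zpow_natCast] at this
      · exact_mod_cast MP_a3a416_nt.SJ.val.nat (p := p) (12 ^ l')
      · exact MP_a3a416_nt.SJ.val.nat _
      · have := MP_a3a416_nt.SJ.val.p_zpow (p := p) (l' : ℤ)
        rwa [zpow_natCast] at this
    have h5 := PolB_C_mul hv (PolB_mul (T := p ^ 2) (PolB_mul (T := p ^ 2) (fun k _ => hh k)
      (fun k _ => PolB_S hp5 m t l' h1 k)) (fun k hk => val_expd_F s p l' k hk)) r hr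
    refine h5.mono ?_
    have : (t : ℤ) ≤ (l' : ℤ) + ((t - l' : ℕ) : ℤ) := by
      have : t ≤ l' + (t - l') := by omega
      exact_mod_cast this
    linarith

end Pool.Agent.L1
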