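import Pool.Agent.Lib.L1.NChange
import Pool.Agent.Lib.L1.PolB
import Pool.Agent.Lib.L1.FlatForm

/-!
# L1.DetMid: valuation of the determinant for `p ≤ T ≤ p^2`
PROOF. By `sdet_VT` replace `VV` by `VT`. Potentials: `a_r = 0` (`r < p`), `-θ` (`p ≤ r < T`), `b_x = min 0 (θ - polO)` on the columns,
`0` on the unit columns; `val_colT_low`, `val_colT_pol`; `val_sdet`. `∑ a = -θ (T - p)`, `∑ b = -∑ max 0 (polO - θ)`.
Flat: `val_sdet_blocks` with `σ = Fin (dd (12N+p-1)) ⊕ Fin c0`, `W r (inl h) = coeff r (bas (12N+p-1) h)`,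
`W r (inr i) = [r = rr i]`, `Q` = coordinates (`MZ.coords`) of the form `f` of `flat_form` for the column (`0` for `inr`), for a unit
column `i`: `Q (inr i) = 1`. Potentials: `a_r = 1` (`r < p`), `-θ` (`p ≤ r`); `b` as before; `c = -1`, `d = 0`.
`hW`: valuation `≥ 0 ≥ a_r - 1`; `hQ`: `≥ 0 ≥ b`; `hE`: rows `r < p`: `≥ 1 ≥ a_r + b`; rows `r ≥ p`: `W Q` is integral and
`val_colT_pol`: `≥ min 0 (-polO) ≥ -θ + b`. Sum: `p - θ (T-p) + ∑ b - (dd + c0)`.
-/

set_option autoImplicit false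

open PowerSeries
open MP_a3a416_nt.SJ (val sdet)

namespace Pool.Agent.L1

private theorem detMid_sum (T p : ℕ) (hpT : p ≤ T) (x y : ℤ) :
    ∑ r : Fin T, (if (r : ℕ) < p then x else y) = p * x + ((T : ℤ) - p) * y := by
  rw [Fin.sum_univ_eq_sum_range (fun r => if r < p then x else y) T]
  obtain ⟨m, rfl⟩ := Nat.exists_eq_add_of_le hpT
  rw [Finset.sum_range_add]
  have h1 : ∑ r ∈ Finset.range p, (if r < p then x else y) = p * x := by
    rw [Finset.sum_congr rfl (fun r hr => if_pos (Finset.mem_range.1 hr))]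
    simp
  have h2 : ∑ r ∈ Finset.range m, (if p + r < p then x else y) = m * y := by
    rw [Finset.sum_congr rfl (fun r _ => if_neg (by omega))]
    simp
  rw [h1, h2]
  push_cast
  ring

private theorem detMid_unit {p : ℕ} {T : ℕ} (r r' : Fin T) :
    val p (if r = r' then (1 : ℚ) else 0) 0 := by
  split_ifs
  · exact MP_a3a416_nt.SJ.val.one
  · exact MP_a3a416_nt.SJ.val.zero 0

private theorem detMid_bas {p : ℕ} [hp : Fact p.Prime] (k j n : ℕ) (hj : j < dd k) :
    val p (coeff n (bas ℚ k j)) 0 := (MZ.bas hj).val_coeff n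

theorem val_mid (p s N : ℕ) [hp : Fact p.Prime] (hp5 : 5 ≤ p) (hs7 : s ≤ 7) (hN : 2 ≤ N) (a b : ℤ)
    (τ : Col s N → ℕ) (hτ : Adm p s N τ) {c0 : ℕ} (rr : Fin c0 → Fin (TT s N))
    (e : Col s N ⊕ Fin c0 ≃ Fin (TT s N)) (hpT : p ≤ TT s N) (hp2 : TT s N ≤ p ^ 2) (θ : ℕ) :
    val p (sdet e (VV s N a b rr))
      (-(θ * ((TT s N : ℤ) - p)) - ∑ c, max 0 (polO s N (τ c) c - θ)) := by
  rw [← sdet_VT p s N hp5 hs7 hN (a : ℚ) (b : ℚ) τ hτ rr e]
  have h := MP_a3a416_nt.SJ.val_sdet (p := p) e (VT p s N (a : ℚ) (b : ℚ) τ rr)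
    (fun r => if (r : ℕ) < p then 0 else -(θ : ℤ))
    (Sum.elim (fun c => -(max 0 (polO s N (τ c) c - θ))) (fun _ => 0)) ?_
  · refine h.mono (le_of_eq ?_)
    rw [detMid_sum _ _ hpT, Fintype.sum_sum_type]
    simp only [Sum.elim_inl, Sum.elim_inr, Finset.sum_const_zero, Finset.sum_neg_distrib]
    ring
  · intro r x
    have hr2 : (r : ℕ) < p ^ 2 := lt_of_lt_of_le r.2 hp2
    rcases x with c | i
    · show val p (coeff (r : ℕ) (colT p s N (a : ℚ) (b : ℚ) (τ c) c))
        ((if (r : ℕ) < p then 0 else -(θ : ℤ)) + -(max 0 (polO s N (τ c) c - θ)))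
      split_ifs with hr
      · refine (val_colT_low p s N hp5 hN a b (τ c) c (hτ c) r hr).mono ?_
        have := le_max_left (0 : ℤ) (polO s N (τ c) c - θ)
        linarith
      · refine (val_colT_pol p s N hp5 hN a b (τ c) c (hτ c) r hr2).mono ?_
        have := le_max_right (0 : ℤ) (polO s N (τ c) c - θ)
        linarith
    · show val p (if r = rr i then (1 : ℚ) else 0) ((if (r : ℕ) < p then 0 else -(θ : ℤ)) + 0)
      refine (detMid_unit r (rr i)).mono ?_
      split_ifs <;> simp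

theorem val_mid_flat (p s N : ℕ) [hp : Fact p.Prime] (hs : Odd s) (hs3 : 3 ≤ s) (hsp : 2 * s + 4 ≤ p)
    (hs7 : s ≤ 7) (hN : 2 ≤ N) (c : ℚ) (hf : Flat s c p)
    (τ : Col s N → ℕ) (hτ : Adm p s N τ) {c0 : ℕ} (rr : Fin c0 → Fin (TT s N))
    (e : Col s N ⊕ Fin c0 ≃ Fin (TT s N)) (hpT : p ≤ TT s N) (hp2 : TT s N ≤ p ^ 2) (θ : ℕ) :
    val p (sdet e (VV s N (c.num : ℚ) ((2 * s * c.den : ℤ) : ℚ) rr))
      ((p : ℤ) - dd (12 * N + p - 1) - c0 - (θ * ((TT s N : ℤ) - p)) -
        ∑ c, max 0 (polO s N (τ c) c - θ)) := by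
  have hp5 : 5 ≤ p := by omega
  rw [← sdet_VT p s N hp5 hs7 hN (c.num : ℚ) ((2 * s * c.den : ℤ) : ℚ) τ hτ rr e]
  choose f hfM hfc using fun x : Col s N =>
    flat_form p s N hs hs3 hsp hs7 hN c hf (τ x) x (hτ x)
  choose q hq hfq using fun x : Col s N => (hfM x).coords
  set K : ℕ := 12 * N + p - 1 with hK
  let W : Matrix (Fin (TT s N)) (Fin (dd K) ⊕ Fin c0) ℚ := fun r x =>
    Sum.elim (fun h : Fin (dd K) => coeff (r : ℕ) (bas ℚ K h)) (fun i => if r = rr i then 1 else 0) x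
  let Q : Matrix (Fin (dd K) ⊕ Fin c0) (Col s N ⊕ Fin c0) ℚ := fun k x =>
    Sum.elim (fun y : Col s N => Sum.elim (fun h : Fin (dd K) => q y h) (fun _ => 0) k)
      (fun i => Sum.elim (fun _ => 0) (fun i' => if i' = i then 1 else 0) k) x
  have hWQl : ∀ (r : Fin (TT s N)) (y : Col s N), (W * Q) r (Sum.inl y) = coeff (r : ℕ) (f y) := by
    intro r y
    rw [Matrix.mul_apply, Fintype.sum_sum_type, hfq y, map_sum]
    have h2 : ∑ i : Fin c0, W r (Sum.inr i) * Q (Sum.inr i) (Sum.inl y) = 0 :=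
      Finset.sum_eq_zero fun i _ => by
        show _ * (0 : ℚ) = 0
        rw [mul_zero]
    rw [h2, add_zero, ← Fin.sum_univ_eq_sum_range
      (fun j => coeff (r : ℕ) (q y j • bas ℚ K j)) (dd K)]
    refine Finset.sum_congr rfl fun j _ => ?_
    show coeff (r : ℕ) (bas ℚ K j) * q y j = coeff (r : ℕ) (q y j • bas ℚ K j)
    rw [coeff_smul, smul_eq_mul, mul_comm]
  have hWQr : ∀ (r : Fin (TT s N)) (i : Fin c0),
      (W * Q) r (Sum.inr i) = if r = rr i then 1 else 0 := by
    intro r i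
    rw [Matrix.mul_apply, Fintype.sum_sum_type]
    have h1 : ∑ h : Fin (dd K), W r (Sum.inl h) * Q (Sum.inl h) (Sum.inr i) = 0 :=
      Finset.sum_eq_zero fun h _ => by
        show _ * (0 : ℚ) = 0
        rw [mul_zero]
    rw [h1, zero_add]
    have h2 : ∀ i' : Fin c0, W r (Sum.inr i') * Q (Sum.inr i') (Sum.inr i) =
        if i' = i then (if r = rr i' then 1 else 0) else 0 := by
      intro i'
      show (if r = rr i' then (1 : ℚ) else 0) * (if i' = i then 1 else 0) = _
      split_ifs <;> simp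
    rw [Finset.sum_congr rfl (fun i' _ => h2 i')]
    simp
  have h := MP_a3a416_nt.SJ.val_sdet_blocks (p := p) e
    (VT p s N (c.num : ℚ) ((2 * s * c.den : ℤ) : ℚ) τ rr) W Q
    (fun r => if (r : ℕ) < p then 1 else -(θ : ℤ))
    (Sum.elim (fun c => -(max 0 (polO s N (τ c) c - θ))) (fun _ => 0))
    (fun _ => -1) (fun _ => 0) ?_ ?_ ?_ ?_
  · refine h.mono (le_of_eq ?_)
    rw [detMid_sum _ _ hpT, Fintype.sum_sum_type]
    simp only [Sum.elim_inl, Sum.elim_inr, Finset.sum_const_zero, Finset.sum_neg_distrib,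
      Finset.sum_const, Finset.card_univ, Fintype.card_sum, Fintype.card_fin,
      nsmul_eq_mul]
    push_cast
    ring
  · intro r k
    have h0 : val p (W r k) 0 := by
      rcases k with h | i
      · exact detMid_bas K h r h.2
      · exact detMid_unit r (rr i)
    refine h0.mono ?_
    show (if (r : ℕ) < p then (1 : ℤ) else -(θ : ℤ)) + -1 ≤ 0
    split_ifs
    · norm_num
    · have : (0 : ℤ) ≤ θ := Int.natCast_nonneg θ
      linarith
  · intro k x
    have h0 : val p (Q k x) 0 := by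
      rcases x with y | i
      · rcases k with h | i'
        · exact hq y h
        · exact MP_a3a416_nt.SJ.val.zero 0
      · rcases k with h | i'
        · exact MP_a3a416_nt.SJ.val.zero 0
        · exact detMid_unit i' i
    refine h0.mono ?_
    rcases x with y | i
    · show (0 : ℤ) + -(max 0 (polO s N (τ y) y - θ)) ≤ 0
      have := le_max_left (0 : ℤ) (polO s N (τ y) y - θ)
      linarith
    · show (0 : ℤ) + 0 ≤ 0
      norm_num
  · intro k
    norm_num
  · intro r x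
    have hr2 : (r : ℕ) < p ^ 2 := lt_of_lt_of_le r.2 hp2
    rcases x with y | i
    · rw [hWQl]
      show val p (coeff (r : ℕ) (colT p s N (c.num : ℚ) ((2 * s * c.den : ℤ) : ℚ) (τ y) y) -
          coeff (r : ℕ) (f y))
        ((if (r : ℕ) < p then 1 else -(θ : ℤ)) + -(max 0 (polO s N (τ y) y - θ)))
      have hm0 := le_max_left (0 : ℤ) (polO s N (τ y) y - θ)
      have hm1 := le_max_right (0 : ℤ) (polO s N (τ y) y - θ)
      have hθ : (0 : ℤ) ≤ θ := Int.natCast_nonneg θ
      split_ifs with hr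
      · have h1 := hfc y r hr
        rw [map_sub] at h1
        refine h1.mono ?_
        linarith
      · have h1 := val_colT_pol p s N hp5 hN c.num (2 * s * c.den) (τ y) y (hτ y) r hr2
        have h2 := (hfM y).val_coeff (r : ℕ)
        refine (h1.mono ?_).sub (h2.mono ?_) <;> linarith
    · rw [hWQr]
      show val p ((if r = rr i then (1 : ℚ) else 0) - (if r = rr i then 1 else 0)) _
      rw [sub_self]
      exact MP_a3a416_nt.SJ.val.zero _

end Pool.Agent.L1
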