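import Pool.Agent.Lib.L1.MLz

/-!
# L1.FInd: linear independence of `1, E2, X_0[F+κ], ..., X_s[F+κ]` over the modular forms, by ONE prime
PROOF. Suppose `P0 + P1 E2 + ∑_{i ≤ s} g_i X_i[κ + F] = 0` and not all `g_i = 0`.
All elements of `ML ℚ k` have bounded denominators: `f = ∑ x_j • bas` with integral `bas`
(`coeff_bas_int`), so there is a natural number `d ≥ 1` such that `d P0, d P1, d g_i` have integer
coefficients (multiply the relation by `d`: WLOG `d = 1`).
`H := ∑ g_i E2^i` is not 0 (hypothesis `hTr`, the theorem Tr; it is a separate module, here used through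
the hypothesis), integral coefficients; `r = order H`, `h = coeff r H ≠ 0`, an integer.
Take a prime `p > r + s + 2`, `p ∤ h`, `p ∤ den κ`. Compare the coefficients of `q^(p+r)`. `coeff n F = ∑_{d | n} d^{-s}`
is `p`-integral for `n < 2p`, `n ≠ p`, and `coeff p F = 1 + p^{-s}`. `X_i[κ + F] = s! κ E2^i + ∑_l cf s i l E2^(i-l) D^l F`,
`coeff n (D^l F) = n^l coeff n F`. So, up to `p`-integral numbers, the coefficient of `q^(p+r)` of the left side is
`∑_i ∑_l cf s i l * coeff r (g_i E2^(i-l)) * p^l * p^{-s}`: the terms `l ≥ 1` have valuation `≥ 1 - s`, the terms `l = 0`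
give `s! h p^{-s}` (`cf s i 0 = s!`), of valuation exactly `-s < 0` (`p > s`, `p ∤ h`; `s ≥ 1`). So the sum is not 0:
contradiction.
-/

set_option autoImplicit false

open PowerSeries

namespace Pool.Agent.L1

open MP_a3a416_nt.SJ (val)

private theorem FInd_val_den {p : ℕ} [hp : Fact p.Prime] (x : ℚ) (h : ¬ p ∣ x.den) : val p x 0 := by
  right
  unfold padicValRat
  rw [padicValNat.eq_zero_of_not_dvd h]
  simp

private theorem FInd_unit {p : ℕ} [hp : Fact p.Prime] (x : ℚ) (h1 : ¬ p ∣ x.num.natAbs)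
    (h2 : ¬ p ∣ x.den) : padicValRat p x = 0 := by
  unfold padicValRat padicValInt
  rw [padicValNat.eq_zero_of_not_dvd h1, padicValNat.eq_zero_of_not_dvd h2]
  simp

private theorem FInd_bd {k : ℤ} {f : ℚ⟦X⟧} (hf : f ∈ MLz k) :
    ∃ d : ℕ, ∀ p : ℕ, [Fact p.Prime] → d < p → ∀ n, val p (coeff n f) 0 := by
  unfold MLz at hf
  split_ifs at hf with hk
  · obtain ⟨c, hc⟩ := mem_ML_iff.1 hf
    refine ⟨∑ j ∈ Finset.range (dd k.toNat), (c j).den, ?_⟩
    intro p hp hd n
    rw [hc, map_sum]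
    refine val.sum fun j hj => ?_
    rw [map_smul, smul_eq_mul]
    rw [coeff_bas_int (R := ℚ) k.toNat j n]
    refine val.mul_int (hp := hp) _ (FInd_val_den (c j) ?_)
    intro h
    have h1 := Nat.le_of_dvd (c j).den_pos h
    have h2 : (c j).den ≤ ∑ j ∈ Finset.range (dd k.toNat), (c j).den :=
      Finset.single_le_sum (f := fun j => (c j).den) (fun _ _ => Nat.zero_le _) hj
    omega
  · refine ⟨0, ?_⟩
    intro p hp hd n
    rw [(Submodule.mem_bot ℚ).1 hf]
    exact Or.inl (by simp)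

private theorem FInd_mul {p T : ℕ} [hp : Fact p.Prime] {f g : ℚ⟦X⟧} (hf : pvT p T f 0)
    (hg : pvT p T g 0) : pvT p T (f * g) 0 := by
  intro n hn
  rw [coeff_mul]
  refine val.sum fun x hx => ?_
  have hx' := Finset.HasAntidiagonal.mem_antidiagonal.1 hx
  have := (hf x.1 (by omega)).mul (hg x.2 (by omega))
  simpa using this

private theorem FInd_e2 {p T : ℕ} [hp : Fact p.Prime] : pvT p T (e2 ℚ) 0 := by
  intro n _
  unfold e2
  rw [coeff_map]
  exact val.int _

private theorem FInd_one {p T : ℕ} [hp : Fact p.Prime] : pvT p T (1 : ℚ⟦X⟧) 0 := by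
  intro n _
  rw [coeff_one]
  split_ifs
  · exact val.one
  · exact val.zero _

private theorem FInd_pow {p T : ℕ} [hp : Fact p.Prime] {f : ℚ⟦X⟧} (hf : pvT p T f 0) (m : ℕ) :
    pvT p T (f ^ m) 0 := by
  induction m with
  | zero => rw [pow_zero]; exact FInd_one
  | succ m ih => rw [pow_succ]; exact FInd_mul ih hf

private theorem FInd_cf {p : ℕ} [hp : Fact p.Prime] (s i l : ℕ) : val p (cf s i l) 0 := by
  have : cf s i l = ((i.choose l * 12 ^ l * (s - l).factorial : ℕ) : ℚ) := by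
    unfold cf
    push_cast
    ring
  rw [this]
  exact val.nat _

private theorem FInd_XX {p T : ℕ} [hp : Fact p.Prime] (s i : ℕ) {y : ℚ⟦X⟧} (hy : pvT p T y 0) :
    pvT p T (XX s i y) 0 := by
  intro n hn
  unfold XX XG
  rw [map_sum]
  refine val.sum fun l _ => ?_
  rw [map_smul, smul_eq_mul]
  have h1 : pvT p T (DqDer^[l] y) 0 := by
    intro m hm
    rw [coeff_Dq_iter]
    have h2 : val p ((m : ℚ) ^ l) 0 := by
      have := (val.nat (p := p) m).pow l
      simpa using this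
    have := h2.mul (hy m hm)
    simpa using this
  have h3 := (FInd_cf s i l).mul (FInd_mul (FInd_pow FInd_e2 (i - l)) h1 n hn)
  simpa using h3

private theorem FInd_y {p : ℕ} [hp : Fact p.Prime] (s : ℕ) (κ : ℚ) (hκ : ¬ p ∣ κ.den) :
    pvT p (2 * p) (C κ + Fs s - C (((p : ℚ) ^ s)⁻¹) * X ^ p) 0 := by
  intro n hn
  have hp0 := hp.out.pos
  rw [map_sub, map_add, coeff_C, coeff_C_mul, coeff_X_pow]
  unfold Fs
  rw [coeff_mk]
  rcases Nat.eq_zero_or_pos n with h0 | h0
  · subst h0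
    rw [if_pos rfl, if_neg (by omega)]
    simp only [Nat.divisors_zero, Finset.sum_empty]
    rw [add_zero, mul_zero, sub_zero]
    exact FInd_val_den κ hκ
  · rw [if_neg (by omega), zero_add]
    by_cases h1 : n = p
    · subst h1
      rw [if_pos rfl, Nat.Prime.sum_divisors hp.out]
      have : ((n : ℚ) ^ s)⁻¹ + ((1 : ℕ) : ℚ) ^ s * 0 + (((1 : ℕ) : ℚ) ^ s)⁻¹ - ((n : ℚ) ^ s)⁻¹ * 1 = 1 := by
        push_cast
        rw [one_pow]
        ring
      have h2 : ((n : ℚ) ^ s)⁻¹ + (((1 : ℕ) : ℚ) ^ s)⁻¹ - ((n : ℚ) ^ s)⁻¹ * 1 = 1 := by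
        push_cast
        rw [one_pow]
        ring
      rw [h2]
      exact val.one
    · rw [if_neg h1, mul_zero, sub_zero]
      refine val.sum fun d hd => ?_
      have hpd : ¬ p ∣ d := by
        intro h
        have h2 : p ∣ n := h.trans (Nat.dvd_of_mem_divisors hd)
        obtain ⟨k, hk⟩ := h2
        rw [hk] at hn h0 h1
        have h3 : k < 2 := by
          by_contra h4
          have : p * 2 ≤ p * k := Nat.mul_le_mul_left _ (by omega)
          omega
        interval_cases k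
        · omega
        · omega
      right
      have h5 : padicValRat p (((d : ℚ) ^ s)⁻¹) = 0 := by
        rw [padicValRat.inv, padicValRat.pow, padicValRat.of_nat,
          padicValNat.eq_zero_of_not_dvd hpd]
        simp
      rw [h5]

theorem F_indep (s : ℕ) (hs : 1 ≤ s) (K : ℤ) (κ : ℚ) (P0 P1 : ℚ⟦X⟧) (g : ℕ → ℚ⟦X⟧)
    (h0 : P0 ∈ MLz K) (h1 : P1 ∈ MLz (K - 2)) (hg : ∀ i ≤ s, g i ∈ MLz (K - 1 + s - 2 * i))
    (hTr : (∑ i ∈ Finset.range (s + 1), g i * e2 ℚ ^ i) ≠ 0)
    (h : P0 + P1 * e2 ℚ + ∑ i ∈ Finset.range (s + 1), g i * XX s i (C κ + Fs s) = 0) : False := by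
  classical
  obtain ⟨r, hr⟩ := (PowerSeries.exists_coeff_ne_zero_iff_ne_zero).2 hTr
  set η : ℚ := coeff r (∑ i ∈ Finset.range (s + 1), g i * e2 ℚ ^ i) with hη
  obtain ⟨d0, hd0⟩ := FInd_bd h0
  obtain ⟨d1, hd1⟩ := FInd_bd h1
  have hgb : ∀ i, ∃ d : ℕ, i ≤ s → ∀ p : ℕ, [Fact p.Prime] → d < p → ∀ n, val p (coeff n (g i)) 0 := by
    intro i
    by_cases hi : i ≤ s
    · obtain ⟨d, hd⟩ := FInd_bd (hg i hi)
      exact ⟨d, fun _ => hd⟩
    · exact ⟨0, fun h => absurd h hi⟩
  choose dg hdg using hgb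
  obtain ⟨p, hpl, hp⟩ := Nat.exists_infinite_primes
    (d0 + d1 + (∑ i ∈ Finset.range (s + 1), dg i) + κ.den + η.num.natAbs + η.den + r + s + 3)
  haveI : Fact p.Prime := ⟨hp⟩
  have hηn : 0 < η.num.natAbs := Int.natAbs_pos.2 (Rat.num_ne_zero.2 hr)
  have hκp : ¬ p ∣ κ.den := fun h => by
    have := Nat.le_of_dvd κ.den_pos h
    omega
  have hη0 : padicValRat p η = 0 := FInd_unit η
    (fun h => by have := Nat.le_of_dvd hηn h; omega)
    (fun h => by have := Nat.le_of_dvd η.den_pos h; omega)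
  have I0 : pvT p (2 * p) P0 0 := fun n _ => hd0 p (by omega) n
  have I1 : pvT p (2 * p) P1 0 := fun n _ => hd1 p (by omega) n
  have Ig : ∀ i ∈ Finset.range (s + 1), pvT p (2 * p) (g i) 0 := by
    intro i hi n _
    refine hdg i (by have := Finset.mem_range.1 hi; omega) p ?_ n
    have h2 : dg i ≤ ∑ i ∈ Finset.range (s + 1), dg i :=
      Finset.single_le_sum (f := fun j => dg j) (fun _ _ => Nat.zero_le _) hi
    omega
  set c : ℚ := ((p : ℚ) ^ s)⁻¹ with hc
  set y1 : ℚ⟦X⟧ := C κ + Fs s - C c * X ^ p with hy1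
  have Iy : pvT p (2 * p) y1 0 := FInd_y s κ hκp
  have hy : C κ + Fs s = y1 + C c * X ^ p := by rw [hy1]; ring
  have hD : ∀ l : ℕ, DqDer^[l] (C c * X ^ p : ℚ⟦X⟧) = C (c * (p : ℚ) ^ l) * X ^ p := by
    intro l
    ext n
    rw [coeff_Dq_iter, coeff_C_mul, coeff_C_mul, coeff_X_pow]
    split_ifs with hn
    · rw [hn]; ring
    · ring
  have hXX : ∀ i, XX s i (C κ + Fs s) = XX s i y1 +
      ∑ l ∈ Finset.range (i + 1), C (cf s i l * (c * (p : ℚ) ^ l)) * e2 ℚ ^ (i - l) * X ^ p := by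
    intro i
    rw [hy]
    unfold XX XG
    rw [← Finset.sum_add_distrib]
    refine Finset.sum_congr rfl fun l _ => ?_
    rw [iterate_map_add, hD l, mul_add, smul_add, smul_eq_C_mul, smul_eq_C_mul, map_mul C (cf s i l)]
    ring
  -- the main part of the coefficient
  have hmain : coeff (r + p) (∑ i ∈ Finset.range (s + 1), g i *
      ∑ l ∈ Finset.range (i + 1), C (cf s i l * (c * (p : ℚ) ^ l)) * e2 ℚ ^ (i - l) * X ^ p) =
      c * ∑ i ∈ Finset.range (s + 1), ∑ l ∈ Finset.range (i + 1),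
        cf s i l * (p : ℚ) ^ l * coeff r (g i * e2 ℚ ^ (i - l)) := by
    rw [map_sum, Finset.mul_sum]
    refine Finset.sum_congr rfl fun i _ => ?_
    rw [Finset.mul_sum, map_sum, Finset.mul_sum]
    refine Finset.sum_congr rfl fun l _ => ?_
    have : g i * (C (cf s i l * (c * (p : ℚ) ^ l)) * e2 ℚ ^ (i - l) * X ^ p) =
        (C (cf s i l * (c * (p : ℚ) ^ l)) * (g i * e2 ℚ ^ (i - l))) * X ^ p := by ring
    rw [this, coeff_mul_X_pow, coeff_C_mul]
    ring
  -- the sum over l: the term l = 0 and the rest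
  have hsplit : ∀ i ∈ Finset.range (s + 1), val p ((∑ l ∈ Finset.range (i + 1),
      cf s i l * (p : ℚ) ^ l * coeff r (g i * e2 ℚ ^ (i - l))) -
      (s.factorial : ℚ) * coeff r (g i * e2 ℚ ^ i)) 1 := by
    intro i hi
    rw [Finset.sum_range_succ']
    have h2 : cf s i 0 * (p : ℚ) ^ 0 * coeff r (g i * e2 ℚ ^ (i - 0)) =
        (s.factorial : ℚ) * coeff r (g i * e2 ℚ ^ i) := by
      unfold cf
      simp
    rw [h2, add_sub_cancel_right]
    refine val.sum fun l _ => ?_
    have h3 : val p (coeff r (g i * e2 ℚ ^ (i - (l + 1)))) 0 :=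
      FInd_mul (Ig i hi) (FInd_pow FInd_e2 _) r (by omega)
    have h4 : val p ((p : ℚ) ^ (l + 1)) 1 := by
      have := (val.p_zpow (p := p) ((l : ℤ) + 1)).mono (show (1 : ℤ) ≤ (l : ℤ) + 1 by omega)
      rw [show ((l : ℤ) + 1) = ((l + 1 : ℕ) : ℤ) by push_cast; ring, zpow_natCast] at this
      exact this
    have := ((FInd_cf s i (l + 1)).mul h4).mul h3
    simpa using this
  set S : ℚ := ∑ i ∈ Finset.range (s + 1), ∑ l ∈ Finset.range (i + 1),
        cf s i l * (p : ℚ) ^ l * coeff r (g i * e2 ℚ ^ (i - l)) with hS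
  have hSv : val p (S - (s.factorial : ℚ) * η) 1 := by
    rw [hη, map_sum, Finset.mul_sum, hS, ← Finset.sum_sub_distrib]
    exact val.sum hsplit
  -- the rest
  have hR : val p (coeff (r + p) (P0 + P1 * e2 ℚ + ∑ i ∈ Finset.range (s + 1), g i * XX s i y1)) 0 := by
    rw [map_add, map_add, map_sum]
    refine ((I0 _ (by omega)).add (FInd_mul I1 FInd_e2 _ (by omega))).add (val.sum fun i hi => ?_)
    exact FInd_mul (Ig i hi) (FInd_XX s i Iy) _ (by omega)
  set R : ℚ := coeff (r + p) (P0 + P1 * e2 ℚ + ∑ i ∈ Finset.range (s + 1), g i * XX s i y1) with hRd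
  have hsum : R + c * S = 0 := by
    have h2 := congrArg (coeff (r + p)) h
    rw [map_zero] at h2
    rw [← hmain, hRd, ← map_add, ← h2]
    congr 1
    rw [add_assoc, ← Finset.sum_add_distrib]
    congr 1
    refine Finset.sum_congr rfl fun i _ => ?_
    rw [hXX i, mul_add]
  have hpQ : ((p : ℚ) ^ s) ≠ 0 := pow_ne_zero _ (by exact_mod_cast hp.ne_zero)
  have hS2 : S = -(R * (p : ℚ) ^ s) := by
    have h3 : c * S = -R := by linarith
    have h4 : (p : ℚ) ^ s * (c * S) = S := by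
      rw [hc, ← mul_assoc, mul_inv_cancel₀ hpQ, one_mul]
    rw [h3] at h4
    rw [← h4]
    ring
  have hSs : val p S 1 := by
    rw [hS2]
    have h4 : val p ((p : ℚ) ^ s) 1 := by
      have := (val.p_zpow (p := p) (s : ℤ)).mono (show (1 : ℤ) ≤ (s : ℤ) by omega)
      rw [zpow_natCast] at this
      exact this
    have := (hR.mul h4).neg
    simpa using this
  have hU : val p ((s.factorial : ℚ) * η) 1 := by
    have := hSs.sub hSv
    rw [sub_sub_cancel] at this
    exact this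
  have hfac : padicValRat p (s.factorial : ℚ) = 0 := by
    rw [padicValRat.of_nat, padicValNat.eq_zero_of_not_dvd]
    · rfl
    · intro h2
      have := (hp.dvd_factorial).1 h2
      omega
  have hne : (s.factorial : ℚ) ≠ 0 := by exact_mod_cast s.factorial_ne_zero
  rcases hU with h2 | h2
  · exact (mul_ne_zero hne hr) h2
  · rw [padicValRat.mul hne hr, hfac, hη0] at h2
    norm_num at h2

end Pool.Agent.L1
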