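import Pool.Agent.Lib.L1.Ram

/-!
# L1.Formal: the integral power series `E₂, E₄, E₆, Δ` and Ramanujan's identities over `ℤ`
-/

open UpperHalfPlane hiding I
open Complex ModularForm EisensteinSeries Derivative Function Filter
open scoped Real MatrixGroups Manifold Topology ArithmeticFunction.sigma

namespace Pool.Agent.L1

/-- `E₂ = 1 - 24 ∑ σ₁(n) qⁿ`. -/
noncomputable def E2z : PowerSeries ℤ :=
  PowerSeries.mk fun n => if n = 0 then 1 else -24 * ((σ 1 n : ℕ) : ℤ)

/-- `E₄ = 1 + 240 ∑ σ₃(n) qⁿ`. -/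
noncomputable def E4z : PowerSeries ℤ :=
  PowerSeries.mk fun n => if n = 0 then 1 else 240 * ((σ 3 n : ℕ) : ℤ)

/-- `E₆ = 1 - 504 ∑ σ₅(n) qⁿ`. -/
noncomputable def E6z : PowerSeries ℤ :=
  PowerSeries.mk fun n => if n = 0 then 1 else -504 * ((σ 5 n : ℕ) : ℤ)

@[simp] lemma coeff_E2z (n : ℕ) : PowerSeries.coeff n E2z
    = if n = 0 then 1 else -24 * ((σ 1 n : ℕ) : ℤ) := by simp [E2z]
@[simp] lemma coeff_E4z (n : ℕ) : PowerSeries.coeff n E4z
    = if n = 0 then 1 else 240 * ((σ 3 n : ℕ) : ℤ) := by simp [E4z]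
@[simp] lemma coeff_E6z (n : ℕ) : PowerSeries.coeff n E6z
    = if n = 0 then 1 else -504 * ((σ 5 n : ℕ) : ℤ) := by simp [E6z]

lemma map_E2z : PowerSeries.map (Int.castRingHom ℂ) E2z = qExpansion 1 E2 := by
  ext n
  rw [coeff_qExpansion_E2, PowerSeries.coeff_map, coeff_E2z]
  split_ifs <;> simp

lemma map_E4z : PowerSeries.map (Int.castRingHom ℂ) E4z = qExpansion 1 E₄ := by
  ext n
  rw [E_qExpansion_coeff _ ⟨2, rfl⟩, PowerSeries.coeff_map, coeff_E4z]
  split_ifs
  · simp
  · rw [show bernoulli 4 = -1 / 30 by decide +kernel]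
    norm_num

lemma map_E6z : PowerSeries.map (Int.castRingHom ℂ) E6z = qExpansion 1 E₆ := by
  ext n
  rw [E_qExpansion_coeff _ ⟨3, rfl⟩, PowerSeries.coeff_map, coeff_E6z]
  split_ifs
  · simp
  · rw [show bernoulli 6 = 1 / 42 by decide +kernel]
    norm_num

section Dq

variable {R S : Type*} [CommRing R] [CommRing S]

lemma Dq_add (f g : PowerSeries R) : Dq (f + g) = Dq f + Dq g := by
  ext n; simp [mul_add]

lemma Dq_sub (f g : PowerSeries R) : Dq (f - g) = Dq f - Dq g := by
  ext n; simp [mul_sub]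

lemma Dq_neg (f : PowerSeries R) : Dq (-f) = -Dq f := by
  ext n; simp

lemma Dq_zero : Dq (0 : PowerSeries R) = 0 := by
  ext n; simp

lemma Dq_one : Dq (1 : PowerSeries R) = 0 := by
  ext n
  rw [coeff_Dq, PowerSeries.coeff_one]
  split_ifs with h
  · simp [h]
  · simp

lemma Dq_smul (c : R) (f : PowerSeries R) : Dq (c • f) = c • Dq f := by
  ext n; simp [mul_left_comm]

lemma Dq_mul (f g : PowerSeries R) : Dq (f * g) = Dq f * g + f * Dq g := by
  ext n
  simp only [coeff_Dq, map_add, PowerSeries.coeff_mul, Finset.mul_sum, ← Finset.sum_add_distrib]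
  refine Finset.sum_congr rfl fun p hp => ?_
  have : (n : R) = (p.1 : R) + (p.2 : R) := by
    rw [← Finset.HasAntidiagonal.mem_antidiagonal.mp hp]; push_cast; ring
  rw [this]; ring

lemma Dq_map (φ : R →+* S) (f : PowerSeries R) :
    Dq (PowerSeries.map φ f) = PowerSeries.map φ (Dq f) := by
  ext n; simp

lemma Dq_C (c : R) : Dq (PowerSeries.C c) = 0 := by
  ext n
  rw [coeff_Dq, PowerSeries.coeff_C]
  split_ifs with h
  · simp [h]
  · simp

/-- `D` as a derivation of `R[[q]]`. -/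
noncomputable def DqDer : Derivation R (PowerSeries R) (PowerSeries R) where
  toFun := Dq
  map_add' := Dq_add
  map_smul' := by intro c f; simp [Dq_smul]
  map_one_eq_zero' := Dq_one
  leibniz' := by
    intro f g
    simp only [LinearMap.coe_mk, AddHom.coe_mk, smul_eq_mul]
    rw [Dq_mul]; ring

@[simp] lemma DqDer_apply (f : PowerSeries R) : DqDer f = Dq f := rfl

end Dq

lemma map_injective_C :
    Function.Injective (PowerSeries.map (Int.castRingHom ℂ)) :=
  PowerSeries.map_injective _ (RingHom.injective_int _)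

/-- Ramanujan over `ℤ`: `12 D E₂ = E₂² - E₄`. -/
theorem ramZ2 : 12 * Dq E2z = E2z ^ 2 - E4z := by
  apply map_injective_C
  have h := congrArg (qExpansion 1) ram2
  rw [nice_E2.qExpansion_D, Nice.qExpansion_sub ((nice_E2.mul nice_E2).smul _)
    ((nice_modularForm E₄).smul _), (nice_E2.mul nice_E2).qExpansion_smul,
    nice_E2.qExpansion_mul nice_E2, (nice_modularForm E₄).qExpansion_smul, ← map_E2z,
    ← map_E4z, Dq_map] at h
  simp only [map_mul, map_sub, map_pow, map_ofNat]
  rw [h]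
  rw [PowerSeries.smul_eq_C_mul, PowerSeries.smul_eq_C_mul]
  have h12 : (12 : PowerSeries ℂ) * PowerSeries.C (12⁻¹ : ℂ) = 1 := by
    rw [show (12 : PowerSeries ℂ) = PowerSeries.C (12 : ℂ) from (map_ofNat PowerSeries.C 12).symm,
      ← map_mul]
    norm_num
  linear_combination (PowerSeries.map (Int.castRingHom ℂ) E2z
    * PowerSeries.map (Int.castRingHom ℂ) E2z - PowerSeries.map (Int.castRingHom ℂ) E4z) * h12

/-- Ramanujan over `ℤ`: `3 D E₄ = E₂ E₄ - E₆`. -/
theorem ramZ4 : 3 * Dq E4z = E2z * E4z - E6z := by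
  apply map_injective_C
  have h := congrArg (qExpansion 1) ram4
  rw [(nice_modularForm E₄).qExpansion_D,
    Nice.qExpansion_sub ((nice_E2.mul (nice_modularForm E₄)).smul _)
    ((nice_modularForm E₆).smul _), (nice_E2.mul (nice_modularForm E₄)).qExpansion_smul,
    nice_E2.qExpansion_mul (nice_modularForm E₄), (nice_modularForm E₆).qExpansion_smul, ← map_E2z,
    ← map_E4z, ← map_E6z, Dq_map] at h
  simp only [map_mul, map_sub, map_ofNat]
  rw [h]
  rw [PowerSeries.smul_eq_C_mul, PowerSeries.smul_eq_C_mul]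
  have h12 : (3 : PowerSeries ℂ) * PowerSeries.C (3⁻¹ : ℂ) = 1 := by
    rw [show (3 : PowerSeries ℂ) = PowerSeries.C (3 : ℂ) from (map_ofNat PowerSeries.C 3).symm,
      ← map_mul]
    norm_num
  linear_combination (PowerSeries.map (Int.castRingHom ℂ) E2z
    * PowerSeries.map (Int.castRingHom ℂ) E4z - PowerSeries.map (Int.castRingHom ℂ) E6z) * h12

/-- Ramanujan over `ℤ`: `2 D E₆ = E₂ E₆ - E₄²`. -/
theorem ramZ6 : 2 * Dq E6z = E2z * E6z - E4z ^ 2 := by
  apply map_injective_C
  have h := congrArg (qExpansion 1) ram6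
  rw [(nice_modularForm E₆).qExpansion_D,
    Nice.qExpansion_sub ((nice_E2.mul (nice_modularForm E₆)).smul _)
    (((nice_modularForm E₄).mul (nice_modularForm E₄)).smul _),
    (nice_E2.mul (nice_modularForm E₆)).qExpansion_smul,
    nice_E2.qExpansion_mul (nice_modularForm E₆),
    ((nice_modularForm E₄).mul (nice_modularForm E₄)).qExpansion_smul,
    (nice_modularForm E₄).qExpansion_mul (nice_modularForm E₄), ← map_E2z,
    ← map_E4z, ← map_E6z, Dq_map] at h
  simp only [map_mul, map_sub, map_pow, map_ofNat]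
  rw [h]
  rw [PowerSeries.smul_eq_C_mul, PowerSeries.smul_eq_C_mul]
  have h12 : (2 : PowerSeries ℂ) * PowerSeries.C (2⁻¹ : ℂ) = 1 := by
    rw [show (2 : PowerSeries ℂ) = PowerSeries.C (2 : ℂ) from (map_ofNat PowerSeries.C 2).symm,
      ← map_mul]
    norm_num
  linear_combination (PowerSeries.map (Int.castRingHom ℂ) E2z
    * PowerSeries.map (Int.castRingHom ℂ) E6z - PowerSeries.map (Int.castRingHom ℂ) E4z
    * PowerSeries.map (Int.castRingHom ℂ) E4z) * h12

end Pool.Agent.L1
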