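import Mathlib

/-!
# L1.FrobPoly: `I(ρ + d/dt) P = 0` and `P` has zero coefficients below the multiplicity of `ρ`: `P = 0`
PROOF. `Q := I.comp (X + C ρ)`, `aeval (ρ + ∂) I = aeval ∂ Q`. `Q = X^μ R` with `μ = rootMultiplicity ρ I`,
`R.coeff 0 ≠ 0` (`Polynomial.rootMultiplicity`, `exists_eq_pow_rootMultiplicity_mul_and_not_dvd`).
`W := aeval ∂ X^μ P = ∂^μ P`; `aeval ∂ R W = 0` with `R = r0 + X R'`: `r0 W = - ∂ (R'(∂) W)`, so if `W ≠ 0` the degree of
the right side is less than that of `W` (degree of `R'(∂) W` ≤ degree of `W`): contradiction, `W = 0`.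
So `deg P < μ` (characteristic 0: `Polynomial.iterate_derivative...`, leading coefficient), and all
coefficients below `μ` are 0: `P = 0`.
-/

set_option autoImplicit false

open Polynomial

namespace Pool.Agent.L1

private theorem deg_aeval (T : Module.End ℚ ℚ[X]) (hT : ∀ V : ℚ[X], (T V).degree ≤ V.degree) (R : ℚ[X]) :
    ∀ V : ℚ[X], (aeval T R V).degree ≤ V.degree := by
  induction R using Polynomial.induction_on with
  | C a =>
    intro V
    rw [aeval_C, Module.algebraMap_end_apply]
    exact degree_smul_le a V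
  | add p q hp hq =>
    intro V
    rw [map_add, LinearMap.add_apply]
    exact (degree_add_le _ _).trans (max_le (hp V) (hq V))
  | monomial n a ih =>
    intro V
    rw [pow_succ, ← mul_assoc, map_mul, aeval_X, Module.End.mul_apply]
    exact (ih (T V)).trans (hT V)

theorem deriv_kill (I : ℚ[X]) (hI : I ≠ 0) (ρ : ℚ) (P : ℚ[X])
    (h : aeval (algebraMap ℚ (Module.End ℚ ℚ[X]) ρ + (derivative : ℚ[X] →ₗ[ℚ] ℚ[X])) I P = 0)
    (hc : ∀ j < I.rootMultiplicity ρ, P.coeff j = 0) : P = 0 := by
  obtain ⟨R0, hR0, hnd⟩ := exists_eq_pow_rootMultiplicity_mul_and_not_dvd I hI ρ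
  set μ := I.rootMultiplicity ρ with hμ
  set D : Module.End ℚ ℚ[X] := (derivative : ℚ[X] →ₗ[ℚ] ℚ[X]) with hD
  set T : Module.End ℚ ℚ[X] := algebraMap ℚ (Module.End ℚ ℚ[X]) ρ + D with hT
  have hTD : aeval T (X - C ρ) = D := by
    rw [map_sub, aeval_X, aeval_C, hT, add_sub_cancel_left]
  have hTdeg : ∀ V : ℚ[X], (T V).degree ≤ V.degree := by
    intro V
    rw [hT, LinearMap.add_apply, Module.algebraMap_end_apply]
    exact (degree_add_le _ _).trans (max_le (degree_smul_le _ _) degree_derivative_le)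
  have hW : aeval T R0 ((D ^ μ) P) = 0 := by
    rw [hR0, mul_comm, map_mul, map_pow, hTD, Module.End.mul_apply] at h
    exact h
  set W := (D ^ μ) P with hWdef
  have hr0 : R0.eval ρ ≠ 0 := fun h0 => hnd (dvd_iff_isRoot.2 h0)
  -- W = 0
  have hW0 : W = 0 := by
    by_contra hne
    obtain ⟨R1, hR1⟩ : ∃ R1, R0 = R1 * (X - C ρ) + C (R0.eval ρ) := by
      have hd : (X - C ρ) ∣ R0 - C (R0.eval ρ) := by
        rw [dvd_iff_isRoot, IsRoot.def, eval_sub, eval_C, sub_self]
      obtain ⟨R1, hR1⟩ := hd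
      exact ⟨R1, by rw [mul_comm, ← hR1, sub_add_cancel]⟩
    have h2 : aeval T R1 (D W) + (R0.eval ρ) • W = 0 := by
      have h3 := hW
      rw [hR1, map_add, map_mul, hTD, aeval_C, LinearMap.add_apply, Module.End.mul_apply,
        Module.algebraMap_end_apply] at h3
      exact h3
    have h3 : (R0.eval ρ) • W = - aeval T R1 (D W) := (neg_eq_of_add_eq_zero_right h2).symm
    have h4 : W.degree = ((R0.eval ρ) • W).degree := by
      rw [smul_eq_C_mul, degree_C_mul hr0]
    have h5 : W.degree ≤ (D W).degree := by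
      rw [h4, h3, degree_neg]
      exact deg_aeval T hTdeg R1 (D W)
    exact absurd (degree_derivative_lt hne) (not_lt.2 h5)
  have hit : derivative^[μ] P = 0 := by
    rw [← hW0, hWdef, Module.End.pow_apply]
  ext j
  rw [coeff_zero]
  by_cases hj : j < μ
  · exact hc j hj
  · obtain ⟨m, rfl⟩ := Nat.exists_eq_add_of_le (not_lt.1 hj)
    have h6 : (derivative^[μ] P).coeff m = 0 := by rw [hit, coeff_zero]
    rw [coeff_iterate_derivative, nsmul_eq_mul, mul_eq_zero] at h6
    rcases h6 with h6 | h6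
    · exfalso
      have : (m + μ).descFactorial μ = 0 := by exact_mod_cast h6
      rw [Nat.descFactorial_eq_zero_iff_lt] at this
      omega
    · rwa [add_comm μ m]

end Pool.Agent.L1
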