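import Pool.Agent.Lib.L1.FrobDefs
import Pool.Agent.Lib.L1.FrobPoly

/-!
# L1.Frob: an equation of order `≤ m` has no `m+1` independent solutions in `ℚ[t]⟦q⟧`
PROOF. Suppose `u_0, ..., u_m` independent. Let `v` = minimal order of the `h_a` (`a ≤ m`), `η_a = coeff v (h_a)`,
not all zero. For `u ≠ 0` in `AA` let `ρ = order u`, `P = coeff ρ u ≠ 0`. By induction on `a`, using
`coeff_dA`, `coeff 0 E = 1`: `coeff n (LL κ E a u) = 0` for `n < ρ` and
`coeff ρ (LL κ E a u) = (∏_{b<a} (ρ - κ_b + ∂)) P = aeval (ρ + ∂) (∏_{b<a} (X - C κ_b)) P`.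
So if `∑ emb (h_a) LL_a u = 0`, the coefficient of `q^(v+ρ)` gives `aeval (ρ + ∂) I P = 0`,
`I = ∑_a C η_a ∏_{b<a} (X - C κ_b)`; `I ≠ 0` (the largest `a` with `η_a ≠ 0` gives its degree), `deg I ≤ m`.
By `deriv_kill` (with `hI`), `P` is not killed by all functionals `coeff j`, `j < rootMultiplicity ρ I`.
Let `S = {(ρ, j) : ρ ∈ ℕ, j < rootMultiplicity ρ I}`: finite, `card S ≤ card I.roots ≤ deg I ≤ m`
(distinct `ρ`). The linear map `ℚ^(m+1) → ℚ^S`, `x ↦ ((coeff ρ (∑ x_i u_i)).coeff j)` has a kernel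
vector `x ≠ 0`; `u = ∑ x_i u_i` satisfies the equation (linearity of `LL_a`) and all functionals
vanish; if `u ≠ 0` then with `ρ = order u` contradiction. So `u = 0`: dependent.
-/

set_option autoImplicit false

open PowerSeries

namespace Pool.Agent.L1

private theorem frob_coeff_lt {f g : AA} {ρ n : ℕ} (hg : ∀ j < ρ, coeff j g = 0) (hn : n < ρ) :
    coeff n (f * g) = 0 := by
  rw [coeff_mul]
  refine Finset.sum_eq_zero fun x hx => ?_
  have hx := Finset.HasAntidiagonal.mem_antidiagonal.1 hx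
  rw [hg x.2 (by omega), mul_zero]

private theorem frob_coeff_mul {f g : AA} {v ρ : ℕ} (hf : ∀ i < v, coeff i f = 0)
    (hg : ∀ j < ρ, coeff j g = 0) : coeff (v + ρ) (f * g) = coeff v f * coeff ρ g := by
  rw [coeff_mul, Finset.sum_eq_single (v, ρ)]
  · rintro ⟨i, j⟩ hx hne
    have hx := Finset.HasAntidiagonal.mem_antidiagonal.1 hx
    simp only at hx ⊢
    rcases lt_or_ge i v with h | h
    · rw [hf i h, zero_mul]
    · rcases lt_or_ge j ρ with h' | h'
      · rw [hg j h', mul_zero]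
      · exact absurd (Prod.ext (by simp only; omega) (by simp only; omega)) hne
  · intro h
    exact (h (Finset.HasAntidiagonal.mem_antidiagonal.2 rfl)).elim

private theorem frob_LL_sum (κ : ℕ → ℚ) (E : ℚ⟦X⟧) {ι : Type*} [Fintype ι] (x : ι → ℚ) (u : ι → AA)
    (a : ℕ) : LL κ E a (∑ c, x c • u c) = ∑ c, x c • LL κ E a (u c) := by
  induction a with
  | zero => rfl
  | succ a ih =>
    simp only [LL]
    rw [ih, map_sum, Finset.mul_sum, ← Finset.sum_sub_distrib]
    refine Finset.sum_congr rfl fun c _ => ?_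
    rw [Derivation.map_smul, mul_smul_comm, smul_sub]

/-- the product `∏_{b < a} (X - κ_b)` -/
private noncomputable def frobP (κ : ℕ → ℚ) (a : ℕ) : Polynomial ℚ :=
  ∏ b ∈ Finset.range a, (Polynomial.X - Polynomial.C (κ b))

private noncomputable def frobT (ρ : ℕ) : Module.End ℚ (Polynomial ℚ) :=
  algebraMap ℚ (Module.End ℚ (Polynomial ℚ)) ρ +
    (Polynomial.derivative : Polynomial ℚ →ₗ[ℚ] Polynomial ℚ)

private theorem frob_lead (κ : ℕ → ℚ) (E : ℚ⟦X⟧) (hE : coeff 0 E = 1) {u : AA} {ρ : ℕ}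
    (hu : ∀ n < ρ, coeff n u = 0) (a : ℕ) :
    (∀ n < ρ, coeff n (LL κ E a u) = 0) ∧
      coeff ρ (LL κ E a u) = Polynomial.aeval (frobT ρ) (frobP κ a) (coeff ρ u) := by
  induction a with
  | zero =>
    refine ⟨hu, ?_⟩
    simp [LL, frobP]
  | succ a ih =>
    obtain ⟨h1, h2⟩ := ih
    refine ⟨fun n hn => ?_, ?_⟩
    · simp only [LL]
      rw [map_sub, coeff_dA, h1 n hn, frob_coeff_lt h1 hn]
      simp
    · simp only [LL]
      have h3 : coeff ρ (emb (C (κ a) * E) * LL κ E a u) =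
          Polynomial.C (κ a) * coeff ρ (LL κ E a u) := by
        have h4 := frob_coeff_mul (f := emb (C (κ a) * E)) (g := LL κ E a u) (v := 0) (ρ := ρ)
          (fun i hi => absurd hi (Nat.not_lt_zero i)) h1
        rw [zero_add] at h4
        rw [h4, coeff_emb, coeff_C_mul, hE, mul_one]
      have h5 : frobP κ (a + 1) = (Polynomial.X - Polynomial.C (κ a)) * frobP κ a := by
        unfold frobP
        rw [Finset.prod_range_succ, mul_comm]
      rw [map_sub, coeff_dA, h3, h5, map_mul, Module.End.mul_apply, ← h2, map_sub,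
        Polynomial.aeval_X, Polynomial.aeval_C, LinearMap.sub_apply, Module.algebraMap_end_apply,
        frobT, LinearMap.add_apply, Module.algebraMap_end_apply, Polynomial.smul_eq_C_mul,
        Polynomial.smul_eq_C_mul]
      congr 2

theorem frob (m : ℕ) (h : Fin (m + 1) → ℚ⟦X⟧) (hh : h ≠ 0) (κ : ℕ → ℚ) (E : ℚ⟦X⟧)
    (hE : coeff 0 E = 1) (u : Fin (m + 1) → AA)
    (hu : ∀ c, ∑ a : Fin (m + 1), emb (h a) * LL κ E a (u c) = 0) : ¬ LinearIndependent ℚ u := by
  classical
  intro hlin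
  -- the minimal order of the coefficients
  have hex : ∃ v, ∃ a, coeff v (h a) ≠ 0 := by
    by_contra hne
    push Not at hne
    apply hh
    funext a
    ext n
    rw [hne n a]
    simp
  obtain ⟨v, ⟨a0, ha0⟩, hmin⟩ : ∃ v, (∃ a, coeff v (h a) ≠ 0) ∧ ∀ n < v, ∀ a, coeff n (h a) = 0 := by
    refine ⟨Nat.find hex, Nat.find_spec hex, fun n hn a => ?_⟩
    by_contra hne
    exact Nat.find_min hex hn ⟨a, hne⟩
  -- the indicial polynomial
  obtain ⟨I, hI⟩ : ∃ I : Polynomial ℚ,
    I = ∑ a : Fin (m + 1), Polynomial.C (coeff v (h a)) * frobP κ a := ⟨_, rfl⟩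
  have hmon : ∀ a, (frobP κ a).Monic := fun a =>
    Polynomial.monic_prod_of_monic _ _ fun b _ => Polynomial.monic_X_sub_C _
  have hdeg : ∀ a, (frobP κ a).natDegree = a := by
    intro a
    unfold frobP
    rw [Polynomial.natDegree_prod_of_monic _ _ fun b _ => Polynomial.monic_X_sub_C _]
    simp
  have hIdeg : I.natDegree ≤ m := by
    rw [hI]
    refine Polynomial.natDegree_sum_le_of_forall_le _ _ fun a _ => ?_
    refine (Polynomial.natDegree_C_mul_le _ _).trans ?_
    rw [hdeg]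
    omega
  have hI0 : I ≠ 0 := by
    intro h0
    -- the largest index
    obtain ⟨b, hb, hbmax⟩ := Finset.exists_max_image
      (Finset.univ.filter fun a : Fin (m + 1) => coeff v (h a) ≠ 0) (fun a => a)
      ⟨a0, by simp [ha0]⟩
    rw [Finset.mem_filter] at hb
    apply hb.2
    have h1 : I.coeff b = coeff v (h b) := by
      rw [hI, Polynomial.finsetSum_coeff, Finset.sum_eq_single b]
      · rw [Polynomial.coeff_C_mul]
        have h2 := hmon (b : ℕ)
        have h3 : (frobP κ b).coeff b = 1 := by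
          have h4 := h2.coeff_natDegree
          rw [hdeg] at h4
          exact h4
        rw [h3, mul_one]
      · intro a _ hab
        rw [Polynomial.coeff_C_mul]
        rcases lt_or_gt_of_ne hab with hlt | hgt
        · rw [Polynomial.coeff_eq_zero_of_natDegree_lt, mul_zero]
          rw [hdeg]
          exact hlt
        · have h5 : coeff v (h a) = 0 := by
            by_contra hne
            exact absurd (hbmax a (by simp [hne])) (not_le.2 hgt)
          rw [h5, zero_mul]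
      · intro h2
        exact absurd (Finset.mem_univ _) h2
    rw [← h1, h0, Polynomial.coeff_zero]
  -- the functionals
  obtain ⟨N, hN⟩ : ∃ N : Finset ℕ, ∀ ρ : ℕ, ρ ∈ N ↔ (ρ : ℚ) ∈ I.roots.toFinset := by
    refine ⟨I.roots.toFinset.preimage (Nat.cast : ℕ → ℚ) (Nat.cast_injective.injOn), fun ρ => ?_⟩
    rw [Finset.mem_preimage]
  obtain ⟨S, hS⟩ : ∃ S : Finset (Σ _ : ℕ, ℕ),
    S = N.sigma fun ρ => Finset.range (I.rootMultiplicity (ρ : ℚ)) := ⟨_, rfl⟩
  have hScard : S.card ≤ m := by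
    rw [hS, Finset.card_sigma]
    refine le_trans ?_ hIdeg
    refine le_trans ?_ (Polynomial.card_roots' I)
    rw [← Multiset.toFinset_sum_count_eq I.roots]
    have h1 : ∑ ρ ∈ N, (Finset.range (I.rootMultiplicity (ρ : ℚ))).card =
        ∑ x ∈ N.image (Nat.cast : ℕ → ℚ), I.roots.count x := by
      rw [Finset.sum_image (fun _ _ _ _ hxy => Nat.cast_injective hxy)]
      refine Finset.sum_congr rfl fun ρ _ => ?_
      rw [Finset.card_range, Polynomial.count_roots]
    rw [h1]
    refine Finset.sum_le_sum_of_subset ?_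
    intro x hx
    rw [Finset.mem_image] at hx
    obtain ⟨ρ, hρ, rfl⟩ := hx
    exact (hN ρ).1 hρ
  obtain ⟨Φ, hΦ⟩ : ∃ Φ : (Fin (m + 1) → ℚ) →ₗ[ℚ] (S → ℚ), ∀ x s,
      Φ x s = (coeff s.1.1 (∑ c, x c • u c)).coeff s.1.2 := by
    refine ⟨{ toFun := fun x s => (coeff s.1.1 (∑ c, x c • u c)).coeff s.1.2
              map_add' := fun x y => ?_
              map_smul' := fun r x => ?_ }, fun x s => rfl⟩
    · funext s
      simp only [Pi.add_apply, add_smul, Finset.sum_add_distrib, map_add, Polynomial.coeff_add]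
    · funext s
      simp only [Pi.smul_apply, smul_eq_mul, mul_smul, ← Finset.smul_sum, RingHom.id_apply]
      have h1 : ∀ w : AA, coeff s.1.1 (r • w) = r • coeff s.1.1 w := fun _ => rfl
      rw [h1, Polynomial.coeff_smul, smul_eq_mul]
  have hker : LinearMap.ker Φ ≠ ⊥ := by
    apply LinearMap.ker_ne_bot_of_finrank_lt
    rw [Module.finrank_fintype_fun_eq_card, Module.finrank_fintype_fun_eq_card, Fintype.card_coe,
      Fintype.card_fin]
    omega
  obtain ⟨x, hx, hx0⟩ := (Submodule.ne_bot_iff _).1 hker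
  rw [LinearMap.mem_ker] at hx
  obtain ⟨w, hw⟩ : ∃ w : AA, w = ∑ c, x c • u c := ⟨_, rfl⟩
  have hw0 : w ≠ 0 := by
    intro h0
    rw [hw] at h0
    exact hx0 (funext fun c => Fintype.linearIndependent_iff.1 hlin x h0 c)
  have hweq : ∑ a : Fin (m + 1), emb (h a) * LL κ E a w = 0 := by
    rw [hw]
    have h1 : ∀ a : Fin (m + 1), emb (h a) * LL κ E a (∑ c, x c • u c) =
        ∑ c, x c • (emb (h a) * LL κ E a (u c)) := by
      intro a
      rw [frob_LL_sum, Finset.mul_sum]
      refine Finset.sum_congr rfl fun c _ => ?_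
      rw [mul_smul_comm]
    simp_rw [h1]
    rw [Finset.sum_comm]
    refine Finset.sum_eq_zero fun c _ => ?_
    rw [← Finset.smul_sum, hu c, smul_zero]
  have hexw : ∃ ρ, coeff ρ w ≠ 0 := by
    by_contra hne
    push Not at hne
    apply hw0
    ext1 n
    rw [hne n]
    simp
  obtain ⟨ρ, hρ, hρmin⟩ : ∃ ρ, coeff ρ w ≠ 0 ∧ ∀ n < ρ, coeff n w = 0 :=
    ⟨Nat.find hexw, Nat.find_spec hexw, fun n hn => by
      by_contra hne
      exact Nat.find_min hexw hn hne⟩
  apply hρ
  have hmain : Polynomial.aeval (frobT ρ) I (coeff ρ w) = 0 := by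
    have h1 : coeff (v + ρ) (∑ a : Fin (m + 1), emb (h a) * LL κ E a w) = 0 := by
      rw [hweq, map_zero]
    rw [map_sum] at h1
    rw [hI, map_sum, LinearMap.sum_apply, ← h1]
    refine Finset.sum_congr rfl fun a _ => ?_
    obtain ⟨h2, h3⟩ := frob_lead κ E hE hρmin (a : ℕ)
    rw [frob_coeff_mul (fun i hi => by rw [coeff_emb, hmin i hi a, map_zero]) h2, h3, coeff_emb,
      map_mul, Module.End.mul_apply, Polynomial.aeval_C, Module.algebraMap_end_apply,
      Polynomial.smul_eq_C_mul]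
  refine deriv_kill I hI0 ρ _ hmain fun j hj => ?_
  have hmem : (⟨ρ, j⟩ : Σ _ : ℕ, ℕ) ∈ S := by
    rw [hS, Finset.mem_sigma]
    refine ⟨(hN ρ).2 ?_, Finset.mem_range.2 hj⟩
    rw [Multiset.mem_toFinset, Polynomial.mem_roots hI0]
    exact (Polynomial.rootMultiplicity_pos hI0).1 (lt_of_le_of_lt (Nat.zero_le _) hj)
  have h1 := congrFun hx ⟨⟨ρ, j⟩, hmem⟩
  rw [hΦ, ← hw] at h1
  exact h1

end Pool.Agent.L1
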