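import Pool.Agent.Lib.L1.Defs

/-!
# L1.FrobDefs: the ring `AA = ℚ[t]⟦q⟧` with the derivations `dA = q d/dq + d/dt`, `dt = d/dt`.
-/

set_option autoImplicit false

open PowerSeries

namespace Pool.Agent.L1

abbrev AA : Type := PowerSeries (Polynomial ℚ)

/-- coefficientwise derivative with respect to `t` -/
noncomputable def dtL : AA →ₗ[ℚ] AA where
  toFun u := mk fun n => Polynomial.derivative (coeff n u)
  map_add' u v := by ext1 n; simp
  map_smul' c u := by
    ext1 n
    have h : coeff n (c • u) = c • coeff n u := rfl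
    have h2 : coeff n (c • (mk fun n => Polynomial.derivative (coeff n u) : AA)) =
      c • Polynomial.derivative (coeff n u) := by
        rw [show coeff n (c • (mk fun n => Polynomial.derivative (coeff n u) : AA)) =
          c • coeff n (mk fun n => Polynomial.derivative (coeff n u) : AA) from rfl, coeff_mk]
    rw [RingHom.id_apply, h2, coeff_mk, h, Polynomial.derivative_smul]

noncomputable def dt : Derivation ℚ AA AA :=
  Derivation.mk' dtL (by
    intro u v
    ext1 n
    have h1 : coeff n (dtL (u * v)) = Polynomial.derivative (coeff n (u * v)) := by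
      simp [dtL]
    rw [h1, map_add, smul_eq_mul, smul_eq_mul, coeff_mul, coeff_mul, coeff_mul, Polynomial.derivative_sum]
    rw [← Finset.Nat.sum_antidiagonal_swap (n := n)
      (f := fun x => coeff x.1 v * coeff x.2 (dtL u)), ← Finset.sum_add_distrib]
    refine Finset.sum_congr rfl fun x _ => ?_
    have h2 : ∀ (w : AA) (j : ℕ), coeff j (dtL w) = Polynomial.derivative (coeff j w) := by
      intro w j; simp [dtL]
    rw [Polynomial.derivative_mul, h2, h2]
    simp only [Prod.fst_swap, Prod.snd_swap]
    ring)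

theorem coeff_dt (u : AA) (n : ℕ) : coeff n (dt u) = Polynomial.derivative (coeff n u) := by
  simp [dt, dtL]

/-- `q d/dq` -/
noncomputable def dqL : AA →ₗ[ℚ] AA where
  toFun u := mk fun n => (n : Polynomial ℚ) * coeff n u
  map_add' u v := by ext1 n; simp [mul_add]
  map_smul' c u := by
    ext1 n
    have h : coeff n (c • u) = c • coeff n u := rfl
    have h2 : coeff n (c • (mk fun n => (n : Polynomial ℚ) * coeff n u : AA)) =
      c • ((n : Polynomial ℚ) * coeff n u) := by
        rw [show coeff n (c • (mk fun n => (n : Polynomial ℚ) * coeff n u : AA)) =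
          c • coeff n (mk fun n => (n : Polynomial ℚ) * coeff n u : AA) from rfl, coeff_mk]
    rw [RingHom.id_apply, h2, coeff_mk, h, mul_smul_comm]

noncomputable def dqA : Derivation ℚ AA AA :=
  Derivation.mk' dqL (by
    intro u v
    ext1 n
    have h2 : ∀ (w : AA) (j : ℕ), coeff j (dqL w) = (j : Polynomial ℚ) * coeff j w := by
      intro w j; simp [dqL]
    rw [h2, map_add, smul_eq_mul, smul_eq_mul, coeff_mul, coeff_mul, coeff_mul, Finset.mul_sum]
    rw [← Finset.Nat.sum_antidiagonal_swap (n := n)
      (f := fun x => coeff x.1 v * coeff x.2 (dqL u)), ← Finset.sum_add_distrib]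
    refine Finset.sum_congr rfl fun x hx => ?_
    have h3 : (n : Polynomial ℚ) = (x.1 : Polynomial ℚ) + (x.2 : Polynomial ℚ) := by
      have h4 := Finset.HasAntidiagonal.mem_antidiagonal.1 hx
      rw [← h4]; push_cast; ring
    rw [h2, h2, h3]
    simp only [Prod.fst_swap, Prod.snd_swap]
    ring)

theorem coeff_dqA (u : AA) (n : ℕ) : coeff n (dqA u) = (n : Polynomial ℚ) * coeff n u := by
  simp [dqA, dqL]

/-- `δ = q d/dq + d/dt` -/
noncomputable def dA : Derivation ℚ AA AA := dqA + dt

theorem coeff_dA (u : AA) (n : ℕ) :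
    coeff n (dA u) = (n : Polynomial ℚ) * coeff n u + Polynomial.derivative (coeff n u) := by
  have h : dA u = dqA u + dt u := rfl
  rw [h, map_add, coeff_dqA, coeff_dt]

/-- the embedding of `ℚ⟦q⟧` -/
noncomputable def emb : ℚ⟦X⟧ →+* AA := PowerSeries.map Polynomial.C

theorem coeff_emb (f : ℚ⟦X⟧) (n : ℕ) : coeff n (emb f) = Polynomial.C (coeff n f) := by
  simp [emb]

/-- `t` -/
noncomputable def tt : AA := C Polynomial.X

/-- `L_0 = 1`, `L_{a+1} = (δ - κ_a E) L_a` -/
noncomputable def LL (κ : ℕ → ℚ) (E : ℚ⟦X⟧) : ℕ → AA → AA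
  | 0, u => u
  | a + 1, u => dA (LL κ E a u) - emb (C (κ a) * E) * LL κ E a u

end Pool.Agent.L1
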