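import Pool.Agent.Lib.L1.Defs

/-!
# L1.Grow: series with polynomially bounded coefficients
PROOF. `Gr C k f : ∀ n, |coeff n f| ≤ C (n+1)^k`. Sum, product (`∑_{i+j=n} ≤ (n+1) (n+1)^(k+l)`), `Dq`.
`e2`: `24 σ_1(n) ≤ 24 n^2`; `e4`, `e6` similarly; `|coeff n F| ≤ ∑_{d | n} 1 ≤ n`. `XX s i (Y0 s a b)`: finite combination of products of `e2`,
`D^l (a + b F)`, linear in `(a, b)`.
-/

set_option autoImplicit false

open PowerSeries

namespace Pool.Agent.L1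

def Gr (C : ℝ) (k : ℕ) (f : ℚ⟦X⟧) : Prop := ∀ n, |((coeff n f : ℚ) : ℝ)| ≤ C * ((n : ℝ) + 1) ^ k

theorem Gr.mul {C D : ℝ} {k l : ℕ} {f g : ℚ⟦X⟧} (hf : Gr C k f) (hg : Gr D l g) (hC : 0 ≤ C) (hD : 0 ≤ D) :
    Gr (C * D) (k + l + 1) (f * g) := by
  intro n
  rw [coeff_mul, Rat.cast_sum]
  refine (Finset.abs_sum_le_sum_abs _ _).trans ?_
  have h : ∀ x ∈ Finset.HasAntidiagonal.antidiagonal n, |(((coeff x.1 f * coeff x.2 g : ℚ)) : ℝ)| ≤
      C * D * ((n : ℝ) + 1) ^ (k + l) := by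
    intro x hx
    have hx' : x.1 + x.2 = n := Finset.HasAntidiagonal.mem_antidiagonal.mp hx
    have h1 : (x.1 : ℝ) ≤ n := by exact_mod_cast (by omega : x.1 ≤ n)
    have h2 : (x.2 : ℝ) ≤ n := by exact_mod_cast (by omega : x.2 ≤ n)
    have h3 : C * ((x.1 : ℝ) + 1) ^ k ≤ C * ((n : ℝ) + 1) ^ k := by gcongr
    have h4 : D * ((x.2 : ℝ) + 1) ^ l ≤ D * ((n : ℝ) + 1) ^ l := by gcongr
    rw [Rat.cast_mul, abs_mul]
    calc |((coeff x.1 f : ℚ) : ℝ)| * |((coeff x.2 g : ℚ) : ℝ)|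
        ≤ (C * ((n : ℝ) + 1) ^ k) * (D * ((n : ℝ) + 1) ^ l) :=
          mul_le_mul ((hf x.1).trans h3) ((hg x.2).trans h4) (abs_nonneg _) (by positivity)
      _ = C * D * ((n : ℝ) + 1) ^ (k + l) := by rw [pow_add]; ring
  refine (Finset.sum_le_card_nsmul _ _ _ h).trans (le_of_eq ?_)
  rw [Finset.Nat.card_antidiagonal, nsmul_eq_mul, pow_succ, Nat.cast_add, Nat.cast_one]
  ring

private theorem grow_mono {C D : ℝ} {k l : ℕ} {f : ℚ⟦X⟧} (h : Gr C k f) (hCD : C ≤ D) (hkl : k ≤ l)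
    (hD : 0 ≤ D) : Gr D l f := by
  intro n
  have h1 : (1 : ℝ) ≤ (n : ℝ) + 1 := by
    have : (0 : ℝ) ≤ n := Nat.cast_nonneg n
    linarith
  calc |((coeff n f : ℚ) : ℝ)| ≤ C * ((n : ℝ) + 1) ^ k := h n
    _ ≤ D * ((n : ℝ) + 1) ^ k := by gcongr
    _ ≤ D * ((n : ℝ) + 1) ^ l := by gcongr

private theorem grow_add {C D : ℝ} {k : ℕ} {f g : ℚ⟦X⟧} (hf : Gr C k f) (hg : Gr D k g) :
    Gr (C + D) k (f + g) := by
  intro n
  rw [map_add, Rat.cast_add, add_mul]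
  exact (abs_add_le _ _).trans (add_le_add (hf n) (hg n))

private theorem grow_smul {C : ℝ} {k : ℕ} {f : ℚ⟦X⟧} (hf : Gr C k f) (c : ℚ) :
    Gr (|(c : ℝ)| * C) k (c • f) := by
  intro n
  rw [coeff_smul, smul_eq_mul, Rat.cast_mul, abs_mul, mul_assoc]
  exact mul_le_mul_of_nonneg_left (hf n) (abs_nonneg _)

private theorem grow_coeff_D (f : ℚ⟦X⟧) (n l : ℕ) :
    coeff n (DqDer^[l] f) = (n : ℚ) ^ l * coeff n f := by
  induction l with
  | zero => simp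
  | succ l ih =>
    rw [Function.iterate_succ_apply', DqDer_apply, coeff_Dq, ih, pow_succ]
    ring

private theorem grow_D {C : ℝ} {k : ℕ} {f : ℚ⟦X⟧} (hf : Gr C k f) (l : ℕ) :
    Gr C (k + l) (DqDer^[l] f) := by
  intro n
  have h0 : (0 : ℝ) ≤ n := Nat.cast_nonneg n
  have h1 : (n : ℝ) ^ l ≤ ((n : ℝ) + 1) ^ l := by gcongr; linarith
  rw [grow_coeff_D, Rat.cast_mul, Rat.cast_pow, Rat.cast_natCast, abs_mul, abs_of_nonneg (by positivity)]
  calc (n : ℝ) ^ l * |((coeff n f : ℚ) : ℝ)| ≤ ((n : ℝ) + 1) ^ l * (C * ((n : ℝ) + 1) ^ k) :=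
        mul_le_mul h1 (hf n) (abs_nonneg _) (by positivity)
    _ = C * ((n : ℝ) + 1) ^ (k + l) := by rw [pow_add]; ring

private theorem grow_card_div (n : ℕ) : (n.divisors.card : ℝ) ≤ n := by
  exact_mod_cast Nat.card_divisors_le_self n

private theorem grow_sigma (k n : ℕ) :
    ((ArithmeticFunction.sigma k n : ℕ) : ℝ) ≤ ((n : ℝ) + 1) ^ (k + 1) := by
  have h0 : (0 : ℝ) ≤ n := Nat.cast_nonneg n
  rw [ArithmeticFunction.sigma_apply, Nat.cast_sum]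
  have h : ∀ d ∈ n.divisors, ((d ^ k : ℕ) : ℝ) ≤ ((n : ℝ) + 1) ^ k := by
    intro d hd
    have h1 : (d : ℝ) ≤ n := by exact_mod_cast Nat.divisor_le hd
    rw [Nat.cast_pow]
    gcongr
    linarith
  refine (Finset.sum_le_card_nsmul _ _ _ h).trans ?_
  rw [nsmul_eq_mul, pow_succ, mul_comm]
  gcongr
  have := grow_card_div n
  linarith

private theorem grow_map (f : PowerSeries ℤ) (c : ℤ) (k : ℕ)
    (hf : ∀ n, coeff n f = if n = 0 then 1 else c * ((ArithmeticFunction.sigma k n : ℕ) : ℤ)) :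
    Gr (|(c : ℝ)| + 1) (k + 1) (PowerSeries.map (Int.castRingHom ℚ) f) := by
  intro n
  have h0 : (0 : ℝ) ≤ n := Nat.cast_nonneg n
  have h1 : (1 : ℝ) ≤ ((n : ℝ) + 1) ^ (k + 1) := one_le_pow₀ (by linarith)
  rw [coeff_map, hf]
  split_ifs with h
  · rw [map_one, Rat.cast_one, abs_one]
    nlinarith [abs_nonneg (c : ℝ)]
  · rw [eq_intCast, Rat.cast_intCast, Int.cast_mul, abs_mul, Int.cast_natCast, Nat.abs_cast]
    have h2 := grow_sigma k n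
    have h3 := mul_le_mul_of_nonneg_left h2 (abs_nonneg (c : ℝ))
    nlinarith

private theorem grow_e2 : Gr (|((-24 : ℤ) : ℝ)| + 1) 2 (e2 ℚ) := grow_map _ _ 1 coeff_E2z
private theorem grow_e4 : Gr (|((240 : ℤ) : ℝ)| + 1) 4 (e4 ℚ) := grow_map _ _ 3 coeff_E4z
private theorem grow_e6 : Gr (|((-504 : ℤ) : ℝ)| + 1) 6 (e6 ℚ) := grow_map _ _ 5 coeff_E6z

private theorem grow_one : Gr 1 0 (1 : ℚ⟦X⟧) := by
  intro n
  rw [coeff_one, pow_zero, mul_one]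
  split_ifs <;> simp

/-- polynomially bounded -/
private def growP (f : ℚ⟦X⟧) : Prop := ∃ (C : ℝ) (k : ℕ), 0 ≤ C ∧ Gr C k f

/-- operators with polynomially bounded images -/
private def growT (T : ℚ⟦X⟧ → ℚ⟦X⟧) : Prop :=
  ∃ (C : ℝ) (k : ℕ), 0 ≤ C ∧ ∀ (A : ℝ) (y : ℚ⟦X⟧), 0 ≤ A → Gr A 1 y → Gr (C * A) k (T y)

private theorem growP_mul {f g : ℚ⟦X⟧} (hf : growP f) (hg : growP g) : growP (f * g) := by
  obtain ⟨C, k, hC, h1⟩ := hf
  obtain ⟨D, l, hD, h2⟩ := hg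
  exact ⟨C * D, k + l + 1, mul_nonneg hC hD, h1.mul h2 hC hD⟩

private theorem growP_pow {f : ℚ⟦X⟧} (hf : growP f) (n : ℕ) : growP (f ^ n) := by
  induction n with
  | zero => rw [pow_zero]; exact ⟨1, 0, zero_le_one, grow_one⟩
  | succ n ih => rw [pow_succ]; exact growP_mul ih hf

private theorem growT_mul {f : ℚ⟦X⟧} {T : ℚ⟦X⟧ → ℚ⟦X⟧} (hf : growP f) (hT : growT T) :
    growT (fun y => f * T y) := by
  obtain ⟨C, k, hC, h1⟩ := hf
  obtain ⟨D, l, hD, h2⟩ := hT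
  refine ⟨C * D, k + l + 1, mul_nonneg hC hD, fun A y hA hy => ?_⟩
  have h3 := h1.mul (h2 A y hA hy) hC (mul_nonneg hD hA)
  rwa [← mul_assoc] at h3

private theorem growT_smul {T : ℚ⟦X⟧ → ℚ⟦X⟧} (hT : growT T) (c : ℚ) : growT (fun y => c • T y) := by
  obtain ⟨D, l, hD, h2⟩ := hT
  refine ⟨|(c : ℝ)| * D, l, mul_nonneg (abs_nonneg _) hD, fun A y hA hy => ?_⟩
  have h3 := grow_smul (h2 A y hA hy) c
  rwa [← mul_assoc] at h3

private theorem growT_D (l : ℕ) : growT (fun y => DqDer^[l] y) := by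
  refine ⟨1, 1 + l, zero_le_one, fun A y hA hy => ?_⟩
  rw [one_mul]
  exact grow_D hy l

private theorem growT_sum {ι : Type*} (S : Finset ι) (T : ι → ℚ⟦X⟧ → ℚ⟦X⟧) (hT : ∀ i ∈ S, growT (T i)) :
    growT (fun y => ∑ i ∈ S, T i y) := by
  classical
  induction S using Finset.induction_on with
  | empty =>
    refine ⟨0, 0, le_rfl, fun A y _ _ n => ?_⟩
    simp
  | insert i S hi ih =>
    obtain ⟨C, k, hC, h1⟩ := hT i (Finset.mem_insert_self _ _)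
    obtain ⟨D, l, hD, h2⟩ := ih fun j hj => hT j (Finset.mem_insert_of_mem hj)
    refine ⟨C + D, k + l, add_nonneg hC hD, fun A y hA hy => ?_⟩
    change Gr ((C + D) * A) (k + l) (∑ i ∈ insert i S, T i y)
    rw [Finset.sum_insert hi, add_mul]
    refine grow_add (grow_mono (h1 A y hA hy) le_rfl (by omega) (mul_nonneg hC hA))
      (grow_mono (h2 A y hA hy) le_rfl (by omega) (mul_nonneg hD hA))

private theorem growT_XX (s i : ℕ) : growT (fun y => XX s i y) := by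
  unfold XX XG
  exact growT_sum _ _ fun l _ => growT_smul (growT_mul (growP_pow ⟨_, _, by positivity, grow_e2⟩ _)
    (growT_D l)) _

private theorem grow_Fs (s : ℕ) : Gr 1 1 (Fs s) := by
  intro n
  unfold Fs
  rw [coeff_mk, Rat.cast_sum, one_mul, pow_one]
  refine (Finset.abs_sum_le_sum_abs _ _).trans ?_
  have h : ∀ d ∈ n.divisors, |((((d : ℚ) ^ s)⁻¹ : ℚ) : ℝ)| ≤ 1 := by
    intro d hd
    have hd0 : 0 < d := Nat.pos_of_mem_divisors hd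
    have h1 : (1 : ℝ) ≤ (d : ℝ) ^ s := one_le_pow₀ (by exact_mod_cast hd0)
    push_cast
    rw [abs_of_nonneg (by positivity)]
    exact inv_le_one_of_one_le₀ h1
  refine (Finset.sum_le_card_nsmul _ _ _ h).trans ?_
  rw [nsmul_eq_mul, mul_one]
  have := grow_card_div n
  linarith

private theorem grow_Y0 (s : ℕ) (a b : ℤ) :
    Gr (|(a : ℝ)| + |(b : ℝ)| + 1) 1 (Y0 s (a : ℚ) (b : ℚ)) := by
  have h1 : Gr |(((a : ℤ) : ℚ) : ℝ)| 1 (C ((a : ℤ) : ℚ) : ℚ⟦X⟧) := by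
    intro n
    have h0 : (0 : ℝ) ≤ n := Nat.cast_nonneg n
    rw [coeff_C, pow_one]
    split_ifs
    · nlinarith [abs_nonneg (((a : ℤ) : ℚ) : ℝ)]
    · rw [Rat.cast_zero, abs_zero]; positivity
  have h2 := grow_smul (grow_Fs s) ((b : ℤ) : ℚ)
  rw [smul_eq_C_mul] at h2
  have h3 := grow_add h1 h2
  unfold Y0
  refine grow_mono h3 ?_ le_rfl (by positivity)
  rw [Rat.cast_intCast, Rat.cast_intCast, mul_one]
  linarith

/-- the factors `E4^u E6^v eb`, `u ≤ 2`, `v ≤ 1` -/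
theorem Gr_eb (s : ℕ) : ∃ (C : ℝ) (k : ℕ), 0 ≤ C ∧ ∀ (a b : ℤ) (β : Bl s) (u v : ℕ), u ≤ 2 → v ≤ 1 →
    Gr (C * (match β with | .inl _ => 1 | .inr _ => |(a : ℝ)| + |(b : ℝ)| + 1)) k (e4 ℚ ^ u * e6 ℚ ^ v * eb s a b β) := by
  have hE : ∀ u v : ℕ, growP (e4 ℚ ^ u * e6 ℚ ^ v) := fun u v =>
    growP_mul (growP_pow ⟨_, _, by positivity, grow_e4⟩ u) (growP_pow ⟨_, _, by positivity, grow_e6⟩ v)
  have hx : ∀ x : Bl s × Fin 3 × Fin 2, ∃ (C : ℝ) (k : ℕ), 0 ≤ C ∧ ∀ a b : ℤ,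
      Gr (C * (match x.1 with | .inl _ => 1 | .inr _ => |(a : ℝ)| + |(b : ℝ)| + 1)) k
        (e4 ℚ ^ (x.2.1 : ℕ) * e6 ℚ ^ (x.2.2 : ℕ) * eb s a b x.1) := by
    rintro ⟨β, u, v⟩
    rcases β with j | i
    · have h1 : growP (eb s 0 0 (Sum.inl j)) := by
        change growP (if j = 0 then 1 else e2 ℚ)
        split_ifs
        · exact ⟨1, 0, zero_le_one, grow_one⟩
        · exact ⟨_, _, by positivity, grow_e2⟩
      obtain ⟨C, k, hC, h2⟩ := growP_mul (hE u v) h1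
      refine ⟨C, k, hC, fun a b => ?_⟩
      change Gr (C * 1) k _
      rw [mul_one]
      exact h2
    · obtain ⟨C, k, hC, h2⟩ := growT_mul (hE u v) (growT_XX s i)
      refine ⟨C, k, hC, fun a b => ?_⟩
      change Gr (C * (|(a : ℝ)| + |(b : ℝ)| + 1)) k _
      exact h2 _ _ (by positivity) (grow_Y0 s a b)
  choose Cf kf hC hG using hx
  refine ⟨∑ x, Cf x, ∑ x, kf x, Finset.sum_nonneg fun x _ => hC x, ?_⟩
  intro a b β u v hu hv
  have hpos : (0 : ℝ) ≤ (match β with | .inl _ => 1 | .inr _ => |(a : ℝ)| + |(b : ℝ)| + 1) := by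
    rcases β with j | i
    · exact zero_le_one
    · change (0 : ℝ) ≤ |(a : ℝ)| + |(b : ℝ)| + 1
      positivity
  have h1 := hG (β, ⟨u, by omega⟩, ⟨v, by omega⟩) a b
  refine grow_mono h1 ?_ ?_ ?_
  · refine mul_le_mul_of_nonneg_right ?_ hpos
    exact Finset.single_le_sum (f := Cf) (fun x _ => hC x) (Finset.mem_univ _)
  · exact Finset.single_le_sum (f := kf) (fun x _ => Nat.zero_le _) (Finset.mem_univ _)
  · exact mul_nonneg (Finset.sum_nonneg fun x _ => hC x) hpos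

end Pool.Agent.L1
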