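import Pool.Agent.Lib.L1.Defs

/-!
# L1.LDefs: the data of the determinant used by the analytic part (interface)
`J = s + 3`, `T = J N + J^2`. `archC s = 6 J log (π J / 3) + J (6 log (3/π) + 1)`.
-/

set_option autoImplicit false

open MP_a3a416_nt.SJ (val)

namespace Pool.Agent.L1

noncomputable def archC (s : ℕ) : ℝ :=
  6 * ((s : ℝ) + 3) * Real.log (Real.pi * ((s : ℝ) + 3) / 3) +
    ((s : ℝ) + 3) * (6 * Real.log (3 / Real.pi) + 1)

/-- `12` times the bound for the pole order: `12 θ (T - p) + ∑_{j=1}^{s-θ} (12 j N + (s+1-j) j p) + 2000` -/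
def lossZ (s N p θ : ℕ) : ℤ :=
  12 * θ * ((TT s N : ℤ) - p) + ∑ j ∈ Finset.Icc 1 (s - θ), (12 * (j : ℤ) * N + ((s : ℤ) + 1 - j) * j * p) + 2000

/-- the properties of the determinant `D` for the parameter `c` -/
structure DetL (s : ℕ) (C : ℝ) (N : ℕ) (c D : ℚ) : Prop where
  ne : D ≠ 0
  arch : Real.log |(D : ℝ)| ≤ archC s * (N : ℝ) ^ 2 + C * N * Real.log N +
    (s + 1) * (N + 1) * Real.log (|(c.num : ℝ)| + 2 * s * c.den + 1)
  crude : ∀ p : ℕ, p.Prime → -((TT s N : ℤ) * (s * Nat.log p (TT s N))) ≤ padicValRat p D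
  mid : ∀ p : ℕ, p.Prime → 5 ≤ p → p ≤ TT s N → TT s N ≤ p ^ 2 → ∀ θ ≤ s,
    -(lossZ s N p θ) ≤ 12 * padicValRat p D
  midflat : ∀ p : ℕ, p.Prime → 2 * s + 4 ≤ p → p ≤ TT s N → TT s N ≤ p ^ 2 → Flat s c p → ∀ θ ≤ s,
    11 * (p : ℤ) - 12 * N - 2000 - lossZ s N p θ ≤ 12 * padicValRat p D
  big : ∀ p : ℕ, p.Prime → 5 ≤ p → TT s N ≤ p → 0 ≤ padicValRat p D
  bigflat : ∀ p : ℕ, p.Prime → 2 * s + 4 ≤ p → TT s N ≤ p → Flat s c p →
    12 * ((s : ℤ) + 2) * N - p - 2000 ≤ 12 * padicValRat p D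

end Pool.Agent.L1
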