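import Pool.Agent.Lib.L1.Defs

/-!
# L1.MLz: the graded ring with integer weights
PROOF. `MLz k = if 0 ≤ k then ML ℚ k.toNat else ⊥`. Products: if one weight is negative the element is 0.
`sd_mem`: `sd k f = C (1/12) * (12 Dq f - k e2 f)` and `serre_mem_ML`. `MLz_order`: for `f ∈ ML ℚ k`, `f ≠ 0`:
`mem_ML_iff`: `f = ∑ c j • bas j`; the smallest `j` with `c j ≠ 0` gives `coeff j f = c j`
(`coeff_bas_lt`, `coeff_bas_self`), `j < dd k ≤ k/12 + 1`.
`coord_lead`: same. `coord_val`: `echelon` with the additive subgroup `{x | val p x v}` (`val.add`, `val.neg`).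
-/

set_option autoImplicit false

open PowerSeries
open MP_a3a416_nt.SJ (val)

namespace Pool.Agent.L1

theorem MLz_nat (k : ℕ) : MLz (k : ℤ) = ML ℚ k := by
  unfold MLz
  rw [if_pos (Int.natCast_nonneg k), Int.toNat_natCast]

theorem MLz_neg {k : ℤ} (hk : k < 0) {f : ℚ⟦X⟧} (hf : f ∈ MLz k) : f = 0 := by
  unfold MLz at hf
  rw [if_neg (not_le.mpr hk)] at hf
  exact (Submodule.mem_bot ℚ).mp hf

theorem C_mul_memz {k : ℤ} {f : ℚ⟦X⟧} (c : ℚ) (hf : f ∈ MLz k) : C c * f ∈ MLz k := by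
  rw [← PowerSeries.smul_eq_C_mul]
  exact Submodule.smul_mem _ _ hf

theorem C_memz (c : ℚ) : (C c : ℚ⟦X⟧) ∈ MLz 0 := by
  have h1 : (1 : ℚ⟦X⟧) ∈ MLz 0 := by
    rw [show (0 : ℤ) = ((0 : ℕ) : ℤ) from rfl, MLz_nat]
    exact one_mem_ML
  have := C_mul_memz c h1
  rwa [mul_one] at this

theorem mul_memz {k l : ℤ} {f g : ℚ⟦X⟧} (hf : f ∈ MLz k) (hg : g ∈ MLz l) : f * g ∈ MLz (k + l) := by
  rcases lt_or_ge k 0 with hk | hk
  · rw [MLz_neg hk hf, zero_mul]; exact Submodule.zero_mem _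
  rcases lt_or_ge l 0 with hl | hl
  · rw [MLz_neg hl hg, mul_zero]; exact Submodule.zero_mem _
  obtain ⟨a, rfl⟩ := Int.eq_ofNat_of_zero_le hk
  obtain ⟨b, rfl⟩ := Int.eq_ofNat_of_zero_le hl
  rw [MLz_nat] at hf hg
  rw [← Nat.cast_add, MLz_nat]
  exact mul_mem_ML hf hg

theorem prod_memz {ι : Type*} (S : Finset ι) (k : ι → ℤ) (f : ι → ℚ⟦X⟧)
    (hf : ∀ i ∈ S, f i ∈ MLz (k i)) : ∏ i ∈ S, f i ∈ MLz (∑ i ∈ S, k i) := by
  classical
  induction S using Finset.induction_on with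
  | empty =>
    rw [Finset.prod_empty, Finset.sum_empty]
    have := C_memz 1
    rwa [map_one] at this
  | insert i S hi ih =>
    rw [Finset.prod_insert hi, Finset.sum_insert hi]
    exact mul_memz (hf i (Finset.mem_insert_self _ _))
      (ih fun j hj => hf j (Finset.mem_insert_of_mem hj))

theorem sd_memz {k : ℤ} {f : ℚ⟦X⟧} (hf : f ∈ MLz k) : sd k f ∈ MLz (k + 2) := by
  rcases lt_or_ge k 0 with hk | hk
  · rw [MLz_neg hk hf]
    have h0 : sd k (0 : ℚ⟦X⟧) = 0 := by unfold sd; rw [Dq_zero]; simp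
    rw [h0]; exact Submodule.zero_mem _
  obtain ⟨a, rfl⟩ := Int.eq_ofNat_of_zero_le hk
  rw [MLz_nat] at hf
  have h1 := serre_mem_ML hf
  have h2 : sd (a : ℤ) f = (12⁻¹ : ℚ) • (12 * Dq f - (a : ℚ⟦X⟧) * e2 ℚ * f) := by
    unfold sd
    rw [PowerSeries.smul_eq_C_mul]
    have h12 : (C (12⁻¹ : ℚ) : ℚ⟦X⟧) * 12 = 1 := by
      rw [show (12 : ℚ⟦X⟧) = C (12 : ℚ) from (map_ofNat C 12).symm, ← map_mul]
      norm_num
    have ha : (C (((a : ℤ) : ℚ) / 12) : ℚ⟦X⟧) = C (12⁻¹ : ℚ) * (a : ℚ⟦X⟧) := by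
      rw [show (a : ℚ⟦X⟧) = C (a : ℚ) from (map_natCast C a).symm, ← map_mul]
      congr 1
      push_cast
      ring
    rw [ha]
    linear_combination (-(Dq f)) * h12
  rw [h2, show ((a : ℤ) + 2 : ℤ) = ((a + 2 : ℕ) : ℤ) by push_cast; rfl, MLz_nat]
  exact Submodule.smul_mem _ _ h1

theorem sd_mul (k l : ℤ) (f g : ℚ⟦X⟧) : sd (k + l) (f * g) = sd k f * g + f * sd l g := by
  unfold sd
  have h : (C (((k + l : ℤ) : ℚ) / 12) : ℚ⟦X⟧) = C ((k : ℚ) / 12) + C ((l : ℚ) / 12) := by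
    rw [← map_add]
    congr 1
    push_cast
    ring
  rw [h, Dq_mul]
  ring

/-- the coefficients of a combination of the basis at the first nonzero coordinate -/
theorem MLz_coeff_first {k : ℕ} {c : ℕ → ℚ} {m : ℕ} (h0 : ∀ j < m, j < dd k → c j = 0) :
    (∀ n < m, coeff n (∑ j ∈ Finset.range (dd k), c j • bas ℚ k j) = 0) ∧
      (m < dd k → coeff m (∑ j ∈ Finset.range (dd k), c j • bas ℚ k j) = c m) := by
  constructor
  · intro n hn
    rw [map_sum]
    refine Finset.sum_eq_zero fun j hj => ?_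
    rw [coeff_smul]
    rcases lt_or_ge j m with h | h
    · rw [h0 j h (Finset.mem_range.mp hj), zero_smul]
    · rw [coeff_bas_lt (by omega), smul_zero]
  · intro hm
    rw [map_sum, Finset.sum_eq_single m]
    · rw [coeff_smul, coeff_bas_self, smul_eq_mul, mul_one]
    · intro j hj hjm
      rw [coeff_smul]
      rcases lt_or_ge j m with h | h
      · rw [h0 j h (Finset.mem_range.mp hj), zero_smul]
      · rw [coeff_bas_lt (by omega), smul_zero]
    · intro h; exact absurd (Finset.mem_range.mpr hm) h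

/-- valence: a non-zero form of weight `k` has order at most `k / 12` -/
theorem MLz_order {k : ℤ} {f : ℚ⟦X⟧} (hf : f ∈ MLz k) (h0 : f ≠ 0) :
    ∃ m : ℕ, 12 * (m : ℤ) ≤ k ∧ coeff m f ≠ 0 ∧ ∀ n < m, coeff n f = 0 := by
  rcases lt_or_ge k 0 with hk | hk
  · exact absurd (MLz_neg hk hf) h0
  obtain ⟨a, rfl⟩ := Int.eq_ofNat_of_zero_le hk
  rw [MLz_nat] at hf
  obtain ⟨c, hc⟩ := mem_ML_iff.mp hf
  have hex : ∃ j, j < dd a ∧ c j ≠ 0 := by
    by_contra hne
    push Not at hne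
    apply h0
    rw [hc]
    refine Finset.sum_eq_zero fun j hj => ?_
    rw [hne j (Finset.mem_range.mp hj), zero_smul]
  classical
  let m := Nat.find hex
  have hm := Nat.find_spec hex
  have hmin : ∀ j < m, j < dd a → c j = 0 := by
    intro j hj hja
    by_contra hne
    exact Nat.find_min hex hj ⟨hja, hne⟩
  have h1 := MLz_coeff_first hmin
  refine ⟨m, ?_, ?_, ?_⟩
  · have h2 := dd_le a
    have h3 : m < dd a := hm.1
    have h4 : m ≤ a / 12 := by omega
    have h5 : 12 * m ≤ a := by omega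
    exact_mod_cast h5
  · rw [hc, h1.2 hm.1]; exact hm.2
  · intro n hn
    rw [hc]; exact h1.1 n hn

theorem coeff_Dq_iter (f : ℚ⟦X⟧) (n l : ℕ) : coeff n (DqDer^[l] f) = (n : ℚ) ^ l * coeff n f := by
  induction l with
  | zero => simp
  | succ l ih =>
    rw [Function.iterate_succ_apply', DqDer_apply, coeff_Dq, ih, pow_succ]
    ring

/-- the first `dd k` coefficients determine the coordinates, with the same valuations -/
theorem coord_val {k : ℕ} {p : ℕ} (hp : p.Prime) {f : ℚ⟦X⟧} {x : ℕ → ℚ} {v : ℤ}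
    (hf : f = ∑ j ∈ Finset.range (dd k), x j • bas ℚ k j)
    (hv : ∀ n < dd k, val p (coeff n f) v) : ∀ j < dd k, val p (x j) v := by
  have : Fact p.Prime := ⟨hp⟩
  let A : AddSubgroup ℚ :=
    { carrier := {x | val p x v}
      add_mem' := fun ha hb => val.add ha hb
      zero_mem' := val.zero v
      neg_mem' := fun ha => val.neg ha }
  exact echelon A x (fun n hn => by rw [← hf]; exact hv n hn)

/-- an element of order `≥ l` has the coordinates `0` below `l`, and `x_l = coeff l f` -/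
theorem coord_lead {k : ℕ} {f : ℚ⟦X⟧} {x : ℕ → ℚ}
    (hf : f = ∑ j ∈ Finset.range (dd k), x j • bas ℚ k j) {l : ℕ}
    (h0 : ∀ n < l, coeff n f = 0) : (∀ j < l, j < dd k → x j = 0) ∧ (l < dd k → x l = coeff l f) := by
  have h1 : ∀ j < l, j < dd k → x j = 0 := by
    intro j
    induction j using Nat.strong_induction_on with
    | _ j ih =>
      intro hj hjd
      have h2 := (MLz_coeff_first (k := k) (c := x) (m := j)
        (fun i hi hid => ih i hi (by omega) hid)).2 hjd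
      rw [← hf, h0 j hj] at h2
      exact h2.symm
  refine ⟨h1, fun hl => ?_⟩
  have h2 := (MLz_coeff_first (k := k) (c := x) (m := l) h1).2 hl
  rw [← hf] at h2
  exact h2.symm

end Pool.Agent.L1
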