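import Pool.Agent.Lib.L1.NDefs
import Pool.Agent.Lib.L1.MLz

/-!
# L1.NChange: the change to the new columns has determinant 1
PROOF. For `c = (inr m, l)`, `t = τ c`, `h = bas (kb_m - t (p-1)) l ∈ MZ p (kb_m - t (p-1))`:
`colT c = ∑_{r ≤ t} f_r * XX s (m-r) y₀`, `f_r = C(t,r) h A^(t-r) (-B)^r ∈ MZ p (kb_m + 2 r)` (`EA_mem`, `EB_mem`: weights `p-1`, `p+1`),
and `kb_m + 2 r = kb_(m-r)`. By `MZ.coords` `f_r = ∑_{l'} x_{r,l'} • bas (kb_(m-r)) l'` (only the existence of rational coordinates
is needed), so `VT = VV * U` with `U (inl (inr (m-r), l')) (inl c) = x_{r,l'}` (`r ≤ t`), `U = 1` on the other columns (`inl j` blocks,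
unit columns). `f_0 = h A^t` has order `l` and leading coefficient 1 (`h = q^l + ...`, constant term of `A` is 1), so in the block `m` the
coordinates below `l` vanish and the coordinate at `l` is 1 (`coeff_bas_lt`, `coeff_bas_self`, induction; or `coord_lead` in MLz).
`U` is unitriangular for an injective rank: `(inr m, l) ↦ (m+1) * B + (B - 1 - l)` with `B > ` all `dd`, etc.; use
`det_unitri` (private in `SJ5/ColOp.lean`: copy its 8 lines). Then `sdet_mul_right`.
-/

set_option autoImplicit false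

open PowerSeries
open MP_a3a416_nt.SJ (val sdet)

namespace Pool.Agent.L1

/-- determinant of a matrix which is unitriangular with respect to an injective rank function -/
private theorem nchange_det_unitri {κ α : Type*} [Fintype κ] [DecidableEq κ] [LinearOrder α] (f : κ → α)
    (hf : Function.Injective f) (U : Matrix κ κ ℚ) (h1 : ∀ x, U x x = 1)
    (h : ∀ y x, f x < f y → U y x = 0) : U.det = 1 := by
  let _ : LinearOrder κ := LinearOrder.lift' f hf
  have h2 : U.det = ∏ i, U i i := by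
    have := Matrix.det_of_isUpperTriangular (M := U) (fun y x hxy => h y x hxy)
    convert this using 1
  rw [h2]
  exact Finset.prod_eq_one fun x _ => h1 x

/-- rank of a block -/
private def nrk (s : ℕ) : Bl s → ℕ
  | .inl j => j
  | .inr m => m + 2

private theorem nrk_inj (s : ℕ) : Function.Injective (nrk s) := by
  intro a b h
  rcases a with j | m <;> rcases b with j' | m'
  · simp only [nrk] at h
    rw [Fin.ext h]
  · simp only [nrk] at h
    have := j.2
    omega
  · simp only [nrk] at h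
    have := j'.2
    omega
  · simp only [nrk] at h
    have : m = m' := Fin.ext (by omega)
    rw [this]

/-- the series with given coordinates -/
private noncomputable def SS (s N : ℕ) (a b : ℚ) (x : Bl s → ℕ → ℚ) : ℚ⟦X⟧ :=
  ∑ β, ∑ l ∈ Finset.range (dd (kb s N β)), x β l • (bas ℚ (kb s N β) l * eb s a b β)

private theorem SS_add (s N : ℕ) (a b : ℚ) (x x' : Bl s → ℕ → ℚ) :
    SS s N a b (x + x') = SS s N a b x + SS s N a b x' := by
  unfold SS
  rw [← Finset.sum_add_distrib]
  refine Finset.sum_congr rfl fun β _ => ?_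
  rw [← Finset.sum_add_distrib]
  refine Finset.sum_congr rfl fun l _ => ?_
  rw [← add_smul]
  rfl

private theorem SS_zero (s N : ℕ) (a b : ℚ) : SS s N a b 0 = 0 := by
  unfold SS
  exact Finset.sum_eq_zero fun β _ => Finset.sum_eq_zero fun l _ => zero_smul _ _

private theorem SS_single (s N : ℕ) (a b : ℚ) (β : Bl s) (y : ℕ → ℚ) :
    SS s N a b (fun β' l => if β' = β then y l else 0) =
      (∑ l ∈ Finset.range (dd (kb s N β)), y l • bas ℚ (kb s N β) l) * eb s a b β := by
  unfold SS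
  rw [Finset.sum_eq_single β]
  · rw [Finset.sum_mul]
    refine Finset.sum_congr rfl fun l _ => ?_
    show (if β = β then y l else 0) • (bas ℚ (kb s N β) l * eb s a b β) = _
    rw [if_pos rfl, smul_mul_assoc]
  · intro β' _ h
    refine Finset.sum_eq_zero fun l _ => ?_
    show (if β' = β then y l else 0) • (bas ℚ (kb s N β') l * eb s a b β') = _
    rw [if_neg h, zero_smul]
  · intro h
    exact absurd (Finset.mem_univ _) h

private theorem cc_EA (p : ℕ) : constantCoeff (EA p) = 1 := by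
  rw [EA, map_sub, map_one, map_mul]
  have : constantCoeff (sgQ (p - 2)) = 0 := by
    rw [← coeff_zero_eq_constantCoeff_apply, sgQ, coeff_mk]
    simp
  rw [this, mul_zero, sub_zero]

private theorem nweight {p s N m t r : ℕ} (hp5 : 5 ≤ p) (hs7 : s ≤ 7) (hN : 2 ≤ N) (hm : m ≤ s)
    (htm : t ≤ m) (hrt : r ≤ t) (ht : t * (p - 1) ≤ 12 * N + s - 1 - 2 * m) :
    (12 * N + s - 1 - 2 * m - t * (p - 1)) + (t - r) * (p - 1) + r * (p + 1) =
      12 * N + s - 1 - 2 * (m - r) := by
  obtain ⟨q, rfl⟩ : ∃ q, p = q + 1 := ⟨p - 1, by omega⟩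
  obtain ⟨d, rfl⟩ : ∃ d, t = r + d := ⟨t - r, by omega⟩
  have e1 : (r + d) * (q + 1 - 1) = r * q + d * q := by rw [Nat.add_sub_cancel]; ring
  have e2 : r * (q + 1 + 1) = r * q + 2 * r := by ring
  have e3 : (r + d - r) * (q + 1 - 1) = d * q := by
    rw [Nat.add_sub_cancel, Nat.add_sub_cancel_left]
  rw [e1] at ht ⊢
  rw [e2, e3]
  omega

private theorem ncoords (p s N : ℕ) [hp : Fact p.Prime] (hp5 : 5 ≤ p) (hs7 : s ≤ 7) (hN : 2 ≤ N)
    (a b : ℚ) (c : Col s N) (t : ℕ) (ht : AdmC p s N t c) :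
    ∃ x : Bl s → ℕ → ℚ, colT p s N a b t c = SS s N a b x ∧
      (∀ β, nrk s c.1 < nrk s β → x β = 0) ∧ (∀ l < (c.2 : ℕ), x c.1 l = 0) ∧ x c.1 c.2 = 1 := by
  obtain ⟨β, l⟩ := c
  rcases β with j | m
  · refine ⟨fun β' l' => if β' = .inl j then (if l' = (l : ℕ) then 1 else 0) else 0, ?_, ?_, ?_, ?_⟩
    · rw [SS_single]
      show bas ℚ (kb s N (.inl j)) l * eb s a b (.inl j) = _
      congr 1
      rw [Finset.sum_eq_single (l : ℕ)]
      · rw [if_pos rfl, one_smul]
      · intro l' _ h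
        rw [if_neg h, zero_smul]
      · intro h
        exact absurd (Finset.mem_range.mpr l.2) h
    · intro β' h
      have hne : β' ≠ .inl j := by
        rintro rfl
        exact lt_irrefl _ h
      funext l'
      simp [hne]
    · intro l' h
      simp only [if_true]
      exact if_neg (fun hh => absurd h (by rw [hh]; exact lt_irrefl _))
    · simp
  · obtain ⟨htm, htk, hl⟩ := ht
    simp only [kb] at htk hl
    have hms : (m : ℕ) ≤ s := by have := m.2; omega
    set h0 : ℚ⟦X⟧ := bas ℚ (12 * N + s - 1 - 2 * (m : ℕ) - t * (p - 1)) l with hh0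
    have hh0m : h0 ∈ ML ℚ (12 * N + s - 1 - 2 * (m : ℕ) - t * (p - 1)) :=
      Submodule.subset_span ⟨⟨l, hl⟩, rfl⟩
    set f : ℕ → ℚ⟦X⟧ := fun r => C (t.choose r : ℚ) * (h0 * EA p ^ (t - r) * (-EB p) ^ r) with hf
    have hfm : ∀ r, r ≤ t → f r ∈ ML ℚ (kb s N (.inr ⟨(m : ℕ) - r, by have := m.2; omega⟩)) := by
      intro r hr
      have h1 := pow_mem_ML (EA_mem (p := p) hp5).mem (t - r)
      have h2 := pow_mem_ML (Submodule.neg_mem _ (EB_mem (p := p) hp5).mem) r
      have h3 := mul_mem_ML (mul_mem_ML hh0m h1) h2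
      have e := nweight (p := p) (N := N) hp5 hs7 hN hms htm hr htk
      simp only [kb]
      rw [← e, hf]
      simp only
      rw [← PowerSeries.smul_eq_C_mul]
      exact Submodule.smul_mem _ _ h3
    have hcol : colT p s N a b t ⟨.inr m, l⟩ =
        ∑ r ∈ Finset.range (t + 1), f r * XX s ((m : ℕ) - r) (Y0 s a b) := by
      show nS p s a b m t h0 = _
      unfold nS
      refine Finset.sum_congr rfl fun r _ => ?_
      rw [hf]
      ring
    have hterm : ∀ r, r ≤ t → ∃ y : ℕ → ℚ,
        f r = ∑ l' ∈ Finset.range (dd (kb s N (.inr ⟨(m : ℕ) - r, by have := m.2; omega⟩))),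
          y l' • bas ℚ (kb s N (.inr ⟨(m : ℕ) - r, by have := m.2; omega⟩)) l' ∧
        f r * XX s ((m : ℕ) - r) (Y0 s a b) =
          SS s N a b (fun β' l' => if β' = .inr ⟨(m : ℕ) - r, by have := m.2; omega⟩ then y l' else 0) := by
      intro r hr
      obtain ⟨y, hy⟩ := mem_ML_iff.mp (hfm r hr)
      refine ⟨y, hy, ?_⟩
      rw [SS_single, ← hy]
      rfl
    -- the terms `r ≥ 1`
    have hrest : ∀ n, n ≤ t → ∃ x : Bl s → ℕ → ℚ,
        ∑ r ∈ Finset.range n, f (r + 1) * XX s ((m : ℕ) - (r + 1)) (Y0 s a b) = SS s N a b x ∧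
          (∀ β, nrk s (.inr m) ≤ nrk s β → x β = 0) := by
      intro n
      induction n with
      | zero =>
        intro _
        exact ⟨0, by rw [SS_zero]; simp, fun _ _ => rfl⟩
      | succ n ih =>
        intro hn
        obtain ⟨x, hx1, hx2⟩ := ih (by omega)
        obtain ⟨y, -, hy⟩ := hterm (n + 1) hn
        refine ⟨x + (fun β' l' => if β' = .inr ⟨(m : ℕ) - (n + 1), by have := m.2; omega⟩ then y l' else 0), ?_, ?_⟩
        · rw [Finset.sum_range_succ, hx1, hy, SS_add]
        · intro β hβ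
          rw [Pi.add_apply, hx2 β hβ, zero_add]
          have hne : β ≠ .inr ⟨(m : ℕ) - (n + 1), by have := m.2; omega⟩ := by
            intro hh
            rw [hh] at hβ
            have h3 : (m : ℕ) + 2 ≤ ((m : ℕ) - (n + 1)) + 2 := hβ
            omega
          funext l'
          simp [hne]
    obtain ⟨x, hx1, hx2⟩ := hrest t le_rfl
    obtain ⟨y, hy0, hy⟩ := hterm 0 (Nat.zero_le _)
    have hm0 : (⟨(m : ℕ) - 0, by have := m.2; omega⟩ : Fin (s + 1)) = m := Fin.ext (Nat.sub_zero _)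
    rw [hm0] at hy0 hy
    have hf0 : f 0 = h0 * EA p ^ t := by
      rw [hf]
      simp
    obtain ⟨u, hu1, hu2⟩ := bas_eq (R := ℚ) (12 * N + s - 1 - 2 * (m : ℕ) - t * (p - 1)) (l : ℕ)
    have hfl : f 0 = X ^ (l : ℕ) * (u * EA p ^ t) := by
      rw [hf0, hh0, hu2]
      ring
    have hlow : ∀ n < (l : ℕ), coeff n (f 0) = 0 := by
      intro n hn
      rw [hfl, coeff_X_pow_mul', if_neg (by omega)]
    have hlead : coeff (l : ℕ) (f 0) = 1 := by
      rw [hfl, coeff_X_pow_mul', if_pos le_rfl, Nat.sub_self, coeff_zero_eq_constantCoeff_apply,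
        map_mul, map_pow, hu1, cc_EA, one_pow, mul_one]
    obtain ⟨hc1, hc2⟩ := coord_lead hy0 hlow
    refine ⟨x + (fun β' l' => if β' = .inr m then y l' else 0), ?_, ?_, ?_, ?_⟩
    · rw [hcol, Finset.sum_range_succ', hx1, hy, SS_add]
    · intro β hβ
      rw [Pi.add_apply, hx2 β hβ.le, zero_add]
      have hne : β ≠ .inr m := by
        rintro rfl
        exact lt_irrefl _ hβ
      funext l'
      simp [hne]
    · intro l' hl'
      have h1 := hx2 (.inr m) le_rfl
      show x (.inr m) l' + (if (Sum.inr m : Bl s) = .inr m then y l' else 0) = 0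
      rw [h1, if_pos rfl, hc1 l' hl' (lt_trans hl' l.2)]
      simp
    · have h1 := hx2 (.inr m) le_rfl
      show x (.inr m) l + (if (Sum.inr m : Bl s) = .inr m then y l else 0) = 1
      rw [h1, if_pos rfl, hc2 l.2, hlead]
      simp

theorem sdet_VT (p s N : ℕ) [hp : Fact p.Prime] (hp5 : 5 ≤ p) (hs7 : s ≤ 7) (hN : 2 ≤ N) (a b : ℚ)
    (τ : Col s N → ℕ) (hτ : Adm p s N τ) {c0 : ℕ} (rr : Fin c0 → Fin (TT s N))
    (e : Col s N ⊕ Fin c0 ≃ Fin (TT s N)) :
    sdet e (VT p s N a b τ rr) = sdet e (VV s N a b rr) := by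
  classical
  choose x hx1 hx2 hx3 hx4 using fun c : Col s N => ncoords p s N hp5 hs7 hN a b c (τ c) (hτ c)
  set U : Matrix (Col s N ⊕ Fin c0) (Col s N ⊕ Fin c0) ℚ :=
    Matrix.fromBlocks (Matrix.of fun z y => x y z.1 z.2) 0 0 1 with hU
  have hdet : U.det = 1 := by
    rw [hU, Matrix.det_fromBlocks_zero₂₁, Matrix.det_one, mul_one]
    refine nchange_det_unitri (α := ℕ ×ₗ ℕᵒᵈ)
      (fun z : Col s N => toLex (nrk s z.1, OrderDual.toDual (z.2 : ℕ))) ?_ _ ?_ ?_
    · rintro ⟨β, i⟩ ⟨γ, j⟩ h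
      have h' := (toLex.injective h)
      rw [Prod.mk.injEq] at h'
      obtain ⟨h1, h2⟩ := h'
      have h3 : β = γ := nrk_inj s h1
      subst h3
      have h4 : i = j := Fin.ext (OrderDual.toDual.injective h2)
      rw [h4]
    · intro y
      exact hx4 y
    · rintro y z h
      rw [Prod.Lex.toLex_lt_toLex] at h
      rcases h with h | ⟨h1, h2⟩
      · show x z y.1 y.2 = 0
        rw [hx2 z y.1 h]
        rfl
      · have h3 : z.1 = y.1 := nrk_inj s h1
        show x z y.1 y.2 = 0
        have h4 : (y.2 : ℕ) < (z.2 : ℕ) := h2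
        have h5 := hx3 z (y.2 : ℕ) h4
        have h6 : x z z.1 (y.2 : ℕ) = x z y.1 (y.2 : ℕ) :=
          congrArg (fun β => x z β (y.2 : ℕ)) h3
        rw [← h6]
        exact h5
  have hmul : VT p s N a b τ rr = VV s N a b rr * U := by
    refine Matrix.ext fun r w => ?_
    rw [Matrix.mul_apply, Fintype.sum_sum_type]
    rcases w with c | j
    · have h2 : ∑ i : Fin c0, VV s N a b rr r (Sum.inr i) * U (Sum.inr i) (Sum.inl c) = 0 := by
        refine Finset.sum_eq_zero fun i _ => ?_
        simp [hU]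
      rw [h2, add_zero]
      show coeff (r : ℕ) (colT p s N a b (τ c) c) = _
      rw [hx1 c, SS, map_sum, Fintype.sum_sigma]
      refine Finset.sum_congr rfl fun β _ => ?_
      rw [map_sum, Finset.sum_range]
      refine Finset.sum_congr rfl fun l _ => ?_
      rw [coeff_smul, hU, Matrix.fromBlocks_apply₁₁]
      show x c β l * coeff (r : ℕ) (bas ℚ (kb s N β) l * eb s a b β) =
        coeff (r : ℕ) (bas ℚ (kb s N β) l * eb s a b β) * x c β l
      ring
    · have h1 : ∑ y : Col s N, VV s N a b rr r (Sum.inl y) * U (Sum.inl y) (Sum.inr j) = 0 := by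
        refine Finset.sum_eq_zero fun i _ => ?_
        simp [hU]
      rw [h1, zero_add, Finset.sum_eq_single j]
      · simp [VV, VT, hU]
      · intro k _ hk
        rw [hU, Matrix.fromBlocks_apply₂₂, Matrix.one_apply_ne hk, mul_zero]
      · intro hh
        exact absurd (Finset.mem_univ _) hh
  rw [hmul, MP_a3a416_nt.SJ.sdet_mul_right, hdet, mul_one]

end Pool.Agent.L1
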