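import Pool.Agent.Lib.L1.Cong
import Pool.Agent.Lib.L1.Defs
import Pool.Agent.Lib.MP_a3a416_nt.SJ.SDet

/-!
# L1.NDefs: the adapted columns at a prime `p`
`nS p s a b m j h = ∑_{r ≤ j} C(j,r) h A^(j-r) (-B)^r X_{m-r}[y₀]`, `A = EA p`, `B = EB p`: this is `𝒞(Ψ)[y₀]` for
`Ψ = (A X - B)^j X^(m-j) h`. For `j = 0`: `h * XX s m y₀`.
A type function `τ : Col s N → ℕ` is admissible (`Adm`) if `τ (inl, _) = 0`, and for `c = (inr m, l)`: `τ c ≤ m`,
`τ c (p-1) ≤ kb`, `l < dd (kb - τ c (p-1))`. `colT`: the new columns; `VT`: the matrix with the new columns.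
`tmax`: the largest admissible type.
-/

set_option autoImplicit false

open PowerSeries
open MP_a3a416_nt.SJ (val sdet)

namespace Pool.Agent.L1

noncomputable def nS (p s : ℕ) (a b : ℚ) (m j : ℕ) (h : ℚ⟦X⟧) : ℚ⟦X⟧ :=
  ∑ r ∈ Finset.range (j + 1),
    C (j.choose r : ℚ) * (h * EA p ^ (j - r) * (-EB p) ^ r * XX s (m - r) (Y0 s a b))

/-- admissible type at a column -/
def AdmC (p s N : ℕ) (t : ℕ) : Col s N → Prop
  | ⟨.inl _, _⟩ => t = 0
  | ⟨.inr m, l⟩ => t ≤ (m : ℕ) ∧ t * (p - 1) ≤ kb s N (.inr m) ∧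
      (l : ℕ) < dd (kb s N (.inr m) - t * (p - 1))

def Adm (p s N : ℕ) (τ : Col s N → ℕ) : Prop := ∀ c, AdmC p s N (τ c) c

/-- the new column -/
noncomputable def colT (p s N : ℕ) (a b : ℚ) (t : ℕ) : Col s N → ℚ⟦X⟧
  | ⟨.inl j, l⟩ => colS s N a b ⟨.inl j, l⟩
  | ⟨.inr m, l⟩ => nS p s a b m t (bas ℚ (kb s N (.inr m) - t * (p - 1)) l)

/-- the matrix with the new columns -/
noncomputable def VT (p s N : ℕ) (a b : ℚ) (τ : Col s N → ℕ) {c0 : ℕ} (rr : Fin c0 → Fin (TT s N)) :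
    Matrix (Fin (TT s N)) (Col s N ⊕ Fin c0) ℚ :=
  fun r x => Sum.elim (fun c => coeff (r : ℕ) (colT p s N a b (τ c) c))
    (fun i => if r = rr i then 1 else 0) x

open Classical in
/-- the largest admissible type -/
noncomputable def tmax (p s N : ℕ) (c : Col s N) : ℕ :=
  Nat.findGreatest (fun t => AdmC p s N t c) s

theorem adm_zero (p s N : ℕ) : Adm p s N (fun _ => 0) := by
  rintro ⟨β, l⟩
  rcases β with j | m
  · rfl
  · refine ⟨Nat.zero_le _, by simp, ?_⟩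
    simpa using l.2

open Classical in
theorem adm_tmax (p s N : ℕ) : Adm p s N (tmax p s N) := by
  intro c
  have h := Nat.findGreatest_spec (P := fun t => AdmC p s N t c) (m := 0) (n := s) (Nat.zero_le _)
    (adm_zero p s N c)
  exact h

open Classical in
theorem le_tmax (p s N : ℕ) (c : Col s N) {t : ℕ} (ht : t ≤ s) (h : AdmC p s N t c) :
    t ≤ tmax p s N c := Nat.le_findGreatest ht h

theorem nS_zero (p s : ℕ) (a b : ℚ) (m : ℕ) (h : ℚ⟦X⟧) : nS p s a b m 0 h = h * XX s m (Y0 s a b) := by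
  simp [nS]

theorem VT_zero (p s N : ℕ) (a b : ℚ) {c0 : ℕ} (rr : Fin c0 → Fin (TT s N)) :
    VT p s N a b (fun _ => 0) rr = VV s N a b rr := by
  ext r x
  rcases x with c | i
  · obtain ⟨β, l⟩ := c
    rcases β with j | m
    · rfl
    · show coeff (r : ℕ) (colT p s N a b 0 ⟨.inr m, l⟩) = coeff (r : ℕ) (colS s N a b ⟨.inr m, l⟩)
      have : colT p s N a b 0 ⟨.inr m, l⟩ = colS s N a b ⟨.inr m, l⟩ := by
        simp [colT, nS_zero, colS, eb]
      rw [this]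
  · rfl

end Pool.Agent.L1
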