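import Mathlib

/-!
# L1.Nice: 1-periodic holomorphic functions on the upper half plane, bounded at i∞

`Nice f` : `f : ℍ → ℂ` is 1-periodic, holomorphic and bounded at `i∞`.  Nice functions form a ring
closed under the normalised derivative `D = (2πi)⁻¹ d/dτ`, and the `q`-expansion is an injective
ring homomorphism which sends `D` to `q d/dq`.
-/

open UpperHalfPlane hiding I
open Complex ModularForm EisensteinSeries Derivative Function Filter
open scoped Real MatrixGroups Manifold Topology

namespace Pool.Agent.L1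


/-- 1-periodic, holomorphic, bounded at `i∞`. -/
structure Nice (f : ℍ → ℂ) : Prop where
  per : Periodic (f ∘ ofComplex) ((1 : ℝ) : ℂ)
  hol : MDiff f
  bdd : IsBoundedAtImInfty f

namespace Nice

variable {f g : ℍ → ℂ}

lemma analyticAt (hf : Nice f) : AnalyticAt ℂ (cuspFunction 1 f) 0 :=
  analyticAt_cuspFunction_zero one_pos hf.per hf.hol hf.bdd

lemma hasSum (hf : Nice f) (τ : ℍ) :
    HasSum (fun m : ℕ => (qExpansion 1 f).coeff m • Function.Periodic.qParam 1 τ ^ m) (f τ) :=
  hasSum_qExpansion one_pos hf.per hf.hol hf.bdd τ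

lemma coeff_unique (hf : Nice f) {c : ℕ → ℂ}
    (h : ∀ τ : ℍ, HasSum (fun m : ℕ => c m • Function.Periodic.qParam 1 τ ^ m) (f τ)) (m : ℕ) :
    (qExpansion 1 f).coeff m = c m := by
  have h1 := (hasFPowerSeriesOnBall_cuspFunction one_pos hf.analyticAt h).hasFPowerSeriesAt
  have h2 := hf.analyticAt.hasFPowerSeriesAt
  have h3 := congr_arg (FormalMultilinearSeries.coeff · m) (h1.eq_formalMultilinearSeries h2)
  simp only [FormalMultilinearSeries.coeff_ofScalars] at h3
  rw [h3, qExpansion_coeff, div_eq_mul_inv, mul_comm]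

lemma ext (hf : Nice f) (hg : Nice g) (h : qExpansion 1 f = qExpansion 1 g) : f = g := by
  funext τ
  have h1 := hf.hasSum τ
  rw [h] at h1
  exact h1.unique (hg.hasSum τ)

lemma add (hf : Nice f) (hg : Nice g) : Nice (f + g) where
  per := by
    intro w
    have h1 := hf.per w
    have h2 := hg.per w
    simp only [comp_apply] at h1 h2
    simp only [comp_apply, Pi.add_apply, h1, h2]
  hol := hf.hol.add hg.hol
  bdd := hf.bdd.add hg.bdd

lemma mul (hf : Nice f) (hg : Nice g) : Nice (f * g) where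
  per := by
    intro w
    have h1 := hf.per w
    have h2 := hg.per w
    simp only [comp_apply] at h1 h2
    simp only [comp_apply, Pi.mul_apply, h1, h2]
  hol := hf.hol.mul hg.hol
  bdd := hf.bdd.mul hg.bdd

lemma const (c : ℂ) : Nice (fun _ => c) where
  per := by intro w; rfl
  hol := mdifferentiable_const
  bdd := by
    rw [UpperHalfPlane.isBoundedAtImInfty_iff]
    exact ⟨‖c‖, 0, fun z _ => le_rfl⟩

lemma smul (hf : Nice f) (c : ℂ) : Nice (c • f) := by
  have := (const c).mul hf
  exact this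

lemma neg (hf : Nice f) : Nice (-f) := by
  have := hf.smul (-1)
  simpa using this

lemma sub (hf : Nice f) (hg : Nice g) : Nice (f - g) := by
  rw [sub_eq_add_neg]; exact hf.add hg.neg

lemma qExpansion_add (hf : Nice f) (hg : Nice g) :
    qExpansion 1 (f + g) = qExpansion 1 f + qExpansion 1 g :=
  UpperHalfPlane.qExpansion_add hf.analyticAt hg.analyticAt

lemma qExpansion_mul (hf : Nice f) (hg : Nice g) :
    qExpansion 1 (f * g) = qExpansion 1 f * qExpansion 1 g :=
  UpperHalfPlane.qExpansion_mul hf.analyticAt hg.analyticAt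

lemma qExpansion_smul (hf : Nice f) (c : ℂ) :
    qExpansion 1 (c • f) = c • qExpansion 1 f :=
  UpperHalfPlane.qExpansion_smul hf.analyticAt c

lemma qExpansion_sub (hf : Nice f) (hg : Nice g) :
    qExpansion 1 (f - g) = qExpansion 1 f - qExpansion 1 g :=
  UpperHalfPlane.qExpansion_sub hf.analyticAt hg.analyticAt

lemma D_eq (hf : Nice f) (τ : ℍ) :
    normalizedDerivOfComplex f τ = Function.Periodic.qParam 1 τ * deriv (cuspFunction 1 f) (Function.Periodic.qParam 1 τ) := by
  have hq : ‖Function.Periodic.qParam 1 (τ : ℂ)‖ < 1 := Periodic.norm_qParam_lt_one one_pos τ.im_pos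
  have hd : DifferentiableAt ℂ (cuspFunction 1 f) (Function.Periodic.qParam 1 τ) :=
    differentiableAt_cuspFunction one_pos hf.per hf.hol hf.bdd hq
  have heq : (f ∘ ofComplex) =ᶠ[𝓝 (τ : ℂ)] fun w => cuspFunction 1 f (Function.Periodic.qParam 1 w) := by
    filter_upwards [isOpen_upperHalfPlaneSet.mem_nhds τ.im_pos] with w hw
    have := eq_cuspFunction (⟨w, hw⟩ : ℍ) one_ne_zero hf.per
    simp only [comp_apply, ofComplex_apply_of_im_pos hw]
    exact this.symm
  have hqd : HasDerivAt (fun w : ℂ => Function.Periodic.qParam 1 w) (2 * π * I * Function.Periodic.qParam 1 τ) (τ : ℂ) := by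
    have h1 : HasDerivAt (fun w : ℂ => 2 * π * I * w / ((1 : ℝ) : ℂ)) (2 * π * I) (τ : ℂ) := by
      simpa using ((hasDerivAt_id (τ : ℂ)).const_mul (2 * π * I))
    have h2 := h1.cexp
    have h3 : (fun w : ℂ => Function.Periodic.qParam 1 w) = fun w : ℂ => cexp (2 * π * I * w / ((1 : ℝ) : ℂ)) := rfl
    rw [h3, show (2 * π * I * Function.Periodic.qParam 1 (τ : ℂ) : ℂ)
      = cexp (2 * π * I * (τ : ℂ) / ((1 : ℝ) : ℂ)) * (2 * π * I) from mul_comm _ _]
    exact h2
  have hcomp := hd.hasDerivAt.comp (τ : ℂ) hqd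
  rw [normalizedDerivOfComplex, (hcomp.congr_of_eventuallyEq heq).deriv]
  have h2pi : (2 * π * I : ℂ) ≠ 0 := two_pi_I_ne_zero
  rw [show deriv (cuspFunction 1 f) (Function.Periodic.qParam 1 (τ : ℂ)) * (2 * π * I * Function.Periodic.qParam 1 (τ : ℂ))
    = (2 * π * I) * (Function.Periodic.qParam 1 (τ : ℂ) * deriv (cuspFunction 1 f) (Function.Periodic.qParam 1 (τ : ℂ))) by ring,
    ← mul_assoc, inv_mul_cancel₀ h2pi, one_mul]

lemma hasSum_D (hf : Nice f) (τ : ℍ) :
    HasSum (fun m : ℕ => ((m : ℂ) * (qExpansion 1 f).coeff m) • Function.Periodic.qParam 1 τ ^ m)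
      (normalizedDerivOfComplex f τ) := by
  have hq : ‖Function.Periodic.qParam 1 (τ : ℂ)‖ < 1 := Periodic.norm_qParam_lt_one one_pos τ.im_pos
  have hdiff := differentiableOn_cuspFunction_ball one_pos hf.per hf.hol hf.bdd
  have hdd : DifferentiableOn ℂ (deriv (cuspFunction 1 f)) (Metric.ball 0 1) :=
    hdiff.deriv Metric.isOpen_ball
  have h1 := hasSum_taylorSeries_on_ball hdd (z := Function.Periodic.qParam 1 (τ : ℂ)) (by simpa using hq)
  have h2 := h1.mul_left (Function.Periodic.qParam 1 (τ : ℂ))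
  rw [← hf.D_eq τ] at h2
  rw [← hasSum_nat_add_iff' 1]
  simp only [Finset.range_one, Finset.sum_singleton, Nat.cast_zero, zero_mul, zero_smul, sub_zero]
  have key : ∀ m : ℕ, (((m + 1 : ℕ) : ℂ) * (qExpansion 1 f).coeff (m + 1)) • Function.Periodic.qParam 1 (τ : ℂ) ^ (m + 1)
      = Function.Periodic.qParam 1 (τ : ℂ) * (((m.factorial : ℕ) : ℂ)⁻¹ • (Function.Periodic.qParam 1 (τ : ℂ) - 0) ^ m
        • iteratedDeriv m (deriv (cuspFunction 1 f)) 0) := by
    intro m
    rw [qExpansion_coeff, Nat.factorial_succ, iteratedDeriv_succ']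
    have hm : ((m : ℂ) + 1) ≠ 0 := by exact_mod_cast Nat.succ_ne_zero m
    have hf' : ((m.factorial : ℕ) : ℂ) ≠ 0 := by exact_mod_cast Nat.factorial_ne_zero m
    push_cast
    simp only [smul_eq_mul, sub_zero]
    field_simp
    ring
  simp_rw [key]
  exact h2

lemma deriv' (hf : Nice f) : Nice (normalizedDerivOfComplex f) where
  per := by
    intro w
    simp only [comp_apply]
    by_cases hw : 0 < w.im
    · have hw' : 0 < (w + ((1 : ℝ) : ℂ)).im := by simpa using hw
      rw [ofComplex_apply_of_im_pos hw', ofComplex_apply_of_im_pos hw]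
      simp only [normalizedDerivOfComplex]
      congr 1
      have : deriv (fun z => (f ∘ ofComplex) (z + ((1 : ℝ) : ℂ))) w
          = deriv (f ∘ ofComplex) (w + ((1 : ℝ) : ℂ)) := deriv_comp_add_const _ _ _
      change deriv (f ∘ ofComplex) (w + ((1 : ℝ) : ℂ)) = deriv (f ∘ ofComplex) w
      rw [← this]
      congr 1
      funext z
      exact hf.per z
    · have hw1 : w.im ≤ 0 := not_lt.mp hw
      have hw2 : (w + ((1 : ℝ) : ℂ)).im ≤ 0 := by simpa using hw1
      rw [ofComplex_apply_of_im_nonpos hw1, ofComplex_apply_of_im_nonpos hw2]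
  hol := normalizedDerivOfComplex_mdifferentiable hf.hol
  bdd := isBoundedAtImInfty_of_hasSum_qExpansion one_pos hf.hasSum_D

lemma coeff_D (hf : Nice f) (m : ℕ) :
    (qExpansion 1 (normalizedDerivOfComplex f)).coeff m = m * (qExpansion 1 f).coeff m :=
  hf.deriv'.coeff_unique hf.hasSum_D m

end Nice

/-- `D = q d/dq` on formal power series. -/
noncomputable def Dq {R : Type*} [CommSemiring R] (f : PowerSeries R) : PowerSeries R :=
  PowerSeries.mk fun n => (n : R) * PowerSeries.coeff n f

@[simp] lemma coeff_Dq {R : Type*} [CommSemiring R] (f : PowerSeries R) (n : ℕ) :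
    PowerSeries.coeff n (Dq f) = (n : R) * PowerSeries.coeff n f := by
  simp [Dq]

lemma Nice.qExpansion_D {f : ℍ → ℂ} (hf : Nice f) :
    qExpansion 1 (normalizedDerivOfComplex f) = Dq (qExpansion 1 f) := by
  ext m
  rw [hf.coeff_D, coeff_Dq]

/-- Modular forms of level one are nice. -/
lemma nice_modularForm {k : ℤ} (f : ModularForm 𝒮ℒ k) : Nice f where
  per := SlashInvariantFormClass.periodic_comp_ofComplex f one_mem_strictPeriods_SL
  hol := f.holo'
  bdd := ModularFormClass.bdd_at_infty f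

lemma nice_E2 : Nice E2 where
  per := by
    intro w
    simp only [comp_apply]
    by_cases hw : 0 < w.im
    · have hw' : 0 < (w + ((1 : ℝ) : ℂ)).im := by simpa using hw
      rw [ofComplex_apply_of_im_pos hw', ofComplex_apply_of_im_pos hw]
      rw [E2_eq_tsum_cexp, E2_eq_tsum_cexp]
      have : cexp (2 * π * I * ((⟨w + ((1 : ℝ) : ℂ), hw'⟩ : ℍ) : ℂ))
          = cexp (2 * π * I * ((⟨w, hw⟩ : ℍ) : ℂ)) := by
        change cexp (2 * π * I * (w + ((1 : ℝ) : ℂ))) = cexp (2 * π * I * w)
        rw [mul_add]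
        simp [Complex.exp_add, Complex.exp_two_pi_mul_I]
      rw [this]
    · have hw1 : w.im ≤ 0 := not_lt.mp hw
      have hw2 : (w + ((1 : ℝ) : ℂ)).im ≤ 0 := by simpa using hw1
      rw [ofComplex_apply_of_im_nonpos hw1, ofComplex_apply_of_im_nonpos hw2]
  hol := E2_mdifferentiable
  bdd := isBoundedAtImInfty_E2

lemma coeff_qExpansion_E2 (m : ℕ) :
    (qExpansion 1 E2).coeff m = if m = 0 then 1 else -24 * (ArithmeticFunction.sigma 1 m : ℂ) := by
  refine nice_E2.coeff_unique
    (c := fun m => if m = 0 then 1 else -24 * (ArithmeticFunction.sigma 1 m : ℂ)) (fun τ => ?_) m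
  simpa only [Periodic.qParam, ofReal_one, div_one] using hasSum_qExpansion_E2 (z := τ)

end Pool.Agent.L1
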