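import Pool.Agent.Lib.L1.Nice

/-!
# L1.Ram: Ramanujan's identities

Pointwise on the upper half plane, and for the formal `q`-expansions over `ℂ`.
-/

open UpperHalfPlane hiding I
open Complex ModularForm EisensteinSeries Derivative Function Filter
open scoped Real MatrixGroups Manifold Topology

namespace Pool.Agent.L1

/-- A level one modular form from a nice slash invariant function. -/
noncomputable def mkForm (k : ℤ) (f : ℍ → ℂ) (hf : Nice f)
    (hs : ∀ γ : SL(2, ℤ), f ∣[k] γ = f) : ModularForm 𝒮ℒ k where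
  toFun := f
  slash_action_eq' := fun _ ⟨γ, hγ⟩ => hγ ▸ hs γ
  holo' := hf.hol
  bdd_at_cusps' {c} hc := by
    rw [Subgroup.IsArithmetic.isCusp_iff_isCusp_SL2Z] at hc
    rw [OnePoint.isBoundedAt_iff_forall_SL2Z hc]
    intro γ _
    rw [hs γ]
    exact hf.bdd

@[simp] lemma coe_mkForm (k : ℤ) (f : ℍ → ℂ) (hf : Nice f)
    (hs : ∀ γ : SL(2, ℤ), f ∣[k] γ = f) : ⇑(mkForm k f hf hs) = f := rfl

lemma slash_form {k : ℤ} (f : ModularForm 𝒮ℒ k) (γ : SL(2, ℤ)) : (⇑f) ∣[k] γ = ⇑f :=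
  f.slash_action_eq' _ ⟨γ, rfl⟩

lemma nice_serre {f : ℍ → ℂ} (hf : Nice f) (c : ℂ) : Nice (serreDerivative c f) := by
  have : serreDerivative c f
      = normalizedDerivOfComplex f - (c * 12⁻¹) • (E2 * f) := by
    funext z
    simp [serreDerivative, mul_assoc]
  rw [this]
  exact hf.deriv'.sub ((nice_E2.mul hf).smul _)

/-- The Serre derivative of a level one modular form. -/
noncomputable def serreForm {k : ℤ} (f : ModularForm 𝒮ℒ k) : ModularForm 𝒮ℒ (k + 2) :=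
  mkForm (k + 2) (serreDerivative (k : ℂ) f) (nice_serre (nice_modularForm f) _)
    (fun _ => serreDerivative_slash_invariant f.holo' (slash_form f _))

lemma coe_serreForm {k : ℤ} (f : ModularForm 𝒮ℒ k) :
    ⇑(serreForm f) = serreDerivative (k : ℂ) f := rfl

/-- The slash action on `D E2 - E2²/12`. -/
lemma ram2_slash (γ : SL(2, ℤ)) :
    (normalizedDerivOfComplex E2 - (12⁻¹ : ℂ) • (E2 * E2)) ∣[(4 : ℤ)] γ
      = normalizedDerivOfComplex E2 - (12⁻¹ : ℂ) • (E2 * E2) := by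
  have h1 := normalizedDerivOfComplex_SL_slash (k := 2) (F := E2) E2_mdifferentiable (γ := γ)
  have hE := E2_slash_action γ
  funext z
  have hden : denom γ z ≠ 0 := denom_ne_zero γ z
  have hz2 : riemannZeta 2 = (π : ℂ) ^ 2 / 6 := riemannZeta_two
  have hpi : (π : ℂ) ≠ 0 := by exact_mod_cast Real.pi_ne_zero
  have hEz : (E2 ∣[(2 : ℤ)] γ) z = E2 z - 1 / (2 * riemannZeta 2) * D2 γ z := by
    rw [hE]; simp
  -- derivative of `D2 γ`
  have hD2nice : MDiff (D2 γ) := by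
    have : D2 γ = (2 * riemannZeta 2) • (E2 - E2 ∣[(2 : ℤ)] γ) := by
      rw [hE]
      funext w
      simp only [Pi.smul_apply, smul_eq_mul, sub_sub_cancel]
      rw [hz2]
      field_simp
    rw [this]
    exact (E2_mdifferentiable.sub (E2_mdifferentiable.slash _ _)).const_smul _
  have hD2 : normalizedDerivOfComplex (D2 γ) z = -((γ 1 0 : ℂ) ^ 2 / denom γ z ^ 2) := by
    have hd : HasDerivAt (fun w : ℂ => (2 * π * I * (γ 1 0 : ℂ)) * ((γ 1 0 : ℂ) * w + (γ 1 1 : ℂ))⁻¹)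
        ((2 * π * I * (γ 1 0 : ℂ)) * (-((γ 1 0 : ℂ)) / ((γ 1 0 : ℂ) * z + (γ 1 1 : ℂ)) ^ 2)) (z : ℂ) := by
      have h2 : HasDerivAt (fun w : ℂ => (γ 1 0 : ℂ) * w + (γ 1 1 : ℂ)) (γ 1 0 : ℂ) (z : ℂ) := by
        simpa using ((hasDerivAt_id (z : ℂ)).const_mul (γ 1 0 : ℂ)).add_const (γ 1 1 : ℂ)
      have h3 : (γ 1 0 : ℂ) * z + (γ 1 1 : ℂ) ≠ 0 := by
        rw [ModularGroup.denom_apply] at hden
        exact hden
      exact (h2.inv h3).const_mul _
    have heq : (D2 γ ∘ ofComplex) =ᶠ[𝓝 (z : ℂ)]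
        fun w : ℂ => (2 * π * I * (γ 1 0 : ℂ)) * ((γ 1 0 : ℂ) * w + (γ 1 1 : ℂ))⁻¹ := by
      filter_upwards [isOpen_upperHalfPlaneSet.mem_nhds z.im_pos] with w hw
      simp only [comp_apply, ofComplex_apply_of_im_pos hw, D2, div_eq_mul_inv]
      rfl
    rw [normalizedDerivOfComplex, (hd.congr_of_eventuallyEq heq).deriv, ModularGroup.denom_apply]
    have h2pi : (2 * π * I : ℂ) ≠ 0 := two_pi_I_ne_zero
    field_simp
  have hDE : normalizedDerivOfComplex (E2 ∣[(2 : ℤ)] γ) z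
      = normalizedDerivOfComplex E2 z
        - 1 / (2 * riemannZeta 2) * (-((γ 1 0 : ℂ) ^ 2 / denom γ z ^ 2)) := by
    rw [hE, normalizedDerivOfComplex_sub _ _ E2_mdifferentiable (hD2nice.const_smul _),
      normalizedDerivOfComplex_smul _ _ hD2nice]
    simp only [Pi.sub_apply, Pi.smul_apply, smul_eq_mul, hD2]
  have h1z := congrFun h1 z
  rw [hDE] at h1z
  simp only [Pi.sub_apply] at h1z
  rw [hEz] at h1z
  have hsq : ((E2 * E2) ∣[(4 : ℤ)] γ) z = (E2 z - 1 / (2 * riemannZeta 2) * D2 γ z) ^ 2 := by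
    have := congrFun (ModularForm.mul_slash_SL2 2 2 γ E2 E2) z
    rw [show (4 : ℤ) = 2 + 2 by norm_num, this]
    simp only [Pi.mul_apply, hEz]
    ring
  have hlhs : ((normalizedDerivOfComplex E2 - (12⁻¹ : ℂ) • (E2 * E2)) ∣[(4 : ℤ)] γ) z
      = (normalizedDerivOfComplex E2 ∣[(4 : ℤ)] γ) z
        - 12⁻¹ * ((E2 * E2) ∣[(4 : ℤ)] γ) z := by
    have h5 : normalizedDerivOfComplex E2 - (12⁻¹ : ℂ) • (E2 * E2)
        = normalizedDerivOfComplex E2 + (-(12⁻¹ : ℂ)) • (E2 * E2) := by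
      funext w
      simp only [Pi.sub_apply, Pi.add_apply, Pi.smul_apply, smul_eq_mul]
      ring
    rw [h5, SlashAction.add_slash, ModularForm.SL_smul_slash]
    simp [sub_eq_add_neg]
  rw [hlhs, hsq]
  simp only [Pi.sub_apply, Pi.smul_apply, Pi.mul_apply, smul_eq_mul]
  have h4 : (normalizedDerivOfComplex E2 ∣[(4 : ℤ)] γ) z
      = (normalizedDerivOfComplex E2 ∣[(2 + 2 : ℤ)] γ) z := by norm_num
  rw [h4]
  have hD2z : D2 γ z = (2 * π * I * (γ 1 0 : ℂ)) / denom γ z := rfl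
  rw [hD2z] at h1z ⊢
  rw [hz2] at h1z ⊢
  have hI : (I : ℂ) ^ 2 = -1 := I_sq
  set X := (normalizedDerivOfComplex E2 ∣[(2 + 2 : ℤ)] γ) z
  set Y := normalizedDerivOfComplex E2 z
  set e := E2 z
  set u : ℂ := (γ 1 0 : ℂ) / denom γ z with hu
  have e1 : (γ 1 0 : ℂ) ^ 2 / denom γ z ^ 2 = u ^ 2 := by rw [hu, div_pow]
  have e2 : (2 * π * I * (γ 1 0 : ℂ)) / denom γ z = 2 * π * I * u := by rw [hu, mul_div_assoc]
  have e3 : (1 : ℂ) / (2 * ((π : ℂ) ^ 2 / 6)) = 3 * (π : ℂ)⁻¹ ^ 2 := by field_simp; norm_num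
  have e4 : (2 * (π : ℂ) * I)⁻¹ = -I / 2 * (π : ℂ)⁻¹ := by
    rw [mul_inv, mul_inv, inv_I]; ring
  rw [e1, e2, e3, e4] at h1z
  rw [e2, e3]
  have e5 : (π : ℂ)⁻¹ * π = 1 := inv_mul_cancel₀ hpi
  generalize (π : ℂ)⁻¹ = r at *
  have e6 : r ^ 2 * π = r := by linear_combination r * e5
  push_cast at h1z
  have h1z' : Y + 3 * r ^ 2 * u ^ 2 = X + I * r * u * (e - 6 * r * I * u) := by
    have : 3 * r ^ 2 * (2 * π * I * u) = 6 * r * I * u := by linear_combination 6 * I * u * e6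
    rw [this] at h1z
    linear_combination h1z
  have : 3 * r ^ 2 * (2 * π * I * u) = 6 * r * I * u := by linear_combination 6 * I * u * e6
  rw [this]
  linear_combination (-1 : ℂ) * h1z' + (3 * r ^ 2 * u ^ 2) * hI

/-- A one dimensional space of forms is spanned by any form with constant term `1`. -/
lemma form_eq_smul {k : ℤ} (hrank : Module.rank ℂ (ModularForm 𝒮ℒ k) = 1)
    (g : ModularForm 𝒮ℒ k) (hg : (qExpansion 1 g).coeff 0 = 1) (f : ModularForm 𝒮ℒ k) :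
    (⇑f : ℍ → ℂ) = ((qExpansion 1 f).coeff 0) • (⇑g : ℍ → ℂ) := by
  have hg0 : g ≠ 0 := by
    rintro rfl
    have : qExpansion 1 (⇑(0 : ModularForm 𝒮ℒ k)) = 0 := qExpansion_zero 1
    rw [this] at hg
    simp at hg
  obtain ⟨c, hc⟩ := (finrank_eq_one_iff_of_nonzero' g hg0).mp
    (Module.rank_eq_one_iff_finrank_eq_one.mp hrank) f
  have h1 : (⇑f : ℍ → ℂ) = c • (⇑g : ℍ → ℂ) := (congrArg DFunLike.coe hc).symm
  have h2 : (qExpansion 1 f).coeff 0 = c := by
    rw [h1, (nice_modularForm g).qExpansion_smul]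
    simp [hg]
  rw [h2, h1]

/-- Function version of `form_eq_smul`. -/
lemma fun_eq_smul {k : ℤ} (hrank : Module.rank ℂ (ModularForm 𝒮ℒ k) = 1) {f g : ℍ → ℂ}
    (hg : Nice g) (hgs : ∀ γ : SL(2, ℤ), g ∣[k] γ = g) (hg0 : (qExpansion 1 g).coeff 0 = 1)
    (hf : Nice f) (hfs : ∀ γ : SL(2, ℤ), f ∣[k] γ = f) :
    f = ((qExpansion 1 f).coeff 0) • g :=
  form_eq_smul hrank (mkForm k g hg hgs) hg0 (mkForm k f hf hfs)

lemma rank_eight : Module.rank ℂ (ModularForm 𝒮ℒ 8) = 1 := by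
  have h := ModularForm.dimension_level_one 8 ⟨4, rfl⟩
  rw [if_neg (by decide)] at h
  simpa using h

lemma serre_slash_inv {k : ℤ} (f : ModularForm 𝒮ℒ k) (k' : ℤ) (hk : k' = k + 2)
    (γ : SL(2, ℤ)) : serreDerivative (k : ℂ) f ∣[k'] γ = serreDerivative (k : ℂ) f := by
  subst hk
  exact serreDerivative_slash_invariant f.holo' (slash_form f _)

lemma coeff_zero_serre {f : ℍ → ℂ} (hf : Nice f) (c : ℂ) :
    (qExpansion 1 (serreDerivative c f)).coeff 0 = -(c * 12⁻¹) * (qExpansion 1 f).coeff 0 := by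
  have h1 : serreDerivative c f
      = normalizedDerivOfComplex f - (c * 12⁻¹) • (E2 * f) := by
    funext z
    simp [serreDerivative, mul_assoc]
  rw [h1, hf.deriv'.qExpansion_sub ((nice_E2.mul hf).smul _), (nice_E2.mul hf).qExpansion_smul,
    nice_E2.qExpansion_mul hf, hf.qExpansion_D, map_sub, coeff_Dq]
  have h2 := coeff_qExpansion_E2 0
  simp only [if_true] at h2
  simp only [PowerSeries.coeff_zero_eq_constantCoeff] at h2
  simp [h2]

lemma coeff_zero_E4 : (qExpansion 1 E₄).coeff 0 = 1 := E_qExpansion_coeff_zero _ ⟨2, rfl⟩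
lemma coeff_zero_E6 : (qExpansion 1 E₆).coeff 0 = 1 := E_qExpansion_coeff_zero _ ⟨3, rfl⟩

/-- Ramanujan's identity for `E₄`. -/
theorem ram4 : normalizedDerivOfComplex E₄
    = (3⁻¹ : ℂ) • (E2 * (E₄ : ℍ → ℂ)) - (3⁻¹ : ℂ) • (E₆ : ℍ → ℂ) := by
  have h := fun_eq_smul (k := 6) levelOne_weight_six_rank_one (nice_modularForm E₆)
    (slash_form E₆) coeff_zero_E6 (nice_serre (nice_modularForm E₄) ((4 : ℤ) : ℂ))
    (serre_slash_inv E₄ 6 (by norm_num))
  rw [coeff_zero_serre (nice_modularForm E₄), coeff_zero_E4] at h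
  funext z
  have hz := congrFun h z
  simp only [serreDerivative, Pi.smul_apply, smul_eq_mul] at hz
  simp only [Pi.sub_apply, Pi.smul_apply, Pi.mul_apply, smul_eq_mul]
  push_cast at hz
  linear_combination hz

/-- Ramanujan's identity for `E₆`. -/
theorem ram6 : normalizedDerivOfComplex E₆
    = (2⁻¹ : ℂ) • (E2 * (E₆ : ℍ → ℂ)) - (2⁻¹ : ℂ) • ((E₄ : ℍ → ℂ) * (E₄ : ℍ → ℂ)) := by
  have h4 : (qExpansion 1 ((E₄ : ℍ → ℂ) * (E₄ : ℍ → ℂ))).coeff 0 = 1 := by
    rw [(nice_modularForm E₄).qExpansion_mul (nice_modularForm E₄), PowerSeries.coeff_mul]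
    have := coeff_zero_E4
    simp only [PowerSeries.coeff_zero_eq_constantCoeff] at this
    simp [this]
  have h4s : ∀ γ : SL(2, ℤ), ((E₄ : ℍ → ℂ) * (E₄ : ℍ → ℂ)) ∣[(8 : ℤ)] γ
      = ((E₄ : ℍ → ℂ) * (E₄ : ℍ → ℂ)) := by
    intro γ
    have := ModularForm.mul_slash_SL2 4 4 γ (E₄ : ℍ → ℂ) (E₄ : ℍ → ℂ)
    rw [show (8 : ℤ) = 4 + 4 by norm_num, this, slash_form]
  have h := fun_eq_smul (k := 8) rank_eight
    ((nice_modularForm E₄).mul (nice_modularForm E₄)) h4s h4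
    (nice_serre (nice_modularForm E₆) ((6 : ℤ) : ℂ)) (serre_slash_inv E₆ 8 (by norm_num))
  rw [coeff_zero_serre (nice_modularForm E₆), coeff_zero_E6] at h
  funext z
  have hz := congrFun h z
  simp only [serreDerivative, Pi.smul_apply, Pi.mul_apply, smul_eq_mul] at hz
  simp only [Pi.sub_apply, Pi.smul_apply, Pi.mul_apply, smul_eq_mul]
  push_cast at hz
  linear_combination hz

/-- Ramanujan's identity for `E2`. -/
theorem ram2 : normalizedDerivOfComplex E2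
    = (12⁻¹ : ℂ) • (E2 * E2) - (12⁻¹ : ℂ) • (E₄ : ℍ → ℂ) := by
  have hn : Nice (normalizedDerivOfComplex E2 - (12⁻¹ : ℂ) • (E2 * E2)) :=
    nice_E2.deriv'.sub ((nice_E2.mul nice_E2).smul _)
  have h := fun_eq_smul (k := 4) levelOne_weight_four_rank_one (nice_modularForm E₄)
    (slash_form E₄) coeff_zero_E4 hn ram2_slash
  have hc : (qExpansion 1 (normalizedDerivOfComplex E2 - (12⁻¹ : ℂ) • (E2 * E2))).coeff 0
      = -12⁻¹ := by
    rw [nice_E2.deriv'.qExpansion_sub ((nice_E2.mul nice_E2).smul _),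
      (nice_E2.mul nice_E2).qExpansion_smul, nice_E2.qExpansion_mul nice_E2,
      nice_E2.qExpansion_D, map_sub, coeff_Dq]
    have h2 := coeff_qExpansion_E2 0
    simp only [if_true] at h2
    simp only [PowerSeries.coeff_zero_eq_constantCoeff] at h2
    simp [h2]
  rw [hc] at h
  funext z
  have hz := congrFun h z
  simp only [Pi.sub_apply, Pi.smul_apply, Pi.mul_apply, smul_eq_mul] at hz ⊢
  linear_combination hz

end Pool.Agent.L1
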