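import Pool.Agent.Lib.L1.ColA
import Pool.Agent.Lib.L1.LDefs

/-!
# L1.RowS: sums of the potentials
PROOF. `∑_{r<T} rowP N r = 6N (T + T log (π/(3N)) + log (T-1)!)`, Stirling `log (T-1)! ≤ T log T - T + O(log T)` (upper bound `n! ≤ n^n e^(1-n) ...`, e.g.
`log n! ≤ (n+1) log (n+1) - n`), `T = JN + J^2`: `≤ 6 J N^2 log(π J/3) + C N log N`.
`∑_{j=1}^{N} (6N log(3N/(πj)) - 5N) = 6N (N log(3/π) + N log N - log N!) - 5N^2`, `log N! ≥ N log N - N`: `≤ N^2 (6 log(3/π) + 1)`. If the block has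
`j ≤ M = N - 1` only, the missing term `j = N` is `6N log(3/π) - 5N ≥ -6N`. `J` blocks. (`colP N j` for `j > N` does not occur: `dd kb ≤ N+1`.)
-/

set_option autoImplicit false

open PowerSeries Real

namespace Pool.Agent.L1

private theorem RowS_fac_le (n : ℕ) :
    Real.log (n.factorial : ℝ) ≤ ((n : ℝ) + 1) * Real.log ((n : ℝ) + 1) - n := by
  induction n with
  | zero => simp
  | succ n ih =>
    have h0 : (0 : ℝ) ≤ (n : ℝ) := Nat.cast_nonneg n
    have hf : (0 : ℝ) < (n.factorial : ℝ) := by exact_mod_cast n.factorial_pos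
    rw [Nat.factorial_succ, Nat.cast_mul, Real.log_mul (by positivity) hf.ne']
    push_cast
    have h1 : 1 - (((n : ℝ) + 1 + 1) / ((n : ℝ) + 1))⁻¹ ≤ Real.log (((n : ℝ) + 1 + 1) / ((n : ℝ) + 1)) :=
      Real.one_sub_inv_le_log_of_pos (by positivity)
    rw [Real.log_div (by positivity) (by positivity)] at h1
    have h2 : 1 - (((n : ℝ) + 1 + 1) / ((n : ℝ) + 1))⁻¹ = 1 / ((n : ℝ) + 1 + 1) := by
      field_simp
      ring
    rw [h2] at h1
    have h3 : 1 ≤ ((n : ℝ) + 1 + 1) * (Real.log ((n : ℝ) + 1 + 1) - Real.log ((n : ℝ) + 1)) := by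
      have h4 := mul_le_mul_of_nonneg_left h1 (by positivity : (0 : ℝ) ≤ (n : ℝ) + 1 + 1)
      have h5 : ((n : ℝ) + 1 + 1) * (1 / ((n : ℝ) + 1 + 1)) = 1 := by field_simp
      rw [h5] at h4
      exact h4
    linarith

private theorem RowS_le_fac (n : ℕ) :
    (n : ℝ) * Real.log n - n ≤ Real.log (n.factorial : ℝ) := by
  rcases Nat.eq_zero_or_pos n with rfl | hn
  · simp
  have hf : (0 : ℝ) < (n.factorial : ℝ) := by exact_mod_cast n.factorial_pos
  have hn0 : (0 : ℝ) < n := by exact_mod_cast hn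
  have h := Real.pow_div_factorial_le_exp (n : ℝ) hn0.le n
  have h2 := Real.log_le_log (by positivity) h
  rw [Real.log_exp, Real.log_div (by positivity) hf.ne', Real.log_pow] at h2
  linarith

private theorem RowS_row (N : ℕ) (hN : 2 ≤ N) (T : ℕ) :
    ∑ r ∈ Finset.range (T + 1), rowP N r =
      6 * N * (((T : ℝ) + 1) * (1 + Real.log (π / (3 * N))) + Real.log (T.factorial : ℝ)) := by
  have hN0 : (0 : ℝ) < N := by
    have : 0 < N := by omega
    exact_mod_cast this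
  have hpi := Real.pi_pos
  induction T with
  | zero =>
    simp [rowP]
  | succ T ih =>
    rw [Finset.sum_range_succ, ih, Nat.factorial_succ, Nat.cast_mul]
    have hf : (0 : ℝ) < (T.factorial : ℝ) := by exact_mod_cast T.factorial_pos
    have hT : (0 : ℝ) < ((T + 1 : ℕ) : ℝ) := by positivity
    rw [Real.log_mul hT.ne' hf.ne']
    unfold rowP
    rw [Nat.max_eq_left (by omega : 1 ≤ T + 1)]
    have h1 : π * ((T + 1 : ℕ) : ℝ) / (3 * N) = π / (3 * N) * ((T + 1 : ℕ) : ℝ) := by ring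
    rw [h1, Real.log_mul (by positivity) hT.ne']
    push_cast
    ring

theorem sum_rowP (s : ℕ) (hs7 : s ≤ 7) : ∃ C : ℝ, ∀ N : ℕ, 2 ≤ N →
    ∑ r : Fin (TT s N), rowP N r ≤ 6 * ((s : ℝ) + 3) * Real.log (π * ((s : ℝ) + 3) / 3) * (N : ℝ) ^ 2 +
      C * N * Real.log N := by
  obtain ⟨J, hJ⟩ : ∃ J : ℝ, J = (s : ℝ) + 3 := ⟨_, rfl⟩
  obtain ⟨L, hL⟩ : ∃ L : ℝ, L = Real.log (π * J / 3) := ⟨_, rfl⟩
  have hpi := Real.pi_gt_three
  have hJ3 : 3 ≤ J := by
    rw [hJ]
    have : (0 : ℝ) ≤ s := Nat.cast_nonneg s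
    linarith
  have hL0 : 0 ≤ L := by
    rw [hL]
    apply Real.log_nonneg
    rw [le_div_iff₀ (by norm_num)]
    nlinarith
  refine ⟨12 * (J ^ 2 * L + J ^ 2 + J ^ 3 + 1), fun N hN => ?_⟩
  have hN2 : (2 : ℝ) ≤ N := by exact_mod_cast hN
  have hlog : 1 / 2 ≤ Real.log N := by
    have h1 : Real.log 2 ≤ Real.log N := Real.log_le_log (by norm_num) hN2
    have h2 := Real.log_two_gt_d9
    linarith
  have hT1 : ∃ T' : ℕ, TT s N = T' + 1 := ⟨TT s N - 1, by
    have : 0 < (s + 3) ^ 2 := by positivity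
    show (s + 3) * N + (s + 3) ^ 2 = (s + 3) * N + (s + 3) ^ 2 - 1 + 1
    omega⟩
  obtain ⟨T', hT'⟩ := hT1
  have hTr : ((T' : ℝ) + 1) = J * N + J ^ 2 := by
    have : ((TT s N : ℕ) : ℝ) = J * N + J ^ 2 := by
      rw [hJ]
      push_cast [TT]
      ring
    rw [← this, hT']
    push_cast
    ring
  rw [Fin.sum_univ_eq_sum_range (fun r => rowP N r) (TT s N), hT', RowS_row N hN T', ← hJ, ← hL]
  have h1 := RowS_fac_le T'
  rw [hTr] at h1 ⊢
  have h2 : Real.log (π / (3 * N)) + Real.log (J * N + J ^ 2) ≤ L + J / N := by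
    rw [← Real.log_mul (by positivity) (by positivity)]
    have e : π / (3 * N) * (J * N + J ^ 2) = (π * J / 3) * (1 + J / N) := by
      field_simp
    rw [e, Real.log_mul (by positivity) (by positivity), ← hL]
    have := Real.log_le_sub_one_of_pos (by positivity : 0 < 1 + J / N)
    linarith
  have hT0 : 0 < J * N + J ^ 2 := by positivity
  have hT'0 : (T' : ℝ) = J * N + J ^ 2 - 1 := by linarith
  have h3 : (J * N + J ^ 2) * (1 + Real.log (π / (3 * N))) + Real.log (T'.factorial : ℝ) ≤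
      (J * N + J ^ 2) * (L + J / N) + 1 := by
    have h4 := mul_le_mul_of_nonneg_left h2 hT0.le
    rw [hT'0] at h1
    nlinarith
  have h5 : (J * N + J ^ 2) * (L + J / N) + 1 ≤ J * N * L + (J ^ 2 * L + J ^ 2 + J ^ 3 + 1) := by
    have e : (J * N + J ^ 2) * (L + J / N) = J * N * L + J ^ 2 * L + J ^ 2 + J ^ 3 / N := by
      field_simp
      ring
    rw [e]
    have : J ^ 3 / N ≤ J ^ 3 := div_le_self (by positivity) (by linarith)
    linarith
  have h6 : 6 * N * ((J * N + J ^ 2) * (1 + Real.log (π / (3 * N))) + Real.log (T'.factorial : ℝ)) ≤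
      6 * N * (J * N * L + (J ^ 2 * L + J ^ 2 + J ^ 3 + 1)) :=
    mul_le_mul_of_nonneg_left (h3.trans h5) (by positivity)
  refine h6.trans ?_
  have h7 : 0 ≤ J ^ 2 * L + J ^ 2 + J ^ 3 + 1 := by positivity
  have h8 : (J ^ 2 * L + J ^ 2 + J ^ 3 + 1) * N ≤
      2 * ((J ^ 2 * L + J ^ 2 + J ^ 3 + 1) * N * Real.log N) := by
    have : (J ^ 2 * L + J ^ 2 + J ^ 3 + 1) * N * (1 / 2) ≤
        (J ^ 2 * L + J ^ 2 + J ^ 3 + 1) * N * Real.log N :=
      mul_le_mul_of_nonneg_left hlog (by positivity)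
    linarith
  nlinarith

private theorem RowS_col (N : ℕ) (hN : 2 ≤ N) (M : ℕ) :
    ∑ j ∈ Finset.range (M + 1), colP N j =
      6 * N * (M * Real.log (3 * N / π) - Real.log (M.factorial : ℝ)) - 5 * N * M := by
  have hN0 : (0 : ℝ) < N := by
    have : 0 < N := by omega
    exact_mod_cast this
  have hpi := Real.pi_pos
  induction M with
  | zero => simp [colP]
  | succ M ih =>
    rw [Finset.sum_range_succ, ih, Nat.factorial_succ, Nat.cast_mul]
    have hf : (0 : ℝ) < (M.factorial : ℝ) := by exact_mod_cast M.factorial_pos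
    have hM : (0 : ℝ) < ((M + 1 : ℕ) : ℝ) := by positivity
    rw [Real.log_mul hM.ne' hf.ne']
    unfold colP
    rw [if_neg (by omega : ¬ M + 1 = 0)]
    have h1 : 3 * (N : ℝ) / (π * ((M + 1 : ℕ) : ℝ)) = 3 * N / π / ((M + 1 : ℕ) : ℝ) := by
      rw [div_div]
    rw [h1, Real.log_div (by positivity) hM.ne']
    push_cast
    ring

private theorem RowS_dd (s N : ℕ) (hs : Odd s) (hs7 : s ≤ 7) (hN : 2 ≤ N) (β : Bl s) :
    dd (kb s N β) = N ∨ dd (kb s N β) = N + 1 := by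
  obtain ⟨t, ht⟩ := hs
  rcases β with j | i
  · simp only [kb]
    split
    · unfold dd bb
      right
      have h1 : Even (12 * N) := ⟨6 * N, by ring⟩
      rw [if_pos ⟨h1, by split <;> omega⟩]
      split <;> omega
    · unfold dd bb
      left
      have h1 : Even (12 * N - 2) := ⟨6 * N - 1, by omega⟩
      rw [if_pos ⟨h1, by split <;> omega⟩]
      split <;> omega
  · simp only [kb]
    have hi := i.2
    have h1 : Even (12 * N + s - 1 - 2 * (i : ℕ)) := ⟨6 * N + t - i, by omega⟩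
    unfold dd bb
    rw [if_pos ⟨h1, by split <;> omega⟩]
    split <;> omega

private theorem RowS_block (N n : ℕ) (hN : 2 ≤ N) (hn : n = N ∨ n = N + 1) :
    ∑ j : Fin n, colP N j ≤ (6 * Real.log (3 / π) + 1) * (N : ℝ) ^ 2 + 6 * N := by
  have hN2 : (2 : ℝ) ≤ N := by exact_mod_cast hN
  have hpi := Real.pi_pos
  have h315 := Real.pi_lt_d2
  have e1 : Real.log (3 * N / π) = Real.log (3 / π) + Real.log N := by
    rw [← Real.log_mul (by positivity) (by positivity)]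
    congr 1
    ring
  have hlow : -(1 / 20) ≤ Real.log (3 / π) := by
    have h := Real.one_sub_inv_le_log_of_pos (by positivity : 0 < 3 / π)
    have e : (3 / π)⁻¹ = π / 3 := by rw [inv_div]
    rw [e] at h
    linarith
  have h1 := RowS_le_fac N
  rw [Fin.sum_univ_eq_sum_range (fun j => colP N j) n]
  rcases hn with rfl | rfl
  · obtain ⟨M, rfl⟩ : ∃ M, n = M + 1 := ⟨n - 1, by omega⟩
    rw [RowS_col _ hN M, e1]
    have hM : (0 : ℝ) < ((M + 1 : ℕ) : ℝ) := by positivity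
    have hf : (0 : ℝ) < (M.factorial : ℝ) := by exact_mod_cast M.factorial_pos
    rw [Nat.factorial_succ, Nat.cast_mul, Real.log_mul hM.ne' hf.ne'] at h1
    obtain ⟨x, hx⟩ : ∃ x : ℝ, x = ((M + 1 : ℕ) : ℝ) := ⟨_, rfl⟩
    have hMx : (M : ℝ) = x - 1 := by rw [hx]; push_cast; ring
    rw [← hx] at h1 hN2 ⊢
    rw [hMx]
    have h2 : (x - 1) * (Real.log (3 / π) + Real.log x) - Real.log (M.factorial : ℝ) ≤
        (x - 1) * Real.log (3 / π) + x := by nlinarith
    have h3 := mul_le_mul_of_nonneg_left h2 (by positivity : (0 : ℝ) ≤ 6 * x)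
    have h4 : 0 ≤ (Real.log (3 / π) + 1 / 20) * x := mul_nonneg (by linarith) (by linarith)
    nlinarith
  · rw [RowS_col _ hN N, e1]
    obtain ⟨x, hx⟩ : ∃ x : ℝ, x = (N : ℝ) := ⟨_, rfl⟩
    rw [← hx] at h1 hN2 ⊢
    have h2 : x * (Real.log (3 / π) + Real.log x) - Real.log (N.factorial : ℝ) ≤
        x * Real.log (3 / π) + x := by nlinarith
    have h3 := mul_le_mul_of_nonneg_left h2 (by positivity : (0 : ℝ) ≤ 6 * x)
    nlinarith

theorem sum_colP (s : ℕ) (hs : Odd s) (hs7 : s ≤ 7) : ∃ C : ℝ, ∀ N : ℕ, 2 ≤ N →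
    ∑ c : Col s N, colP N c.2 ≤ ((s : ℝ) + 3) * (6 * Real.log (3 / π) + 1) * (N : ℝ) ^ 2 +
      C * N * Real.log N := by
  refine ⟨12 * ((s : ℝ) + 3), fun N hN => ?_⟩
  have hN2 : (2 : ℝ) ≤ N := by exact_mod_cast hN
  have hlog : 1 / 2 ≤ Real.log N := by
    have h1 : Real.log 2 ≤ Real.log N := Real.log_le_log (by norm_num) hN2
    have h2 := Real.log_two_gt_d9
    linarith
  have h1 : ∑ c : Col s N, colP N c.2 = ∑ β : Bl s, ∑ j : Fin (dd (kb s N β)), colP N j := by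
    rw [Fintype.sum_sigma]
  have h2 : ∑ β : Bl s, ∑ j : Fin (dd (kb s N β)), colP N j ≤
      ∑ _β : Bl s, ((6 * Real.log (3 / π) + 1) * (N : ℝ) ^ 2 + 6 * N) :=
    Finset.sum_le_sum fun β _ => RowS_block N _ hN (RowS_dd s N hs hs7 hN β)
  rw [h1]
  refine h2.trans ?_
  rw [Finset.sum_const, Finset.card_univ, nsmul_eq_mul]
  have h3 : ((Fintype.card (Bl s) : ℕ) : ℝ) = (s : ℝ) + 3 := by
    simp only [Bl, Fintype.card_sum, Fintype.card_fin]
    push_cast
    ring
  rw [h3]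
  have h4 : (N : ℝ) ≤ 2 * (N * Real.log N) := by nlinarith
  have h5 : (0 : ℝ) ≤ (s : ℝ) + 3 := by positivity
  nlinarith [mul_le_mul_of_nonneg_left h4 h5]

end Pool.Agent.L1
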