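import Pool.Agent.Lib.L1.Frob
import Pool.Agent.Lib.L1.MLz

/-!
# L1.Shid: zero estimate for a linear system with modular coefficients (Shidlovsky's determinant)
PROOF. `J = card ι`, `u c = ∑ b, emb (v b) * E c b`. Define `M : ℕ → ι → ℚ⟦X⟧`, `M 0 = v`,
`M (a+1) b = sd (k + 2a - wt b) (M a b) + ∑ b', M a b' * A b' b`. By induction `M a b ∈ MLz (k + 2a - wt b)`
(`sd_memz`, `mul_memz`) and, with `κ_a = (k+2a)/12`, `LL κ (e2 ℚ) a (u c) = ∑ b, emb (M a b) * E c b`
(Leibniz; `dA (emb f) = emb (Dq f)`; hypothesis `hE`).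
Let `D` be the determinant of the `J × J` matrix `(M a b)_{a < J, b}`. Leibniz formula:
`D ∈ MLz (J k + J (J-1) - ∑ wt b)` (`prod_memz`, sum of `2a` over `a < J`).
`D ≠ 0`: otherwise there is a vector `h ≠ 0` over the domain `ℚ⟦X⟧` with `h ᵥ* M = 0`
(`Matrix.exists_vecMul_eq_zero_iff`), so `∑_a emb (h a) * LL_a (u c) = 0` for the `J` elements `u c`, which
are independent: contradiction to `frob` with `m = J - 1` (index `ι ≃ Fin J`; `coeff 0 (e2 ℚ) = 1`).
Let `G = ∑ v b * e b`, `G_a = ∑ M a b * e b`; as `emb` is injective, `G_0 = G`,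
`G_{a+1} = sd (k+2a) G_a`, so if the coefficients of `G` below `n` vanish, so do those of all `G_a`.
`D = D * e b0 = (adjugate M * (M e))_{b0} = ∑_a (adjugate M)_{b0 a} G_a`. By `MLz_order` there is `m` with
`12 m ≤ weight` and `coeff m D ≠ 0`; if the coefficients of `G` up to `m` were 0, so would be `coeff m D`.
-/

set_option autoImplicit false

open PowerSeries

namespace Pool.Agent.L1

private theorem shid_dA_emb (f : ℚ⟦X⟧) : dA (emb f) = emb (Dq f) := by
  ext1 n
  rw [coeff_dA, coeff_emb, coeff_emb, coeff_Dq, Polynomial.derivative_C, add_zero, map_mul]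
  congr 1

private theorem shid_emb_inj : Function.Injective emb :=
  PowerSeries.map_injective _ (Polynomial.C_injective)

/-- the rows -/
private noncomputable def shidM {ι : Type} [Fintype ι] (wt : ι → ℤ) (A : ι → ι → ℚ⟦X⟧) (k : ℤ)
    (v : ι → ℚ⟦X⟧) : ℕ → ι → ℚ⟦X⟧
  | 0 => v
  | a + 1 => fun b => sd (k + 2 * a - wt b) (shidM wt A k v a b) + ∑ b', shidM wt A k v a b' * A b' b

private theorem shidM_mem {ι : Type} [Fintype ι] (wt : ι → ℤ) (A : ι → ι → ℚ⟦X⟧)
    (hA : ∀ b b', A b b' ∈ MLz (wt b + 2 - wt b')) (k : ℤ) (v : ι → ℚ⟦X⟧)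
    (hv : ∀ b, v b ∈ MLz (k - wt b)) (a : ℕ) :
    ∀ b, shidM wt A k v a b ∈ MLz (k + 2 * a - wt b) := by
  induction a with
  | zero =>
    intro b
    have h := hv b
    simpa [shidM] using h
  | succ a ih =>
    intro b
    simp only [shidM]
    refine Submodule.add_mem _ ?_ (Submodule.sum_mem _ fun b' _ => ?_)
    · have h := sd_memz (ih b)
      have e : k + 2 * ((a + 1 : ℕ) : ℤ) - wt b = k + 2 * a - wt b + 2 := by push_cast; ring
      rw [e]
      exact h
    · have h := mul_memz (ih b') (hA b' b)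
      have e : k + 2 * ((a + 1 : ℕ) : ℤ) - wt b = k + 2 * a - wt b' + (wt b' + 2 - wt b) := by
        push_cast; ring
      rw [e]
      exact h

private noncomputable def shidK (k : ℤ) (a : ℕ) : ℚ := ((k : ℚ) + 2 * a) / 12

private theorem shidM_LL {ι : Type} [Fintype ι] (wt : ι → ℤ) (A : ι → ι → ℚ⟦X⟧)
    (E : ι → AA)
    (hE : ∀ b, dA (E b) - emb (C ((wt b : ℚ) / 12) * e2 ℚ) * E b = ∑ b', emb (A b b') * E b')
    (k : ℤ) (v : ι → ℚ⟦X⟧) (a : ℕ) :
    LL (shidK k) (e2 ℚ) a (∑ b, emb (v b) * E b) = ∑ b, emb (shidM wt A k v a b) * E b := by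
  induction a with
  | zero => rfl
  | succ a ih =>
    simp only [LL]
    rw [ih, map_sum, Finset.mul_sum, ← Finset.sum_sub_distrib]
    have h1 : ∀ b, dA (emb (shidM wt A k v a b) * E b) -
        emb (C (shidK k a) * e2 ℚ) * (emb (shidM wt A k v a b) * E b) =
        emb (sd (k + 2 * a - wt b) (shidM wt A k v a b)) * E b +
          ∑ b', emb (shidM wt A k v a b * A b b') * E b' := by
      intro b
      have h2 : dA (E b) = emb (C ((wt b : ℚ) / 12) * e2 ℚ) * E b + ∑ b', emb (A b b') * E b' := by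
        rw [← hE b]; ring
      have h3 : ∑ b', emb (shidM wt A k v a b * A b b') * E b' =
          emb (shidM wt A k v a b) * ∑ b', emb (A b b') * E b' := by
        rw [Finset.mul_sum]
        refine Finset.sum_congr rfl fun b' _ => ?_
        rw [map_mul, mul_assoc]
      have h4 : (C (((k + 2 * a - wt b : ℤ) : ℚ) / 12) : ℚ⟦X⟧) =
          C (shidK k a) - C ((wt b : ℚ) / 12) := by
        rw [← map_sub]
        congr 1
        unfold shidK
        push_cast
        ring
      rw [Derivation.leibniz, smul_eq_mul, smul_eq_mul, shid_dA_emb, h2, h3]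
      unfold sd
      rw [h4, map_sub emb, map_mul emb, map_mul emb, map_mul emb, map_mul emb, map_sub emb]
      ring
    simp_rw [h1]
    rw [Finset.sum_add_distrib, Finset.sum_comm, ← Finset.sum_add_distrib]
    refine Finset.sum_congr rfl fun b _ => ?_
    simp only [shidM]
    rw [map_add, map_sum, add_mul, Finset.sum_mul]

theorem shid {ι : Type} [Fintype ι] [DecidableEq ι] (wt : ι → ℤ) (A : ι → ι → ℚ⟦X⟧)
    (hA : ∀ b b', A b b' ∈ MLz (wt b + 2 - wt b')) (E : ι → ι → AA)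
    (hE : ∀ c b, dA (E c b) - emb (C ((wt b : ℚ) / 12) * e2 ℚ) * E c b = ∑ b', emb (A b b') * E c b')
    (k : ℤ) (v : ι → ℚ⟦X⟧) (hv : ∀ b, v b ∈ MLz (k - wt b))
    (hlin : LinearIndependent ℚ (fun c => ∑ b, emb (v b) * E c b))
    (c0 b0 : ι) (e : ι → ℚ⟦X⟧) (he : ∀ b, E c0 b = emb (e b)) (he1 : e b0 = 1) :
    ∃ m : ℕ, 12 * (m : ℤ) ≤ Fintype.card ι * k + Fintype.card ι * (Fintype.card ι - 1) - ∑ b, wt b ∧
      coeff m (∑ b, v b * e b) ≠ 0 := by
  obtain ⟨M, hM⟩ : ∃ M : ℕ → ι → ℚ⟦X⟧, M = shidM wt A k v := ⟨_, rfl⟩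
  obtain ⟨m, hm⟩ : ∃ m, Fintype.card ι = m + 1 :=
    ⟨Fintype.card ι - 1, by have := Fintype.card_pos_iff.2 ⟨c0⟩; omega⟩
  let σ : ι ≃ Fin (m + 1) := Fintype.equivFinOfCardEq hm
  have hMmem : ∀ (a : ℕ) b, M a b ∈ MLz (k + 2 * a - wt b) := by
    rw [hM]; exact shidM_mem wt A hA k v hv
  have hMLL : ∀ a c, LL (shidK k) (e2 ℚ) a (∑ b, emb (v b) * E c b) = ∑ b, emb (M a b) * E c b := by
    intro a c
    rw [hM]
    exact shidM_LL wt A (E c) (hE c) k v a
  obtain ⟨Mat, hMat⟩ : ∃ Mat : Matrix ι ι ℚ⟦X⟧, Mat = Matrix.of fun i b => M (σ i) b := ⟨_, rfl⟩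
  have hMat' : ∀ i b, Mat i b = M (σ i) b := by intro i b; rw [hMat]; rfl
  -- weight of the determinant
  have hwt : Mat.det ∈ MLz (Fintype.card ι * k + Fintype.card ι * (Fintype.card ι - 1) - ∑ b, wt b) := by
    rw [Matrix.det_apply]
    refine Submodule.sum_mem _ fun τ _ => ?_
    have h1 : ∏ i, Mat (τ i) i ∈ MLz (∑ i, (k + 2 * ((σ (τ i) : ℕ) : ℤ) - wt i)) := by
      refine prod_memz _ _ _ fun i _ => ?_
      rw [hMat']
      exact hMmem _ _
    have h2 : ∑ i, (k + 2 * ((σ (τ i) : ℕ) : ℤ) - wt i) =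
        Fintype.card ι * k + Fintype.card ι * (Fintype.card ι - 1) - ∑ b, wt b := by
      rw [Finset.sum_sub_distrib, Finset.sum_add_distrib, ← Finset.mul_sum, Finset.sum_const,
        Finset.card_univ, nsmul_eq_mul]
      have h3 : ∑ i, ((σ (τ i) : ℕ) : ℤ) = ∑ a : Fin (m + 1), ((a : ℕ) : ℤ) :=
        Equiv.sum_comp (τ.trans σ) (fun a : Fin (m + 1) => ((a : ℕ) : ℤ))
      have h4 : 2 * ∑ a : Fin (m + 1), ((a : ℕ) : ℤ) = (m + 1) * m := by
        rw [Fin.sum_univ_eq_sum_range (fun a => (a : ℤ)) (m + 1)]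
        have h5 := Finset.sum_range_id_mul_two (m + 1)
        have h6 : ((∑ i ∈ Finset.range (m + 1), i : ℕ) : ℤ) * 2 = ((m + 1) * (m + 1 - 1) : ℕ) := by
          exact_mod_cast h5
        push_cast at h6
        rw [mul_comm, h6]
      rw [h3, h4, hm]
      push_cast
      ring
    rw [h2] at h1
    rcases Int.units_eq_one_or (Equiv.Perm.sign τ) with h | h
    · rw [h, one_smul]; exact h1
    · rw [h, Units.neg_smul, one_smul]; exact Submodule.neg_mem _ h1
  -- the determinant is not zero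
  have hdet : Mat.det ≠ 0 := by
    intro h0
    obtain ⟨h, hh0, hh⟩ := Matrix.exists_vecMul_eq_zero_iff.2 h0
    refine frob m (fun a => h (σ.symm a)) ?_ (shidK k) (e2 ℚ) ?_
      (fun c => ∑ b, emb (v b) * E (σ.symm c) b) ?_ ?_
    · intro h1
      apply hh0
      funext i
      have h2 := congrFun h1 (σ i)
      simpa using h2
    · rw [coeff_zero_eq_constantCoeff_apply]
      exact constCoeff_e2
    · intro c
      have h1 : ∀ a : Fin (m + 1), emb (h (σ.symm a)) *
          LL (shidK k) (e2 ℚ) a (∑ b, emb (v b) * E (σ.symm c) b) =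
          ∑ b, emb (h (σ.symm a) * Mat (σ.symm a) b) * E (σ.symm c) b := by
        intro a
        rw [hMLL, Finset.mul_sum]
        refine Finset.sum_congr rfl fun b _ => ?_
        rw [hMat', Equiv.apply_symm_apply, map_mul, mul_assoc]
      simp_rw [h1]
      rw [Finset.sum_comm]
      refine Finset.sum_eq_zero fun b _ => ?_
      rw [← Finset.sum_mul, ← map_sum]
      have h2 : ∑ a : Fin (m + 1), h (σ.symm a) * Mat (σ.symm a) b = ∑ i, h i * Mat i b :=
        Equiv.sum_comp σ.symm (fun i => h i * Mat i b)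
      have h3 := congrFun hh b
      rw [Matrix.vecMul, dotProduct] at h3
      rw [h2, h3]
      simp
    · exact hlin.comp _ σ.symm.injective
  -- the functions `G_a`
  obtain ⟨G, hG⟩ : ∃ G : ℕ → ℚ⟦X⟧, ∀ a, G a = ∑ b, M a b * e b := ⟨_, fun _ => rfl⟩
  have hGL : ∀ a, emb (G a) = LL (shidK k) (e2 ℚ) a (∑ b, emb (v b) * E c0 b) := by
    intro a
    rw [hMLL, hG, map_sum]
    refine Finset.sum_congr rfl fun b _ => ?_
    rw [he, map_mul]
  have hGs : ∀ a, G (a + 1) = sd (k + 2 * a) (G a) := by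
    intro a
    apply shid_emb_inj
    rw [hGL (a + 1)]
    simp only [LL]
    rw [← hGL a, shid_dA_emb, ← map_mul, ← map_sub]
    congr 1
    unfold sd shidK
    push_cast
    ring
  have hG0 : ∀ n, (∀ j ≤ n, coeff j (G 0) = 0) → ∀ a, ∀ j ≤ n, coeff j (G a) = 0 := by
    intro n hn a
    induction a with
    | zero => exact hn
    | succ a ih =>
      intro j hj
      rw [hGs]
      unfold sd
      rw [map_sub, coeff_Dq, ih j hj, coeff_C_mul, coeff_mul]
      have h1 : ∑ p ∈ Finset.HasAntidiagonal.antidiagonal j, coeff p.1 (e2 ℚ) * coeff p.2 (G a) = 0 := by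
        refine Finset.sum_eq_zero fun p hp => ?_
        have hp := Finset.HasAntidiagonal.mem_antidiagonal.1 hp
        rw [ih p.2 (by omega), mul_zero]
      rw [h1]
      simp
  -- the determinant is a combination of the `G_a`
  have hD : Mat.det = ∑ i, Mat.adjugate b0 i * G (σ i) := by
    have h1 : Mat.adjugate.mulVec (Mat.mulVec e) = Mat.det • e := by
      rw [Matrix.mulVec_mulVec, Matrix.adjugate_mul, Matrix.smul_mulVec, Matrix.one_mulVec]
    have h2 := congrFun h1 b0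
    rw [Pi.smul_apply, he1, smul_eq_mul, mul_one] at h2
    rw [← h2, Matrix.mulVec, dotProduct]
    refine Finset.sum_congr rfl fun i _ => ?_
    rw [hG, Matrix.mulVec, dotProduct]
    congr 1
    refine Finset.sum_congr rfl fun b _ => ?_
    rw [hMat']
  obtain ⟨n, hn1, hn2, -⟩ := MLz_order hwt hdet
  have hex : ∃ j ≤ n, coeff j (G 0) ≠ 0 := by
    by_contra hne
    push Not at hne
    apply hn2
    rw [hD, map_sum]
    refine Finset.sum_eq_zero fun i _ => ?_
    rw [coeff_mul]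
    refine Finset.sum_eq_zero fun p hp => ?_
    have hp := Finset.HasAntidiagonal.mem_antidiagonal.1 hp
    rw [hG0 n hne (σ i) p.2 (by omega), mul_zero]
  obtain ⟨j, hj, hj0⟩ := hex
  refine ⟨j, ?_, ?_⟩
  · have : (j : ℤ) ≤ n := by exact_mod_cast hj
    linarith
  · rw [hG 0, hM] at hj0
    exact hj0

end Pool.Agent.L1
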