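import Pool.Agent.Lib.L1.Delta

/-!
# L1.Span: the modules `ML R k` of level one modular forms over a commutative ring `R`

`ML R k ⊆ R[[q]]` is the `R`-span of the echelon basis `bas R k j = Δ^j E₄^a E₆^b`
(`4a + 6b + 12j = k`, `b ≤ 1`), `j < dd k`.
-/

namespace Pool.Agent.L1

open PowerSeries

section defs

variable (R : Type*) [CommRing R]

noncomputable def e2 : PowerSeries R := PowerSeries.map (Int.castRingHom R) E2z
noncomputable def e4 : PowerSeries R := PowerSeries.map (Int.castRingHom R) E4z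
noncomputable def e6 : PowerSeries R := PowerSeries.map (Int.castRingHom R) E6z
noncomputable def dl : PowerSeries R := PowerSeries.map (Int.castRingHom R) Delz

/-- `0` if `4 ∣ k`, else `1`. -/
def bb (k : ℕ) : ℕ := if 4 ∣ k then 0 else 1

/-- dimension of the space of weight `k`. -/
def dd (k : ℕ) : ℕ := if Even k ∧ 6 * bb k ≤ k then (k - 6 * bb k) / 12 + 1 else 0

/-- the exponent of `E₄`. -/
def ba (k j : ℕ) : ℕ := (k - 6 * bb k - 12 * j) / 4

/-- the echelon basis. -/
noncomputable def bas (k j : ℕ) : PowerSeries R := dl R ^ j * e4 R ^ ba k j * e6 R ^ bb k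

/-- forms of weight `k` over `R`. -/
noncomputable def ML (k : ℕ) : Submodule R (PowerSeries R) :=
  Submodule.span R (Set.range fun j : Fin (dd k) => bas R k j)

end defs

lemma bb_le_one (k : ℕ) : bb k ≤ 1 := by unfold bb; split_ifs <;> omega

lemma ba_eq {k j : ℕ} (hj : j < dd k) : 4 * ba k j + 6 * bb k + 12 * j = k := by
  unfold dd at hj
  split_ifs at hj with h
  · obtain ⟨⟨m, hm⟩, h2⟩ := h
    unfold ba
    unfold bb at *
    split_ifs at * with h4
    · obtain ⟨r, hr⟩ := h4
      omega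
    · omega
  · omega

lemma even_of_lt_dd {k j : ℕ} (hj : j < dd k) : Even k := by
  unfold dd at hj
  split_ifs at hj with h
  · exact h.1
  · omega

lemma dd_le (k : ℕ) : dd k ≤ k / 12 + 1 := by
  unfold dd
  split_ifs with h
  · exact Nat.add_le_add_right (Nat.div_le_div_right (Nat.sub_le _ _)) 1
  · omega

/-- `12 * dd k ≥ k - 2` for even `k`. -/
lemma le_dd {k : ℕ} (hk : Even k) : k ≤ 12 * dd k + 2 := by
  obtain ⟨m, hm⟩ := hk
  unfold dd bb
  split_ifs with h1 h2 h3
  · obtain ⟨r, hr⟩ := h1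
    omega
  · exact absurd ⟨⟨m, hm⟩, by omega⟩ h2
  · omega
  · have : ¬ (6 * 1 ≤ k) := fun h => h3 ⟨⟨m, hm⟩, h⟩
    omega

lemma eq_of_weight {a b j k : ℕ} (hb : b ≤ 1) (h : 4 * a + 6 * b + 12 * j = k) :
    b = bb k ∧ j < dd k ∧ a = ba k j := by
  have h1 : b = bb k := by
    unfold bb
    split_ifs with h4
    · obtain ⟨r, hr⟩ := h4
      omega
    · by_contra hne
      exact h4 ⟨a + 3 * j, by omega⟩
  have hev : Even k := ⟨2 * a + 3 * b + 6 * j, by omega⟩
  have h2 : j < dd k := by
    unfold dd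
    rw [if_pos ⟨hev, by rw [← h1]; omega⟩, ← h1]
    have : j ≤ (k - 6 * b) / 12 := by
      rw [Nat.le_div_iff_mul_le (by norm_num)]; omega
    omega
  refine ⟨h1, h2, ?_⟩
  have := ba_eq h2
  rw [← h1] at this
  omega

section alg

variable {R : Type*} [CommRing R]

lemma e4_cube : e4 R ^ 3 - e6 R ^ 2 = 1728 * dl R := by
  have h := congrArg (PowerSeries.map (Int.castRingHom R)) delta_eq
  simp only [map_mul, map_sub, map_pow, map_ofNat] at h
  exact h

lemma ram_e2 : 12 * Dq (e2 R) = e2 R ^ 2 - e4 R := by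
  have h := congrArg (PowerSeries.map (Int.castRingHom R)) ramZ2
  simp only [map_mul, map_sub, map_pow, map_ofNat, ← Dq_map] at h
  exact h

lemma ram_e4 : 3 * Dq (e4 R) = e2 R * e4 R - e6 R := by
  have h := congrArg (PowerSeries.map (Int.castRingHom R)) ramZ4
  simp only [map_mul, map_sub, map_ofNat, ← Dq_map] at h
  exact h

lemma ram_e6 : 2 * Dq (e6 R) = e2 R * e6 R - e4 R ^ 2 := by
  have h := congrArg (PowerSeries.map (Int.castRingHom R)) ramZ6
  simp only [map_mul, map_sub, map_pow, map_ofNat, ← Dq_map] at h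
  exact h

lemma ram_dl : Dq (dl R) = e2 R * dl R := by
  have h := congrArg (PowerSeries.map (Int.castRingHom R)) Dq_Delz
  simp only [map_mul, ← Dq_map] at h
  exact h

lemma mono_mem (b : ℕ) : ∀ (a j k : ℕ), 4 * a + 6 * b + 12 * j = k →
    dl R ^ j * e4 R ^ a * e6 R ^ b ∈ ML R k := by
  induction b using Nat.strong_induction_on with
  | _ b ih =>
    intro a j k h
    by_cases hb : b ≤ 1
    · obtain ⟨h1, h2, h3⟩ := eq_of_weight hb h
      rw [h1, h3]
      exact Submodule.subset_span ⟨⟨j, h2⟩, rfl⟩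
    · obtain ⟨c, rfl⟩ : ∃ c, b = c + 2 := ⟨b - 2, by omega⟩
      have h1 := ih c (by omega) (a + 3) j k (by omega)
      have h2 := ih c (by omega) a (j + 1) k (by omega)
      have h3 : dl R ^ j * e4 R ^ a * e6 R ^ (c + 2)
          = dl R ^ j * e4 R ^ (a + 3) * e6 R ^ c
            - (1728 : R) • (dl R ^ (j + 1) * e4 R ^ a * e6 R ^ c) := by
        rw [PowerSeries.smul_eq_C_mul, map_ofNat]
        linear_combination (-(dl R ^ j * e4 R ^ a * e6 R ^ c)) * (e4_cube (R := R))
      rw [h3]
      exact Submodule.sub_mem _ h1 (Submodule.smul_mem _ _ h2)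

lemma one_mem_ML : (1 : PowerSeries R) ∈ ML R 0 := by
  simpa using mono_mem (R := R) 0 0 0 0 rfl

lemma e4_mem : e4 R ∈ ML R 4 := by simpa using mono_mem (R := R) 0 1 0 4 rfl
lemma e6_mem : e6 R ∈ ML R 6 := by simpa using mono_mem (R := R) 1 0 0 6 rfl
lemma dl_mem : dl R ∈ ML R 12 := by simpa using mono_mem (R := R) 0 0 1 12 rfl

lemma mul_mem_ML {k l : ℕ} {f g : PowerSeries R} (hf : f ∈ ML R k) (hg : g ∈ ML R l) :
    f * g ∈ ML R (k + l) := by
  have key : ML R k * ML R l ≤ ML R (k + l) := by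
    unfold ML
    rw [Submodule.span_mul_span, Submodule.span_le]
    rintro _ ⟨_, ⟨i, rfl⟩, _, ⟨j, rfl⟩, rfl⟩
    have h1 := ba_eq i.2
    have h2 := ba_eq j.2
    have := mono_mem (R := R) (bb k + bb l) (ba k i + ba l j) (i + j) (k + l) (by omega)
    have h3 : dl R ^ ((i : ℕ) + j) * e4 R ^ (ba k i + ba l j) * e6 R ^ (bb k + bb l)
        = bas R k i * bas R l j := by
      unfold bas; ring
    rw [h3] at this
    exact this
  exact key (Submodule.mul_mem_mul hf hg)

lemma pow_mem_ML {k : ℕ} {f : PowerSeries R} (hf : f ∈ ML R k) (n : ℕ) :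
    f ^ n ∈ ML R (n * k) := by
  induction n with
  | zero => simpa using one_mem_ML (R := R)
  | succ n ih =>
    rw [pow_succ, Nat.succ_mul]
    exact mul_mem_ML ih hf

lemma Dq_pow (f : PowerSeries R) (n : ℕ) : Dq (f ^ n) = (n : PowerSeries R) * f ^ (n - 1) * Dq f := by
  induction n with
  | zero => simp [Dq_one]
  | succ n ih =>
    rw [pow_succ, Dq_mul, ih]
    rcases n with _ | n
    · simp
    · simp only [Nat.add_sub_cancel]
      push_cast
      ring

/-- The (integral) Serre derivative `12 D f - k E₂ f` of a form of weight `k` has weight `k+2`. -/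
lemma serre_mem_ML {k : ℕ} {f : PowerSeries R} (hf : f ∈ ML R k) :
    12 * Dq f - (k : PowerSeries R) * e2 R * f ∈ ML R (k + 2) := by
  refine Submodule.span_induction (p := fun f _ =>
    12 * Dq f - (k : PowerSeries R) * e2 R * f ∈ ML R (k + 2)) ?_ ?_ ?_ ?_ hf
  · rintro _ ⟨i, rfl⟩
    have hk := ba_eq i.2
    set a := ba k i
    set b := bb k
    set j : ℕ := (i : ℕ)
    have hkc : (k : PowerSeries R) = 4 * (a : PowerSeries R) + 6 * (b : PowerSeries R)
        + 12 * (j : PowerSeries R) := by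
      have := congrArg (Nat.cast : ℕ → PowerSeries R) hk
      push_cast at this
      exact this.symm
    have hbas : bas R k j = dl R ^ j * e4 R ^ a * e6 R ^ b := rfl
    -- the three terms
    have hj : 12 * Dq (dl R ^ j) = 12 * (j : PowerSeries R) * e2 R * dl R ^ j := by
      rw [Dq_pow, ram_dl]
      rcases j with _ | j
      · simp
      · simp only [Nat.add_sub_cancel]; ring
    have ha : 12 * Dq (e4 R ^ a) = 4 * (a : PowerSeries R) * e2 R * e4 R ^ a
        - 4 * (a : PowerSeries R) * (e4 R ^ (a - 1) * e6 R) := by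
      rw [Dq_pow]
      rcases a with _ | a
      · simp
      · simp only [Nat.add_sub_cancel]
        linear_combination (4 * ((a + 1 : ℕ) : PowerSeries R) * e4 R ^ a) * (ram_e4 (R := R))
    have hb : 12 * Dq (e6 R ^ b) = 6 * (b : PowerSeries R) * e2 R * e6 R ^ b
        - 6 * (b : PowerSeries R) * (e6 R ^ (b - 1) * e4 R ^ 2) := by
      rw [Dq_pow]
      rcases b with _ | b
      · simp
      · simp only [Nat.add_sub_cancel]
        linear_combination (6 * ((b + 1 : ℕ) : PowerSeries R) * e6 R ^ b) * (ram_e6 (R := R))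
    have htot : 12 * Dq (bas R k j) - (k : PowerSeries R) * e2 R * bas R k j
        = (-(4 * a : ℕ) : R) • (dl R ^ j * e4 R ^ (a - 1) * e6 R ^ (b + 1))
          + (-(6 * b : ℕ) : R) • (dl R ^ j * e4 R ^ (a + 2) * e6 R ^ (b - 1)) := by
      rw [hbas, Dq_mul, Dq_mul, hkc, PowerSeries.smul_eq_C_mul, PowerSeries.smul_eq_C_mul]
      simp only [map_neg, map_natCast]
      push_cast
      linear_combination e4 R ^ a * e6 R ^ b * hj + dl R ^ j * e6 R ^ b * ha
        + dl R ^ j * e4 R ^ a * hb
    rw [htot]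
    refine Submodule.add_mem _ ?_ ?_
    · by_cases ha0 : a = 0
      · simp [ha0]
      · exact Submodule.smul_mem _ _ (mono_mem _ _ _ _ (by omega))
    · by_cases hb0 : b = 0
      · simp [hb0]
      · exact Submodule.smul_mem _ _ (mono_mem _ _ _ _ (by omega))
  · simp [Dq_zero]
  · intro f g _ _ h1 h2
    have : 12 * Dq (f + g) - (k : PowerSeries R) * e2 R * (f + g)
        = (12 * Dq f - (k : PowerSeries R) * e2 R * f)
          + (12 * Dq g - (k : PowerSeries R) * e2 R * g) := by rw [Dq_add]; ring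
    rw [this]
    exact Submodule.add_mem _ h1 h2
  · intro r f _ h1
    have : 12 * Dq (r • f) - (k : PowerSeries R) * e2 R * (r • f)
        = r • (12 * Dq f - (k : PowerSeries R) * e2 R * f) := by
      rw [Dq_smul, smul_sub]; simp only [mul_smul_comm]
    rw [this]
    exact Submodule.smul_mem _ _ h1

lemma constCoeff_e4 : constantCoeff (e4 R) = 1 := by
  rw [← coeff_zero_eq_constantCoeff_apply, e4, coeff_map, coeff_E4z]; simp
lemma constCoeff_e6 : constantCoeff (e6 R) = 1 := by
  rw [← coeff_zero_eq_constantCoeff_apply, e6, coeff_map, coeff_E6z]; simp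
lemma constCoeff_e2 : constantCoeff (e2 R) = 1 := by
  rw [← coeff_zero_eq_constantCoeff_apply, e2, coeff_map, coeff_E2z]; simp

lemma dl_eq : dl R = X * PowerSeries.map (Int.castRingHom R) Ulz := by
  rw [dl, Delz_eq, map_mul, map_X]

/-- `bas R k j = q^j * unit`. -/
lemma bas_eq (k j : ℕ) : ∃ u : PowerSeries R, constantCoeff u = 1 ∧ bas R k j = X ^ j * u := by
  refine ⟨(PowerSeries.map (Int.castRingHom R) Ulz) ^ j * e4 R ^ ba k j * e6 R ^ bb k, ?_, ?_⟩
  · have : constantCoeff (PowerSeries.map (Int.castRingHom R) Ulz) = 1 := by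
      rw [← coeff_zero_eq_constantCoeff_apply, coeff_map, coeff_zero_eq_constantCoeff_apply,
        constCoeff_Ulz]
      simp
    simp [this, constCoeff_e4, constCoeff_e6]
  · rw [bas, dl_eq, mul_pow]; ring

lemma coeff_bas_lt {k j n : ℕ} (h : n < j) : coeff n (bas R k j) = 0 := by
  obtain ⟨u, -, hu⟩ := bas_eq (R := R) k j
  rw [hu, coeff_X_pow_mul', if_neg (by omega)]

lemma coeff_bas_self (k j : ℕ) : coeff j (bas R k j) = 1 := by
  obtain ⟨u, hu1, hu⟩ := bas_eq (R := R) k j
  rw [hu, coeff_X_pow_mul', if_pos le_rfl, Nat.sub_self, coeff_zero_eq_constantCoeff_apply, hu1]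

lemma map_e4 {S : Type*} [CommRing S] (φ : R →+* S) : PowerSeries.map φ (e4 R) = e4 S := by
  rw [e4, e4, ← RingHom.comp_apply, ← PowerSeries.map_comp]
  congr 2
  exact RingHom.ext_int _ _
lemma map_e6 {S : Type*} [CommRing S] (φ : R →+* S) : PowerSeries.map φ (e6 R) = e6 S := by
  rw [e6, e6, ← RingHom.comp_apply, ← PowerSeries.map_comp]
  congr 2
  exact RingHom.ext_int _ _
lemma map_e2 {S : Type*} [CommRing S] (φ : R →+* S) : PowerSeries.map φ (e2 R) = e2 S := by
  rw [e2, e2, ← RingHom.comp_apply, ← PowerSeries.map_comp]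
  congr 2
  exact RingHom.ext_int _ _
lemma map_dl {S : Type*} [CommRing S] (φ : R →+* S) : PowerSeries.map φ (dl R) = dl S := by
  rw [dl, dl, ← RingHom.comp_apply, ← PowerSeries.map_comp]
  congr 2
  exact RingHom.ext_int _ _
lemma map_bas {S : Type*} [CommRing S] (φ : R →+* S) (k j : ℕ) :
    PowerSeries.map φ (bas R k j) = bas S k j := by
  simp only [bas, map_mul, map_pow, map_e4, map_e6, map_dl]

lemma coeff_bas_int (k j n : ℕ) :
    coeff n (bas R k j) = ((coeff n (bas ℤ k j) : ℤ) : R) := by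
  have := map_bas (Int.castRingHom R) k j
  rw [← this, coeff_map]
  rfl

lemma mem_ML_iff {k : ℕ} {f : PowerSeries R} :
    f ∈ ML R k ↔ ∃ c : ℕ → R, f = ∑ j ∈ Finset.range (dd k), c j • bas R k j := by
  constructor
  · intro hf
    refine Submodule.span_induction (p := fun f _ => ∃ c : ℕ → R,
      f = ∑ j ∈ Finset.range (dd k), c j • bas R k j) ?_ ?_ ?_ ?_ hf
    · rintro _ ⟨i, rfl⟩
      refine ⟨fun j => if j = i then 1 else 0, ?_⟩
      rw [Finset.sum_eq_single (i : ℕ)]
      · simp
      · intro j _ hj; simp [hj]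
      · intro h; exact absurd (Finset.mem_range.mpr i.2) h
    · exact ⟨0, by simp⟩
    · rintro f g _ _ ⟨c, hc⟩ ⟨d, hd⟩
      exact ⟨c + d, by rw [hc, hd, ← Finset.sum_add_distrib]; simp [add_smul]⟩
    · rintro r f _ ⟨c, hc⟩
      exact ⟨fun j => r * c j, by rw [hc, Finset.smul_sum]; simp [mul_smul]⟩
  · rintro ⟨c, rfl⟩
    refine Submodule.sum_mem _ fun j hj => Submodule.smul_mem _ _ (Submodule.subset_span ?_)
    exact ⟨⟨j, Finset.mem_range.mp hj⟩, rfl⟩

/-- Echelon property: if the first `dd k` coefficients lie in an additive subgroup `A`, then so do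
the coordinates. -/
lemma echelon {k : ℕ} (A : AddSubgroup R) (c : ℕ → R)
    (h : ∀ n < dd k, coeff n (∑ j ∈ Finset.range (dd k), c j • bas R k j) ∈ A) :
    ∀ j < dd k, c j ∈ A := by
  intro j
  induction j using Nat.strong_induction_on with
  | _ j ih =>
    intro hj
    have h1 := h j hj
    rw [map_sum, ← Finset.sum_subset (Finset.range_mono (show j + 1 ≤ dd k from hj))] at h1
    · rw [Finset.sum_range_succ] at h1
      have h2 : ∑ x ∈ Finset.range j, coeff j (c x • bas R k x) ∈ A := by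
        refine AddSubgroup.sum_mem _ fun x hx => ?_
        have hx' := Finset.mem_range.mp hx
        rw [coeff_smul, coeff_bas_int, smul_eq_mul, mul_comm, ← zsmul_eq_mul]
        exact AddSubgroup.zsmul_mem _ (ih x hx' (by omega)) _
      have h3 := (AddSubgroup.add_mem_cancel_left A h2).mp h1
      rwa [coeff_smul, coeff_bas_self, smul_eq_mul, mul_one] at h3
    · intro x _ hx
      rw [coeff_smul, coeff_bas_lt (by simpa using hx), smul_zero]

/-- Sturm bound for `ML R k`: a form with `dd k` vanishing coefficients is zero. -/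
lemma ML_eq_zero {k : ℕ} {f : PowerSeries R} (hf : f ∈ ML R k)
    (h : ∀ n < dd k, coeff n f = 0) : f = 0 := by
  obtain ⟨c, rfl⟩ := mem_ML_iff.mp hf
  have := echelon (⊥ : AddSubgroup R) c (fun n hn => by simpa using h n hn)
  refine Finset.sum_eq_zero fun j hj => ?_
  rw [(AddSubgroup.mem_bot.mp (this j (Finset.mem_range.mp hj))), zero_smul]

/-- Base change. -/
lemma map_mem_ML {S : Type*} [CommRing S] (φ : R →+* S) {k : ℕ} {f : PowerSeries R}
    (hf : f ∈ ML R k) : PowerSeries.map φ f ∈ ML S k := by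
  obtain ⟨c, rfl⟩ := mem_ML_iff.mp hf
  rw [map_sum]
  refine mem_ML_iff.mpr ⟨fun j => φ (c j), Finset.sum_congr rfl fun j _ => ?_⟩
  rw [PowerSeries.smul_eq_C_mul, map_mul, map_bas, PowerSeries.map_C, ← PowerSeries.smul_eq_C_mul]

/-- Descent: a form over `S` whose first `dd k` coefficients come from `R` comes from `R`. -/
lemma descend {S : Type*} [CommRing S] (φ : R →+* S) {k : ℕ} {f : PowerSeries S}
    (hf : f ∈ ML S k) (h : ∀ n < dd k, coeff n f ∈ φ.range) :
    ∃ g ∈ ML R k, PowerSeries.map φ g = f := by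
  obtain ⟨c, rfl⟩ := mem_ML_iff.mp hf
  have h1 := echelon φ.range.toAddSubgroup c (fun n hn => h n hn)
  have h2 : ∀ j : ℕ, ∃ r : R, j < dd k → φ r = c j := by
    intro j
    by_cases hj : j < dd k
    · obtain ⟨r, hr⟩ := h1 j hj
      exact ⟨r, fun _ => hr⟩
    · exact ⟨0, fun h => absurd h hj⟩
  choose r hr using h2
  refine ⟨∑ j ∈ Finset.range (dd k), r j • bas R k j, mem_ML_iff.mpr ⟨r, rfl⟩, ?_⟩
  rw [map_sum]
  refine Finset.sum_congr rfl fun j hj => ?_
  rw [PowerSeries.smul_eq_C_mul, map_mul, map_bas, PowerSeries.map_C, ← PowerSeries.smul_eq_C_mul,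
    hr j (Finset.mem_range.mp hj)]

/-- Descent for an injective ring homomorphism, starting from a series over `R`. -/
lemma mem_ML_of_map {S : Type*} [CommRing S] (φ : R →+* S) (hφ : Function.Injective φ) {k : ℕ}
    {f : PowerSeries R} (hf : PowerSeries.map φ f ∈ ML S k) : f ∈ ML R k := by
  obtain ⟨g, hg, hgf⟩ := descend φ hf (fun n _ => ⟨coeff n f, by rw [coeff_map]⟩)
  have : g = f := PowerSeries.map_injective φ hφ hgf
  rwa [← this]

/-- The generators `bas R k j`, `j < dd k`, are linearly independent. -/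
lemma linearIndependent_bas (k : ℕ) :
    LinearIndependent R (fun j : Fin (dd k) => bas R k j) := by
  rw [Fintype.linearIndependent_iff]
  intro g hg i
  have h1 : ∑ j ∈ Finset.range (dd k), (if h : j < dd k then g ⟨j, h⟩ else 0) • bas R k j = 0 := by
    rw [← Fin.sum_univ_eq_sum_range (fun j => (if h : j < dd k then g ⟨j, h⟩ else 0) • bas R k j)]
    simpa using hg
  have := echelon (⊥ : AddSubgroup R) (fun j => if h : j < dd k then g ⟨j, h⟩ else 0)
    (fun n hn => by rw [h1]; simp) i i.2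
  simpa using this

end alg

end Pool.Agent.L1
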