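import Pool.Agent.Lib.L1.Span

/-!
# L1.SpanC: q-expansions of level one modular forms lie in `ML ℂ k`, and descend to subrings
-/

open UpperHalfPlane hiding I
open Complex ModularForm EisensteinSeries Function Filter
open scoped Real MatrixGroups Manifold Topology

namespace Pool.Agent.L1

lemma e4_C : e4 ℂ = qExpansion 1 E₄ := map_E4z
lemma e6_C : e6 ℂ = qExpansion 1 E₆ := map_E6z
lemma e2_C : e2 ℂ = qExpansion 1 E2 := map_E2z
lemma dl_C : dl ℂ = qExpansion 1 discriminant := map_Delz

/-- `E₄^a E₆^b` as a form. -/
lemma exists_mono (a b : ℕ) (k : ℤ) (hk : k = 4 * a + 6 * b) :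
    ∃ g : ModularForm 𝒮ℒ k, qExpansion 1 g = e4 ℂ ^ a * e6 ℂ ^ b := by
  subst hk
  refine ⟨ModularForm.mcast (by ring) ((E₄.pow a).mul (E₆.pow b)), ?_⟩
  rw [ModularForm.qExpansion_mcast _ rfl, ModularForm.qExpansion_mul one_pos one_mem_strictPeriods_SL,
    ModularForm.qExpansion_pow one_pos one_mem_strictPeriods_SL,
    ModularForm.qExpansion_pow one_pos one_mem_strictPeriods_SL, e4_C, e6_C]

lemma form_neg_zero {k : ℤ} (hk : k < 0) (f : ModularForm 𝒮ℒ k) : qExpansion 1 f = 0 := by
  rw [ModularFormClass.levelOne_neg_weight_eq_zero hk f]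
  exact qExpansion_zero 1

lemma form_odd_zero {k : ℤ} (hk : Odd k) (f : ModularForm 𝒮ℒ k) : qExpansion 1 f = 0 := by
  rw [ModularForm.levelOne_odd_weight_eq_zero hk f]
  exact qExpansion_zero 1

lemma form_two_zero (f : ModularForm 𝒮ℒ 2) : qExpansion 1 f = 0 := by
  have := rank_zero_iff_forall_zero.mp levelOne_weight_two_rank_zero f
  rw [this]
  exact qExpansion_zero 1

/-- Every level one modular form of weight `k` has its q-expansion in `ML ℂ k`. -/
theorem form_mem_ML (k : ℕ) : ∀ (k' : ℤ), k' = k → ∀ f : ModularForm 𝒮ℒ k',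
    qExpansion 1 f ∈ ML ℂ k := by
  induction k using Nat.strong_induction_on with
  | _ k ih =>
    intro k' hk' f
    rcases Nat.even_or_odd k with hev | hodd
    · by_cases h2 : k = 2
      · subst h2
        subst hk'
        rw [form_two_zero f]
        exact Submodule.zero_mem _
      · -- the leading form
        have hd : 0 < dd k := by
          obtain ⟨m, hm⟩ := hev
          unfold dd bb
          split_ifs with h1 h3 h4
          · omega
          · exact absurd ⟨⟨m, hm⟩, by omega⟩ h3
          · omega
          · have : ¬ (6 * 1 ≤ k) := fun h => h4 ⟨⟨m, hm⟩, h⟩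
            omega
        have hba := ba_eq hd
        obtain ⟨g, hg⟩ := exists_mono (ba k 0) (bb k) k' (by
          have := congrArg (Nat.cast : ℕ → ℤ) hba
          push_cast at this
          rw [hk']; linarith)
        have hgk : qExpansion 1 g = bas ℂ k 0 := by rw [hg, bas]; simp
        have hg0 : (qExpansion 1 g).coeff 0 = 1 := by
          rw [hgk]; exact coeff_bas_self k 0
        set c := (qExpansion 1 f).coeff 0 with hc
        set h : ModularForm 𝒮ℒ k' := f - c • g with hh
        have hq : qExpansion 1 h = qExpansion 1 f - c • qExpansion 1 g := by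
          rw [hh, FunLike.coe_sub, ModularForm.qExpansion_sub one_pos one_mem_strictPeriods_SL,
            FunLike.coe_smul, ModularForm.qExpansion_smul one_pos one_mem_strictPeriods_SL]
        have hcusp : (qExpansion 1 h).coeff 0 = 0 := by
          rw [hq, map_sub, PowerSeries.coeff_smul, hg0, hc]; simp
        have hfac := qExpansion_eq_qExpansion_discriminant_mul h hcusp
        have hmem : qExpansion 1 h ∈ ML ℂ k := by
          rw [hfac, ← dl_C]
          by_cases h12 : k < 12
          · rw [form_neg_zero (by omega)]
            simp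
          · have h3 := ih (k - 12) (by omega) (k' - 12) (by omega)
              (CuspForm.discriminantEquiv (toCuspForm h hcusp))
            have h4 := mul_mem_ML (dl_mem (R := ℂ)) h3
            rwa [show 12 + (k - 12) = k by omega] at h4
        have hf : qExpansion 1 f = qExpansion 1 h + c • bas ℂ k 0 := by
          rw [hq, hgk]; simp
        rw [hf]
        refine Submodule.add_mem _ hmem (Submodule.smul_mem _ _ (Submodule.subset_span ?_))
        exact ⟨⟨0, hd⟩, rfl⟩
    · have : Odd k' := by rw [hk']; exact_mod_cast hodd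
      rw [form_odd_zero this f]
      exact Submodule.zero_mem _

/-- Descent: if `f` is a level one form of weight `k` and `F : R⟦X⟧` maps to its q-expansion under
an injective ring homomorphism `R → ℂ`, then `F ∈ ML R k`. -/
theorem form_descend {R : Type*} [CommRing R] (φ : R →+* ℂ) (hφ : Function.Injective φ) {k : ℕ}
    {F : PowerSeries R} (f : ModularForm 𝒮ℒ (k : ℤ))
    (h : PowerSeries.map φ F = qExpansion 1 f) : F ∈ ML R k :=
  mem_ML_of_map φ hφ (by rw [h]; exact form_mem_ML k k rfl f)

end Pool.Agent.L1
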