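import Pool.Agent.Lib.L1.Cong
import Pool.Agent.Lib.L1.Defs

/-!
# L1.XRec: the series `X_i[y]` and their recursion; `X_i[E_{p-s}]` is a form of weight `p - s + 2i` modulo `p`
-/

set_option linter.unusedSectionVars false

open PowerSeries
open MP_a3a416_nt.SJ (val)

namespace Pool.Agent.L1

/-- `Y_l = 12^l (s-l)! D^l y` -/
noncomputable def YA (s : ℕ) (y : ℚ⟦X⟧) (l : ℕ) : ℚ⟦X⟧ :=
  C ((12 : ℚ) ^ l * ((s - l).factorial : ℚ)) * Dq^[l] y

/-- `X_i[y] = ∑_{l ≤ i} C(i,l) 12^l (s-l)! e2^(i-l) D^l y` -/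
noncomputable def XA (s : ℕ) (y : ℚ⟦X⟧) (i : ℕ) : ℚ⟦X⟧ :=
  ∑ l ∈ Finset.range (i + 1), (i.choose l : ℚ⟦X⟧) * e2 ℚ ^ (i - l) * YA s y l

lemma Dq_YA {s l : ℕ} (hl : l < s) (y : ℚ⟦X⟧) :
    12 * Dq (YA s y l) = ((s - l : ℕ) : ℚ⟦X⟧) * YA s y (l + 1) := by
  rw [YA, YA, ← smul_eq_C_mul, Dq_smul, smul_eq_C_mul, Function.iterate_succ_apply',
    show (12 : ℚ⟦X⟧) = C (12 : ℚ) from (map_ofNat C 12).symm,
    show ((s - l : ℕ) : ℚ⟦X⟧) = C (((s - l : ℕ) : ℚ)) from (map_natCast C _).symm,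
    ← mul_assoc, ← mul_assoc, ← map_mul, ← map_mul]
  congr 2
  have e : s - l = (s - (l + 1)) + 1 := by omega
  have e2 : ((s - l).factorial : ℚ) = ((s - l : ℕ) : ℚ) * ((s - (l + 1)).factorial : ℚ) := by
    conv_lhs => rw [e, Nat.factorial_succ]
    rw [← e]
    push_cast
    ring
  rw [e2]
  ring

lemma Dq_zpow (u : ℚ⟦X⟧) (n : ℕ) : Dq (u ^ n) = (n : ℚ⟦X⟧) * u ^ (n - 1) * Dq u := Dq_pow u n

lemma XA_zero (s : ℕ) (y : ℚ⟦X⟧) : XA s y 0 = C ((s.factorial : ℚ)) * y := by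
  simp [XA, YA]

/-- the recursion of the `X_i` -/
theorem XA_rec {s i : ℕ} (hi : i < s) (y : ℚ⟦X⟧) :
    ((s : ℚ⟦X⟧) - i) * XA s y (i + 1) =
      12 * Dq (XA s y i) - ((2 * i : ℕ) : ℚ⟦X⟧) * e2 ℚ * XA s y i + (s : ℚ⟦X⟧) * e2 ℚ * XA s y i
        + (i : ℚ⟦X⟧) * e4 ℚ * XA s y (i - 1) := by
  set u := e2 ℚ with hu
  have hDu : 12 * Dq u = u ^ 2 - e4 ℚ := ram_e2
  -- the derivative
  have h1 : 12 * Dq (XA s y i) = ∑ l ∈ Finset.range (i + 1),
      ((i.choose l : ℚ⟦X⟧) * ((i - l : ℕ) : ℚ⟦X⟧) * u ^ (i - l - 1) * (u ^ 2 - e4 ℚ) * YA s y l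
        + (i.choose l : ℚ⟦X⟧) * u ^ (i - l) * (((s - l : ℕ) : ℚ⟦X⟧) * YA s y (l + 1))) := by
    have hsum : ∀ (t : Finset ℕ) (f : ℕ → ℚ⟦X⟧), Dq (∑ l ∈ t, f l) = ∑ l ∈ t, Dq (f l) := by
      intro t f
      exact map_sum DqDer f t
    rw [XA, hsum, Finset.mul_sum]
    refine Finset.sum_congr rfl fun l hl => ?_
    have hli : l < s := lt_of_le_of_lt (Nat.lt_succ_iff.1 (Finset.mem_range.1 hl)) hi
    have hn : Dq ((i.choose l : ℕ) : ℚ⟦X⟧) = 0 := by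
      rw [show ((i.choose l : ℕ) : ℚ⟦X⟧) = C (((i.choose l : ℕ) : ℚ)) from (map_natCast C _).symm,
        Dq_C]
    rw [Dq_mul, Dq_mul, hn, Dq_pow, ← Dq_YA hli]
    linear_combination ((i.choose l : ℚ⟦X⟧) * ((i - l : ℕ) : ℚ⟦X⟧) * u ^ (i - l - 1) * YA s y l) * hDu
  -- the term with `e4`
  have h2 : (i : ℚ⟦X⟧) * e4 ℚ * XA s y (i - 1) = ∑ l ∈ Finset.range (i + 1),
      (i.choose l : ℚ⟦X⟧) * ((i - l : ℕ) : ℚ⟦X⟧) * u ^ (i - l - 1) * e4 ℚ * YA s y l := by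
    rcases Nat.eq_zero_or_pos i with rfl | hpos
    · simp
    · rw [Finset.sum_range_succ, Nat.sub_self, Nat.cast_zero, mul_zero, zero_mul, zero_mul, zero_mul,
        add_zero, XA, Nat.sub_add_cancel hpos, Finset.mul_sum]
      refine Finset.sum_congr rfl fun l hl => ?_
      have hl' := Finset.mem_range.1 hl
      have hc : i * (i - 1).choose l = i.choose l * (i - l) := by
        have := Nat.add_one_mul_choose_eq (i - 1) l
        have h3 := Nat.choose_mul_succ_eq (i - 1) l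
        rw [Nat.sub_add_cancel hpos] at h3
        rw [mul_comm]
        exact h3
      have hc' : (i : ℚ⟦X⟧) * ((i - 1).choose l : ℚ⟦X⟧) =
          (i.choose l : ℚ⟦X⟧) * ((i - l : ℕ) : ℚ⟦X⟧) := by exact_mod_cast congrArg (Nat.cast (R := ℚ⟦X⟧)) hc
      rw [show i - 1 - l = i - l - 1 by omega]
      linear_combination (e4 ℚ * u ^ (i - l - 1) * YA s y l) * hc'
  -- the left hand side
  have h3 : XA s y (i + 1) = ∑ l ∈ Finset.range (i + 1), (i.choose l : ℚ⟦X⟧) * u ^ (i - l) * u * YA s y l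
      + ∑ l ∈ Finset.range (i + 1), (i.choose l : ℚ⟦X⟧) * u ^ (i - l) * YA s y (l + 1) := by
    rw [XA, Finset.sum_range_succ']
    have e1 : ∀ l ∈ Finset.range (i + 1), ((i + 1).choose (l + 1) : ℚ⟦X⟧) * u ^ (i + 1 - (l + 1)) *
        YA s y (l + 1) = (i.choose l : ℚ⟦X⟧) * u ^ (i - l) * YA s y (l + 1)
          + (i.choose (l + 1) : ℚ⟦X⟧) * u ^ (i - l) * YA s y (l + 1) := by
      intro l _
      rw [Nat.choose_succ_succ, Nat.cast_add, Nat.add_sub_add_right]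
      ring
    rw [Finset.sum_congr rfl e1, Finset.sum_add_distrib]
    have e2 : ∑ l ∈ Finset.range (i + 1), (i.choose l : ℚ⟦X⟧) * u ^ (i - l) * u * YA s y l =
        ∑ l ∈ Finset.range (i + 1), (i.choose (l + 1) : ℚ⟦X⟧) * u ^ (i - l) * YA s y (l + 1)
          + u ^ (i + 1) * YA s y 0 := by
      rw [Finset.sum_range_succ', Finset.sum_range_succ (fun l => (i.choose (l + 1) : ℚ⟦X⟧) *
        u ^ (i - l) * YA s y (l + 1)) i, Nat.choose_succ_self, Nat.cast_zero, zero_mul, zero_mul, add_zero]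
      congr 1
      · refine Finset.sum_congr rfl fun l hl => ?_
        have hl' := Finset.mem_range.1 hl
        rw [show i - l = (i - (l + 1)) + 1 by omega, pow_succ]
        ring
      · simp [pow_succ]
    rw [e2]
    simp only [Nat.choose_zero_right, Nat.cast_one, one_mul, Nat.sub_zero]
    ring
  rw [h1, h2, h3, XA, ← hu]
  simp only [mul_add, Finset.mul_sum]
  rw [← Finset.sum_add_distrib, ← Finset.sum_sub_distrib, ← Finset.sum_add_distrib,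
    ← Finset.sum_add_distrib]
  -- compare: the terms `u^(i-l) Y_{l+1}` need `(s-l) - (s-i) = i - l`, shift
  have key : ∑ l ∈ Finset.range (i + 1), (i.choose l : ℚ⟦X⟧) * ((i - l : ℕ) : ℚ⟦X⟧) * u ^ (i - l) *
      YA s y (l + 1) = ∑ l ∈ Finset.range (i + 1), (i.choose l : ℚ⟦X⟧) * (l : ℚ⟦X⟧) * u ^ (i - l) * u *
      YA s y l := by
    rw [Finset.sum_range_succ, Nat.sub_self, Nat.cast_zero, mul_zero, zero_mul, zero_mul, add_zero,
      Finset.sum_range_succ' (fun l => (i.choose l : ℚ⟦X⟧) * (l : ℚ⟦X⟧) * u ^ (i - l) * u * YA s y l) i,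
      Nat.cast_zero, mul_zero, zero_mul, zero_mul, zero_mul, add_zero]
    refine Finset.sum_congr rfl fun l hl => ?_
    have hl' := Finset.mem_range.1 hl
    have hc : i.choose l * (i - l) = i.choose (l + 1) * (l + 1) := (Nat.choose_succ_right_eq i l).symm
    have hc' : (i.choose l : ℚ⟦X⟧) * ((i - l : ℕ) : ℚ⟦X⟧) =
        (i.choose (l + 1) : ℚ⟦X⟧) * ((l + 1 : ℕ) : ℚ⟦X⟧) := by
      exact_mod_cast congrArg (Nat.cast (R := ℚ⟦X⟧)) hc
    rw [show i - l = (i - (l + 1)) + 1 by omega, pow_succ] at *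
    linear_combination (u ^ (i - (l + 1)) * u * YA s y (l + 1)) * hc'
  have key' : ∑ l ∈ Finset.range (i + 1), ((i.choose l : ℚ⟦X⟧) * ((i - l : ℕ) : ℚ⟦X⟧) * u ^ (i - l) *
      YA s y (l + 1) - (i.choose l : ℚ⟦X⟧) * (l : ℚ⟦X⟧) * u ^ (i - l) * u * YA s y l) = 0 := by
    rw [Finset.sum_sub_distrib, key, sub_self]
  rw [← sub_eq_zero, ← Finset.sum_sub_distrib, ← neg_eq_zero, ← Finset.sum_neg_distrib, ← key']
  refine Finset.sum_congr rfl fun l hl => ?_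
  have hl' : l ≤ i := Nat.lt_succ_iff.1 (Finset.mem_range.1 hl)
  have c1 : ((i - l : ℕ) : ℚ⟦X⟧) = (i : ℚ⟦X⟧) - l := Nat.cast_sub hl'
  have c2 : ((s - l : ℕ) : ℚ⟦X⟧) = (s : ℚ⟦X⟧) - l := Nat.cast_sub (by omega)
  rcases Nat.lt_or_ge l i with h | h
  · have c3 : u ^ (i - l) = u ^ (i - l - 1) * u := by
      rw [← pow_succ]; congr 1; omega
    rw [c1, c2, c3]
    push_cast
    ring
  · have : l = i := by omega
    subst this
    rw [c2]
    simp only [Nat.sub_self, Nat.cast_zero]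
    push_cast
    ring

/-- the two forms of the definition agree -/
theorem XX_eq_XA (s i : ℕ) (y : ℚ⟦X⟧) : XX s i y = XA s y i := by
  rw [XX, XG, XA]
  refine Finset.sum_congr rfl fun l _ => ?_
  have e : (⇑DqDer : ℚ⟦X⟧ → ℚ⟦X⟧) = Dq := by
    funext f; exact DqDer_apply f
  rw [e, smul_eq_C_mul, YA, cf, map_mul, map_mul, map_mul,
    show (i.choose l : ℚ⟦X⟧) = C (i.choose l : ℚ) from (map_natCast C _).symm]
  ring

theorem FFp_eq (p s : ℕ) : FFp p s = Fd s p := by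
  rw [FFp, Fd]
  ext n
  rw [coeff_mk, coeff_mk]
  exact Finset.sum_congr rfl fun d _ => inv_pow _ _

end Pool.Agent.L1
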