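import Pool.Agent.Lib.L1.Shid

/-!
# L1.ZETwo: zero estimate for `P0 + P1 E2`
PROOF. `shid` with `ι = Fin 2`, `wt = ![-1, 1]`, `A = ![![0, C (1/12)], ![-C (1/12) * e4, 0]]`,
`E 0 = ![1, emb e2]`, `E 1 = ![t, t emb e2 + 12]`, `k = K - 1`, `v = ![P0, P1]`, `c0 = b0 = 0`.
Linear independence of `G = P0 + P1 e2` and `t G + 12 P1` over `ℚ` (through `emb`): `a G + b (t G + 12 P1) = 0`: the part linear in `t`
gives `b G = 0`, `G ≠ 0` by hypothesis `hTr`, so `b = 0`, `a = 0`. Bound: `2 (K-1) + 2 * 1 - 0 = 2 K`.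
-/

set_option autoImplicit false

open PowerSeries

namespace Pool.Agent.L1

private theorem two_dA_emb (f : ℚ⟦X⟧) : dA (emb f) = emb (Dq f) := by
  ext1 n
  rw [coeff_dA, coeff_emb, coeff_emb, coeff_Dq, Polynomial.derivative_C, add_zero, map_mul]
  congr 1

private theorem two_dt_emb (f : ℚ⟦X⟧) : dt (emb f) = 0 := by
  ext1 n
  rw [coeff_dt, coeff_emb, Polynomial.derivative_C, map_zero]

private theorem two_dt_tt : dt tt = 1 := by
  ext1 n
  rw [coeff_dt, tt, coeff_C, coeff_one]
  split_ifs
  · simp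
  · simp

private theorem two_dA_tt : dA tt = 1 := by
  ext1 n
  rw [coeff_dA, tt, coeff_C, coeff_one]
  split_ifs with h
  · simp [h]
  · simp

private theorem two_emb_inj : Function.Injective emb :=
  PowerSeries.map_injective _ (Polynomial.C_injective)

private theorem two_e4_mem : e4 ℚ ∈ MLz 4 := by
  rw [show (4 : ℤ) = ((4 : ℕ) : ℤ) from rfl, MLz_nat]
  exact e4_mem

theorem zero_est_two (K : ℤ) (P0 P1 : ℚ⟦X⟧) (h0 : P0 ∈ MLz K) (h1 : P1 ∈ MLz (K - 2))
    (hTr : P0 + P1 * e2 ℚ ≠ 0) : ∃ m : ℕ, 12 * (m : ℤ) ≤ 2 * K ∧ coeff m (P0 + P1 * e2 ℚ) ≠ 0 := by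
  have hram : dA (emb (e2 ℚ)) * 12 = emb (e2 ℚ) * emb (e2 ℚ) - emb (e4 ℚ) := by
    rw [two_dA_emb]
    have h := congrArg emb (ram_e2 (R := ℚ))
    rw [map_mul, map_sub, map_pow, map_ofNat] at h
    rw [mul_comm, h, pow_two]
  have h12 : emb (C (1 / 12 : ℚ)) * 12 = 1 := by
    rw [← map_ofNat emb 12, ← map_mul, show (OfNat.ofNat 12 : ℚ⟦X⟧) = C (12 : ℚ) from (map_ofNat C 12).symm,
      ← map_mul, show (1 / 12 * 12 : ℚ) = 1 by norm_num, map_one, map_one]
  have hG : emb (P0 + P1 * e2 ℚ) ≠ 0 := fun h => hTr (two_emb_inj (by rw [h, map_zero]))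
  have hS := shid (ι := Fin 2) ![-1, 1] ![![0, C (1 / 12)], ![-C (1 / 12) * e4 ℚ, 0]] (by
      intro b b'
      fin_cases b <;> fin_cases b'
      · simp
      · have h := C_memz (1 / 12)
        simpa using h
      · have h := C_mul_memz (-(1 / 12)) two_e4_mem
        simp only [Fin.mk_one, Fin.isValue, Matrix.cons_val_one, Matrix.cons_val_zero, Fin.zero_eta,
          Matrix.cons_val_fin_one]
        rw [map_neg] at h
        exact h
      · simp)
    ![![1, emb (e2 ℚ)], ![tt, tt * emb (e2 ℚ) + 12]] (by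
      intro c b
      rw [Fin.sum_univ_two]
      fin_cases c <;> fin_cases b
      · simp only [Fin.zero_eta, Fin.isValue, Matrix.cons_val_zero, Matrix.cons_val_one,
          Matrix.cons_val_fin_one, map_zero, zero_mul, zero_add, Derivation.map_one_eq_zero]
        rw [map_mul, show (C (((-1 : ℤ) : ℚ) / 12) : ℚ⟦X⟧) = - C (1 / 12) by rw [← map_neg]; congr 1; norm_num,
          map_neg]
        ring
      · simp only [Fin.zero_eta, Fin.isValue, Fin.mk_one, Matrix.cons_val_zero, Matrix.cons_val_one,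
          Matrix.cons_val_fin_one, map_zero, zero_mul, add_zero, mul_one]
        rw [map_mul, map_mul, map_neg, show (C (((1 : ℤ) : ℚ) / 12) : ℚ⟦X⟧) = C (1 / 12) by congr 1]
        linear_combination (dA (emb (e2 ℚ))) * (-h12) + emb (C (1 / 12 : ℚ)) * hram
      · simp only [Fin.zero_eta, Fin.isValue, Fin.mk_one, Matrix.cons_val_zero, Matrix.cons_val_one,
          Matrix.cons_val_fin_one, map_zero, zero_mul, zero_add]
        rw [map_mul, show (C (((-1 : ℤ) : ℚ) / 12) : ℚ⟦X⟧) = - C (1 / 12) by rw [← map_neg]; congr 1; norm_num,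
          map_neg, two_dA_tt]
        linear_combination -h12
      · simp only [Fin.isValue, Fin.mk_one, Matrix.cons_val_zero, Matrix.cons_val_one,
          Matrix.cons_val_fin_one, map_zero, zero_mul, add_zero]
        rw [map_mul, map_mul, map_neg, show (C (((1 : ℤ) : ℚ) / 12) : ℚ⟦X⟧) = C (1 / 12) by congr 1,
          map_add, Derivation.leibniz, two_dA_tt, smul_eq_mul, smul_eq_mul, mul_one,
          show dA (12 : AA) = 0 from Derivation.map_natCast dA 12]
        linear_combination (tt * dA (emb (e2 ℚ)) + emb (e2 ℚ)) * (-h12) + emb (C (1 / 12 : ℚ)) * tt * hram)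
    (K - 1) ![P0, P1] (by
      intro b
      fin_cases b
      · simpa using h0
      · have : K - 1 - 1 = K - 2 := by ring
        simpa [this] using h1)
    (by
      rw [Fintype.linearIndependent_iff]
      intro g hg
      rw [Fin.sum_univ_two, Fin.sum_univ_two, Fin.sum_univ_two] at hg
      simp only [Fin.isValue, Matrix.cons_val_zero, Matrix.cons_val_one, Matrix.cons_val_fin_one] at hg
      rw [show emb P0 * 1 + emb P1 * emb (e2 ℚ) = emb (P0 + P1 * e2 ℚ) by rw [map_add, map_mul, mul_one],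
        show emb P0 * tt + emb P1 * (tt * emb (e2 ℚ) + 12) = tt * emb (P0 + P1 * e2 ℚ) + 12 * emb P1 by
          rw [map_add, map_mul]; ring] at hg
      have h2 := congrArg dt hg
      rw [map_add, Derivation.map_smul, Derivation.map_smul, two_dt_emb, smul_zero, zero_add, map_add,
        Derivation.leibniz, Derivation.leibniz, two_dt_emb, two_dt_emb, two_dt_tt,
        show dt (12 : AA) = 0 from Derivation.map_natCast dt 12, map_zero] at h2
      simp only [add_zero, smul_eq_mul, mul_one, zero_add, mul_zero] at h2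
      have h3 : g 1 = 0 := by
        rcases smul_eq_zero.1 h2 with h | h
        · exact h
        · exact absurd h hG
      rw [h3, zero_smul, add_zero] at hg
      have h4 : g 0 = 0 := by
        rcases smul_eq_zero.1 hg with h | h
        · exact h
        · exact absurd h hG
      intro i
      fin_cases i
      · exact h4
      · exact h3)
    0 0 ![1, e2 ℚ] (by
      intro b
      fin_cases b
      · simp
      · simp) (by simp)
  obtain ⟨m, hm1, hm2⟩ := hS
  refine ⟨m, ?_, ?_⟩
  · simp only [Fintype.card_fin, Fin.sum_univ_two, Matrix.cons_val_zero, Matrix.cons_val_one,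
      Matrix.cons_val_fin_one] at hm1
    push_cast at hm1
    linarith
  · simpa [Fin.sum_univ_two] using hm2

end Pool.Agent.L1
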