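import Pool.Agent.Lib.L1.ZELin
import Pool.Agent.Lib.L1.ZETwo

/-!
# L1.ZE: the zero estimate
PROOF. `G = ∑_β v β * eb s a b β`. Case A: some `v (inr i) ≠ 0`. Put `κ = a / b`, `v' (inr i) = C b * v (inr i)`, `v' (inl j) = v (inl j)`.
`XX s i (Y0 s a b) = C b * XX s i (C κ + Fs s)` (`XG_smul`), so `G = ∑ v' β * e β` with `e (inl 0) = 1`, `e (inl 1) = e2`,
`e (inr i) = XX s i (C κ + Fs s)`. `hTr` for `v'`: `E2` is transcendental (`e2_transcendental` over `ℂ`; base change by
`map_mem_ML`, `map_e2`, `PowerSeries.map_injective`; use it with the finset of the `i` with `wt ≥ 0`; if the weight is negative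
the form is 0). `shid` with `wt s`, `Acon s`, `Esol s κ`, `k = K - 1`, `c0 = b0 = inl 0`: bound
`J (K-1) + J (J-1) - 0 = J (K + J - 2)`, `J = s + 3` (`∑ wt = 0`).
Case B: all `v (inr i) = 0`: `zero_est_two`, with `hTr` again from `e2_transcendental`; `2 K ≤ (s+3) (K+s+1)`, `K ≥ 0`.
-/

set_option autoImplicit false

open PowerSeries

namespace Pool.Agent.L1

/-- `E2` is transcendental over the forms with rational coefficients -/
private theorem ze_trans (S : Finset ℕ) (w : ℤ) (g : ℕ → ℚ⟦X⟧)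
    (hg : ∀ i ∈ S, g i ∈ MLz (w - 2 * (i : ℤ))) (h0 : ∑ i ∈ S, g i * e2 ℚ ^ i = 0) :
    ∀ i ∈ S, g i = 0 := by
  have hneg : ∀ i ∈ S, ¬ (2 * (i : ℤ) ≤ w) → g i = 0 := by
    intro i hi hw
    exact MLz_neg (by omega) (hg i hi)
  have hpos : ∀ i ∈ S, 2 * (i : ℤ) ≤ w → g i = 0 := by
    intro i hi hw
    obtain ⟨W, rfl⟩ := Int.eq_ofNat_of_zero_le (show 0 ≤ w by omega)
    have hT := e2_transcendental (S.filter (fun i : ℕ => 2 * (i : ℤ) ≤ (W : ℤ))) W (fun i => W - 2 * i)
      (fun i => PowerSeries.map (algebraMap ℚ ℂ) (g i)) (by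
        intro j hj
        have hj2 := (Finset.mem_filter.1 hj).2
        show W - 2 * j + 2 * j = W
        omega) (by
        intro j hj
        obtain ⟨hj1, hj2⟩ := Finset.mem_filter.1 hj
        refine map_mem_ML _ ?_
        have h := hg j hj1
        have e : (W : ℤ) - 2 * (j : ℤ) = ((W - 2 * j : ℕ) : ℤ) := by omega
        rw [e, MLz_nat] at h
        exact h) (by
        have h1 : ∑ i ∈ S.filter (fun i : ℕ => 2 * (i : ℤ) ≤ (W : ℤ)), g i * e2 ℚ ^ i = 0 := by
          rw [← h0]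
          refine Finset.sum_subset (Finset.filter_subset _ _) ?_
          intro j hj hj2
          rw [hneg j hj (fun h => hj2 (Finset.mem_filter.2 ⟨hj, h⟩)), zero_mul]
        have h2 := congrArg (PowerSeries.map (algebraMap ℚ ℂ)) h1
        rw [map_sum, map_zero] at h2
        rw [← h2]
        refine Finset.sum_congr rfl fun j _ => ?_
        rw [map_mul, map_pow, map_e2])
    have h3 := hT i (Finset.mem_filter.2 ⟨hi, hw⟩)
    exact PowerSeries.map_injective (algebraMap ℚ ℂ) (algebraMap ℚ ℂ).injective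
      (by rw [h3, map_zero])
  intro i hi
  by_cases hw : 2 * (i : ℤ) ≤ w
  · exact hpos i hi hw
  · exact hneg i hi hw

private theorem ze_XX (s i : ℕ) (a b : ℚ) (hb : b ≠ 0) :
    XX s i (Y0 s a b) = C b * XX s i (C (a / b) + Fs s) := by
  have h : Y0 s a b = b • (C (a / b) + Fs s) := by
    rw [Y0, PowerSeries.smul_eq_C_mul, mul_add, ← map_mul, mul_div_cancel₀ _ hb]
  rw [h, XX, XG_smul, PowerSeries.smul_eq_C_mul]
  rfl

private theorem ze_wt_sum (s : ℕ) : ∑ β : Bl s, wt s β = 0 := by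
  rw [Fintype.sum_sum_type, Fin.sum_univ_two]
  have h1 : wt s (Sum.inl 0) = -1 := rfl
  have h2 : wt s (Sum.inl 1) = 1 := rfl
  have h3 : ∑ i : Fin (s + 1), wt s (Sum.inr i) = 0 := by
    have h4 : ∀ i : Fin (s + 1), wt s (Sum.inr i) = 2 * (i : ℤ) - s := fun i => rfl
    simp_rw [h4]
    rw [Finset.sum_sub_distrib, ← Finset.mul_sum, Finset.sum_const, Finset.card_univ,
      Fintype.card_fin, nsmul_eq_mul, Fin.sum_univ_eq_sum_range (fun a => (a : ℤ)) (s + 1)]
    have h5 := Finset.sum_range_id_mul_two (s + 1)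
    have h6 : ((∑ i ∈ Finset.range (s + 1), i : ℕ) : ℤ) * 2 = ((s + 1) * (s + 1 - 1) : ℕ) := by
      exact_mod_cast h5
    push_cast at h6 ⊢
    linarith
  rw [h1, h2, h3]
  norm_num

theorem zero_est (s : ℕ) (hs : Odd s) (hs3 : 3 ≤ s) (a b : ℚ) (hb : b ≠ 0) (K : ℤ) (hK : 0 ≤ K)
    (v : Bl s → ℚ⟦X⟧) (hv : ∀ β, v β ∈ MLz (K - 1 - wt s β)) (hne : v ≠ 0) :
    ∃ m : ℕ, 12 * (m : ℤ) ≤ (s + 3) * (K + s + 1) ∧ coeff m (∑ β, v β * eb s a b β) ≠ 0 := by
  have hv0 : v (Sum.inl 0) ∈ MLz K := by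
    have h := hv (Sum.inl 0)
    have e : K - 1 - wt s (Sum.inl 0) = K := by
      rw [show wt s (Sum.inl 0) = -1 from rfl]; ring
    rwa [e] at h
  have hv1 : v (Sum.inl 1) ∈ MLz (K - 2) := by
    have h := hv (Sum.inl 1)
    have e : K - 1 - wt s (Sum.inl 1) = K - 2 := by
      rw [show wt s (Sum.inl 1) = 1 from rfl]; ring
    rwa [e] at h
  by_cases hA : ∃ i : Fin (s + 1), v (Sum.inr i) ≠ 0
  · -- Case A
    obtain ⟨i0, hi0⟩ := hA
    obtain ⟨v', hv'inl, hv'inr⟩ : ∃ v' : Bl s → ℚ⟦X⟧, (∀ j, v' (Sum.inl j) = v (Sum.inl j)) ∧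
        (∀ i, v' (Sum.inr i) = C b * v (Sum.inr i)) :=
      ⟨Sum.elim (fun j => v (Sum.inl j)) (fun i => C b * v (Sum.inr i)), fun _ => rfl, fun _ => rfl⟩
    have hv' : ∀ β, v' β ∈ MLz (K - 1 - wt s β) := by
      rintro (j | i)
      · rw [hv'inl]; exact hv _
      · rw [hv'inr]; exact C_mul_memz _ (hv _)
    have hTr : (∑ i : Fin (s + 1), v' (.inr i) * e2 ℚ ^ (i : ℕ)) ≠ 0 := by
      intro h0
      obtain ⟨g, hgdef⟩ : ∃ g : ℕ → ℚ⟦X⟧, ∀ i : Fin (s + 1), g i = v' (Sum.inr i) :=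
        ⟨fun i => if h : i < s + 1 then v' (Sum.inr ⟨i, h⟩) else 0, fun i => by simp [i.2]⟩
      have h1 := ze_trans (Finset.range (s + 1)) (K - 1 + s) g (by
        intro i hi
        have hi2 := Finset.mem_range.1 hi
        have h2 := hv' (Sum.inr ⟨i, hi2⟩)
        rw [← hgdef ⟨i, hi2⟩] at h2
        have e : K - 1 - wt s (Sum.inr ⟨i, hi2⟩) = K - 1 + s - 2 * (i : ℤ) := by
          rw [show wt s (Sum.inr ⟨i, hi2⟩) = 2 * (i : ℤ) - s from rfl]; ring
        rw [e] at h2
        exact h2) (by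
        rw [Finset.sum_range, ← h0]
        refine Finset.sum_congr rfl fun i _ => ?_
        rw [hgdef])
      have h2 := h1 i0 (Finset.mem_range.2 i0.2)
      rw [hgdef, hv'inr] at h2
      rcases mul_eq_zero.1 h2 with h3 | h3
      · exact hb (by
          have h4 := congrArg (coeff 0) h3
          rw [coeff_C, map_zero] at h4
          simpa using h4)
      · exact hi0 h3
    have hlin := lin_indep s (by omega) (a / b) K v' hv' hTr
    obtain ⟨e, he0, he1, hei⟩ : ∃ e : Bl s → ℚ⟦X⟧, e (Sum.inl 0) = 1 ∧ e (Sum.inl 1) = e2 ℚ ∧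
        ∀ i : Fin (s + 1), e (Sum.inr i) = XX s i (C (a / b) + Fs s) :=
      ⟨fun β => Sum.elim (fun j => if j = 0 then 1 else e2 ℚ) (fun i => XX s i (C (a / b) + Fs s)) β,
        rfl, rfl, fun _ => rfl⟩
    have hE : ∀ β, Esol s (a / b) (Sum.inl 0) β = emb (e β) := by
      rintro (j | i)
      · fin_cases j
        · show (1 : AA) = emb (e (Sum.inl 0))
          rw [he0, map_one]
        · show emb (e2 ℚ) * 1 + (12 : ℚ) • dA 1 = emb (e (Sum.inl 1))
          rw [he1, Derivation.map_one_eq_zero, smul_zero, add_zero, mul_one]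
      · show XG dA (emb (e2 ℚ)) s i (emb (C (a / b) + Fs s)) = emb (e (Sum.inr i))
        rw [hei, XX, XG_map DqDer dA emb (fun x => by rw [dA_emb, DqDer_apply])]
    obtain ⟨m, hm1, hm2⟩ := shid (wt s) (Acon s) (Acon_mem s hs hs3) (Esol s (a / b))
      (sol_eq s (by omega) (a / b)) (K - 1) v' hv' hlin (Sum.inl 0) (Sum.inl 0) e hE he0
    refine ⟨m, ?_, ?_⟩
    · rw [ze_wt_sum] at hm1
      have hc : (Fintype.card (Bl s) : ℤ) = s + 3 := by
        rw [Fintype.card_sum, Fintype.card_fin, Fintype.card_fin]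
        push_cast
        ring
      rw [hc] at hm1
      have : ((s : ℤ) + 3) * (K - 1) + (s + 3) * (s + 3 - 1) - 0 = (s + 3) * (K + s + 1) := by ring
      rw [this] at hm1
      exact hm1
    · have hS : ∑ β, v' β * e β = ∑ β, v β * eb s a b β := by
        rw [Fintype.sum_sum_type, Fintype.sum_sum_type, Fin.sum_univ_two, Fin.sum_univ_two]
        congr 1
        · rw [hv'inl, hv'inl, he0, he1]
          rfl
        · refine Finset.sum_congr rfl fun i _ => ?_
          rw [hv'inr, hei]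
          show C b * v (Sum.inr i) * XX s i (C (a / b) + Fs s) = v (Sum.inr i) * XX s i (Y0 s a b)
          rw [ze_XX s i a b hb]
          ring
      rw [← hS]
      exact hm2
  · -- Case B
    push Not at hA
    have hG : ∑ β, v β * eb s a b β = v (Sum.inl 0) + v (Sum.inl 1) * e2 ℚ := by
      rw [Fintype.sum_sum_type, Fin.sum_univ_two]
      have h1 : ∑ i : Fin (s + 1), v (Sum.inr i) * eb s a b (Sum.inr i) = 0 :=
        Finset.sum_eq_zero fun i _ => by rw [hA i, zero_mul]
      rw [h1, add_zero]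
      show v (Sum.inl 0) * 1 + v (Sum.inl 1) * e2 ℚ = _
      rw [mul_one]
    have hTr : v (Sum.inl 0) + v (Sum.inl 1) * e2 ℚ ≠ 0 := by
      intro h0
      have h1 := ze_trans (Finset.range 2) K (fun i => if i = 0 then v (Sum.inl 0) else v (Sum.inl 1)) (by
        intro i hi
        have hi2 := Finset.mem_range.1 hi
        rcases Nat.eq_zero_or_pos i with h | h
        · subst h
          simpa using hv0
        · have h3 : i = 1 := by omega
          subst h3
          simpa using hv1) (by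
        rw [Finset.sum_range_succ, Finset.sum_range_one]
        simpa using h0)
      have h2 : v (Sum.inl 0) = 0 := by simpa using h1 0 (by simp)
      have h3 : v (Sum.inl 1) = 0 := by simpa using h1 1 (by simp)
      apply hne
      funext β
      rcases β with j | i
      · fin_cases j
        · exact h2
        · exact h3
      · exact hA i
    obtain ⟨m, hm1, hm2⟩ := zero_est_two K (v (Sum.inl 0)) (v (Sum.inl 1)) hv0 hv1 hTr
    refine ⟨m, ?_, ?_⟩
    · have hs' : (0 : ℤ) ≤ s := Int.natCast_nonneg s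
      nlinarith [mul_nonneg hs' hK]
    · rw [hG]; exact hm2

end Pool.Agent.L1
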