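import Pool.Agent.Lib.L1.ZESol
import Pool.Agent.Lib.L1.FInd

/-!
# L1.ZELin: linear independence of the `J` functions `∑_b v_b E_{c,b}`
PROOF. Let `v` be the coefficients, `g_i = v (inr i)`, not all `g_i = 0`. For a pair `(y, w)` put
`ev (y, w) = ∑_b emb (v b) * cvec s y w b`: linear in `(y, w)`, and `ev (dt y, dt w) = dt (ev (y, w))` (`dt` is a derivation
which kills `emb f` and commutes with `dA`). Suppose `∑_c β_c u_c = 0`, i.e. `ev (y, w) = 0` for
`(y, w) = ∑ β_c solp c`, `β ≠ 0`: `y = p(t) + β_0 Y + β_1 (t Y + (g0/s!) t^(s+1))`, `w = β_0 + β_1 t`, `Y = emb (κ+F)`, `p` polynomial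
of degree `≤ s` with coefficients `β (inr i)`.
1. If `β_1 ≠ 0`, apply `dt` once: `(p' + β_1 Y + ..., β_1)`: a pair of the shape `(r(t) + β Y, β)`, `r` a polynomial, `β ≠ 0`,
with `ev = 0`. So we may assume `(y, w) = (r(t) + β Y, β)`, not both `r`, `β` zero.
2. If `deg r = d ≥ 1` apply `dt` `d` times: `(const ≠ 0, 0)`; the same if `β = 0`, `r` constant. Then
`0 = ev (1, 0) = ∑ emb (g_i) XG dA (emb e2) s i 1 = s! ∑ emb (g_i e2^i)`, so `∑ g_i e2^i = 0`: contradiction to `hTr`.
3. `(r0 + β Y, β)` with `β ≠ 0`: `0 = ev / β = emb (P0 + P1 e2 + ∑ g_i XX s i (C (κ + r0/β) + F))`: contradiction to `F_indep`.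
(`emb` is injective; `emb (XX s i y) = XG dA (emb e2) s i (emb y)` by `XG_map`.)
-/

set_option autoImplicit false

open PowerSeries

namespace Pool.Agent.L1

/-- the pairing of the coefficients `v` with the vector of the pair `(y, w)` -/
private noncomputable def zev (s : ℕ) (v : Bl s → ℚ⟦X⟧) (y w : AA) : AA :=
  ∑ b, emb (v b) * cvec s y w b

private theorem cvec_add (s : ℕ) (y y' w w' : AA) (b : Bl s) :
    cvec s (y + y') (w + w') b = cvec s y w b + cvec s y' w' b := by
  rcases b with j | i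
  · by_cases hj : j = 0
    · simp only [cvec, if_pos hj]
    · simp only [cvec, if_neg hj, map_add, smul_add]
      ring
  · simp only [cvec, XG_add]

private theorem cvec_smul (s : ℕ) (c : ℚ) (y w : AA) (b : Bl s) :
    cvec s (c • y) (c • w) b = c • cvec s y w b := by
  rcases b with j | i
  · by_cases hj : j = 0
    · simp only [cvec, if_pos hj]
    · simp only [cvec, if_neg hj]
      rw [Derivation.map_smul, smul_add, mul_smul_comm, smul_comm]
  · simp only [cvec, XG_smul]

private theorem dA_iter_dt (l : ℕ) (u : AA) : dA^[l] (dt u) = dt (dA^[l] u) := by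
  induction l with
  | zero => rfl
  | succ l ih => rw [Function.iterate_succ_apply', ih, dA_dt, Function.iterate_succ_apply']

private theorem dt_emb_mul (f : ℚ⟦X⟧) (u : AA) : dt (emb f * u) = emb f * dt u := by
  rw [Derivation.leibniz, dt_emb, smul_zero, add_zero, smul_eq_mul]

private theorem XG_dt (s i : ℕ) (f : ℚ⟦X⟧) (u : AA) :
    XG dA (emb f) s i (dt u) = dt (XG dA (emb f) s i u) := by
  unfold XG
  rw [map_sum]
  refine Finset.sum_congr rfl fun l _ => ?_
  rw [Derivation.map_smul, ← map_pow, dt_emb_mul, dA_iter_dt]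

private theorem cvec_dt (s : ℕ) (y w : AA) (b : Bl s) :
    cvec s (dt y) (dt w) b = dt (cvec s y w b) := by
  rcases b with j | i
  · by_cases hj : j = 0
    · simp only [cvec, if_pos hj]
    · simp only [cvec, if_neg hj]
      rw [map_add, Derivation.map_smul, dt_emb_mul, dA_dt]
  · simp only [cvec, XG_dt]

private theorem zev_add (s : ℕ) (v : Bl s → ℚ⟦X⟧) (y y' w w' : AA) :
    zev s v (y + y') (w + w') = zev s v y w + zev s v y' w' := by
  unfold zev
  rw [← Finset.sum_add_distrib]
  refine Finset.sum_congr rfl fun b _ => ?_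
  rw [cvec_add, mul_add]

private theorem zev_smul (s : ℕ) (v : Bl s → ℚ⟦X⟧) (c : ℚ) (y w : AA) :
    zev s v (c • y) (c • w) = c • zev s v y w := by
  unfold zev
  rw [Finset.smul_sum]
  refine Finset.sum_congr rfl fun b _ => ?_
  rw [cvec_smul, mul_smul_comm]

private theorem zev_zero (s : ℕ) (v : Bl s → ℚ⟦X⟧) : zev s v 0 0 = 0 := by
  have h := zev_smul s v 0 0 0
  simpa using h

private theorem zev_dt (s : ℕ) (v : Bl s → ℚ⟦X⟧) (y w : AA) :
    zev s v (dt y) (dt w) = dt (zev s v y w) := by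
  unfold zev
  rw [map_sum]
  refine Finset.sum_congr rfl fun b _ => ?_
  rw [cvec_dt, dt_emb_mul]

private theorem zev_sum {ι : Type*} (s : ℕ) (v : Bl s → ℚ⟦X⟧) (S : Finset ι) (β : ι → ℚ)
    (p : ι → AA × AA) :
    ∑ c ∈ S, β c • zev s v (p c).1 (p c).2 =
      zev s v (∑ c ∈ S, β c • (p c).1) (∑ c ∈ S, β c • (p c).2) := by
  classical
  induction S using Finset.induction_on with
  | empty => simp [zev_zero]
  | insert c S hc ih =>
    rw [Finset.sum_insert hc, Finset.sum_insert hc, Finset.sum_insert hc, zev_add, zev_smul, ih]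

private theorem emb_inj : Function.Injective emb := by
  intro f g h
  ext n
  have h1 := congrArg (coeff n) h
  rw [coeff_emb, coeff_emb] at h1
  exact Polynomial.C_injective h1

private theorem emb_C (c : ℚ) : emb (C c) = c • (1 : AA) := by
  ext1 n
  rw [coeff_emb]
  have h : coeff n (c • (1 : AA)) = c • coeff n (1 : AA) := rfl
  rw [h, coeff_C, coeff_one]
  split_ifs
  · rw [Polynomial.smul_eq_C_mul, mul_one]
  · rw [Polynomial.C_0, smul_zero]

/-- the polynomial `r(t)` -/
private noncomputable def zp (r : Polynomial ℚ) : AA := C r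

private theorem dt_zp (r : Polynomial ℚ) : dt (zp r) = zp (Polynomial.derivative r) := by
  unfold zp
  ext1 n
  rw [coeff_dt, coeff_C, coeff_C]
  split_ifs
  · rfl
  · simp

private theorem zp_const (c : ℚ) : zp (Polynomial.C c) = c • (1 : AA) := by
  unfold zp
  ext1 n
  have h : coeff n (c • (1 : AA)) = c • coeff n (1 : AA) := rfl
  rw [h, coeff_C, coeff_one]
  split_ifs
  · rw [Polynomial.smul_eq_C_mul, mul_one]
  · rw [smul_zero]

private theorem dA_iter_one (l : ℕ) : dA^[l + 1] (1 : AA) = 0 := by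
  induction l with
  | zero => simp
  | succ l ih => rw [Function.iterate_succ_apply', ih, map_zero]

private theorem XG_one (s i : ℕ) (e : AA) : XG dA e s i 1 = (s.factorial : ℚ) • e ^ i := by
  unfold XG
  rw [Finset.sum_range_succ', Finset.sum_eq_zero, zero_add]
  · simp [cf]
  · intro l _
    rw [dA_iter_one, mul_zero, smul_zero]

private theorem zev_one (s : ℕ) (v : Bl s → ℚ⟦X⟧) :
    zev s v 1 0 = (s.factorial : ℚ) • emb (∑ i : Fin (s + 1), v (.inr i) * e2 ℚ ^ (i : ℕ)) := by
  unfold zev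
  rw [Fintype.sum_sum_type]
  have h1 : ∑ a : Fin 2, emb (v (.inl a)) * cvec s 1 0 (.inl a) = 0 := by
    refine Finset.sum_eq_zero fun j _ => ?_
    by_cases hj : j = 0
    · simp only [cvec, if_pos hj, mul_zero]
    · simp only [cvec, if_neg hj, mul_zero, map_zero, smul_zero, add_zero]
  rw [h1, zero_add, map_sum, Finset.smul_sum]
  refine Finset.sum_congr rfl fun i _ => ?_
  simp only [cvec]
  rw [XG_one, map_mul, map_pow, mul_smul_comm]

private theorem zev_one_ne (s : ℕ) (v : Bl s → ℚ⟦X⟧)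
    (hTr : (∑ i : Fin (s + 1), v (.inr i) * e2 ℚ ^ (i : ℕ)) ≠ 0) : zev s v 1 0 ≠ 0 := by
  rw [zev_one]
  intro h
  have hf : (s.factorial : ℚ) ≠ 0 := by exact_mod_cast s.factorial_ne_zero
  have h1 := (smul_eq_zero.1 h).resolve_left hf
  exact hTr (emb_inj (by rw [h1, map_zero]))

private theorem zev_poly (s : ℕ) (v : Bl s → ℚ⟦X⟧)
    (hTr : (∑ i : Fin (s + 1), v (.inr i) * e2 ℚ ^ (i : ℕ)) ≠ 0) :
    ∀ (d : ℕ) (r : Polynomial ℚ), r.natDegree ≤ d → zev s v (zp r) 0 = 0 → r = 0 := by
  intro d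
  induction d with
  | zero =>
    intro r hd h
    have hr : r = Polynomial.C (r.coeff 0) := Polynomial.eq_C_of_natDegree_le_zero hd
    rw [hr, zp_const] at h
    have h2 := zev_smul s v (r.coeff 0) 1 0
    rw [smul_zero, h] at h2
    have h3 := (smul_eq_zero.1 h2.symm).resolve_right (zev_one_ne s v hTr)
    rw [hr, h3, Polynomial.C_0]
  | succ d ih =>
    intro r hd h
    have h1 : zev s v (zp (Polynomial.derivative r)) 0 = 0 := by
      have h2 := zev_dt s v (zp r) 0
      rw [h, map_zero, dt_zp] at h2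
      exact h2
    have h2 := ih (Polynomial.derivative r)
      (by have := Polynomial.natDegree_derivative_le r; omega) h1
    have h3 : r.natDegree = 0 := Polynomial.derivative_eq_zero.1 h2
    exact ih r (by omega) h

private theorem zev_const (s : ℕ) (hs : 1 ≤ s) (κ : ℚ) (K : ℤ) (v : Bl s → ℚ⟦X⟧)
    (hv : ∀ b, v b ∈ MLz (K - 1 - wt s b))
    (hTr : (∑ i : Fin (s + 1), v (.inr i) * e2 ℚ ^ (i : ℕ)) ≠ 0) :
    zev s v (emb (C κ + Fs s)) 1 ≠ 0 := by
  intro h
  unfold zev at h
  rw [Fintype.sum_sum_type, Fin.sum_univ_two] at h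
  have e0 : cvec s (emb (C κ + Fs s)) 1 (.inl 0) = emb 1 := by
    simp only [cvec, if_true, map_one]
  have e1 : cvec s (emb (C κ + Fs s)) 1 (.inl 1) = emb (e2 ℚ) := by
    simp only [cvec]
    rw [if_neg (by decide), mul_one, Derivation.map_one_eq_zero, smul_zero, add_zero]
  have ei : ∀ i : Fin (s + 1), cvec s (emb (C κ + Fs s)) 1 (.inr i) =
      emb (XX s i (C κ + Fs s)) := by
    intro i
    simp only [cvec]
    unfold XX
    rw [XG_map DqDer dA emb (fun x => by rw [dA_emb, DqDer_apply])]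
  rw [e0, e1, ← map_mul, ← map_mul, ← map_add] at h
  have h2 : ∑ i : Fin (s + 1), emb (v (.inr i)) * cvec s (emb (C κ + Fs s)) 1 (.inr i) =
      emb (∑ i : Fin (s + 1), v (.inr i) * XX s i (C κ + Fs s)) := by
    rw [map_sum]
    refine Finset.sum_congr rfl fun i _ => ?_
    rw [ei, map_mul]
  rw [h2, ← map_add] at h
  have h3 : v (.inl 0) * 1 + v (.inl 1) * e2 ℚ +
      ∑ i : Fin (s + 1), v (.inr i) * XX s i (C κ + Fs s) = 0 := emb_inj (by rw [h, map_zero])
  rw [mul_one] at h3
  set g : ℕ → ℚ⟦X⟧ := fun i => if h : i < s + 1 then v (.inr ⟨i, h⟩) else 0 with hg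
  have hgi : ∀ i : Fin (s + 1), g i = v (.inr i) := by
    intro i
    simp only [hg, dif_pos i.isLt]
  refine F_indep s hs K κ (v (.inl 0)) (v (.inl 1)) g ?_ ?_ ?_ ?_ ?_
  · have := hv (.inl 0)
    have e : K - 1 - wt s (.inl 0) = K := by simp only [wt, if_true]; ring
    rwa [e] at this
  · have := hv (.inl 1)
    have e : K - 1 - wt s (.inl 1) = K - 2 := by
      simp only [wt]
      rw [if_neg (by decide)]
      ring
    rwa [e] at this
  · intro i hi
    have := hv (.inr ⟨i, by omega⟩)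
    have e : K - 1 - wt s (.inr ⟨i, by omega⟩) = K - 1 + s - 2 * i := by
      simp only [wt]
      ring
    rw [e] at this
    simp only [hg]
    rw [dif_pos (by omega : i < s + 1)]
    exact this
  · rw [Finset.sum_range]
    simp only [hgi]
    exact hTr
  · rw [Finset.sum_range]
    simp only [hgi]
    exact h3

private theorem zev_shape (s : ℕ) (hs : 1 ≤ s) (κ : ℚ) (K : ℤ) (v : Bl s → ℚ⟦X⟧)
    (hv : ∀ b, v b ∈ MLz (K - 1 - wt s b))
    (hTr : (∑ i : Fin (s + 1), v (.inr i) * e2 ℚ ^ (i : ℕ)) ≠ 0) (r : Polynomial ℚ) (β : ℚ)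
    (hβ : β ≠ 0) (h : zev s v (zp r + β • emb (C κ + Fs s)) (β • 1) = 0) : False := by
  have h1 : zev s v (zp (Polynomial.derivative r)) 0 = 0 := by
    have h2 := zev_dt s v (zp r + β • emb (C κ + Fs s)) (β • 1)
    rw [h, map_zero, map_add, dt_zp, Derivation.map_smul, Derivation.map_smul, dt_emb,
      Derivation.map_one_eq_zero, smul_zero, add_zero] at h2
    exact h2
  have h2 := zev_poly s v hTr _ _ le_rfl h1
  have h3 : r.natDegree = 0 := Polynomial.derivative_eq_zero.1 h2
  have hr : r = Polynomial.C (r.coeff 0) := Polynomial.eq_C_of_natDegree_le_zero (by omega)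
  rw [hr, zp_const] at h
  have h4 : (r.coeff 0) • (1 : AA) + β • emb (C κ + Fs s) =
      β • emb (C (κ + r.coeff 0 / β) + Fs s) := by
    have e1 : β • (r.coeff 0 / β) • (1 : AA) = (r.coeff 0) • (1 : AA) := by
      rw [smul_smul]
      congr 1
      field_simp
    rw [map_add, map_add, map_add, map_add, emb_C, emb_C, smul_add, smul_add, smul_add, e1]
    ring
  rw [h4, zev_smul] at h
  exact zev_const s hs _ K v hv hTr ((smul_eq_zero.1 h).resolve_left hβ)

theorem lin_indep (s : ℕ) (hs : 1 ≤ s) (κ : ℚ) (K : ℤ) (v : Bl s → ℚ⟦X⟧)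
    (hv : ∀ b, v b ∈ MLz (K - 1 - wt s b))
    (hTr : (∑ i : Fin (s + 1), v (.inr i) * e2 ℚ ^ (i : ℕ)) ≠ 0) :
    LinearIndependent ℚ (fun c : Bl s => ∑ b, emb (v b) * Esol s κ c b) := by
  rw [Fintype.linearIndependent_iff]
  intro β h
  have h0 : ∑ c : Bl s, β c • zev s v (solp s κ c).1 (solp s κ c).2 = 0 := h
  rw [zev_sum] at h0
  set Y := emb (C κ + Fs s) with hY
  set b0 := β (.inl 0) with hb0
  set b1 := β (.inl 1) with hb1
  set p : Polynomial ℚ := ∑ i : Fin (s + 1), Polynomial.C (β (.inr i)) * Polynomial.X ^ (i : ℕ) with hp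
  have hpt : ∑ i : Fin (s + 1), β (.inr i) • tt ^ (i : ℕ) = zp p := by
    unfold zp
    rw [hp, map_sum]
    refine Finset.sum_congr rfl fun i _ => ?_
    rw [← Polynomial.smul_eq_C_mul]
    unfold tt
    rw [← map_pow]
    ext1 n
    have h : coeff n (β (.inr i) • (C (Polynomial.X ^ (i : ℕ)) : AA)) =
      β (.inr i) • coeff n (C (Polynomial.X ^ (i : ℕ)) : AA) := rfl
    rw [h, coeff_C, coeff_C]
    split_ifs
    · rfl
    · rw [smul_zero]
  have hy : ∑ c : Bl s, β c • (solp s κ c).1 =
      zp p + b0 • Y + b1 • (tt * Y + (g0 s / (s.factorial : ℚ)) • tt ^ (s + 1)) := by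
    rw [Fintype.sum_sum_type, Fin.sum_univ_two]
    simp only [solp]
    rw [hpt, if_pos trivial, if_neg (by decide)]
    ring
  have hw : ∑ c : Bl s, β c • (solp s κ c).2 = b0 • (1 : AA) + b1 • tt := by
    rw [Fintype.sum_sum_type, Fin.sum_univ_two]
    simp only [solp]
    rw [if_pos trivial, if_neg (by decide)]
    simp only [smul_zero, Finset.sum_const_zero, add_zero]
    rfl
  rw [hy, hw] at h0
  have hb1z : b1 = 0 := by
    by_contra hne
    have h1 := zev_dt s v (zp p + b0 • Y + b1 • (tt * Y + (g0 s / (s.factorial : ℚ)) • tt ^ (s + 1)))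
      (b0 • (1 : AA) + b1 • tt)
    rw [h0, map_zero] at h1
    have e1 : dt (b0 • (1 : AA) + b1 • tt) = b1 • 1 := by
      rw [map_add, Derivation.map_smul, Derivation.map_smul, Derivation.map_one_eq_zero, dt_tt,
        smul_zero, zero_add]
    have e2' : dt (zp p + b0 • Y + b1 • (tt * Y + (g0 s / (s.factorial : ℚ)) • tt ^ (s + 1))) =
        zp (Polynomial.derivative p + Polynomial.C (b1 * (g0 s / (s.factorial : ℚ)) * ((s + 1 : ℕ) : ℚ)) *
          Polynomial.X ^ s) + b1 • Y := by
      have e3 : dt (tt * Y) = Y := by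
        rw [Derivation.leibniz, hY, dt_emb, dt_tt, smul_zero, zero_add, smul_eq_mul, mul_one]
      have e4' : dt (tt ^ (s + 1)) = ((s + 1 : ℕ) : ℚ) • tt ^ s := by
        rw [Derivation.leibniz_pow, dt_tt]
        simp only [Nat.add_sub_cancel, smul_eq_mul, mul_one]
        rw [Nat.cast_smul_eq_nsmul]
      have e5 : ∀ c : ℚ, c • tt ^ s = zp (Polynomial.C c * Polynomial.X ^ s) := by
        intro c
        unfold zp tt
        rw [← map_pow, ← Polynomial.smul_eq_C_mul]
        ext1 n
        have h : coeff n (c • (C (Polynomial.X ^ s) : AA)) =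
          c • coeff n (C (Polynomial.X ^ s) : AA) := rfl
        rw [h, coeff_C, coeff_C]
        split_ifs
        · rfl
        · rw [smul_zero]
      have e6 : zp (Polynomial.derivative p + Polynomial.C (b1 * (g0 s / (s.factorial : ℚ)) * ((s + 1 : ℕ) : ℚ)) *
          Polynomial.X ^ s) = zp (Polynomial.derivative p) +
          (b1 * (g0 s / (s.factorial : ℚ)) * ((s + 1 : ℕ) : ℚ)) • tt ^ s := by
        rw [e5]
        unfold zp
        rw [map_add]
      rw [e6, map_add, map_add, dt_zp, Derivation.map_smul, Derivation.map_smul, map_add,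
        Derivation.map_smul, e3, e4', hY, dt_emb, smul_zero, add_zero, smul_add, smul_smul, smul_smul]
      ring
    rw [e1, e2'] at h1
    exact zev_shape s hs κ K v hv hTr _ b1 hne h1
  rw [hb1z, zero_smul, zero_smul, add_zero, add_zero] at h0
  have hb0z : b0 = 0 := by
    by_contra hne
    exact zev_shape s hs κ K v hv hTr _ b0 hne h0
  rw [hb0z, zero_smul, zero_smul, add_zero] at h0
  have hp0 := zev_poly s v hTr _ _ le_rfl h0
  intro c
  rcases c with j | i
  · fin_cases j
    · exact hb0z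
    · exact hb1z
  · have h1 := congrArg (fun q : Polynomial ℚ => q.coeff (i : ℕ)) hp0
    simp only [hp, Polynomial.finsetSum_coeff, Polynomial.coeff_C_mul, Polynomial.coeff_X_pow,
      Polynomial.coeff_zero] at h1
    rw [Finset.sum_eq_single i] at h1
    · simpa using h1
    · intro j _ hj
      rw [if_neg (fun h => hj (Fin.ext h.symm)), mul_zero]
    · intro h
      exact absurd (Finset.mem_univ i) h

end Pool.Agent.L1
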