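import Pool.Agent.Lib.L1.Rec
import Pool.Agent.Lib.L1.FrobDefs
import Pool.Agent.Lib.L1.MLz
import Pool.Agent.Lib.L1.Eis

/-!
# L1.ZESol: the linear system of the blocks
The pair `(y, w)` gives the vector `cvec (y, w)`: `w`, `e2 w + 12 δ w`, `XG dA (emb e2) s i y`.
`sol`: `(emb y, 1)`, `(t emb y + g0/s! t^(s+1), t)`, `(t^i, 0)`, where `y = κ + F`, `g0 = -B_{s+1}/(2(s+1))`.
PROOF of `sol_eq`. `δ (emb f) = emb (Dq f)`; `12 δ e2 = e2^2 - e4` (Ramanujan `ram_e2`, through `emb`); `δ t = 1`.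
For all `(y, w)` with `δ^2 w = 0` and `δ^(s+1) y = w δ(G) + (s+1) G δ w`, `G = emb (GG s)`:
 row `inl 0`: `δ w + (1/12) e2 w = (1/12) (e2 w + 12 δ w)`;
 row `inl 1`: `δ(e2 w + 12 δ w) - (1/12) e2 (e2 w + 12 δ w) = (δ e2 - e2^2/12) w = -(1/12) e4 w`;
 row `inr i`, `i < s`: `XG_rec`; row `inr s`: `XG_top` and
 `δ^(s+1) y = w (sd (s+1) G) + ((s+1)/12) G (e2 w + 12 δ w)` as `δ G = sd (s+1) G + ((s+1)/12) e2 G`.
The three kinds of solutions: `y = emb (κ + F)`, `w = 1`: `δ^(s+1) y = emb (D^(s+1) F) = emb (D sg s)` because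
`n^s σ_{-s}(n) = σ_s(n)`, so `D^s F = sg s = GG s - C g0`. `y = t^i`, `i ≤ s`, `w = 0`: `δ^(s+1) t^i = 0` (`δ^(i+1) t^i = 0`).
`w = t`: `δ^(s+1) (t u) = t δ^(s+1) u + (s+1) δ^s u` with `u = emb (κ+F)`, `δ^s u = emb (sg s)` (`s ≥ 1`), and
`δ^(s+1) ((g0/s!) t^(s+1)) = (g0/s!) (s+1)! = (s+1) g0`; sum = `t δ G + (s+1) G`.
`Acon_mem`: `GG s ∈ ML ℚ (s+1)` by `eis_mem_ML` (`s+1` even, `≥ 4`); the weights: `wt b + 2 - wt b'`.
-/

set_option autoImplicit false

open PowerSeries

namespace Pool.Agent.L1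

/-- the constant term of the Eisenstein series of weight `s+1` -/
noncomputable def g0 (s : ℕ) : ℚ := -(_root_.bernoulli (s + 1)) / (2 * ((s + 1 : ℕ) : ℚ))

noncomputable def GG (s : ℕ) : ℚ⟦X⟧ := C (g0 s) + sg s

/-- the vector of a pair `(y, w)` -/
noncomputable def cvec (s : ℕ) (y w : AA) : Bl s → AA
  | .inl j => if j = 0 then w else emb (e2 ℚ) * w + (12 : ℚ) • dA w
  | .inr i => XG dA (emb (e2 ℚ)) s i y

/-- the solutions `(y, w)` -/
noncomputable def solp (s : ℕ) (κ : ℚ) : Bl s → AA × AA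
  | .inl j => if j = 0 then (emb (C κ + Fs s), 1)
      else (tt * emb (C κ + Fs s) + (g0 s / (s.factorial : ℚ)) • tt ^ (s + 1), tt)
  | .inr i => (tt ^ (i : ℕ), 0)

noncomputable def Esol (s : ℕ) (κ : ℚ) (c b : Bl s) : AA := cvec s (solp s κ c).1 (solp s κ c).2 b

/-- the matrix of the system -/
noncomputable def Acon (s : ℕ) : Bl s → Bl s → ℚ⟦X⟧
  | .inl i, .inl j => if i = 0 ∧ j = 1 then C (1 / 12 : ℚ) else if i = 1 ∧ j = 0 then -(C (1 / 12 : ℚ) * e4 ℚ) else 0
  | .inl _, .inr _ => 0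
  | .inr i, .inl j => if (i : ℕ) = s then
      (if j = 0 then C (12 ^ s : ℚ) * sd (s + 1) (GG s) else C ((12 : ℚ) ^ s * (s + 1) / 12) * GG s) else 0
  | .inr i, .inr j => if (j : ℕ) = i + 1 then C (((s : ℚ) - i) / 12)
      else if (j : ℕ) + 1 = i then -(C ((i : ℚ) / 12) * e4 ℚ) else 0

theorem sg_eq_sgQ (m : ℕ) : sg m = sgQ m := rfl

theorem dA_emb (f : ℚ⟦X⟧) : dA (emb f) = emb (Dq f) := by
  ext1 n
  rw [coeff_dA, coeff_emb, coeff_emb, coeff_Dq, Polynomial.derivative_C, add_zero, map_mul, map_natCast]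

theorem dt_emb (f : ℚ⟦X⟧) : dt (emb f) = 0 := by
  ext1 n
  rw [coeff_dt, coeff_emb, Polynomial.derivative_C, map_zero]

private theorem zs_coeff_tt (n : ℕ) : coeff n tt = if n = 0 then Polynomial.X else 0 := by
  unfold tt
  rw [coeff_C]

theorem dA_tt : dA tt = 1 := by
  ext1 n
  rw [coeff_dA, zs_coeff_tt, coeff_one]
  split_ifs with h
  · rw [h, Nat.cast_zero, zero_mul, zero_add, Polynomial.derivative_X]
  · rw [mul_zero, zero_add, map_zero]

theorem dt_tt : dt tt = 1 := by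
  ext1 n
  rw [coeff_dt, zs_coeff_tt, coeff_one]
  split_ifs with h
  · rw [Polynomial.derivative_X]
  · rw [map_zero]

theorem dA_dt (u : AA) : dA (dt u) = dt (dA u) := by
  ext1 n
  rw [coeff_dA, coeff_dt, coeff_dt, coeff_dA, map_add, Polynomial.derivative_mul,
    Polynomial.derivative_natCast, zero_mul, zero_add]

private theorem zs_GG_mem (s : ℕ) (hs : Odd s) (hs3 : 3 ≤ s) : GG s ∈ MLz ((s : ℤ) + 1) := by
  have h := eis_mem_ML (k := s + 1) (by omega) hs.add_one
  have e : ((s : ℤ) + 1) = ((s + 1 : ℕ) : ℤ) := by push_cast; rfl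
  rw [e, MLz_nat]
  exact h

private theorem zs_e4_mem : (e4 ℚ) ∈ MLz 4 := by
  have h : (4 : ℤ) = ((4 : ℕ) : ℤ) := rfl
  rw [h, MLz_nat]
  exact e4_mem

theorem Acon_mem (s : ℕ) (hs : Odd s) (hs3 : 3 ≤ s) (b b' : Bl s) :
    Acon s b b' ∈ MLz (wt s b + 2 - wt s b') := by
  rcases b with i | i <;> rcases b' with j | j
  · change (if i = 0 ∧ j = 1 then C (1 / 12 : ℚ) else
      if i = 1 ∧ j = 0 then -(C (1 / 12 : ℚ) * e4 ℚ) else 0) ∈
        MLz ((if i = 0 then -1 else 1) + 2 - (if j = 0 then -1 else 1))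
    split_ifs with h1 h2 h3 h4 h5 h6 h7 h8 h9 h10 h11
    all_goals first
      | exact Submodule.zero_mem _
      | exact C_memz _
      | exact Submodule.neg_mem _ (C_mul_memz _ zs_e4_mem)
      | (exfalso; omega)
  · change (0 : ℚ⟦X⟧) ∈ _
    exact Submodule.zero_mem _
  · change (if (i : ℕ) = s then
      (if j = 0 then C (12 ^ s : ℚ) * sd (s + 1) (GG s) else C ((12 : ℚ) ^ s * (s + 1) / 12) * GG s)
        else 0) ∈ MLz ((2 * ((i : ℕ) : ℤ) - s) + 2 - (if j = 0 then -1 else 1))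
    by_cases hi : (i : ℕ) = s
    · rw [if_pos hi, hi]
      by_cases hj : j = 0
      · rw [if_pos hj, if_pos hj]
        have e : (2 * (s : ℤ) - s) + 2 - (-1) = ((s : ℤ) + 1) + 2 := by ring
        rw [e]
        exact C_mul_memz _ (sd_memz (zs_GG_mem s hs hs3))
      · rw [if_neg hj, if_neg hj]
        have e : (2 * (s : ℤ) - s) + 2 - 1 = (s : ℤ) + 1 := by ring
        rw [e]
        exact C_mul_memz _ (zs_GG_mem s hs hs3)
    · rw [if_neg hi]
      exact Submodule.zero_mem _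
  · change (if (j : ℕ) = i + 1 then C (((s : ℚ) - (i : ℕ)) / 12)
      else if (j : ℕ) + 1 = i then -(C (((i : ℕ) : ℚ) / 12) * e4 ℚ) else 0) ∈
        MLz ((2 * ((i : ℕ) : ℤ) - s) + 2 - (2 * ((j : ℕ) : ℤ) - s))
    by_cases h1 : (j : ℕ) = i + 1
    · rw [if_pos h1, h1]
      have e : (2 * ((i : ℕ) : ℤ) - s) + 2 - (2 * (((i : ℕ) + 1 : ℕ) : ℤ) - s) = 0 := by
        push_cast; ring
      rw [e]
      exact C_memz _
    · rw [if_neg h1]
      by_cases h2 : (j : ℕ) + 1 = i
      · rw [if_pos h2, ← h2]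
        have e : (2 * (((j : ℕ) + 1 : ℕ) : ℤ) - s) + 2 - (2 * ((j : ℕ) : ℤ) - s) = 4 := by
          push_cast; ring
        rw [e]
        exact Submodule.neg_mem _ (C_mul_memz _ zs_e4_mem)
      · rw [if_neg h2]
        exact Submodule.zero_mem _

/-! ### the solutions -/

private theorem zs_iter_emb (f : ℚ⟦X⟧) (n : ℕ) : dA^[n] (emb f) = emb (DqDer^[n] f) := by
  induction n with
  | zero => rfl
  | succ n ih =>
    rw [Function.iterate_succ_apply', Function.iterate_succ_apply', ih, dA_emb, DqDer_apply]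

private theorem zs_iter_add (u v : AA) (n : ℕ) : dA^[n] (u + v) = dA^[n] u + dA^[n] v := by
  induction n with
  | zero => rfl
  | succ n ih =>
    rw [Function.iterate_succ_apply', Function.iterate_succ_apply', Function.iterate_succ_apply', ih,
      map_add]

private theorem zs_iter_smul (c : ℚ) (u : AA) (n : ℕ) : dA^[n] (c • u) = c • dA^[n] u := by
  induction n with
  | zero => rfl
  | succ n ih =>
    rw [Function.iterate_succ_apply', Function.iterate_succ_apply', ih, Derivation.map_smul]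

private theorem zs_iter_tt_mul (u : AA) (n : ℕ) :
    dA^[n + 1] (tt * u) = tt * dA^[n + 1] u + ((n + 1 : ℕ) : AA) * dA^[n] u := by
  induction n with
  | zero =>
    simp only [Function.iterate_succ_apply', Function.iterate_zero, id]
    rw [Derivation.leibniz, smul_eq_mul, smul_eq_mul, dA_tt]
    push_cast
    ring
  | succ n ih =>
    rw [Function.iterate_succ_apply', ih, map_add, Derivation.leibniz, Derivation.leibniz,
      Derivation.map_natCast, smul_eq_mul, smul_eq_mul, smul_eq_mul, smul_zero, add_zero, dA_tt,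
      ← Function.iterate_succ_apply' (f := dA) (n := n + 1) (x := u),
      ← Function.iterate_succ_apply' (f := dA) (n := n) (x := u)]
    push_cast
    ring

private theorem zs_iter_pow (k n : ℕ) :
    dA^[n] (tt ^ k) = ((k.descFactorial n : ℕ) : AA) * tt ^ (k - n) := by
  induction n with
  | zero => simp
  | succ n ih =>
    rw [Function.iterate_succ_apply', ih, Derivation.leibniz, Derivation.map_natCast, smul_zero,
      add_zero, Derivation.leibniz_pow, dA_tt, Nat.descFactorial_succ, smul_eq_mul, smul_eq_mul,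
      nsmul_eq_mul, mul_one, Nat.cast_mul, Nat.sub_sub]
    ring

private theorem zs_coeff_Fs (s n : ℕ) :
    (n : ℚ) ^ s * coeff n (Fs s) = coeff n (sg s) := by
  unfold Fs sg
  rw [coeff_mk, coeff_mk, ArithmeticFunction.sigma_apply, Finset.mul_sum, Nat.cast_sum,
    ← Nat.sum_div_divisors n (fun d => ((d ^ s : ℕ) : ℚ))]
  refine Finset.sum_congr rfl fun d hd => ?_
  have hd' := Nat.mem_divisors.mp hd
  have hd0 : (d : ℚ) ≠ 0 := by
    intro h
    have h1 : d = 0 := by exact_mod_cast h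
    rw [h1] at hd'
    exact hd'.2 (Nat.eq_zero_of_zero_dvd hd'.1)
  rw [Nat.cast_pow, Nat.cast_div hd'.1 hd0, div_pow]
  rfl

private theorem zs_iter_s (s : ℕ) (hs : 1 ≤ s) (κ : ℚ) : DqDer^[s] (C κ + Fs s) = sg s := by
  ext1 n
  rw [coeff_Dq_iter, map_add, mul_add, zs_coeff_Fs, coeff_C]
  split_ifs with h
  · rw [h, Nat.cast_zero, zero_pow (by omega), zero_mul, zero_add]
  · rw [mul_zero, zero_add]

private theorem zs_iter_s1 (s : ℕ) (hs : 1 ≤ s) (κ : ℚ) :
    DqDer^[s + 1] (C κ + Fs s) = Dq (GG s) := by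
  rw [Function.iterate_succ_apply', zs_iter_s s hs κ, DqDer_apply]
  unfold GG
  rw [Dq_add, Dq_C, zero_add]

/-- the relation satisfied by the solutions -/
private def zsRel (s : ℕ) (y w : AA) : Prop :=
  dA (dA w) = 0 ∧ dA^[s + 1] y = w * dA (emb (GG s)) + ((s + 1 : ℕ) : AA) * (emb (GG s) * dA w)

private theorem zs_dA_one : dA (1 : AA) = 0 := Derivation.map_one_eq_zero _

private theorem zs_rel (s : ℕ) (hs : 1 ≤ s) (κ : ℚ) (c : Bl s) :
    zsRel s (solp s κ c).1 (solp s κ c).2 := by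
  rcases c with j | i
  · by_cases hj : j = 0
    · have e : solp s κ (Sum.inl j) = (emb (C κ + Fs s), 1) := by
        unfold solp
        simp only [hj, if_true]
      rw [e]
      refine ⟨?_, ?_⟩
      · rw [zs_dA_one, map_zero]
      · rw [zs_iter_emb, zs_iter_s1 s hs, zs_dA_one, mul_zero, mul_zero, add_zero, one_mul, dA_emb]
    · have e : solp s κ (Sum.inl j) =
          (tt * emb (C κ + Fs s) + (g0 s / (s.factorial : ℚ)) • tt ^ (s + 1), tt) := by
        unfold solp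
        simp only [hj, if_false]
      rw [e]
      refine ⟨?_, ?_⟩
      · rw [dA_tt, zs_dA_one]
      · have hf : (s.factorial : ℚ) ≠ 0 := by exact_mod_cast s.factorial_ne_zero
        have h1 : (g0 s / (s.factorial : ℚ)) • dA^[s + 1] (tt ^ (s + 1)) =
            ((s + 1 : ℕ) : AA) * emb (C (g0 s)) := by
          rw [zs_iter_pow, Nat.descFactorial_self, Nat.sub_self, pow_zero, mul_one]
          have h2 : (((s + 1).factorial : ℕ) : AA) = ((s + 1).factorial : ℚ) • (1 : AA) := by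
            rw [Nat.cast_smul_eq_nsmul, nsmul_eq_mul, mul_one]
          have h3 : emb (C (g0 s)) = (g0 s) • (1 : AA) := by
            ext1 n
            rw [coeff_emb, coeff_C]
            have h4 : coeff n ((g0 s) • (1 : AA)) = (g0 s) • coeff n (1 : AA) := rfl
            rw [h4, coeff_one]
            split_ifs
            · rw [Polynomial.smul_eq_C_mul, mul_one]
            · rw [map_zero, smul_zero]
          have h5 : ((s + 1 : ℕ) : AA) = ((s + 1 : ℕ) : ℚ) • (1 : AA) := by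
            rw [Nat.cast_smul_eq_nsmul, nsmul_eq_mul, mul_one]
          rw [h2, h3, h5, smul_smul, smul_mul_smul_comm, mul_one]
          congr 1
          rw [Nat.factorial_succ]
          push_cast
          field_simp
        have h6 : emb (GG s) = emb (C (g0 s)) + emb (sg s) := by
          unfold GG; rw [map_add]
        rw [zs_iter_add, zs_iter_smul, h1, zs_iter_tt_mul, zs_iter_emb, zs_iter_emb,
          zs_iter_s1 s hs, zs_iter_s s hs, dA_tt, dA_emb, h6]
        ring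
  · have e : solp s κ (Sum.inr i) = (tt ^ (i : ℕ), 0) := rfl
    rw [e]
    refine ⟨?_, ?_⟩
    · rw [map_zero, map_zero]
    · have h : ((i : ℕ).descFactorial (s + 1)) = 0 := by
        rw [Nat.descFactorial_eq_zero_iff_lt]; exact i.2
      rw [zs_iter_pow, h, map_zero, Nat.cast_zero]
      simp

private theorem zs_he : dA (emb (e2 ℚ)) = (1 / 12 : ℚ) • ((emb (e2 ℚ)) ^ 2 - emb (e4 ℚ)) := by
  have h := congrArg emb (ram_e2 (R := ℚ))
  rw [map_mul, map_sub, map_pow, map_ofNat] at h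
  rw [dA_emb, ← h]
  have h2 : (12 : AA) * emb (Dq (e2 ℚ)) = (12 : ℚ) • emb (Dq (e2 ℚ)) := by
    rw [ofNat_smul_eq_nsmul, nsmul_eq_mul]
    rfl
  rw [h2, smul_smul]
  norm_num

private theorem zs_emb_C (c : ℚ) (u : AA) : emb (C c) * u = c • u := by
  have h3 : emb (C c) = c • (1 : AA) := by
    ext1 n
    rw [coeff_emb, coeff_C]
    have h4 : coeff n (c • (1 : AA)) = c • coeff n (1 : AA) := rfl
    rw [h4, coeff_one]
    split_ifs
    · rw [Polynomial.smul_eq_C_mul, mul_one]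
    · rw [map_zero, smul_zero]
  rw [h3, smul_mul_assoc, one_mul]

private theorem zs_sum (s i : ℕ) (hi : i ≤ s) (a b : ℚ⟦X⟧) (f : ℕ → AA) :
    ∑ j : Fin (s + 1), emb (if (j : ℕ) = i + 1 then a else if (j : ℕ) + 1 = i then b else 0) * f j =
      (if i < s then emb a * f (i + 1) else 0) + (if 1 ≤ i then emb b * f (i - 1) else 0) := by
  rw [Fin.sum_univ_eq_sum_range (fun j : ℕ =>
    emb (if j = i + 1 then a else if j + 1 = i then b else 0) * f j) (s + 1)]
  have h : ∀ j ∈ Finset.range (s + 1),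
      emb (if j = i + 1 then a else if j + 1 = i then b else 0) * f j =
        (if j = i + 1 then emb a * f j else 0) + (if j + 1 = i then emb b * f j else 0) := by
    intro j _
    by_cases h1 : j = i + 1
    · rw [if_pos h1, if_pos h1, if_neg (by omega), add_zero]
    · rw [if_neg h1, if_neg h1, zero_add]
      by_cases h2 : j + 1 = i
      · rw [if_pos h2, if_pos h2]
      · rw [if_neg h2, if_neg h2, map_zero, zero_mul]
  rw [Finset.sum_congr rfl h, Finset.sum_add_distrib, Finset.sum_ite_eq']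
  congr 1
  · by_cases h1 : i < s
    · rw [if_pos h1, if_pos (Finset.mem_range.mpr (by omega))]
    · rw [if_neg h1, if_neg (by rw [Finset.mem_range]; omega)]
  · by_cases h1 : 1 ≤ i
    · rw [if_pos h1, Finset.sum_eq_single (i - 1)]
      · rw [if_pos (by omega)]
      · intro j _ hj
        rw [if_neg (by omega)]
      · intro hj
        exact absurd (Finset.mem_range.mpr (by omega)) hj
    · rw [if_neg h1]
      refine Finset.sum_eq_zero fun j _ => ?_
      rw [if_neg (by omega)]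

private theorem zs_row (s : ℕ) (y w : AA) (h : zsRel s y w) (b : Bl s) :
    dA (cvec s y w b) - emb (C ((wt s b : ℚ) / 12) * e2 ℚ) * cvec s y w b =
      ∑ b', emb (Acon s b b') * cvec s y w b' := by
  obtain ⟨hw, hy⟩ := h
  rw [Fintype.sum_sum_type, Fin.sum_univ_two]
  have c0 : cvec s y w (Sum.inl 0) = w := rfl
  have c1 : cvec s y w (Sum.inl 1) = emb (e2 ℚ) * w + (12 : ℚ) • dA w := rfl
  have cr : ∀ j, cvec s y w (Sum.inr j) = XG dA (emb (e2 ℚ)) s j y := fun _ => rfl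
  rw [c0, c1]
  rcases b with j | i
  · have hz : ∑ j' : Fin (s + 1), emb (Acon s (Sum.inl j) (Sum.inr j')) * cvec s y w (Sum.inr j') = 0 := by
      refine Finset.sum_eq_zero fun j' _ => ?_
      have : Acon s (Sum.inl j) (Sum.inr j') = 0 := rfl
      rw [this, map_zero, zero_mul]
    rw [hz, add_zero]
    fin_cases j
    · change dA (cvec s y w (Sum.inl 0)) - emb (C (((wt s (Sum.inl 0) : ℤ) : ℚ) / 12) * e2 ℚ) *
        cvec s y w (Sum.inl 0) = emb (Acon s (Sum.inl 0) (Sum.inl 0)) * w +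
          emb (Acon s (Sum.inl 0) (Sum.inl 1)) * (emb (e2 ℚ) * w + (12 : ℚ) • dA w)
      have a0 : Acon s (Sum.inl 0) (Sum.inl 0) = 0 := rfl
      have a1 : Acon s (Sum.inl 0) (Sum.inl 1) = C (1 / 12 : ℚ) := rfl
      have w0 : wt s (Sum.inl 0) = -1 := rfl
      rw [c0, a0, a1, w0, map_zero, zero_mul, zero_add, map_mul, mul_assoc, zs_emb_C, zs_emb_C,
        smul_add, smul_smul]
      push_cast
      rw [show (-1 / 12 : ℚ) = -(1 / 12) by norm_num, neg_smul, sub_neg_eq_add,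
        show (1 / 12 * 12 : ℚ) = 1 by norm_num, one_smul]
      ring
    · change dA (cvec s y w (Sum.inl 1)) - emb (C (((wt s (Sum.inl 1) : ℤ) : ℚ) / 12) * e2 ℚ) *
        cvec s y w (Sum.inl 1) = emb (Acon s (Sum.inl 1) (Sum.inl 0)) * w +
          emb (Acon s (Sum.inl 1) (Sum.inl 1)) * (emb (e2 ℚ) * w + (12 : ℚ) • dA w)
      have a0 : Acon s (Sum.inl 1) (Sum.inl 0) = -(C (1 / 12 : ℚ) * e4 ℚ) := rfl
      have a1 : Acon s (Sum.inl 1) (Sum.inl 1) = 0 := rfl
      have w0 : wt s (Sum.inl 1) = 1 := rfl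
      rw [c1, a0, a1, w0, map_zero, zero_mul, add_zero, map_neg, map_mul, map_mul, neg_mul,
        mul_assoc, mul_assoc, zs_emb_C, zs_emb_C, map_add, Derivation.map_smul, hw, smul_zero,
        add_zero, Derivation.leibniz, zs_he, smul_eq_mul, smul_eq_mul]
      push_cast
      rw [mul_add, smul_add, mul_smul_comm, mul_smul_comm, smul_smul,
        show (1 / 12 * 12 : ℚ) = 1 by norm_num, one_smul]
      have e1 : w * ((emb (e2 ℚ)) ^ 2 - emb (e4 ℚ)) =
        emb (e2 ℚ) * (emb (e2 ℚ) * w) - emb (e4 ℚ) * w := by ring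
      rw [e1, smul_sub]
      ring
  · have hi : (i : ℕ) ≤ s := Nat.lt_succ_iff.mp i.2
    have hsum : ∑ j' : Fin (s + 1), emb (Acon s (Sum.inr i) (Sum.inr j')) * cvec s y w (Sum.inr j') =
        (if (i : ℕ) < s then emb (C (((s : ℚ) - (i : ℕ)) / 12)) * XG dA (emb (e2 ℚ)) s ((i : ℕ) + 1) y
          else 0) +
        (if 1 ≤ (i : ℕ) then emb (-(C (((i : ℕ) : ℚ) / 12) * e4 ℚ)) *
          XG dA (emb (e2 ℚ)) s ((i : ℕ) - 1) y else 0) :=
      zs_sum s i hi _ _ (fun j => XG dA (emb (e2 ℚ)) s j y)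
    rw [hsum, cr]
    have wi : ((wt s (Sum.inr i) : ℤ) : ℚ) / 12 = (2 * ((i : ℕ) : ℚ) - s) / 12 := by
      change (((2 * ((i : ℕ) : ℤ) - s : ℤ)) : ℚ) / 12 = _
      push_cast
      rfl
    rw [wi, map_mul, mul_assoc (emb (C ((2 * ((i : ℕ) : ℚ) - s) / 12))), zs_emb_C]
    have hlast : (if 1 ≤ (i : ℕ) then emb (-(C (((i : ℕ) : ℚ) / 12) * e4 ℚ)) *
          XG dA (emb (e2 ℚ)) s ((i : ℕ) - 1) y else 0) =
        -((((i : ℕ) : ℚ) / 12) • (emb (e4 ℚ) * XG dA (emb (e2 ℚ)) s ((i : ℕ) - 1) y)) := by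
      by_cases h1 : 1 ≤ (i : ℕ)
      · rw [if_pos h1, map_neg, map_mul, neg_mul, mul_assoc, zs_emb_C]
      · have h0 : (i : ℕ) = 0 := by omega
        rw [if_neg h1, h0, Nat.cast_zero, zero_div, zero_smul, neg_zero]
    rw [hlast]
    rcases lt_or_eq_of_le hi with his | his
    · have a0 : ∀ j, Acon s (Sum.inr i) (Sum.inl j) = 0 := fun j => if_neg his.ne
      rw [a0, a0, map_zero, zero_mul, zero_mul, add_zero, zero_add, if_pos his, zs_emb_C,
        XG_rec dA (emb (e2 ℚ)) (emb (e4 ℚ)) zs_he s i his y]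
      ring
    · have a0 : Acon s (Sum.inr i) (Sum.inl 0) = C (12 ^ s : ℚ) * sd (s + 1) (GG s) := if_pos his
      have a1 : Acon s (Sum.inr i) (Sum.inl 1) = C ((12 : ℚ) ^ s * (s + 1) / 12) * GG s := if_pos his
      rw [a0, a1, his, if_neg (lt_irrefl s), zero_add]
      have ht := XG_top dA (emb (e2 ℚ)) (emb (e4 ℚ)) zs_he s y
      rw [show (2 * (s : ℚ) - s) / 12 = (s : ℚ) / 12 by ring, ht, hy]
      have e1 : emb (sd (s + 1) (GG s)) = dA (emb (GG s)) -
          (((s : ℚ) + 1) / 12) • (emb (e2 ℚ) * emb (GG s)) := by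
        unfold sd
        rw [map_sub, map_mul, map_mul, zs_emb_C, dA_emb]
        push_cast
        rfl
      rw [map_mul, map_mul, mul_assoc, mul_assoc, zs_emb_C, zs_emb_C, e1]
      have e2' : ((12 : ℚ) ^ s * ((s : ℚ) + 1) / 12) = 12 ^ s * (((s : ℚ) + 1) / 12) := by ring
      rw [e2', mul_smul, ← sub_eq_add_neg, ← smul_add]
      congr 2
      rw [sub_mul, mul_add, smul_add, mul_smul_comm, smul_smul, smul_mul_assoc]
      have e3 : (((s : ℚ) + 1) / 12 * 12 : ℚ) = ((s + 1 : ℕ) : ℚ) := by push_cast; ring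
      rw [e3, Nat.cast_smul_eq_nsmul, nsmul_eq_mul]
      have e4 : emb (GG s) * (emb (e2 ℚ) * w) = emb (e2 ℚ) * emb (GG s) * w := by ring
      rw [e4]
      ring

theorem sol_eq (s : ℕ) (hs : 1 ≤ s) (κ : ℚ) (c b : Bl s) :
    dA (Esol s κ c b) - emb (C ((wt s b : ℚ) / 12) * e2 ℚ) * Esol s κ c b =
      ∑ b', emb (Acon s b b') * Esol s κ c b' :=
  zs_row s _ _ (zs_rel s hs κ c) b

end Pool.Agent.L1
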