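import Pool.Agent.Lib.L1.Span
import Pool.Agent.Lib.MP_a3a416_nt.SJ.PL

/-!
# L1.Zloc: `Z_(p)` and `p`-integral forms

`Zl p` is the subring of the `p`-integral rational numbers (`val p x 0` of the SJ library), `MZ p k f`
says that `f : ℚ⟦X⟧` is a form of weight `k` with `p`-integral coordinates, equivalently a form of
weight `k` over `ℚ` with `p`-integral coefficients. `Cg p f g` is congruence of power series modulo `p`.
-/

set_option linter.unusedSectionVars false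

open PowerSeries
open MP_a3a416_nt.SJ (val)

namespace Pool.Agent.L1

variable {p : ℕ} [hp : Fact p.Prime]

/-- the local ring `Z_(p)` as a subring of `ℚ` -/
def Zl (p : ℕ) [Fact p.Prime] : Subring ℚ where
  carrier := {x | val p x 0}
  mul_mem' := by
    intro a b ha hb
    have := MP_a3a416_nt.SJ.val.mul (p := p) ha hb
    simpa using this
  one_mem' := MP_a3a416_nt.SJ.val.one
  add_mem' := fun ha hb => MP_a3a416_nt.SJ.val.add ha hb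
  zero_mem' := MP_a3a416_nt.SJ.val.zero 0
  neg_mem' := fun ha => MP_a3a416_nt.SJ.val.neg ha

lemma mem_Zl {x : ℚ} : x ∈ Zl p ↔ val p x 0 := Iff.rfl

/-- a `p`-integral form of weight `k` -/
def MZ (p : ℕ) [Fact p.Prime] (k : ℕ) (f : ℚ⟦X⟧) : Prop :=
  ∃ g ∈ ML (Zl p) k, PowerSeries.map (Zl p).subtype g = f

lemma subtype_inj : Function.Injective (Zl p).subtype := Subtype.val_injective

lemma MZ.mem {k : ℕ} {f : ℚ⟦X⟧} (h : MZ p k f) : f ∈ ML ℚ k := by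
  obtain ⟨g, hg, rfl⟩ := h
  exact map_mem_ML _ hg

lemma MZ.val_coeff {k : ℕ} {f : ℚ⟦X⟧} (h : MZ p k f) (n : ℕ) : val p (coeff n f) 0 := by
  obtain ⟨g, hg, rfl⟩ := h
  rw [coeff_map]
  exact (coeff n g).2

/-- the first `dd k` coefficients decide the `p`-integrality -/
lemma MZ.of_lt {k : ℕ} {f : ℚ⟦X⟧} (hf : f ∈ ML ℚ k) (h : ∀ n < dd k, val p (coeff n f) 0) :
    MZ p k f := by
  obtain ⟨g, hg, hgf⟩ := descend (Zl p).subtype hf (fun n hn => by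
    exact ⟨⟨coeff n f, h n hn⟩, rfl⟩)
  exact ⟨g, hg, hgf⟩

lemma MZ_iff {k : ℕ} {f : ℚ⟦X⟧} : MZ p k f ↔ f ∈ ML ℚ k ∧ ∀ n, val p (coeff n f) 0 :=
  ⟨fun h => ⟨h.mem, h.val_coeff⟩, fun h => MZ.of_lt h.1 fun n _ => h.2 n⟩

lemma MZ.add {k : ℕ} {f g : ℚ⟦X⟧} (hf : MZ p k f) (hg : MZ p k g) : MZ p k (f + g) := by
  obtain ⟨f', hf', rfl⟩ := hf
  obtain ⟨g', hg', rfl⟩ := hg
  exact ⟨f' + g', Submodule.add_mem _ hf' hg', map_add _ _ _⟩

lemma MZ.neg {k : ℕ} {f : ℚ⟦X⟧} (hf : MZ p k f) : MZ p k (-f) := by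
  obtain ⟨f', hf', rfl⟩ := hf
  exact ⟨-f', Submodule.neg_mem _ hf', map_neg _ _⟩

lemma MZ.sub {k : ℕ} {f g : ℚ⟦X⟧} (hf : MZ p k f) (hg : MZ p k g) : MZ p k (f - g) := by
  rw [sub_eq_add_neg]; exact hf.add hg.neg

lemma MZ.zero (k : ℕ) : MZ p k 0 := ⟨0, Submodule.zero_mem _, map_zero _⟩

lemma MZ.mul {k l : ℕ} {f g : ℚ⟦X⟧} (hf : MZ p k f) (hg : MZ p l g) : MZ p (k + l) (f * g) := by
  obtain ⟨f', hf', rfl⟩ := hf
  obtain ⟨g', hg', rfl⟩ := hg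
  exact ⟨f' * g', mul_mem_ML hf' hg', map_mul _ _ _⟩

lemma MZ.pow {k : ℕ} {f : ℚ⟦X⟧} (hf : MZ p k f) (n : ℕ) : MZ p (n * k) (f ^ n) := by
  obtain ⟨f', hf', rfl⟩ := hf
  exact ⟨f' ^ n, pow_mem_ML hf' n, map_pow _ _ _⟩

lemma MZ.C_mul {k : ℕ} {f : ℚ⟦X⟧} (hf : MZ p k f) {c : ℚ} (hc : val p c 0) : MZ p k (C c * f) := by
  obtain ⟨f', hf', rfl⟩ := hf
  refine ⟨(⟨c, hc⟩ : Zl p) • f', Submodule.smul_mem _ _ hf', ?_⟩
  rw [smul_eq_C_mul, map_mul, map_C]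
  rfl

lemma MZ.smul {k : ℕ} {f : ℚ⟦X⟧} (hf : MZ p k f) {c : ℚ} (hc : val p c 0) : MZ p k (c • f) := by
  rw [smul_eq_C_mul]; exact hf.C_mul hc

lemma MZ.sum {ι : Type*} {s : Finset ι} {k : ℕ} {f : ι → ℚ⟦X⟧} (h : ∀ i ∈ s, MZ p k (f i)) :
    MZ p k (∑ i ∈ s, f i) := by
  classical
  induction s using Finset.induction_on with
  | empty => simpa using MZ.zero k
  | insert a s ha ih =>
    rw [Finset.sum_insert ha]
    exact (h a (Finset.mem_insert_self _ _)).add (ih fun i hi => h i (Finset.mem_insert_of_mem hi))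

/-- the image of an integral form -/
lemma MZ.of_ML_int {k : ℕ} {f : ℤ⟦X⟧} (hf : f ∈ ML ℤ k) :
    MZ p k (PowerSeries.map (Int.castRingHom ℚ) f) := by
  refine ⟨PowerSeries.map (Int.castRingHom (Zl p)) f, map_mem_ML _ hf, ?_⟩
  rw [← RingHom.comp_apply, ← PowerSeries.map_comp]
  congr 2

lemma MZ.one : MZ p 0 1 := ⟨1, one_mem_ML, map_one _⟩

lemma MZ.e4 : MZ p 4 (e4 ℚ) := ⟨L1.e4 (Zl p), e4_mem, map_e4 _⟩

lemma MZ.e6 : MZ p 6 (e6 ℚ) := ⟨L1.e6 (Zl p), e6_mem, map_e6 _⟩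

lemma MZ.dl : MZ p 12 (dl ℚ) := ⟨L1.dl (Zl p), dl_mem, map_dl _⟩

lemma MZ.bas {k j : ℕ} (hj : j < dd k) : MZ p k (bas ℚ k j) :=
  ⟨L1.bas (Zl p) k j, Submodule.subset_span ⟨⟨j, hj⟩, rfl⟩, map_bas _ _ _⟩

/-- coordinates in the echelon basis -/
lemma MZ.coords {k : ℕ} {f : ℚ⟦X⟧} (hf : MZ p k f) :
    ∃ c : ℕ → ℚ, (∀ j, val p (c j) 0) ∧ f = ∑ j ∈ Finset.range (dd k), c j • L1.bas ℚ k j := by
  obtain ⟨g, hg, rfl⟩ := hf
  obtain ⟨c, rfl⟩ := mem_ML_iff.mp hg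
  refine ⟨fun j => (c j : ℚ), fun j => (c j).2, ?_⟩
  rw [map_sum]
  refine Finset.sum_congr rfl fun j _ => ?_
  rw [smul_eq_C_mul, map_mul, map_C, map_bas, smul_eq_C_mul]
  rfl

/-- the Serre derivative -/
lemma MZ.serre {k : ℕ} {f : ℚ⟦X⟧} (hf : MZ p k f) :
    MZ p (k + 2) (12 * Dq f - (k : ℚ⟦X⟧) * e2 ℚ * f) := by
  obtain ⟨f', hf', rfl⟩ := hf
  refine ⟨_, serre_mem_ML hf', ?_⟩
  rw [map_sub, map_mul, map_mul, map_mul, map_natCast, map_e2, map_ofNat, ← Dq_map]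

/-- congruence of power series modulo `p` -/
def Cg (p : ℕ) (f g : ℚ⟦X⟧) : Prop := ∀ n, val p (coeff n f - coeff n g) 1

/-- power series with `p`-integral coefficients -/
def PI (p : ℕ) (f : ℚ⟦X⟧) : Prop := ∀ n, val p (coeff n f) 0

lemma MZ.pi {k : ℕ} {f : ℚ⟦X⟧} (hf : MZ p k f) : PI p f := hf.val_coeff

lemma PI.one : PI p 1 := fun n => by
  rw [coeff_one]; split_ifs
  · exact MP_a3a416_nt.SJ.val.one
  · exact MP_a3a416_nt.SJ.val.zero 0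

lemma PI.C {c : ℚ} (hc : val p c 0) : PI p (C c) := fun n => by
  rw [coeff_C]; split_ifs
  · exact hc
  · exact MP_a3a416_nt.SJ.val.zero 0

lemma PI.add {f g : ℚ⟦X⟧} (hf : PI p f) (hg : PI p g) : PI p (f + g) := fun n => by
  rw [map_add]; exact (hf n).add (hg n)

lemma PI.neg {f : ℚ⟦X⟧} (hf : PI p f) : PI p (-f) := fun n => by
  rw [map_neg]; exact (hf n).neg

lemma PI.sub {f g : ℚ⟦X⟧} (hf : PI p f) (hg : PI p g) : PI p (f - g) := fun n => by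
  rw [map_sub]; exact (hf n).sub (hg n)

lemma PI.mul {f g : ℚ⟦X⟧} (hf : PI p f) (hg : PI p g) : PI p (f * g) := fun n => by
  rw [coeff_mul]
  refine MP_a3a416_nt.SJ.val.sum fun x _ => ?_
  simpa using (hf x.1).mul (hg x.2)

lemma PI.pow {f : ℚ⟦X⟧} (hf : PI p f) (n : ℕ) : PI p (f ^ n) := by
  induction n with
  | zero => rw [pow_zero]; exact PI.one
  | succ n ih => rw [pow_succ]; exact ih.mul hf

lemma PI.natCast (m : ℕ) : PI p (m : ℚ⟦X⟧) := by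
  rw [show (m : ℚ⟦X⟧) = PowerSeries.C (m : ℚ) from (map_natCast PowerSeries.C m).symm]
  exact PI.C (MP_a3a416_nt.SJ.val.nat m)

lemma PI.map_int (f : ℤ⟦X⟧) : PI p (PowerSeries.map (Int.castRingHom ℚ) f) := fun n => by
  rw [coeff_map]; exact MP_a3a416_nt.SJ.val.int _

lemma PI.e2 : PI p (e2 ℚ) := PI.map_int _
lemma PI.e4 : PI p (e4 ℚ) := PI.map_int _
lemma PI.e6 : PI p (e6 ℚ) := PI.map_int _
lemma PI.dl : PI p (dl ℚ) := PI.map_int _

lemma PI.Dq {f : ℚ⟦X⟧} (hf : PI p f) : PI p (Dq f) := fun n => by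
  rw [coeff_Dq]
  simpa using (MP_a3a416_nt.SJ.val.nat (p := p) n).mul (hf n)

lemma Cg.refl (f : ℚ⟦X⟧) : Cg p f f := fun n => by
  rw [sub_self]; exact MP_a3a416_nt.SJ.val.zero 1

lemma Cg.symm {f g : ℚ⟦X⟧} (h : Cg p f g) : Cg p g f := fun n => by
  have := (h n).neg
  rwa [neg_sub] at this

lemma Cg.trans {f g k : ℚ⟦X⟧} (h : Cg p f g) (h' : Cg p g k) : Cg p f k := fun n => by
  have := (h n).add (h' n)
  rwa [sub_add_sub_cancel] at this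

lemma Cg.add {f g f' g' : ℚ⟦X⟧} (h : Cg p f g) (h' : Cg p f' g') : Cg p (f + f') (g + g') := fun n => by
  have := (h n).add (h' n)
  rw [map_add, map_add]
  convert this using 1
  ring

lemma Cg.neg {f g : ℚ⟦X⟧} (h : Cg p f g) : Cg p (-f) (-g) := fun n => by
  have := (h n).neg
  rw [map_neg, map_neg]
  convert this using 1
  ring

lemma Cg.sub {f g f' g' : ℚ⟦X⟧} (h : Cg p f g) (h' : Cg p f' g') : Cg p (f - f') (g - g') := by
  rw [sub_eq_add_neg, sub_eq_add_neg]; exact h.add h'.neg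

lemma Cg_iff {f g : ℚ⟦X⟧} : Cg p f g ↔ Cg p (f - g) 0 :=
  ⟨fun h n => by simpa using h n, fun h n => by simpa using h n⟩

lemma Cg.mul_left {f g k : ℚ⟦X⟧} (h : Cg p f g) (hk : PI p k) : Cg p (k * f) (k * g) := by
  rw [Cg_iff, ← mul_sub]
  have h' := Cg_iff.1 h
  intro n
  rw [map_zero, sub_zero, coeff_mul]
  refine MP_a3a416_nt.SJ.val.sum fun x _ => ?_
  have h1 := h' x.2
  rw [map_zero, sub_zero] at h1
  simpa using (hk x.1).mul h1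

lemma Cg.mul_right {f g k : ℚ⟦X⟧} (h : Cg p f g) (hk : PI p k) : Cg p (f * k) (g * k) := by
  rw [mul_comm f, mul_comm g]; exact h.mul_left hk

lemma Cg.mul {f g f' g' : ℚ⟦X⟧} (h : Cg p f g) (h' : Cg p f' g') (hg : PI p g) (hf' : PI p f') :
    Cg p (f * f') (g * g') := (h.mul_right hf').trans (h'.mul_left hg)

lemma PI.of_cg {f g : ℚ⟦X⟧} (h : Cg p f g) (hg : PI p g) : PI p f := fun n => by
  have h1 := ((h n).mono (by norm_num : (0 : ℤ) ≤ 1)).add (hg n)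
  rwa [sub_add_cancel] at h1

lemma Cg.pow {f g : ℚ⟦X⟧} (h : Cg p f g) (hg : PI p g) (n : ℕ) : Cg p (f ^ n) (g ^ n) := by
  induction n with
  | zero => rw [pow_zero, pow_zero]; exact Cg.refl 1
  | succ n ih => rw [pow_succ, pow_succ]; exact ih.mul h (hg.pow n) (PI.of_cg h hg)

lemma Cg.Dq {f g : ℚ⟦X⟧} (h : Cg p f g) : Cg p (Dq f) (Dq g) := fun n => by
  rw [coeff_Dq, coeff_Dq, ← mul_sub]
  simpa using (MP_a3a416_nt.SJ.val.nat (p := p) n).mul (h n)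

end Pool.Agent.L1
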